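import Mathlib
import Pool.Agent.LibMM99.K9
import Pool.Agent.LibMM99.T14r
import Pool.Agent.LibMM99.T20b

/-! # The random model tilted by the square of the absolute value of an Euler product: definitions -/

set_option autoImplicit false

namespace Pool.Agent.LibTG78

open MeasureTheory Filter Topology Pool.Agent.LibMM99
open scoped ComplexConjugate

/-- probability measures on the sample space for which disjoint sets of coordinates are independent -/
structure IsProd (ν : Measure Om) : Prop where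
  prob : IsProbabilityMeasure ν
  indep : ∀ (f g : Om → ℝ) (S T : Set ℕ), Continuous f → Continuous g → DependsOn f S → DependsOn g T →
    Disjoint S T → ∫ x, f x * g x ∂ν = (∫ x, f x ∂ν) * ∫ x, g x ∂ν

/-- `p ^ (-1/2 - s)` -/
noncomputable def zp (s : ℂ) (p : ℕ) : ℂ := (p : ℂ) ^ (-(1 / 2 : ℂ) - s)

/-- Euler product over the primes in `(u, v]` at `1/2 + s` -/
noncomputable def ZZ (s : ℂ) (u v : ℝ) (x : Om) : ℂ := ∏ p ∈ prm u v, (1 - zp s p * ch x p)⁻¹

/-- the reciprocal of the mean of `‖ZZ‖ ^ 2` -/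
noncomputable def nz (s : ℂ) (u v : ℝ) : ℝ := ∏ p ∈ prm u v, (1 - ‖zp s p‖ ^ 2)

/-- the measure with density proportional to the squared absolute value of the Euler product over the
primes up to `e ^ L` at `1/2 + s` -/
noncomputable def nu (s : ℂ) (L : ℝ) : Measure Om :=
  mu.withDensity fun x => ENNReal.ofReal (nz s 1 (Real.exp L) * ‖ZZ s 1 (Real.exp L) x‖ ^ 2)

/-- admissible parameters -/
def Adm (s : ℂ) (L : ℝ) : Prop := 1 ≤ L ∧ ‖s‖ ≤ 1 / (20 * L)

/-- `b` is a polynomial approximation to the power `β` of the absolute value of the Euler product over the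
primes in `(u, v]`, and `e` is a polynomial majorant of the error; mean values for a family of measures -/
structure ScaleDataN (N : Set (Measure Om)) (β C u v κ G : ℝ) (b e : Om → ℝ) : Prop where
  b_nonneg : ∀ x, 0 ≤ b x
  e_nonneg : ∀ x, 0 ≤ e x
  b_dep : DependsOn b (coo u v)
  e_dep : DependsOn e (coo u v)
  b_poly : IsPolyR (C * κ * Real.log v) b
  e_poly : IsPolyR (C * κ * Real.log v) e
  approx : ∀ x, |‖DS (smo u v (Real.exp (κ * Real.log v))) (fun _ => 1) x‖ ^ β - b x| ≤ e x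
  b_le : ∀ ν ∈ N, ∫ x, b x ∂ν ≤ G
  e_le : ∀ ν ∈ N, ∫ x, e x ∂ν ≤ C * Real.exp (-κ / 20)

/-- the family of the admissible tilted measures at level `L` -/
def NN (L : ℝ) : Set (Measure Om) := {ν | ∃ s : ℂ, Adm s L ∧ ν = nu s L}

/-- the polynomial approximation at one scale with its mean values under all tilted measures -/
structure ScaleT (β C u v κ : ℝ) (b e : Om → ℝ) : Prop where
  b_nonneg : ∀ x, 0 ≤ b x
  e_nonneg : ∀ x, 0 ≤ e x
  b_dep : DependsOn b (coo u v)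
  e_dep : DependsOn e (coo u v)
  b_poly : IsPolyR (C * κ * Real.log v) b
  e_poly : IsPolyR (C * κ * Real.log v) e
  approx : ∀ x, |‖DS (smo u v (Real.exp (κ * Real.log v))) (fun _ => 1) x‖ ^ β - b x| ≤ e x
  b_le : ∀ (s : ℂ) (L : ℝ), Adm s L → v ≤ Real.exp L →
    ∫ x, b x ∂(nu s L) ≤ PS (β + 2) u v * nz 0 u v * Real.exp (C * ‖s‖ * Real.log v)
  e_le : ∀ (s : ℂ) (L : ℝ), Adm s L → v ≤ Real.exp L → ∫ x, e x ∂(nu s L) ≤ C * Real.exp (-κ / 20)
  le_b : ∀ L : ℝ, 1 ≤ L → v ≤ Real.exp L →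
    PS (β + 2) u v * nz 0 u v * (1 - C * Real.exp (-κ / 20)) ≤ ∫ x, b x ∂(nu 0 L)

/-- the growth exponent `k^2/4 - 1`, `k = β + 2` -/
noncomputable def gam (β : ℝ) : ℝ := β ^ 2 / 4 + β

/-- The Gaussian limit of the top part: `E ‖Qw (v_j + √v_j z_j)‖ ^ β` for standard complex Gaussians -/
noncomputable def gaussT (β : ℝ) (w : ℝ → ℂ) (δ : ℝ) (M : ℕ) : ℝ :=
  ∫ z, ‖MvPolynomial.eval (fun j => ((vw δ M j : ℝ) : ℂ) + ((Real.sqrt (vw δ M j) : ℝ) : ℂ) * z j)
    (Qw w δ M)‖ ^ β ∂gCM M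

/-- the top part of the sum -/
noncomputable def Atop (w : ℝ → ℂ) (δ L : ℝ) (x : Om) : ℂ :=
  DS (smo (Real.exp (δ * L)) (Real.exp L) (Real.exp L)) (fun n => w (Real.log n / L)) x

/-- `(m'n') ^ (-1/2 - s)` with `m' = m / (m, n)`, `n' = n / (m, n)` -/
noncomputable def rat (s : ℂ) (q : ℕ × ℕ) : ℂ :=
  (((q.1 / Nat.gcd q.1 q.2 * (q.2 / Nat.gcd q.1 q.2) : ℕ) : ℂ)) ^ (-(1 / 2 : ℂ) - s)

/-- the functional `∑ c(m,n) (m'n') ^ (-1/2 - s)` -/
noncomputable def JJ (S : Finset (ℕ × ℕ)) (c : ℕ × ℕ → ℂ) (s : ℂ) : ℂ := ∑ q ∈ S, c q * rat s q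

end Pool.Agent.LibTG78
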