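import Mathlib
import Pool.Agent.LibTG78.Defs

/-! D1: representation by smooth numbers -/

set_option autoImplicit false

namespace Pool.Agent.LibTG78

open MeasureTheory Filter Topology Pool.Agent.LibMM99
open scoped ComplexConjugate

/-- the part of `n` composed of the primes up to `X` -/
noncomputable def D1_sp (X : ℝ) (n : ℕ) : ℕ :=
  (n.factorization.filter (fun p : ℕ => (p : ℝ) ≤ X)).prod (fun p k => p ^ k)

theorem D1_sp_factorization (X : ℝ) (n : ℕ) :
    (D1_sp X n).factorization = n.factorization.filter (fun p : ℕ => (p : ℝ) ≤ X) := by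
  unfold D1_sp
  refine Nat.prod_pow_factorization_eq_self ?_
  intro p hp
  rw [Finsupp.support_filter, Finset.mem_filter, Nat.support_factorization] at hp
  exact Nat.prime_of_mem_primeFactors hp.1

theorem D1_sp_primeFactors (X : ℝ) (n : ℕ) :
    (D1_sp X n).primeFactors = n.primeFactors.filter (fun p : ℕ => (p : ℝ) ≤ X) := by
  rw [← Nat.support_factorization, D1_sp_factorization, Finsupp.support_filter, Nat.support_factorization]

theorem D1_sp_ne_zero (X : ℝ) (n : ℕ) : D1_sp X n ≠ 0 := by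
  unfold D1_sp
  rw [Finsupp.prod]
  refine Finset.prod_ne_zero_iff.2 fun p hp => ?_
  rw [Finsupp.support_filter, Finset.mem_filter, Nat.support_factorization] at hp
  exact pow_ne_zero _ (Nat.prime_of_mem_primeFactors hp.1).ne_zero

theorem D1_sp_dvd (X : ℝ) {n : ℕ} (hn : n ≠ 0) : D1_sp X n ∣ n := by
  rw [← Nat.factorization_le_iff_dvd (D1_sp_ne_zero X n) hn, D1_sp_factorization]
  intro p
  rw [Finsupp.filter_apply]
  split_ifs
  · exact le_rfl
  · exact Nat.zero_le _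

theorem D1_ch (L : ℝ) (x : Om) (n : ℕ) :
    ch (fun p => if 1 < (p : ℝ) ∧ (p : ℝ) ≤ Real.exp L then x p else 0) n = ch x (D1_sp (Real.exp L) n) := by
  unfold ch
  rw [D1_sp_primeFactors, Finset.prod_filter]
  refine Finset.prod_congr rfl fun p hp => ?_
  have h1 : 1 < (p : ℝ) := by exact_mod_cast (Nat.prime_of_mem_primeFactors hp).one_lt
  rw [D1_sp_factorization, Finsupp.filter_apply]
  by_cases h2 : (p : ℝ) ≤ Real.exp L
  · rw [if_pos h2, if_pos h2]
    beta_reduce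
    rw [if_pos ⟨h1, h2⟩]
  · rw [if_neg h2]
    beta_reduce
    rw [if_neg (fun h => h2 h.2), fourier_eval_zero]

/-- D1: a polynomial in the primes up to `e^L` has a representation by such numbers -/
theorem smooth_rep {a L : ℝ} {Φ : Om → ℂ} (h : IsPoly a Φ) (hd : DependsOn Φ (coo 1 (Real.exp L))) :
    ∃ (S : Finset (ℕ × ℕ)) (c : ℕ × ℕ → ℂ),
      (∀ q ∈ S, 1 ≤ q.1 ∧ 1 ≤ q.2 ∧ (q.1 : ℝ) ≤ Real.exp a ∧ (q.2 : ℝ) ≤ Real.exp a ∧
        (∀ p ∈ q.1.primeFactors, (p : ℝ) ≤ Real.exp L) ∧ (∀ p ∈ q.2.primeFactors, (p : ℝ) ≤ Real.exp L)) ∧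
      ∑ q ∈ S, ‖c q‖ ≤ Real.exp a ∧
      ∀ x, Φ x = ∑ q ∈ S, c q * ch x q.1 * conj (ch x q.2) := by
  classical
  obtain ⟨s, c, hs, hc, hΦ⟩ := h
  set g : ℕ × ℕ → ℕ × ℕ := fun q => (D1_sp (Real.exp L) q.1, D1_sp (Real.exp L) q.2) with hg
  refine ⟨s.image g, fun q' => ∑ q ∈ s with g q = q', c q, ?_, ?_, ?_⟩
  · intro q' hq'
    obtain ⟨q, hq, rfl⟩ := Finset.mem_image.1 hq'
    obtain ⟨h1, h2, h3, h4⟩ := hs q hq
    have key : ∀ n : ℕ, 1 ≤ n → (n : ℝ) ≤ Real.exp a → 1 ≤ D1_sp (Real.exp L) n ∧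
        (D1_sp (Real.exp L) n : ℝ) ≤ Real.exp a ∧
        ∀ p ∈ (D1_sp (Real.exp L) n).primeFactors, (p : ℝ) ≤ Real.exp L := by
      intro n hn hna
      refine ⟨Nat.one_le_iff_ne_zero.2 (D1_sp_ne_zero _ _), ?_, ?_⟩
      · have : D1_sp (Real.exp L) n ≤ n := Nat.le_of_dvd (by omega) (D1_sp_dvd _ (by omega))
        exact le_trans (by exact_mod_cast this) hna
      · intro p hp
        rw [D1_sp_primeFactors, Finset.mem_filter] at hp
        exact hp.2
    obtain ⟨a1, a2, a3⟩ := key q.1 h1 h3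
    obtain ⟨b1, b2, b3⟩ := key q.2 h2 h4
    exact ⟨a1, b1, a2, b2, a3, b3⟩
  · refine le_trans (Finset.sum_le_sum fun q' _ => norm_sum_le _ _) ?_
    rw [Finset.sum_fiberwise_of_maps_to (fun q hq => Finset.mem_image_of_mem g hq)]
    exact hc
  · intro x
    have h1 : Φ x = Φ (fun p => if 1 < (p : ℝ) ∧ (p : ℝ) ≤ Real.exp L then x p else 0) := by
      refine hd fun p hp => ?_
      have hp1 : 1 < (p : ℝ) ∧ (p : ℝ) ≤ Real.exp L := hp
      rw [if_pos hp1]
    rw [h1, hΦ]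
    simp_rw [D1_ch]
    rw [← Finset.sum_fiberwise_of_maps_to (fun q hq => Finset.mem_image_of_mem g hq)]
    refine Finset.sum_congr rfl fun q' _ => ?_
    rw [Finset.sum_mul, Finset.sum_mul]
    refine Finset.sum_congr rfl fun q hq => ?_
    rw [← (Finset.mem_filter.1 hq).2]

end Pool.Agent.LibTG78
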