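import Mathlib
import Pool.Agent.LibTG78.Defs

/-! Row B01: elementary facts. -/

set_option autoImplicit false

namespace Pool.Agent.LibTG78

open MeasureTheory Filter Topology Pool.Agent.LibMM99
open scoped ComplexConjugate

theorem norm_zp (s : ℂ) {p : ℕ} (hp : 1 ≤ p) : ‖zp s p‖ = (p : ℝ) ^ (-(1 / 2) - s.re) := by
  unfold zp
  rw [Complex.norm_natCast_cpow_of_pos (by omega)]
  congr 1
  simp

theorem norm_zp_sq (s : ℂ) {p : ℕ} (hp : 1 ≤ p) : ‖zp s p‖ ^ 2 = (p : ℝ)⁻¹ * (p : ℝ) ^ (-(2 * s.re)) := by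
  have hp0 : (0 : ℝ) < p := by exact_mod_cast hp
  rw [norm_zp s hp, ← Real.rpow_neg_one, ← Real.rpow_add hp0, ← Real.rpow_natCast, ← Real.rpow_mul hp0.le]
  congr 1
  push_cast
  ring

theorem Adm.re_log {s : ℂ} {L : ℝ} (h : Adm s L) {t : ℝ} (h0 : 0 ≤ t) (ht : t ≤ L) : |s.re| * t ≤ 1 / 20 ∧
    ‖s‖ * t ≤ 1 / 20 := by
  obtain ⟨hL, hs⟩ := h
  have h2 : ‖s‖ * t ≤ 1 / 20 := by
    calc ‖s‖ * t ≤ 1 / (20 * L) * L := mul_le_mul hs ht h0 (by positivity)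
      _ = 1 / 20 := by
          have : L ≠ 0 := by linarith
          field_simp
  exact ⟨(mul_le_mul_of_nonneg_right (Complex.abs_re_le_norm s) h0).trans h2, h2⟩

theorem B01_log {L : ℝ} {p : ℕ} (hp : 2 ≤ p) (hpL : (p : ℝ) ≤ Real.exp L) :
    0 ≤ Real.log p ∧ Real.log p ≤ L := by
  have hp0 : (0 : ℝ) < p := by exact_mod_cast (by omega : 0 < p)
  refine ⟨Real.log_nonneg (by exact_mod_cast (by omega : 1 ≤ p)), ?_⟩
  rw [Real.log_le_iff_le_exp hp0]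
  exact hpL

theorem B01_rpow (s : ℂ) {p : ℕ} (hp : 2 ≤ p) :
    (p : ℝ) ^ (-(2 * s.re)) = Real.exp (-(2 * (s.re * Real.log p))) := by
  have hp0 : (0 : ℝ) < p := by exact_mod_cast (by omega : 0 < p)
  rw [Real.rpow_def_of_pos hp0]
  congr 1
  ring

theorem norm_zp_sq_near {s : ℂ} {L : ℝ} (h : Adm s L) {p : ℕ} (hp : 2 ≤ p) (hpL : (p : ℝ) ≤ Real.exp L) :
    (p : ℝ)⁻¹ * (1 - 3 * (‖s‖ * Real.log p)) ≤ ‖zp s p‖ ^ 2 ∧
    ‖zp s p‖ ^ 2 ≤ (p : ℝ)⁻¹ * (1 + 3 * (‖s‖ * Real.log p)) := by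
  have hp0 : (0 : ℝ) < p := by exact_mod_cast (by omega : 0 < p)
  obtain ⟨l0, lL⟩ := B01_log hp hpL
  have h1 := (h.re_log l0 lL).2
  rw [norm_zp_sq s (by omega), B01_rpow s hp]
  set t := ‖s‖ * Real.log p with ht
  set y := -(2 * (s.re * Real.log p)) with hy
  have hre := Complex.abs_re_le_norm s
  have t0 : 0 ≤ t := mul_nonneg (norm_nonneg _) l0
  have hy1 : |y| ≤ 2 * t := by
    rw [hy, abs_neg, abs_mul, abs_mul, abs_of_nonneg l0, abs_two]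
    have := mul_le_mul_of_nonneg_right hre l0
    linarith
  obtain ⟨ya, yb⟩ := abs_le.1 hy1
  have hpi : 0 ≤ (p : ℝ)⁻¹ := by positivity
  constructor
  · apply mul_le_mul_of_nonneg_left _ hpi
    have := Real.add_one_le_exp y
    linarith
  · apply mul_le_mul_of_nonneg_left _ hpi
    have h2 := Real.add_one_le_exp (-y)
    have h3 : Real.exp y * Real.exp (-y) = 1 := by rw [← Real.exp_add]; simp
    have h4 := Real.exp_pos y
    have h5 : Real.exp y * (-y + 1) ≤ 1 := by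
      have := mul_le_mul_of_nonneg_left h2 h4.le
      rwa [h3] at this
    by_contra hcon
    push Not at hcon
    have h6 : (1 + 3 * t) * (1 - y) < Real.exp y * (-y + 1) := by
      have : 0 < 1 - y := by linarith
      nlinarith
    nlinarith

theorem norm_zp_sq_le {s : ℂ} {L : ℝ} (h : Adm s L) {p : ℕ} (hp : 2 ≤ p) (hpL : (p : ℝ) ≤ Real.exp L) :
    ‖zp s p‖ ^ 2 ≤ 5 / 9 := by
  have hp2 : (2 : ℝ) ≤ p := by exact_mod_cast hp
  obtain ⟨l0, lL⟩ := B01_log hp hpL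
  have h1 := (h.re_log l0 lL).1
  rw [norm_zp_sq s (by omega), B01_rpow s hp]
  have h2 : -(2 * (s.re * Real.log p)) ≤ 1 / 10 := by
    have := neg_abs_le (s.re * Real.log p)
    rw [abs_mul, abs_of_nonneg l0] at this
    linarith
  have h3 : Real.exp (-(2 * (s.re * Real.log p))) ≤ 10 / 9 := by
    refine (Real.exp_le_exp.2 h2).trans ?_
    have h4 := Real.add_one_le_exp (-(1 / 10 : ℝ))
    rw [Real.exp_neg] at h4
    have h5 := Real.exp_pos (1 / 10 : ℝ)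
    have h6 : (9 / 10 : ℝ) * Real.exp (1 / 10) ≤ 1 := by
      have := mul_le_mul_of_nonneg_right h4 h5.le
      rw [inv_mul_cancel₀ h5.ne'] at this
      linarith
    linarith
  have h7 : (p : ℝ)⁻¹ ≤ 1 / 2 := by
    rw [inv_eq_one_div]
    exact one_div_le_one_div_of_le (by norm_num) hp2
  calc (p : ℝ)⁻¹ * Real.exp (-(2 * (s.re * Real.log p))) ≤ 1 / 2 * (10 / 9) :=
        mul_le_mul h7 h3 (Real.exp_pos _).le (by norm_num)
    _ = 5 / 9 := by norm_num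

theorem norm_zp_lt {s : ℂ} {L : ℝ} (h : Adm s L) {p : ℕ} (hp : 2 ≤ p) (hpL : (p : ℝ) ≤ Real.exp L) :
    ‖zp s p‖ < 1 := by
  have h1 := norm_zp_sq_le h hp hpL
  have h2 := norm_nonneg (zp s p)
  nlinarith

theorem mem_prm {u v : ℝ} {p : ℕ} : p ∈ prm u v ↔ p.Prime ∧ u < (p : ℝ) ∧ (p : ℝ) ≤ v := by
  unfold prm
  rw [Finset.mem_filter, Finset.mem_Icc]
  constructor
  · rintro ⟨⟨h1, h2⟩, h3, h4⟩
    exact ⟨h3, h4, (Nat.le_floor_iff' h3.ne_zero).1 h2⟩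
  · rintro ⟨h1, h2, h3⟩
    exact ⟨⟨h1.one_lt.le, (Nat.le_floor_iff' h1.ne_zero).2 h3⟩, h1, h2⟩

theorem B01_ne {s : ℂ} {L : ℝ} (h : Adm s L) {p : ℕ} (hp : 2 ≤ p) (hpL : (p : ℝ) ≤ Real.exp L) (x : Om) :
    1 - zp s p * ch x p ≠ 0 := by
  intro h0
  have h1 : ‖zp s p * ch x p‖ = 1 := by
    rw [← sub_eq_zero.1 h0, norm_one]
  rw [norm_mul, norm_ch, mul_one] at h1
  exact absurd h1 (norm_zp_lt h hp hpL).ne

theorem B01_mem {L u v : ℝ} (hv : v ≤ Real.exp L) {p : ℕ} (hp : p ∈ prm u v) :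
    2 ≤ p ∧ (p : ℝ) ≤ Real.exp L := by
  rw [mem_prm] at hp
  exact ⟨hp.1.two_le, hp.2.2.trans hv⟩

theorem continuous_ZZ {s : ℂ} {L : ℝ} (h : Adm s L) {u v : ℝ} (hv : v ≤ Real.exp L) : Continuous (ZZ s u v) := by
  unfold ZZ
  refine continuous_finsetProd _ fun p hp => ?_
  obtain ⟨h1, h2⟩ := B01_mem hv hp
  exact (continuous_const.sub (continuous_const.mul (continuous_ch p))).inv₀ (B01_ne h h1 h2)

theorem ZZ_ne_zero {s : ℂ} {L : ℝ} (h : Adm s L) {u v : ℝ} (hv : v ≤ Real.exp L) (x : Om) : ZZ s u v x ≠ 0 := by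
  unfold ZZ
  refine Finset.prod_ne_zero_iff.2 fun p hp => ?_
  obtain ⟨h1, h2⟩ := B01_mem hv hp
  exact inv_ne_zero (B01_ne h h1 h2 x)

theorem dependsOn_ZZ (s : ℂ) (u v : ℝ) : DependsOn (ZZ s u v) (coo u v) := by
  intro x y hxy
  unfold ZZ
  refine Finset.prod_congr rfl fun p hp => ?_
  rw [mem_prm] at hp
  have h1 : ch x p = ch y p := by
    apply dependsOn_ch p
    intro q hq
    rw [hp.1.primeFactors, Finset.coe_singleton, Set.mem_singleton_iff] at hq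
    rw [hq]
    exact hxy p hp.2
  rw [h1]

theorem B01_prod_mul {M : Type} [CommMonoid M] (f : ℕ → M) {u v w : ℝ} (huv : u ≤ v) (hvw : v ≤ w) :
    (∏ p ∈ prm u v, f p) * ∏ p ∈ prm v w, f p = ∏ p ∈ prm u w, f p := by
  rw [← Finset.prod_union]
  · congr 1
    ext p
    rw [Finset.mem_union, mem_prm, mem_prm, mem_prm]
    constructor
    · rintro (⟨h1, h2, h3⟩ | ⟨h1, h2, h3⟩)
      · exact ⟨h1, h2, h3.trans hvw⟩
      · exact ⟨h1, huv.trans_lt h2, h3⟩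
    · rintro ⟨h1, h2, h3⟩
      rcases le_or_gt (p : ℝ) v with h | h
      · exact Or.inl ⟨h1, h2, h⟩
      · exact Or.inr ⟨h1, h, h3⟩
  · rw [Finset.disjoint_left]
    intro p hp hp'
    rw [mem_prm] at hp hp'
    linarith [hp.2.2, hp'.2.1]

theorem ZZ_mul (s : ℂ) {u v w : ℝ} (huv : u ≤ v) (hvw : v ≤ w) (x : Om) : ZZ s u v x * ZZ s v w x = ZZ s u w x :=
  B01_prod_mul _ huv hvw

theorem nz_mul (s : ℂ) {u v w : ℝ} (huv : u ≤ v) (hvw : v ≤ w) : nz s u v * nz s v w = nz s u w :=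
  B01_prod_mul _ huv hvw

theorem nz_pos {s : ℂ} {L : ℝ} (h : Adm s L) {u v : ℝ} (hv : v ≤ Real.exp L) : 0 < nz s u v := by
  unfold nz
  refine Finset.prod_pos fun p hp => ?_
  obtain ⟨h1, h2⟩ := B01_mem hv hp
  have := norm_zp_sq_le h h1 h2
  linarith

theorem nz_le_one {s : ℂ} {L : ℝ} (h : Adm s L) {u v : ℝ} (hv : v ≤ Real.exp L) : nz s u v ≤ 1 := by
  unfold nz
  refine Finset.prod_le_one (fun p hp => ?_) fun p hp => ?_
  · obtain ⟨h1, h2⟩ := B01_mem hv hp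
    have := norm_zp_sq_le h h1 h2
    linarith
  · have := sq_nonneg ‖zp s p‖
    linarith

theorem B01_dcoef (a : ℕ) : LibZM.dcoef 1 a = 1 := by
  unfold LibZM.dcoef
  refine Finset.prod_eq_one fun i _ => ?_
  rw [add_comm]
  exact div_self (by positivity)

theorem B01_Gsum {x : ℝ} (h0 : 0 ≤ x) (h1 : x < 1) : LibZM.Gsum 1 x = (1 - x)⁻¹ := by
  unfold LibZM.Gsum
  simp only [B01_dcoef, one_pow, one_mul]
  exact tsum_geometric_of_lt_one h0 h1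

theorem nz_zero_eq (u v : ℝ) : nz 0 u v = (PS 2 u v)⁻¹ := by
  unfold nz PS
  rw [← Finset.prod_inv_distrib]
  refine Finset.prod_congr rfl fun p hp => ?_
  rw [mem_prm] at hp
  have hp1 : (1 : ℝ) < p := by exact_mod_cast hp.1.one_lt
  rw [norm_zp_sq 0 hp.1.one_lt.le, div_self (two_ne_zero' ℝ), B01_Gsum (by positivity) (inv_lt_one_of_one_lt₀ hp1),
    inv_inv]
  simp

end Pool.Agent.LibTG78
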