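import Mathlib
import Pool.Agent.LibTG78.Defs
import Pool.Agent.LibTG78.B01

/-! # The moments of one factor of the Euler product -/

set_option autoImplicit false

namespace Pool.Agent.LibTG78

open MeasureTheory Filter Topology Pool.Agent.LibMM99
open scoped ComplexConjugate

theorem B02_ch_pow (x : Om) {p : ℕ} (hp : p ≠ 0) (a : ℕ) : ch x (p ^ a) = ch x p ^ a := by
  induction a with
  | zero => rw [pow_zero, pow_zero, ch_one]
  | succ a ih => rw [pow_succ, pow_succ, ch_mul x (pow_ne_zero a hp) hp, ih]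

theorem B02_binom (q : ℕ) {w : ℂ} (hw : ‖w‖ < 1) :
    HasSum (fun a : ℕ => ((LibZM.dcoef (q : ℝ) a : ℝ) : ℂ) * w ^ a) (((1 - w)⁻¹) ^ q) := by
  have h := R3_binom (q : ℝ) hw
  have hne : (1 : ℂ) - w ≠ 0 := by
    intro h0
    have : w = 1 := by linear_combination -h0
    rw [this, norm_one] at hw
    exact lt_irrefl _ hw
  have e : Complex.exp (-((q : ℝ) : ℂ) * Complex.log (1 - w)) = ((1 - w)⁻¹) ^ q := by
    rw [Complex.ofReal_natCast, neg_mul, Complex.exp_neg, Complex.exp_nat_mul, Complex.exp_log hne,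
      inv_pow]
  rw [e] at h
  exact h

theorem B02_partial (q N : ℕ) (z : ℂ) {p : ℕ} (hp : p.Prime) :
    ∫ x, ‖∑ a ∈ Finset.range N, ((LibZM.dcoef (q : ℝ) a : ℝ) : ℂ) * (z * ch x p) ^ a‖ ^ 2 ∂mu =
      ∑ a ∈ Finset.range N, LibZM.dcoef (q : ℝ) a ^ 2 * (‖z‖ ^ 2) ^ a := by
  have h := integral_norm_sq' (Finset.range N) (fun a => p ^ a)
    (fun a => ((LibZM.dcoef (q : ℝ) a : ℝ) : ℂ) * z ^ a * ((Real.sqrt ((p ^ a : ℕ) : ℝ) : ℝ) : ℂ))
    (fun a _ => Nat.one_le_iff_ne_zero.2 (pow_ne_zero a hp.ne_zero))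
    (fun a _ b _ hab => Nat.pow_right_injective hp.two_le hab)
  have hpos : ∀ a : ℕ, (0 : ℝ) < ((p ^ a : ℕ) : ℝ) := fun a => by
    exact_mod_cast pow_pos hp.pos a
  have hs : ∀ a : ℕ, Real.sqrt ((p ^ a : ℕ) : ℝ) ≠ 0 := fun a => (Real.sqrt_pos.2 (hpos a)).ne'
  have e1 : ∀ x : Om, ∑ a ∈ Finset.range N, ((LibZM.dcoef (q : ℝ) a : ℝ) : ℂ) * (z * ch x p) ^ a =
      ∑ i ∈ Finset.range N, (((LibZM.dcoef (q : ℝ) i : ℝ) : ℂ) * z ^ i *
        ((Real.sqrt ((p ^ i : ℕ) : ℝ) : ℝ) : ℂ)) * (((Real.sqrt ((p ^ i : ℕ) : ℝ))⁻¹ : ℝ) : ℂ) *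
        ch x (p ^ i) := by
    intro x
    apply Finset.sum_congr rfl
    intro i _
    have h1 : ((Real.sqrt ((p ^ i : ℕ) : ℝ) : ℝ) : ℂ) * (((Real.sqrt ((p ^ i : ℕ) : ℝ))⁻¹ : ℝ) : ℂ) = 1 := by
      rw [← Complex.ofReal_mul, mul_inv_cancel₀ (hs i), Complex.ofReal_one]
    rw [B02_ch_pow x hp.ne_zero, mul_pow]
    linear_combination (-(((LibZM.dcoef (q : ℝ) i : ℝ) : ℂ) * z ^ i * ch x p ^ i)) * h1
  simp_rw [e1]
  rw [h]
  apply Finset.sum_congr rfl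
  intro i _
  rw [norm_mul, norm_mul, Complex.norm_real, Complex.norm_real, mul_pow, mul_pow, Real.norm_eq_abs,
    Real.norm_eq_abs, sq_abs, sq_abs, Real.sq_sqrt (hpos i).le, norm_pow, mul_div_assoc,
    div_self (hpos i).ne', mul_one, ← pow_mul, ← pow_mul, mul_comm i 2]

theorem moment_factor (q : ℕ) {z : ℂ} (hz : ‖z‖ < 1) {p : ℕ} (hp : p.Prime) :
    ∫ x, ‖(1 - z * ch x p)⁻¹‖ ^ (2 * q) ∂mu = LibZM.Gsum (q : ℝ) (‖z‖ ^ 2) := by
  have hq : (0 : ℝ) ≤ (q : ℝ) := Nat.cast_nonneg q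
  have hw : ∀ x : Om, ‖z * ch x p‖ = ‖z‖ := fun x => by rw [norm_mul, norm_ch, mul_one]
  have hsum : Summable fun a : ℕ => LibZM.dcoef (q : ℝ) a * ‖z‖ ^ a :=
    summable_of_sum_range_le (fun a => mul_nonneg (LibZM.dcoef_nonneg hq a) (by positivity))
      (fun N => LibZM.partial_binomial_le' hq N (norm_nonneg z) hz)
  have hlim : Tendsto (fun N : ℕ => ∫ x, ‖∑ a ∈ Finset.range N,
      ((LibZM.dcoef (q : ℝ) a : ℝ) : ℂ) * (z * ch x p) ^ a‖ ^ 2 ∂mu) atTop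
      (𝓝 (∫ x, ‖((1 - z * ch x p)⁻¹) ^ q‖ ^ 2 ∂mu)) := by
    apply tendsto_integral_of_dominated_convergence
      (fun _ => (∑' a : ℕ, LibZM.dcoef (q : ℝ) a * ‖z‖ ^ a) ^ 2)
    · intro N
      apply Continuous.aestronglyMeasurable
      exact (continuous_finsetSum _ fun a _ => continuous_const.mul
        ((continuous_const.mul (continuous_ch p)).pow a)).norm.pow 2
    · exact integrable_const _
    · intro N
      apply Filter.Eventually.of_forall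
      intro x
      rw [Real.norm_of_nonneg (by positivity)]
      apply pow_le_pow_left₀ (norm_nonneg _)
      calc ‖∑ a ∈ Finset.range N, ((LibZM.dcoef (q : ℝ) a : ℝ) : ℂ) * (z * ch x p) ^ a‖
          ≤ ∑ a ∈ Finset.range N, ‖((LibZM.dcoef (q : ℝ) a : ℝ) : ℂ) * (z * ch x p) ^ a‖ :=
            norm_sum_le _ _
        _ = ∑ a ∈ Finset.range N, LibZM.dcoef (q : ℝ) a * ‖z‖ ^ a := by
            apply Finset.sum_congr rfl
            intro a _
            rw [norm_mul, Complex.norm_real, Real.norm_of_nonneg (LibZM.dcoef_nonneg hq a), norm_pow,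
              hw]
        _ ≤ _ := hsum.sum_le_tsum _ (fun a _ => mul_nonneg (LibZM.dcoef_nonneg hq a) (by positivity))
    · apply Filter.Eventually.of_forall
      intro x
      have h1 := (B02_binom q (w := z * ch x p) (by rw [hw x]; exact hz)).tendsto_sum_nat
      exact (h1.norm).pow 2
  have hlim2 : Tendsto (fun N : ℕ => ∫ x, ‖∑ a ∈ Finset.range N,
      ((LibZM.dcoef (q : ℝ) a : ℝ) : ℂ) * (z * ch x p) ^ a‖ ^ 2 ∂mu) atTop
      (𝓝 (LibZM.Gsum (q : ℝ) (‖z‖ ^ 2))) := by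
    simp_rw [B02_partial q _ z hp]
    have hz2 : ‖z‖ ^ 2 < 1 := by
      have := norm_nonneg z
      nlinarith
    exact (LibZM.summable_G hq (z := ‖z‖ ^ 2) (by positivity) hz2).hasSum.tendsto_sum_nat
  have h := tendsto_nhds_unique hlim hlim2
  rw [← h]
  congr 1
  funext x
  rw [norm_pow, ← pow_mul, mul_comm q 2]

theorem Gsum_one {x : ℝ} (h0 : 0 ≤ x) (h1 : x < 1) : LibZM.Gsum 1 x = (1 - x)⁻¹ :=
  LibZM.Gsum_one h0 h1

end Pool.Agent.LibTG78
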