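import Mathlib
import Pool.Agent.LibTG78.Defs
import Pool.Agent.LibTG78.B01
import Pool.Agent.LibTG78.B02

/-! # Row B03: the moments of the product -/

set_option autoImplicit false

namespace Pool.Agent.LibTG78

open MeasureTheory Filter Topology Pool.Agent.LibMM99
open scoped ComplexConjugate


theorem B03_cont {z : ℂ} (hz : ‖z‖ < 1) (p : ℕ) : Continuous fun x : Om => (1 - z * ch x p)⁻¹ := by
  refine Continuous.inv₀ (continuous_const.sub (continuous_const.mul (continuous_ch p)))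
    fun x h0 => ?_
  have h1 : z * ch x p = 1 := (sub_eq_zero.1 h0).symm
  have h2 := congrArg norm h1
  rw [norm_mul, norm_ch, mul_one, norm_one] at h2
  linarith

theorem B03_dep (z : ℂ) (q : ℕ) {p : ℕ} (hp : p.Prime) :
    DependsOn (fun x : Om => ‖(1 - z * ch x p)⁻¹‖ ^ q) ({p} : Set ℕ) := by
  intro x y h
  have h1 := dependsOn_ch p (x := x) (y := y) (fun i hi => h i (by
    rw [hp.primeFactors] at hi
    simpa using hi))
  have h2 : ch x p = ch y p := h1
  simp only [h2]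

theorem B03_prod (F : ℕ → Om → ℝ) (S : Finset ℕ) (hc : ∀ p ∈ S, Continuous (F p))
    (hd : ∀ p ∈ S, DependsOn (F p) ({p} : Set ℕ)) :
    ∫ x, ∏ p ∈ S, F p x ∂mu = ∏ p ∈ S, ∫ x, F p x ∂mu := by
  induction S using Finset.induction_on with
  | empty => simp
  | insert a S ha ih =>
    simp only [Finset.prod_insert ha]
    have h1 : Continuous fun x => ∏ p ∈ S, F p x :=
      continuous_finsetProd _ fun p hp => hc p (Finset.mem_insert_of_mem hp)
    have h2 : DependsOn (fun x => ∏ p ∈ S, F p x) (S : Set ℕ) := by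
      intro x y h
      exact Finset.prod_congr rfl fun p hp =>
        hd p (Finset.mem_insert_of_mem hp) (fun i hi => h i (by
          rw [Set.mem_singleton_iff] at hi
          rw [hi]
          exact hp))
    have h3 : Disjoint ({a} : Set ℕ) (S : Set ℕ) := by
      rw [Set.disjoint_singleton_left]
      exact fun h => ha h
    rw [integral_mul_indep (hc a (Finset.mem_insert_self _ _)) h1
      (hd a (Finset.mem_insert_self _ _)) h2 h3, ih (fun p hp => hc p (Finset.mem_insert_of_mem hp))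
      (fun p hp => hd p (Finset.mem_insert_of_mem hp))]

theorem moment_ZZ_eq (q : ℕ) {s : ℂ} {L : ℝ} (h : Adm s L) {u v : ℝ} (hv : v ≤ Real.exp L) :
    ∫ x, ‖ZZ s u v x‖ ^ (2 * q) ∂mu = ∏ p ∈ prm u v, LibZM.Gsum (q : ℝ) (‖zp s p‖ ^ 2) := by
  have hlt : ∀ p ∈ prm u v, ‖zp s p‖ < 1 := fun p hp => by
    rw [mem_prm] at hp
    exact norm_zp_lt h hp.1.two_le (hp.2.2.trans hv)
  have h1 : ∀ x : Om, ‖ZZ s u v x‖ ^ (2 * q) =
      ∏ p ∈ prm u v, ‖(1 - zp s p * ch x p)⁻¹‖ ^ (2 * q) := fun x => by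
    unfold ZZ
    rw [norm_prod, Finset.prod_pow]
  simp only [h1]
  rw [B03_prod (fun p x => ‖(1 - zp s p * ch x p)⁻¹‖ ^ (2 * q)) (prm u v)
    (fun p hp => (continuous_norm.comp (B03_cont (hlt p hp) p)).pow _)
    (fun p hp => B03_dep _ _ (mem_prm.1 hp).1)]
  exact Finset.prod_congr rfl fun p hp => moment_factor q (hlt p hp) (mem_prm.1 hp).1

theorem mean_ZZ_sq {s : ℂ} {L : ℝ} (h : Adm s L) {u v : ℝ} (hv : v ≤ Real.exp L) :
    nz s u v * ∫ x, ‖ZZ s u v x‖ ^ 2 ∂mu = 1 := by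
  have h1 := moment_ZZ_eq 1 h (u := u) hv
  rw [mul_one, Nat.cast_one] at h1
  rw [h1]
  unfold nz
  rw [← Finset.prod_mul_distrib]
  refine Finset.prod_eq_one fun p hp => ?_
  have h2 : ‖zp s p‖ < 1 := by
    rw [mem_prm] at hp
    exact norm_zp_lt h hp.1.two_le (hp.2.2.trans hv)
  have h3 : ‖zp s p‖ ^ 2 < 1 := by
    have := norm_nonneg (zp s p)
    nlinarith
  rw [Gsum_one (by positivity) h3]
  exact mul_inv_cancel₀ (by linarith)

end Pool.Agent.LibTG78
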