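import Mathlib
import Pool.Agent.LibTG78.Defs
import Pool.Agent.LibTG78.B03

set_option autoImplicit false

namespace Pool.Agent.LibTG78

open MeasureTheory Filter Topology Pool.Agent.LibMM99
open scoped ComplexConjugate


/-- the density -/
noncomputable def B05_rho (s : ℂ) (L : ℝ) (x : Om) : ℝ := nz s 1 (Real.exp L) * ‖ZZ s 1 (Real.exp L) x‖ ^ 2

theorem B05_cont {s : ℂ} {L : ℝ} (h : Adm s L) : Continuous (B05_rho s L) :=
  continuous_const.mul ((continuous_ZZ h le_rfl).norm.pow 2)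

theorem B05_nonneg {s : ℂ} {L : ℝ} (h : Adm s L) (x : Om) : 0 ≤ B05_rho s L x :=
  mul_nonneg (nz_pos h le_rfl).le (by positivity)

theorem B05_int {E : Type*} [NormedAddCommGroup E] [NormedSpace ℝ E] {s : ℂ} {L : ℝ} (h : Adm s L) (f : Om → E) :
    ∫ x, f x ∂(nu s L) = ∫ x, B05_rho s L x • f x ∂mu := by
  have h1 : nu s L = mu.withDensity fun x => ENNReal.ofReal (B05_rho s L x) := rfl
  have hm : Measurable fun x => ENNReal.ofReal (B05_rho s L x) := (B05_cont h).measurable.ennreal_ofReal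
  rw [h1, integral_withDensity_eq_integral_toReal_smul hm (Eventually.of_forall fun x => ENNReal.ofReal_lt_top)]
  congr 1
  funext x
  rw [ENNReal.toReal_ofReal (B05_nonneg h x)]

theorem integral_nu {s : ℂ} {L : ℝ} (h : Adm s L) {f : Om → ℝ} (hf : Continuous f) :
    ∫ x, f x ∂(nu s L) = nz s 1 (Real.exp L) * ∫ x, ‖ZZ s 1 (Real.exp L) x‖ ^ 2 * f x ∂mu := by
  rw [B05_int h, ← integral_const_mul]
  congr 1
  funext x
  rw [smul_eq_mul, B05_rho]
  ring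

theorem integral_nu_complex {s : ℂ} {L : ℝ} (h : Adm s L) {f : Om → ℂ} (hf : Continuous f) :
    ∫ x, f x ∂(nu s L) = ((nz s 1 (Real.exp L) : ℝ) : ℂ) *
      ∫ x, ((‖ZZ s 1 (Real.exp L) x‖ ^ 2 : ℝ) : ℂ) * f x ∂mu := by
  rw [B05_int h, ← integral_const_mul]
  congr 1
  funext x
  rw [Complex.real_smul, B05_rho]
  push_cast
  ring

theorem isProbabilityMeasure_nu {s : ℂ} {L : ℝ} (h : Adm s L) : IsProbabilityMeasure (nu s L) := by
  constructor
  have h1 : nu s L = mu.withDensity fun x => ENNReal.ofReal (B05_rho s L x) := rfl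
  rw [h1, withDensity_apply _ MeasurableSet.univ, Measure.restrict_univ,
    ← ofReal_integral_eq_lintegral_ofReal (integrable_of_continuous (B05_cont h))
      (Eventually.of_forall (B05_nonneg h))]
  have h2 : ∫ x, B05_rho s L x ∂mu = 1 := by
    unfold B05_rho
    rw [integral_const_mul]
    exact mean_ZZ_sq h le_rfl
  rw [h2]
  simp

theorem integral_nu_loc {s : ℂ} {L : ℝ} (h : Adm s L) {u v : ℝ} (hu : 1 ≤ u) (huv : u ≤ v)
    (hv : v ≤ Real.exp L) {f : Om → ℝ} (hf : Continuous f) (hd : DependsOn f (coo u v)) :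
    ∫ x, f x ∂(nu s L) = nz s u v * ∫ x, ‖ZZ s u v x‖ ^ 2 * f x ∂mu := by
  rw [integral_nu h hf]
  have hu' : u ≤ Real.exp L := huv.trans hv
  have c1 : Continuous fun x => ‖ZZ s 1 u x‖ ^ 2 := (continuous_ZZ h hu').norm.pow 2
  have c2 : Continuous fun x => ‖ZZ s u v x‖ ^ 2 := (continuous_ZZ h hv).norm.pow 2
  have c3 : Continuous fun x => ‖ZZ s v (Real.exp L) x‖ ^ 2 := (continuous_ZZ h le_rfl).norm.pow 2
  have hdd : ∀ a b : ℝ, DependsOn (fun x => ‖ZZ s a b x‖ ^ 2) (coo a b) := by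
    intro a b x y hxy
    have := dependsOn_ZZ s a b hxy
    simp only [this]
  have e1 : ∀ x, ‖ZZ s 1 (Real.exp L) x‖ ^ 2 * f x =
      ‖ZZ s 1 u x‖ ^ 2 * ((‖ZZ s u v x‖ ^ 2 * f x) * ‖ZZ s v (Real.exp L) x‖ ^ 2) := by
    intro x
    rw [← ZZ_mul s (hu.trans huv) hv x, ← ZZ_mul s hu huv x, norm_mul, norm_mul]
    ring
  simp only [e1]
  have d2 : DependsOn (fun x => ‖ZZ s u v x‖ ^ 2 * f x) (coo u v) := by
    intro x y hxy
    have h1 := hdd u v hxy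
    have h2 := hd hxy
    simp only at h1 h2
    simp only [h1, h2]
  have d3 : DependsOn (fun x => (‖ZZ s u v x‖ ^ 2 * f x) * ‖ZZ s v (Real.exp L) x‖ ^ 2) (coo u (Real.exp L)) := by
    intro x y hxy
    have h1 := d2 (x := x) (y := y) (fun p hp => hxy p ⟨hp.1, hp.2.trans hv⟩)
    have h2 := hdd v (Real.exp L) (x := x) (y := y) (fun p hp => hxy p ⟨lt_of_le_of_lt huv hp.1, hp.2⟩)
    simp only at h1 h2
    simp only [h1, h2]
  have c4 : Continuous (fun x => ‖ZZ s u v x‖ ^ 2 * f x) := c2.mul hf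
  have c5 : Continuous (fun x => (‖ZZ s u v x‖ ^ 2 * f x) * ‖ZZ s v (Real.exp L) x‖ ^ 2) := c4.mul c3
  rw [integral_mul_indep c1 c5 (hdd 1 u) d3 (coo_disjoint le_rfl),
    integral_mul_indep c4 c3 d2 (hdd v _) (coo_disjoint le_rfl)]
  have m1 := mean_ZZ_sq h (u := 1) (v := u) hu'
  have m3 := mean_ZZ_sq h (u := v) (v := Real.exp L) le_rfl
  have hn : nz s 1 (Real.exp L) = nz s 1 u * nz s u v * nz s v (Real.exp L) := by
    rw [nz_mul s hu huv, nz_mul s (hu.trans huv) hv]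
  rw [hn]
  calc nz s 1 u * nz s u v * nz s v (Real.exp L) * ((∫ x, ‖ZZ s 1 u x‖ ^ 2 ∂mu) *
        ((∫ x, ‖ZZ s u v x‖ ^ 2 * f x ∂mu) * ∫ x, ‖ZZ s v (Real.exp L) x‖ ^ 2 ∂mu))
      = (nz s 1 u * ∫ x, ‖ZZ s 1 u x‖ ^ 2 ∂mu) * (nz s v (Real.exp L) * ∫ x, ‖ZZ s v (Real.exp L) x‖ ^ 2 ∂mu) *
        (nz s u v * ∫ x, ‖ZZ s u v x‖ ^ 2 * f x ∂mu) := by ring
    _ = nz s u v * ∫ x, ‖ZZ s u v x‖ ^ 2 * f x ∂mu := by rw [m1, m3]; ring

end Pool.Agent.LibTG78
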