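import Mathlib
import Pool.Agent.LibTG78.Defs
import Pool.Agent.LibTG78.B03

/-! Row B04 : bounds for `nz` -/

set_option autoImplicit false

namespace Pool.Agent.LibTG78

open MeasureTheory Filter Topology Pool.Agent.LibMM99
open scoped ComplexConjugate


/-- comparison of two factors -/
theorem B04_factor {x y d : ℝ} (hx : x ≤ 5 / 9) (hy : y ≤ 1 / 2) (hxy : |x - y| ≤ d) :
    1 - x ≤ (1 - y) * Real.exp (3 * d) ∧ (1 - y) * Real.exp (-(3 * d)) ≤ 1 - x := by
  have hd : 0 ≤ d := (abs_nonneg _).trans hxy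
  obtain ⟨h1, h2⟩ := abs_le.1 hxy
  have h3 : 1 + 3 * d ≤ Real.exp (3 * d) := by
    have := Real.add_one_le_exp (3 * d)
    linarith
  constructor
  · calc 1 - x ≤ (1 - y) * (1 + 3 * d) := by nlinarith
      _ ≤ _ := mul_le_mul_of_nonneg_left h3 (by linarith)
  · rw [Real.exp_neg, ← div_eq_mul_inv, div_le_iff₀ (Real.exp_pos _)]
    calc 1 - y ≤ (1 - x) * (1 + 3 * d) := by nlinarith
      _ ≤ _ := mul_le_mul_of_nonneg_left h3 (by linarith)

theorem B04_zero {p : ℕ} (hp : 1 ≤ p) : ‖zp 0 p‖ ^ 2 = (p : ℝ)⁻¹ := by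
  rw [norm_zp_sq 0 hp]
  simp

theorem nz_ratio : ∃ C : ℝ, 1 ≤ C ∧ ∀ (s : ℂ) (L u v : ℝ), Adm s L → Real.sqrt 2 ≤ u → u ≤ v →
    v ≤ Real.exp L → nz s u v ≤ nz 0 u v * Real.exp (C * ‖s‖ * Real.log v) ∧
    nz 0 u v * Real.exp (-(C * ‖s‖ * Real.log v)) ≤ nz s u v := by
  obtain ⟨C0, hC0, hsum⟩ := sum_log_prime_le
  have hs : 1 < Real.sqrt 2 := Real.lt_sqrt_of_sq_lt (by norm_num)
  have hls : 0 < Real.log (Real.sqrt 2) := Real.log_pos hs
  refine ⟨9 * (1 + C0 / Real.log (Real.sqrt 2)), ?_, ?_⟩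
  · have : 0 ≤ C0 / Real.log (Real.sqrt 2) := by positivity
    linarith
  intro s L u v hA hu huv hv
  have hlv : Real.log (Real.sqrt 2) ≤ Real.log v := Real.log_le_log (by linarith) (hu.trans huv)
  have hmem : ∀ p ∈ prm u v, 2 ≤ p ∧ (p : ℝ) ≤ Real.exp L := by
    intro p hp
    rw [mem_prm] at hp
    exact ⟨hp.1.two_le, hp.2.2.trans hv⟩
  -- the sum
  have h1 : ∑ p ∈ prm u v, Real.log p / p ≤ (1 + C0 / Real.log (Real.sqrt 2)) * Real.log v := by
    have h2 : ∑ p ∈ prm u v, Real.log p / p ≤ ∑ p ∈ prm 1 v, Real.log p / p := by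
      refine Finset.sum_le_sum_of_subset_of_nonneg ?_ fun p _ _ => ?_
      · intro p hp
        rw [mem_prm] at hp ⊢
        exact ⟨hp.1, by linarith [hp.2.1], hp.2.2⟩
      · exact div_nonneg (Real.log_natCast_nonneg p) (Nat.cast_nonneg p)
    have h3 := hsum v (by linarith)
    have h4 : C0 ≤ C0 / Real.log (Real.sqrt 2) * Real.log v := by
      rw [div_mul_eq_mul_div, le_div_iff₀ hls]
      exact mul_le_mul_of_nonneg_left hlv hC0
    linarith
  have hd : ∀ p ∈ prm u v, |‖zp s p‖ ^ 2 - ‖zp 0 p‖ ^ 2| ≤ 3 * ‖s‖ * (Real.log p / p) := by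
    intro p hp
    obtain ⟨h2, hpL⟩ := hmem p hp
    obtain ⟨h5, h6⟩ := norm_zp_sq_near hA h2 hpL
    rw [B04_zero (by omega), abs_le]
    have h7 : (p : ℝ)⁻¹ * (3 * (‖s‖ * Real.log p)) = 3 * ‖s‖ * (Real.log p / p) := by
      rw [div_eq_mul_inv]; ring
    constructor <;> nlinarith
  have hf := fun p hp => B04_factor (norm_zp_sq_le hA (hmem p hp).1 (hmem p hp).2)
    (show ‖zp 0 p‖ ^ 2 ≤ 1 / 2 by
      rw [B04_zero (by have := (hmem p hp).1; omega)]
      have : (2 : ℝ) ≤ p := by exact_mod_cast (hmem p hp).1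
      rw [inv_eq_one_div]
      exact one_div_le_one_div_of_le (by norm_num) this) (hd p hp)
  have h0 : ∀ p ∈ prm u v, 0 ≤ 1 - ‖zp s p‖ ^ 2 := by
    intro p hp
    have := norm_zp_sq_le hA (hmem p hp).1 (hmem p hp).2
    linarith
  have h00 : ∀ p ∈ prm u v, 0 ≤ 1 - ‖zp 0 p‖ ^ 2 := by
    intro p hp
    rw [B04_zero (by have := (hmem p hp).1; omega)]
    have : (1 : ℝ) ≤ p := by have := (hmem p hp).1; exact_mod_cast (by omega : 1 ≤ p)
    have := inv_le_one_of_one_le₀ this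
    linarith
  have hn : 0 ≤ nz 0 u v := Finset.prod_nonneg h00
  have hS : ∑ p ∈ prm u v, 3 * (3 * ‖s‖ * (Real.log p / p)) ≤
      9 * (1 + C0 / Real.log (Real.sqrt 2)) * ‖s‖ * Real.log v := by
    rw [← Finset.mul_sum, ← Finset.mul_sum]
    have := mul_le_mul_of_nonneg_left h1 (by positivity : 0 ≤ 9 * ‖s‖)
    nlinarith
  constructor
  · calc nz s u v ≤ ∏ p ∈ prm u v, ((1 - ‖zp 0 p‖ ^ 2) * Real.exp (3 * (3 * ‖s‖ * (Real.log p / p)))) :=
          Finset.prod_le_prod h0 fun p hp => (hf p hp).1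
      _ = nz 0 u v * Real.exp (∑ p ∈ prm u v, 3 * (3 * ‖s‖ * (Real.log p / p))) := by
          rw [Finset.prod_mul_distrib, Real.exp_sum]
          rfl
      _ ≤ _ := mul_le_mul_of_nonneg_left (Real.exp_le_exp.2 hS) hn
  · calc nz 0 u v * Real.exp (-(9 * (1 + C0 / Real.log (Real.sqrt 2)) * ‖s‖ * Real.log v))
        ≤ nz 0 u v * Real.exp (-∑ p ∈ prm u v, 3 * (3 * ‖s‖ * (Real.log p / p))) :=
          mul_le_mul_of_nonneg_left (Real.exp_le_exp.2 (neg_le_neg hS)) hn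
      _ = ∏ p ∈ prm u v, ((1 - ‖zp 0 p‖ ^ 2) * Real.exp (-(3 * (3 * ‖s‖ * (Real.log p / p))))) := by
          rw [Finset.prod_mul_distrib, ← Real.exp_sum, Finset.sum_neg_distrib]
          rfl
      _ ≤ nz s u v := Finset.prod_le_prod
          (fun p hp => mul_nonneg (h00 p hp) (Real.exp_pos _).le) fun p hp => (hf p hp).2

theorem B04_slog {s : ℂ} {L v : ℝ} (hA : Adm s L) (hv1 : 1 ≤ v) (hv : v ≤ Real.exp L) :
    ‖s‖ * Real.log v ≤ 1 / 20 := by
  obtain ⟨hL, hs⟩ := hA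
  have h1 : Real.log v ≤ L := by
    rw [← Real.log_exp L]
    exact Real.log_le_log (by linarith) hv
  have h2 : 0 ≤ Real.log v := Real.log_nonneg hv1
  calc ‖s‖ * Real.log v ≤ 1 / (20 * L) * L := mul_le_mul hs h1 h2 (by positivity)
    _ = 1 / 20 := by field_simp

theorem nz_le : ∃ C : ℝ, 1 ≤ C ∧ ∀ (s : ℂ) (L u v : ℝ), Adm s L → Real.sqrt 2 ≤ u → u ≤ v →
    v ≤ Real.exp L → nz s u v ≤ C * (Real.log u / Real.log v) := by
  obtain ⟨C, hC, hr⟩ := nz_ratio
  obtain ⟨C1, hC1, h1⟩ := PS_le (k := 2) (by norm_num)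
  obtain ⟨c, hc, h2⟩ := t12_ge (k := 2) (by norm_num)
  have hs : 1 < Real.sqrt 2 := Real.lt_sqrt_of_sq_lt (by norm_num)
  refine ⟨max 1 (C1 / c * Real.exp (C * (1 / 20))), le_max_left _ _, ?_⟩
  intro s L u v hA hu huv hv
  have hlu : 0 < Real.log u := Real.log_pos (by linarith)
  have hlv : 0 < Real.log v := Real.log_pos (by linarith)
  have h3 := (hr s L u v hA hu huv hv).1
  have h4 := B04_slog hA (by linarith : 1 ≤ v) hv
  have hP1 : 1 ≤ PS 2 u v := one_le_PS (by norm_num) u v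
  have h5 : nz 0 u v ≤ C1 / c * (Real.log u / Real.log v) := by
    rw [nz_zero_eq]
    have h6 := h1 u hu
    have h7 := h2 v (hu.trans huv)
    rw [← PS_mul 2 (by linarith : (1 : ℝ) ≤ u) huv] at h7
    norm_num at h6 h7
    rw [inv_eq_one_div, div_mul_div_comm, div_le_div_iff₀ (by linarith) (by positivity)]
    have h8 : PS 2 1 u * PS 2 u v ≤ C1 * Real.log u * PS 2 u v :=
      mul_le_mul_of_nonneg_right h6 (by linarith)
    linarith
  refine le_trans ?_ (mul_le_mul_of_nonneg_right (le_max_right _ _) (by positivity))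
  calc nz s u v ≤ nz 0 u v * Real.exp (C * ‖s‖ * Real.log v) := h3
    _ ≤ (C1 / c * (Real.log u / Real.log v)) * Real.exp (C * (1 / 20)) := by
      apply mul_le_mul h5 _ (Real.exp_pos _).le (by positivity)
      apply Real.exp_le_exp.2
      rw [mul_assoc]
      exact mul_le_mul_of_nonneg_left h4 (by linarith)
    _ = _ := by ring

theorem nz_ge : ∃ c : ℝ, 0 < c ∧ ∀ (s : ℂ) (L u v : ℝ), Adm s L → Real.sqrt 2 ≤ u → u ≤ v →
    v ≤ Real.exp L → c * (Real.log u / Real.log v) ≤ nz s u v := by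
  obtain ⟨C, hC, hr⟩ := nz_ratio
  obtain ⟨C1, hC1, h1⟩ := PS_le (k := 2) (by norm_num)
  obtain ⟨c, hc, h2⟩ := t12_ge (k := 2) (by norm_num)
  have hs : 1 < Real.sqrt 2 := Real.lt_sqrt_of_sq_lt (by norm_num)
  refine ⟨c / C1 * Real.exp (-(C * (1 / 20))), by positivity, ?_⟩
  intro s L u v hA hu huv hv
  have hlu : 0 < Real.log u := Real.log_pos (by linarith)
  have hlv : 0 < Real.log v := Real.log_pos (by linarith)
  have h3 := (hr s L u v hA hu huv hv).2
  have h4 := B04_slog hA (by linarith : 1 ≤ v) hv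
  have hP1 : 1 ≤ PS 2 u v := one_le_PS (by norm_num) u v
  have h5 : c / C1 * (Real.log u / Real.log v) ≤ nz 0 u v := by
    rw [nz_zero_eq]
    have h6 := h1 v (hu.trans huv)
    have h7 := h2 u hu
    rw [← PS_mul 2 (by linarith : (1 : ℝ) ≤ u) huv] at h6
    norm_num at h6 h7
    rw [inv_eq_one_div, div_mul_div_comm, div_le_div_iff₀ (by positivity) (by linarith)]
    have h8 : c * Real.log u * PS 2 u v ≤ PS 2 1 u * PS 2 u v :=
      mul_le_mul_of_nonneg_right h7 (by linarith)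
    linarith
  calc c / C1 * Real.exp (-(C * (1 / 20))) * (Real.log u / Real.log v)
      = (c / C1 * (Real.log u / Real.log v)) * Real.exp (-(C * (1 / 20))) := by ring
    _ ≤ nz 0 u v * Real.exp (-(C * ‖s‖ * Real.log v)) := by
      apply mul_le_mul h5 _ (Real.exp_pos _).le (le_trans (by positivity) h5)
      apply Real.exp_le_exp.2
      rw [mul_assoc C]
      have := mul_le_mul_of_nonneg_left h4 (by linarith : 0 ≤ C)
      linarith
    _ ≤ _ := h3

theorem moment_ZZ (q : ℕ) : ∃ C : ℝ, 1 ≤ C ∧ ∀ (s : ℂ) (L u v : ℝ), Adm s L → Real.sqrt 2 ≤ u → u ≤ v →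
    v ≤ Real.exp L → ∫ x, ‖ZZ s u v x‖ ^ (2 * q) ∂mu ≤ C * (Real.log v / Real.log u) ^ (q ^ 2) := by
  obtain ⟨c, hc, h1⟩ := nz_ge
  have hs : 1 < Real.sqrt 2 := Real.lt_sqrt_of_sq_lt (by norm_num)
  refine ⟨max 1 ((c⁻¹) ^ (q ^ 2)), le_max_left _ _, ?_⟩
  intro s L u v hA hu huv hv
  have hlu : 0 < Real.log u := Real.log_pos (by linarith)
  have hlv : 0 < Real.log v := Real.log_pos (by linarith)
  have h2 := h1 s L u v hA hu huv hv
  have hnz : 0 < nz s u v := lt_of_lt_of_le (by positivity) h2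
  have hx : ∀ p ∈ prm u v, 0 ≤ ‖zp s p‖ ^ 2 ∧ ‖zp s p‖ ^ 2 < 1 := by
    intro p hp
    rw [mem_prm] at hp
    have := norm_zp_sq_le hA hp.1.two_le (hp.2.2.trans hv)
    exact ⟨by positivity, by linarith⟩
  have hcast : ((q : ℝ) ^ 2) = ((q ^ 2 : ℕ) : ℝ) := by push_cast; ring
  rw [moment_ZZ_eq q hA hv]
  calc ∏ p ∈ prm u v, LibZM.Gsum (q : ℝ) (‖zp s p‖ ^ 2)
      ≤ ∏ p ∈ prm u v, ((1 - ‖zp s p‖ ^ 2) ^ (q ^ 2))⁻¹ := by
        refine Finset.prod_le_prod (fun p hp => ?_) fun p hp => ?_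
        · have := LibZM.Gsum_ge (Nat.cast_nonneg q) (hx p hp).1 (hx p hp).2
          exact le_trans (by have := (hx p hp).1; positivity) this
        · have := LibZM.Gsum_le (Nat.cast_nonneg q) (hx p hp).1 (hx p hp).2
          rwa [hcast, Real.rpow_natCast] at this
    _ = (nz s u v ^ (q ^ 2))⁻¹ := by
        rw [Finset.prod_inv_distrib, Finset.prod_pow]
        rfl
    _ ≤ ((c * (Real.log u / Real.log v)) ^ (q ^ 2))⁻¹ := by
        apply inv_anti₀ (by positivity)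
        exact pow_le_pow_left₀ (by positivity) h2 _
    _ = (c⁻¹) ^ (q ^ 2) * (Real.log v / Real.log u) ^ (q ^ 2) := by
        rw [← mul_pow, ← inv_pow, mul_inv, inv_div]
    _ ≤ _ := mul_le_mul_of_nonneg_right (le_max_right _ _) (by positivity)

end Pool.Agent.LibTG78
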