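import Mathlib
import Pool.Agent.LibTG78.Defs
import Pool.Agent.LibTG78.B07
import Pool.Agent.LibMM99.T16
import Pool.Agent.LibMM99.T30

set_option autoImplicit false

namespace Pool.Agent.LibTG78

open MeasureTheory Filter Topology Pool.Agent.LibMM99
open scoped ComplexConjugate


/-! ### B09 : the errors at the scales -/

theorem E_moment_nu (r : ℕ) (Λ : ℝ) : ∃ C : ℝ, 1 ≤ C ∧ ∀ (w : ℝ → ℂ), IsWeight w Λ →
    ∀ (s : ℂ) (l0 K V L : ℝ) (J j : ℕ), Adm s L →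
    Real.log 2 / 2 ≤ l0 → 1 ≤ K → j < J → l0 * 2 ^ (j + 1) ≤ V → V ≤ L →
    Real.exp (-(kap K J j) / 5) ≤ l0 * 2 ^ (j + 1) / L →
    ∫ x, ‖Ej w l0 K V L J j x‖ ^ (2 * r) ∂(nu s L) ≤
      (C * (V / L) * (V / (l0 * 2 ^ (j + 1))) ^ (r + 1 : ℝ)) ^ r := by
  rcases Nat.eq_zero_or_pos r with hr | hr
  · subst hr
    refine ⟨1, le_rfl, ?_⟩
    intro w _ s l0 K V L J j hA _ _ _ _ _ _
    have := isProbabilityMeasure_nu hA
    simp
  obtain ⟨CE, hCE, hE⟩ := E_moment (r + 1) Λ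
  obtain ⟨CH, hCH, hH⟩ := holder_nu r hr
  refine ⟨CH * 2 * CE, by nlinarith, ?_⟩
  intro w hw s l0 K V L J j hA hl0 hK hj hV hVL hkap
  have hlog2 := Real.log_pos (show (1 : ℝ) < 2 by norm_num)
  have hl0pos : 0 < l0 := lt_of_lt_of_le (by linarith) hl0
  set a : ℝ := l0 * 2 ^ (j + 1) with ha
  have ha0 : 0 < a := by positivity
  have hV0 : 0 < V := lt_of_lt_of_le ha0 hV
  have hL0 : 0 < L := lt_of_lt_of_le hV0 hVL
  have hb : l0 * 2 ^ j = a / 2 := by
    rw [ha, pow_succ]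
    ring
  have hVa : 0 < V / a := div_pos hV0 ha0
  set M : ℝ := CE * (V / L) * (V / a) ^ (((r + 1 : ℕ) : ℝ) - 1) with hM
  have hM0 : 0 ≤ M := by positivity
  have h1 := hE w hw l0 K V L J j hl0 hK hj hV hVL hkap
  have hu : Real.sqrt 2 ≤ tj l0 j := by
    have h2 : Real.sqrt 2 = Real.exp (Real.log 2 / 2) := by
      rw [Real.exp_half, Real.exp_log (by norm_num)]
    rw [h2]
    refine Real.exp_le_exp.2 (hl0.trans ?_)
    have : (1 : ℝ) ≤ 2 ^ j := one_le_pow₀ (by norm_num)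
    nlinarith
  have huv : tj l0 j ≤ Real.exp V := by
    refine Real.exp_le_exp.2 ?_
    rw [hb]
    linarith
  have h3 := hH s L (tj l0 j) (Real.exp V) hA hu huv (Real.exp_le_exp.2 hVL)
    (Ej w l0 K V L J j) continuous_Ej (dependsOn_Ej hl0pos.le hV) M hM0 h1
  refine h3.trans ?_
  have h4 : Real.log (Real.exp V) / Real.log (tj l0 j) = 2 * (V / a) := by
    have : Real.log (tj l0 j) = l0 * 2 ^ j := Real.log_exp _
    rw [Real.log_exp, this, hb]
    field_simp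
  rw [h4, mul_assoc, ← mul_pow]
  have h5 : 2 * (V / a) * M = 2 * CE * (V / L) * (V / a) ^ ((r : ℝ) + 1) := by
    rw [hM, Real.rpow_add_one hVa.ne']
    have : ((r + 1 : ℕ) : ℝ) - 1 = r := by push_cast; ring
    rw [this]
    ring
  rw [h5]
  have h6 : 0 ≤ 2 * CE * (V / L) * (V / a) ^ ((r : ℝ) + 1) := by positivity
  calc CH * (2 * CE * (V / L) * (V / a) ^ ((r : ℝ) + 1)) ^ r
      ≤ CH ^ r * (2 * CE * (V / L) * (V / a) ^ ((r : ℝ) + 1)) ^ r := by
        refine mul_le_mul_of_nonneg_right ?_ (by positivity)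
        exact le_self_pow₀ hCH (by omega)
    _ = (CH * 2 * CE * (V / L) * (V / a) ^ ((r : ℝ) + 1)) ^ r := by
        rw [← mul_pow]
        congr 1
        ring

end Pool.Agent.LibTG78
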