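import Mathlib
import Pool.Agent.LibTG78.Defs
import Pool.Agent.LibTG78.B02

set_option autoImplicit false

namespace Pool.Agent.LibTG78

open MeasureTheory Filter Topology Pool.Agent.LibMM99
open scoped ComplexConjugate

theorem B11_re_lt {s : ℂ} {L : ℝ} (h : Adm s L) : (-(1 / 2 : ℂ) - s).re < 0 := by
  obtain ⟨h1, h2⟩ := h
  have h3 : ‖s‖ ≤ 1 / 20 := by
    refine h2.trans ?_
    rw [div_le_div_iff₀ (by positivity) (by norm_num)]
    linarith
  have h4 := (abs_le.1 ((Complex.abs_re_le_norm s).trans h3)).1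
  have h5 : (-(1 / 2 : ℂ) - s).re = -(1 / 2) - s.re := by
    simp
  rw [h5]
  linarith

theorem B11_ne {s : ℂ} {L : ℝ} (h : Adm s L) : (-(1 / 2 : ℂ) - s) ≠ 0 := by
  intro h0
  have := B11_re_lt h
  rw [h0] at this
  simp at this

/-- the completely multiplicative coefficient function -/
noncomputable def B11_f (s : ℂ) (hs : (-(1 / 2 : ℂ) - s) ≠ 0) (x : Om) : ℕ →* ℂ where
  toFun n := (n : ℂ) ^ (-(1 / 2 : ℂ) - s) * ch x n
  map_one' := by
    rw [Nat.cast_one, Complex.one_cpow, ch_one, one_mul]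
  map_mul' m n := by
    rcases eq_or_ne m 0 with rfl | hm
    · rw [zero_mul, Nat.cast_zero, Complex.zero_cpow hs]
      ring
    rcases eq_or_ne n 0 with rfl | hn
    · rw [mul_zero, Nat.cast_zero, Complex.zero_cpow hs]
      ring
    rw [ch_mul x hm hn, Nat.cast_mul, Complex.natCast_mul_natCast_cpow]
    ring

theorem B11_norm (s : ℂ) (x : Om) {n : ℕ} (hn : n ≠ 0) :
    ‖(n : ℂ) ^ (-(1 / 2 : ℂ) - s) * ch x n‖ = (n : ℝ) ^ (-(1 / 2) - s.re) := by
  rw [norm_mul, norm_ch, mul_one, Complex.norm_natCast_cpow_of_pos (Nat.pos_of_ne_zero hn)]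
  congr 1
  simp

theorem B11_prm (u v : ℝ) : (prm u v).filter Nat.Prime = prm u v := by
  ext p
  simp only [prm, Finset.mem_filter]
  tauto

theorem ZZ_hasSum {s : ℂ} {L : ℝ} (h : Adm s L) {u v : ℝ} (hv : v ≤ Real.exp L) :
    (Summable fun m : Nat.factoredNumbers (prm u v) => ((m : ℕ) : ℝ) ^ (-(1 / 2) - s.re)) ∧
    ∀ x : Om, HasSum (fun m : Nat.factoredNumbers (prm u v) => ((m : ℕ) : ℂ) ^ (-(1 / 2 : ℂ) - s) * ch x m)
      (ZZ s u v x) := by
  have hne := B11_ne h
  have hlt := B11_re_lt h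
  have hre : (-(1 / 2 : ℂ) - s).re = -(1 / 2) - s.re := by simp
  have key : ∀ x : Om, ∀ {p : ℕ}, p.Prime → ‖B11_f s hne x p‖ < 1 := by
    intro x p hp
    show ‖(p : ℂ) ^ (-(1 / 2 : ℂ) - s) * ch x p‖ < 1
    rw [B11_norm s x hp.ne_zero]
    apply Real.rpow_lt_one_of_one_lt_of_neg
    · exact_mod_cast hp.one_lt
    · rw [← hre]; exact hlt
  have main := fun x : Om => EulerProduct.summable_and_hasSum_factoredNumbers_prod_filter_prime_geometric
    (f := B11_f s hne x) (key x) (prm u v)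
  constructor
  · refine (main 0).1.congr fun m => ?_
    have hm : (m : ℕ) ≠ 0 := by
      have := m.2
      rw [Nat.mem_factoredNumbers] at this
      exact this.1
    exact B11_norm s 0 hm
  · intro x
    have h2 := (main x).2
    rw [B11_prm] at h2
    exact h2

theorem parseval {c : ℕ → ℂ} (hc0 : c 0 = 0) (hc : Summable fun n => ‖c n‖) :
    ∫ x, ‖∑' n, c n * ch x n‖ ^ 2 ∂mu = ∑' n, ‖c n‖ ^ 2 := by
  have hnorm : ∀ (x : Om) (n : ℕ), ‖c n * ch x n‖ = ‖c n‖ := by
    intro x n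
    rw [norm_mul, norm_ch, mul_one]
  have hs : ∀ x : Om, Summable fun n => ‖c n * ch x n‖ := by
    intro x
    simpa only [hnorm] using hc
  have hs' : ∀ x : Om, Summable fun n => ‖conj (c n * ch x n)‖ := by
    intro x
    simpa only [RCLike.norm_conj, hnorm] using hc
  -- the square as a double series
  have h1 : ∀ x : Om, ((‖∑' n, c n * ch x n‖ ^ 2 : ℝ) : ℂ) =
      ∑' q : ℕ × ℕ, (c q.1 * ch x q.1) * conj (c q.2 * ch x q.2) := by
    intro x
    rw [← tsum_mul_tsum_of_summable_norm (hs x) (hs' x), ← Complex.conj_tsum, Complex.mul_conj,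
      Complex.normSq_eq_norm_sq]
  have hint : ∀ q : ℕ × ℕ, Integrable (fun x : Om => (c q.1 * ch x q.1) * conj (c q.2 * ch x q.2)) mu := by
    intro q
    apply integrable_of_continuous
    exact (continuous_const.mul (continuous_ch q.1)).mul
      (Complex.continuous_conj.comp (continuous_const.mul (continuous_ch q.2)))
  have hsum : Summable fun q : ℕ × ℕ => ∫ x, ‖(c q.1 * ch x q.1) * conj (c q.2 * ch x q.2)‖ ∂mu := by
    have : ∀ q : ℕ × ℕ, ∫ x, ‖(c q.1 * ch x q.1) * conj (c q.2 * ch x q.2)‖ ∂mu = ‖c q.1‖ * ‖c q.2‖ := by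
      intro q
      have h2 : ∀ x : Om, ‖(c q.1 * ch x q.1) * conj (c q.2 * ch x q.2)‖ = ‖c q.1‖ * ‖c q.2‖ := by
        intro x
        rw [norm_mul, RCLike.norm_conj, hnorm, hnorm]
      simp only [h2, integral_const, probReal_univ, one_smul]
    simp only [this]
    exact hc.mul_of_nonneg hc (fun n => norm_nonneg _) (fun n => norm_nonneg _)
  have h3 := integral_tsum_of_summable_integral_norm hint hsum
  have h4 : ∀ q : ℕ × ℕ, ∫ x, (c q.1 * ch x q.1) * conj (c q.2 * ch x q.2) ∂mu =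
      if q.1 = q.2 then ((‖c q.1‖ ^ 2 : ℝ) : ℂ) else 0 := by
    intro q
    by_cases hq1 : q.1 = 0
    · rw [hq1, hc0]
      simp
    by_cases hq2 : q.2 = 0
    · rw [hq2, hc0]
      simp [hq1]
    have h5 : ∀ x : Om, (c q.1 * ch x q.1) * conj (c q.2 * ch x q.2) =
        (c q.1 * conj (c q.2)) * (ch x q.1 * conj (ch x q.2)) := by
      intro x
      rw [map_mul]
      ring
    simp only [h5]
    rw [integral_const_mul, integral_ch hq1 hq2]
    by_cases h6 : q.1 = q.2
    · rw [if_pos h6, if_pos h6, mul_one, ← h6, Complex.mul_conj, Complex.normSq_eq_norm_sq]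
    · rw [if_neg h6, if_neg h6, mul_zero]
  have h7 : ∑' q : ℕ × ℕ, (if q.1 = q.2 then ((‖c q.1‖ ^ 2 : ℝ) : ℂ) else 0) =
      ∑' n : ℕ, ((‖c n‖ ^ 2 : ℝ) : ℂ) := by
    have hinj : Function.Injective (fun n : ℕ => (n, n)) := fun a b hab => (Prod.mk.inj hab).1
    rw [← hinj.tsum_eq]
    · simp
    · intro q hq
      rw [Function.mem_support] at hq
      have : q.1 = q.2 := by
        by_contra hne
        exact hq (if_neg hne)
      exact ⟨q.1, by ext <;> simp [this]⟩
  have h8 : ((∫ x, ‖∑' n, c n * ch x n‖ ^ 2 ∂mu : ℝ) : ℂ) = ((∑' n, ‖c n‖ ^ 2 : ℝ) : ℂ) := by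
    rw [← integral_complex_ofReal]
    simp only [h1]
    rw [← h3]
    simp only [h4]
    rw [h7]
    push_cast
    rfl
  exact_mod_cast h8

end Pool.Agent.LibTG78
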