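import Mathlib
import Pool.Agent.LibTG78.Defs
import Pool.Agent.LibTG78.B11

set_option autoImplicit false

namespace Pool.Agent.LibTG78

open MeasureTheory Filter Topology Pool.Agent.LibMM99
open scoped ComplexConjugate


/-- coefficients of `ZZ s u v * DS (smo u v X) a` -/
noncomputable def cv (s : ℂ) (u v X : ℝ) (a : ℕ → ℂ) (n : ℕ) : ℂ := by
  classical exact if n ∈ Nat.factoredNumbers (prm u v) then
    ∑ q ∈ n.divisorsAntidiagonal, ((q.1 : ℕ) : ℂ) ^ (-(1 / 2 : ℂ) - s) *
      (if (q.2 : ℝ) ≤ X then a q.2 * (((Real.sqrt q.2)⁻¹ : ℝ) : ℂ) else 0) else 0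

theorem B12_factored {u v X : ℝ} {n : ℕ} (h : n ∈ Nat.factoredNumbers (prm u v))
    (hX : (n : ℝ) ≤ X) : n ∈ smo u v X := by
  rcases le_or_gt 0 v with hv | hv
  · exact t13_factored hv h X hX
  · rw [Nat.mem_factoredNumbers] at h
    unfold smo
    rw [Finset.mem_filter, Finset.mem_Icc]
    refine ⟨⟨Nat.pos_of_ne_zero h.1, Nat.le_floor hX⟩, fun p hp => ?_⟩
    have hp' : p ∈ n.primeFactorsList := by rwa [← Nat.mem_primeFactors_iff_mem_primeFactorsList]
    have h2 := h.2 p hp'
    simp only [prm, Finset.mem_filter, Finset.mem_Icc, Nat.floor_of_nonpos hv.le] at h2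
    omega

/-- the coefficients as a sum over the divisors in `smo` -/
theorem B12_cv {s : ℂ} {u v X : ℝ} (hX : 0 ≤ X) (a : ℕ → ℂ) (n : ℕ) :
    cv s u v X a n = ∑ d ∈ smo u v X, (if d ∣ n then
      (Nat.factoredNumbers (prm u v)).indicator (fun m : ℕ => (m : ℂ) ^ (-(1 / 2 : ℂ) - s)) (n / d) *
        (a d * (((Real.sqrt d)⁻¹ : ℝ) : ℂ)) else 0) := by
  classical
  unfold cv
  have hsm : ∀ d ∈ smo u v X, d ∈ Nat.factoredNumbers (prm u v) := fun d hd => t13_mem_smo hd
  split_ifs with hn
  · have hn0 : n ≠ 0 := Nat.ne_zero_of_mem_factoredNumbers hn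
    rw [Nat.sum_divisorsAntidiagonal' (f := fun q1 q2 : ℕ => ((q1 : ℕ) : ℂ) ^ (-(1 / 2 : ℂ) - s) *
      (if (q2 : ℝ) ≤ X then a q2 * (((Real.sqrt q2)⁻¹ : ℝ) : ℂ) else 0))]
    rw [← Finset.sum_filter]
    have hsub : (smo u v X).filter (· ∣ n) ⊆ n.divisors := by
      intro d hd
      rw [Finset.mem_filter] at hd
      exact Nat.mem_divisors.2 ⟨hd.2, hn0⟩
    rw [← Finset.sum_subset hsub]
    · refine Finset.sum_congr rfl fun d hd => ?_
      rw [Finset.mem_filter] at hd
      have hdX : (d : ℝ) ≤ X := by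
        have h1 := hd.1
        unfold smo at h1
        rw [Finset.mem_filter, Finset.mem_Icc] at h1
        exact (Nat.le_floor_iff hX).1 h1.1.2
      have hq : n / d ∈ Nat.factoredNumbers (prm u v) := by
        have hd2 : n / d ∣ n := Nat.div_dvd_of_dvd hd.2
        rw [Nat.mem_factoredNumbers_iff_forall_le] at hn ⊢
        refine ⟨fun h0 => ?_, fun p hp hpp hpd => ?_⟩
        · have := Nat.div_mul_cancel hd.2
          rw [h0, zero_mul] at this
          exact hn0 this.symm
        · exact hn.2 p (hp.trans (Nat.div_le_self n d)) hpp (hpd.trans hd2)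
      rw [if_pos hdX, Set.indicator_of_mem hq]
    · intro d hd hd2
      have hdn : d ∣ n := (Nat.mem_divisors.1 hd).1
      rw [if_neg, mul_zero]
      intro hdX
      refine hd2 (Finset.mem_filter.2 ⟨B12_factored ?_ hdX, hdn⟩)
      rw [Nat.mem_factoredNumbers_iff_forall_le] at hn ⊢
      refine ⟨fun h0 => ?_, fun p hp hpp hpd => ?_⟩
      · rw [h0] at hdn
        exact hn0 (Nat.eq_zero_of_zero_dvd hdn)
      · exact hn.2 p (hp.trans (Nat.le_of_dvd (Nat.pos_of_ne_zero hn0) hdn)) hpp (hpd.trans hdn)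
  · symm
    refine Finset.sum_eq_zero fun d hd => ?_
    split_ifs with hdn
    · rw [Set.indicator_of_notMem, zero_mul]
      intro hq
      refine hn ?_
      have := Nat.mul_mem_factoredNumbers hq (hsm d hd)
      rwa [Nat.div_mul_cancel hdn] at this
    · rfl

theorem ZZ_mul_DS {s : ℂ} {L : ℝ} (h : Adm s L) {u v : ℝ} (hu : 1 ≤ u) (hv : v ≤ Real.exp L) {X : ℝ} (hX : 1 ≤ X) (a : ℕ → ℂ) :
    (Summable fun n => ‖cv s u v X a n‖) ∧
    ∀ x : Om, ZZ s u v x * DS (smo u v X) a x = ∑' n, cv s u v X a n * ch x n := by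
  classical
  have _ := hu
  obtain ⟨hS, hZ⟩ := ZZ_hasSum h hv (u := u)
  set F : ℕ → ℂ := (Nat.factoredNumbers (prm u v)).indicator
    (fun m : ℕ => (m : ℂ) ^ (-(1 / 2 : ℂ) - s)) with hF
  set G : ℕ → ℂ := fun d => a d * (((Real.sqrt d)⁻¹ : ℝ) : ℂ) with hG
  have hd0 : ∀ d ∈ smo u v X, d ≠ 0 := fun d hd =>
    Nat.ne_zero_of_mem_factoredNumbers (t13_mem_smo hd)
  have hcv : ∀ n, cv s u v X a n = ∑ d ∈ smo u v X, (if d ∣ n then F (n / d) * G d else 0) :=
    fun n => B12_cv (by linarith) a n
  -- summability of `F`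
  have hFs : Summable fun m => ‖F m‖ := by
    have h1 : (fun m => ‖F m‖) = (Nat.factoredNumbers (prm u v)).indicator
        (fun m : ℕ => ‖(m : ℂ) ^ (-(1 / 2 : ℂ) - s)‖) := by
      funext m
      exact norm_indicator_eq_indicator_norm _ _
    rw [h1, ← summable_subtype_iff_indicator]
    refine hS.congr fun m => ?_
    have hm : 0 < (m : ℕ) := Nat.pos_of_ne_zero (Nat.ne_zero_of_mem_factoredNumbers m.2)
    simp only [Function.comp_apply]
    rw [Complex.norm_natCast_cpow_of_pos hm]
    congr 1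
    simp
  have hinj : ∀ d ∈ smo u v X, Function.Injective fun m : ℕ => m * d := fun d hd m m' hm =>
    Nat.eq_of_mul_eq_mul_right (Nat.pos_of_ne_zero (hd0 d hd)) hm
  have hout : ∀ d ∈ smo u v X, ∀ n ∉ Set.range (fun m : ℕ => m * d), ¬ d ∣ n := by
    rintro d hd n hn ⟨m, rfl⟩
    exact hn ⟨m, mul_comm _ _⟩
  refine ⟨?_, fun x => ?_⟩
  · have h2 : ∀ d ∈ smo u v X, Summable fun n => ‖(if d ∣ n then F (n / d) * G d else 0 : ℂ)‖ := by
      intro d hd
      have h3 : Summable ((fun n => ‖(if d ∣ n then F (n / d) * G d else 0 : ℂ)‖) ∘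
          fun m : ℕ => m * d) := by
        refine (hFs.mul_right ‖G d‖).congr fun m => ?_
        simp only [Function.comp_apply]
        rw [if_pos (dvd_mul_left d m), Nat.mul_div_cancel _ (Nat.pos_of_ne_zero (hd0 d hd))]
        exact (norm_mul (F m) (G d)).symm
      refine ((hinj d hd).summable_iff fun n hn => ?_).1 h3
      rw [if_neg (hout d hd n hn), norm_zero]
    refine Summable.of_nonneg_of_le (fun n => norm_nonneg _) (fun n => ?_) (summable_sum h2)
    rw [hcv n]
    exact norm_sum_le _ _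
  · have hZ' : HasSum (fun m : ℕ => F m * ch x m) (ZZ s u v x) := by
      have h1 : (fun m : ℕ => F m * ch x m) = (Nat.factoredNumbers (prm u v)).indicator
          (fun m : ℕ => (m : ℂ) ^ (-(1 / 2 : ℂ) - s) * ch x m) := by
        funext m
        rw [hF]
        by_cases hm : m ∈ Nat.factoredNumbers (prm u v)
        · rw [Set.indicator_of_mem hm, Set.indicator_of_mem hm]
        · rw [Set.indicator_of_notMem hm, Set.indicator_of_notMem hm, zero_mul]
      rw [h1, ← hasSum_subtype_iff_indicator]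
      exact hZ x
    have h3 : ∀ d ∈ smo u v X, HasSum (fun n => (if d ∣ n then F (n / d) * G d else 0 : ℂ) * ch x n)
        (ZZ s u v x * (G d * ch x d)) := by
      intro d hd
      rw [← (hinj d hd).hasSum_iff]
      · have h4 := hZ'.mul_right (G d * ch x d)
        have h5 : (fun n => (if d ∣ n then F (n / d) * G d else 0 : ℂ) * ch x n) ∘
            (fun m : ℕ => m * d) = fun m : ℕ => F m * ch x m * (G d * ch x d) := by
          funext m
          simp only [Function.comp_apply]
          rw [if_pos (dvd_mul_left d m), Nat.mul_div_cancel _ (Nat.pos_of_ne_zero (hd0 d hd))]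
          rcases eq_or_ne m 0 with rfl | hm
          · have hF0 : F 0 = 0 := by
              rw [hF]
              exact Set.indicator_of_notMem (fun h0 => Nat.ne_zero_of_mem_factoredNumbers h0 rfl) _
            rw [hF0]
            ring
          · rw [ch_mul x hm (hd0 d hd)]
            ring
        rw [h5]
        exact h4
      · intro n hn
        rw [if_neg (hout d hd n hn), zero_mul]
    have h6 := hasSum_sum h3
    have h7 : HasSum (fun n => cv s u v X a n * ch x n) (ZZ s u v x * DS (smo u v X) a x) := by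
      have h8 : (fun n => cv s u v X a n * ch x n) = fun n => ∑ d ∈ smo u v X,
          (if d ∣ n then F (n / d) * G d else 0 : ℂ) * ch x n := by
        funext n
        rw [hcv n, Finset.sum_mul]
      have h9 : ZZ s u v x * DS (smo u v X) a x = ∑ d ∈ smo u v X,
          ZZ s u v x * (G d * ch x d) := by
        unfold DS
        rw [Finset.mul_sum]
      rw [h8, h9]
      exact h6
    exact h7.tsum_eq.symm

end Pool.Agent.LibTG78
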