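import Mathlib
import Pool.Agent.LibTG78.Defs
import Pool.Agent.LibTG78.B02

set_option autoImplicit false

namespace Pool.Agent.LibTG78

open MeasureTheory Filter Topology Pool.Agent.LibMM99
open scoped ComplexConjugate

theorem B14_prm_filter (u v : ℝ) : (prm u v).filter Nat.Prime = prm u v := by
  ext p
  simp only [prm, Finset.mem_filter]
  tauto

theorem B14_mem {u v : ℝ} {p : ℕ} (h : p ∈ prm u v) : p.Prime ∧ u < (p : ℝ) ∧ (p : ℝ) ≤ v := by
  simp only [prm, Finset.mem_filter, Finset.mem_Icc] at h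
  refine ⟨h.2.1, h.2.2, ?_⟩
  have h1 : 0 ≤ v := by
    by_contra hv
    push Not at hv
    have h2 : ⌊v⌋₊ = 0 := Nat.floor_of_nonpos hv.le
    have h3 := h.1
    omega
  exact (Nat.le_floor_iff h1).1 h.1.2

theorem B14_mem' {u v : ℝ} {p : ℕ} (hp : p.Prime) (h1 : u < (p : ℝ)) (h2 : (p : ℝ) ≤ v) : p ∈ prm u v := by
  simp only [prm, Finset.mem_filter, Finset.mem_Icc]
  exact ⟨⟨hp.one_lt.le, Nat.le_floor h2⟩, hp, h1⟩

theorem hasSum_twist {κ τ : ℝ} (hκ : 0 ≤ κ) (hτ : 0 ≤ τ) {u v : ℝ} (hτv : τ * Real.log v ≤ 1 / 20) (hv : 1 ≤ v) :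
    HasSum (fun m : Nat.factoredNumbers (prm u v) => ((m : ℕ) : ℝ) ^ (2 * τ) * (LibZM.tau κ m ^ 2 / m))
      (∏ p ∈ prm u v, LibZM.Gsum κ ((p : ℝ)⁻¹ * (p : ℝ) ^ (2 * τ))) := by
  by_cases hv2 : v < 2
  · have h0 : prm u v = ∅ := by
      rw [Finset.eq_empty_iff_forall_notMem]
      intro p hp
      obtain ⟨h1, -, h3⟩ := B14_mem hp
      have : (2 : ℝ) ≤ p := by exact_mod_cast h1.two_le
      linarith
    rw [h0, Finset.prod_empty]
    have hone : (1 : ℕ) ∈ Nat.factoredNumbers ∅ := by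
      rw [Nat.factoredNumbers_empty]; rfl
    have hall : ∀ m : Nat.factoredNumbers ∅, m = ⟨1, hone⟩ := by
      rintro ⟨m, hm⟩
      have hm' := hm
      rw [Nat.factoredNumbers_empty, Set.mem_singleton_iff] at hm'
      exact Subtype.ext hm'
    have h2 := hasSum_single (f := fun m : Nat.factoredNumbers ∅ =>
      ((m : ℕ) : ℝ) ^ (2 * τ) * (LibZM.tau κ m ^ 2 / m)) ⟨1, hone⟩ (fun m hm => absurd (hall m) hm)
    have h3 : ((1 : ℕ) : ℝ) ^ (2 * τ) * (LibZM.tau κ 1 ^ 2 / ((1 : ℕ) : ℝ)) = 1 := by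
      have := t13f_one κ
      unfold t13f at this
      rw [this]
      simp
    simp only at h2
    rwa [h3] at h2
  · push Not at hv2
    have hlog2 : (0.69 : ℝ) < Real.log 2 := by
      have := Real.log_two_gt_d9
      linarith
    have hlogv : Real.log 2 ≤ Real.log v := Real.log_le_log (by norm_num) hv2
    have hτ1 : 2 * τ < 1 := by
      nlinarith
    have hz : ∀ {p : ℕ}, p.Prime → 0 ≤ (p : ℝ)⁻¹ * (p : ℝ) ^ (2 * τ) ∧ (p : ℝ)⁻¹ * (p : ℝ) ^ (2 * τ) < 1 := by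
      intro p hp
      have hp1 : (1 : ℝ) < p := by exact_mod_cast hp.one_lt
      constructor
      · positivity
      · rw [inv_mul_lt_iff₀ (by positivity), mul_one]
        calc (p : ℝ) ^ (2 * τ) < (p : ℝ) ^ (1 : ℝ) := Real.rpow_lt_rpow_of_exponent_lt hp1 hτ1
          _ = p := Real.rpow_one _
    let f : ℕ → ℝ := fun n => (n : ℝ) ^ (2 * τ) * t13f κ n
    have hf1 : f 1 = 1 := by
      show ((1 : ℕ) : ℝ) ^ (2 * τ) * t13f κ 1 = 1
      rw [t13f_one]
      simp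
    have hfmul : ∀ {m n : ℕ}, Nat.Coprime m n → f (m * n) = f m * f n := by
      intro m n h
      show ((m * n : ℕ) : ℝ) ^ (2 * τ) * t13f κ (m * n) = _
      rw [t13f_mul κ h, Nat.cast_mul, Real.mul_rpow (by positivity) (by positivity)]
      show _ = ((m : ℝ) ^ (2 * τ) * t13f κ m) * ((n : ℝ) ^ (2 * τ) * t13f κ n)
      ring
    have hfpow : ∀ {p : ℕ}, p.Prime → ∀ n : ℕ, f (p ^ n) = LibZM.dcoef κ n ^ 2 *
        ((p : ℝ)⁻¹ * (p : ℝ) ^ (2 * τ)) ^ n := by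
      intro p hp n
      show ((p ^ n : ℕ) : ℝ) ^ (2 * τ) * t13f κ (p ^ n) = _
      have e1 : ((p : ℝ) ^ n) ^ (2 * τ) = ((p : ℝ) ^ (2 * τ)) ^ n := by
        rw [← Real.rpow_natCast (p : ℝ) n, ← Real.rpow_natCast ((p : ℝ) ^ (2 * τ)) n,
          ← Real.rpow_mul (by positivity), ← Real.rpow_mul (by positivity), mul_comm]
      rw [t13f_prime_pow κ hp, mul_pow, Nat.cast_pow, e1]
      ring
    have hfnn : ∀ n, 0 ≤ f n := by
      intro n
      have := t13f_nonneg κ n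
      show 0 ≤ (n : ℝ) ^ (2 * τ) * t13f κ n
      positivity
    have h := (EulerProduct.summable_and_hasSum_factoredNumbers_prod_filter_prime_tsum (f := f) hf1
      hfmul (fun {p} hp => by
        have h2 := LibZM.summable_G hκ (hz hp).1 (hz hp).2
        refine h2.congr fun n => ?_
        rw [Real.norm_of_nonneg (hfnn _), hfpow hp]) (prm u v)).2
    rw [B14_prm_filter] at h
    have e : (∏ p ∈ prm u v, LibZM.Gsum κ ((p : ℝ)⁻¹ * (p : ℝ) ^ (2 * τ))) =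
        ∏ p ∈ prm u v, ∑' n : ℕ, f (p ^ n) := by
      refine Finset.prod_congr rfl fun p hp => ?_
      unfold LibZM.Gsum
      exact tsum_congr fun n => (hfpow (B14_mem hp).1 n).symm
    rw [e]
    exact h

theorem B14_pow_sub {x y z : ℝ} (hx : 0 ≤ x) (hxy : x ≤ y) (hyz : y ≤ z) (hxz : 1 / 4 ≤ z - x) (a : ℕ) :
    y ^ a - x ^ a ≤ 4 * (y - x) * z ^ a := by
  have hy : 0 ≤ y := hx.trans hxy
  have hz : 0 ≤ z := hy.trans hyz
  have h1 : y ^ a - x ^ a = (∑ i ∈ Finset.range a, y ^ i * x ^ (a - 1 - i)) * (y - x) :=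
    (Commute.all y x).geom_sum₂_mul a |>.symm
  have h2 : z ^ a - x ^ a = (∑ i ∈ Finset.range a, z ^ i * x ^ (a - 1 - i)) * (z - x) :=
    (Commute.all z x).geom_sum₂_mul a |>.symm
  have h3 : ∑ i ∈ Finset.range a, y ^ i * x ^ (a - 1 - i) ≤
      ∑ i ∈ Finset.range a, z ^ i * x ^ (a - 1 - i) := by
    refine Finset.sum_le_sum fun i _ => ?_
    exact mul_le_mul_of_nonneg_right (pow_le_pow_left₀ hy hyz i) (by positivity)
  have h4 : 0 ≤ ∑ i ∈ Finset.range a, z ^ i * x ^ (a - 1 - i) :=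
    Finset.sum_nonneg fun i _ => by positivity
  have h5 : ∑ i ∈ Finset.range a, z ^ i * x ^ (a - 1 - i) ≤ 4 * z ^ a := by
    have h6 : (∑ i ∈ Finset.range a, z ^ i * x ^ (a - 1 - i)) * (1 / 4) ≤ z ^ a := by
      calc (∑ i ∈ Finset.range a, z ^ i * x ^ (a - 1 - i)) * (1 / 4)
          ≤ (∑ i ∈ Finset.range a, z ^ i * x ^ (a - 1 - i)) * (z - x) :=
            mul_le_mul_of_nonneg_left hxz h4
        _ = z ^ a - x ^ a := h2.symm
        _ ≤ z ^ a := by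
            have : 0 ≤ x ^ a := by positivity
            linarith
    linarith
  rw [h1]
  have h7 : 0 ≤ y - x := by linarith
  calc (∑ i ∈ Finset.range a, y ^ i * x ^ (a - 1 - i)) * (y - x)
      ≤ (4 * z ^ a) * (y - x) := mul_le_mul_of_nonneg_right (h3.trans h5) h7
    _ = 4 * (y - x) * z ^ a := by ring

theorem B14_Gsum_sub {κ : ℝ} (hκ : 0 ≤ κ) {x y : ℝ} (hx : 0 ≤ x) (hx2 : x ≤ 1 / 2) (hxy : x ≤ y)
    (hy : y ≤ 3 / 4) : LibZM.Gsum κ y ≤ LibZM.Gsum κ x + 4 * (y - x) * LibZM.Gsum κ (3 / 4) := by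
  have hy0 : 0 ≤ y := hx.trans hxy
  have s1 := LibZM.summable_G hκ hy0 (by linarith : y < 1)
  have s2 := LibZM.summable_G hκ hx (by linarith : x < 1)
  have s3 := LibZM.summable_G hκ (by norm_num : (0 : ℝ) ≤ 3 / 4) (by norm_num : (3 / 4 : ℝ) < 1)
  unfold LibZM.Gsum
  rw [← tsum_mul_left, ← s2.tsum_add (s3.mul_left _)]
  refine s1.tsum_le_tsum (fun a => ?_) (s2.add (s3.mul_left _))
  have h := B14_pow_sub hx hxy hy (by linarith) a
  have h2 : 0 ≤ LibZM.dcoef κ a ^ 2 := sq_nonneg _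
  nlinarith

theorem Gsum_ratio {κ : ℝ} (hκ : 0 ≤ κ) : ∃ C : ℝ, 1 ≤ C ∧ ∀ u v τ : ℝ, Real.sqrt 2 ≤ u → u ≤ v → 0 ≤ τ →
    τ * Real.log v ≤ 1 / 20 →
    ∏ p ∈ prm u v, LibZM.Gsum κ ((p : ℝ)⁻¹ * (p : ℝ) ^ (2 * τ)) ≤
      (∏ p ∈ prm u v, LibZM.Gsum κ ((p : ℝ)⁻¹)) * Real.exp (C * τ * Real.log v) := by
  obtain ⟨C0, hC0, hsum⟩ := sum_log_prime_le
  set G := LibZM.Gsum κ (3 / 4) with hG
  have hG1 : 1 ≤ G := by
    have := LibZM.Gsum_ge hκ (by norm_num : (0 : ℝ) ≤ 3 / 4) (by norm_num)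
    have h2 : 0 ≤ κ ^ 2 * (3 / 4) := by positivity
    linarith
  refine ⟨16 * G * (1 + 3 * C0), ?_, ?_⟩
  · nlinarith
  intro u v τ hu huv hτ hτv
  have hsqrt2 : (1.4 : ℝ) ≤ Real.sqrt 2 := by
    rw [show (1.4 : ℝ) = Real.sqrt (1.4 ^ 2) by rw [Real.sqrt_sq (by norm_num)]]
    apply Real.sqrt_le_sqrt
    norm_num
  have hu1 : 1 ≤ u := by linarith
  have hv1 : 1 ≤ v := hu1.trans huv
  have hlogv : 1 / 3 ≤ Real.log v := by
    have h1 : Real.log (Real.sqrt 2) ≤ Real.log v :=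
      Real.log_le_log (by positivity) (hu.trans huv)
    rw [Real.log_sqrt (by norm_num)] at h1
    have := Real.log_two_gt_d9
    linarith
  have hlogv0 : 0 < Real.log v := by linarith
  -- one factor
  have hfac : ∀ p ∈ prm u v, LibZM.Gsum κ ((p : ℝ)⁻¹ * (p : ℝ) ^ (2 * τ)) ≤
      LibZM.Gsum κ ((p : ℝ)⁻¹) * Real.exp (16 * G * τ * (Real.log p / p)) := by
    intro p hp
    obtain ⟨hpp, hp1, hp2⟩ := B14_mem hp
    have hp2' : (2 : ℝ) ≤ p := by exact_mod_cast hpp.two_le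
    have hp0 : (0 : ℝ) < p := by linarith
    have hlogp0 : 0 ≤ Real.log p := Real.log_nonneg (by linarith)
    have hlogp : Real.log p ≤ Real.log v := Real.log_le_log hp0 hp2
    set w : ℝ := 2 * τ * Real.log p with hw
    have hw0 : 0 ≤ w := by positivity
    have hw1 : w ≤ 1 / 10 := by
      have : τ * Real.log p ≤ τ * Real.log v := mul_le_mul_of_nonneg_left hlogp hτ
      rw [hw]; nlinarith
    have hpow : (p : ℝ) ^ (2 * τ) = Real.exp w := by
      rw [Real.rpow_def_of_pos hp0, hw]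
      ring_nf
    have hexp : Real.exp w ≤ 1 + 2 * w := by
      have h1 := Real.abs_exp_sub_one_sub_id_le (x := w) (by rw [abs_of_nonneg hw0]; linarith)
      have h2 := (abs_le.1 h1).2
      nlinarith
    have hexp1 : 1 ≤ Real.exp w := Real.one_le_exp hw0
    have hinv : (p : ℝ)⁻¹ ≤ 1 / 2 := by
      rw [inv_le_comm₀ hp0 (by norm_num)]
      linarith
    have hinv0 : 0 < (p : ℝ)⁻¹ := by positivity
    rw [hpow]
    have hxy : (p : ℝ)⁻¹ ≤ (p : ℝ)⁻¹ * Real.exp w := le_mul_of_one_le_right hinv0.le hexp1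
    have hy : (p : ℝ)⁻¹ * Real.exp w ≤ 3 / 4 := by
      have : Real.exp w ≤ 1.2 := by linarith
      nlinarith
    have h1 := B14_Gsum_sub hκ hinv0.le hinv hxy hy
    have h2 : (p : ℝ)⁻¹ * Real.exp w - (p : ℝ)⁻¹ ≤ 4 * τ * (Real.log p / p) := by
      calc (p : ℝ)⁻¹ * Real.exp w - (p : ℝ)⁻¹ = (p : ℝ)⁻¹ * (Real.exp w - 1) := by ring
        _ ≤ (p : ℝ)⁻¹ * (2 * w) := mul_le_mul_of_nonneg_left (by linarith) hinv0.le
        _ = 4 * τ * (Real.log p / p) := by rw [hw]; field_simp; ring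
    have hGx : 1 ≤ LibZM.Gsum κ ((p : ℝ)⁻¹) := by
      have := LibZM.Gsum_ge hκ hinv0.le (by linarith)
      have h2 : 0 ≤ κ ^ 2 * (p : ℝ)⁻¹ := by positivity
      linarith
    have h3 : LibZM.Gsum κ ((p : ℝ)⁻¹ * Real.exp w) ≤
        LibZM.Gsum κ ((p : ℝ)⁻¹) * (1 + 16 * G * τ * (Real.log p / p)) := by
      have h4 : 0 ≤ 16 * G * τ * (Real.log p / p) := by positivity
      have h5 : 4 * ((p : ℝ)⁻¹ * Real.exp w - (p : ℝ)⁻¹) * G ≤ 16 * G * τ * (Real.log p / p) := by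
        nlinarith
      have h6 : 16 * G * τ * (Real.log p / p) ≤
          LibZM.Gsum κ ((p : ℝ)⁻¹) * (16 * G * τ * (Real.log p / p)) :=
        le_mul_of_one_le_left h4 hGx
      linarith
    refine h3.trans ?_
    apply mul_le_mul_of_nonneg_left _ (by linarith)
    have := Real.add_one_le_exp (16 * G * τ * (Real.log p / p))
    linarith
  have hnn : ∀ p ∈ prm u v, 0 ≤ LibZM.Gsum κ ((p : ℝ)⁻¹ * (p : ℝ) ^ (2 * τ)) := by
    intro p _
    unfold LibZM.Gsum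
    exact tsum_nonneg fun a => by positivity
  refine (Finset.prod_le_prod hnn hfac).trans ?_
  rw [Finset.prod_mul_distrib, ← Real.exp_sum]
  have hprod : 0 ≤ ∏ p ∈ prm u v, LibZM.Gsum κ ((p : ℝ)⁻¹) := by
    refine Finset.prod_nonneg fun p _ => ?_
    unfold LibZM.Gsum
    exact tsum_nonneg fun a => by positivity
  apply mul_le_mul_of_nonneg_left _ hprod
  apply Real.exp_le_exp.2
  rw [← Finset.mul_sum]
  have hsub : ∑ p ∈ prm u v, Real.log p / p ≤ ∑ p ∈ prm 1 v, Real.log p / p := by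
    refine Finset.sum_le_sum_of_subset_of_nonneg ?_ fun p hp _ => ?_
    · intro p hp
      obtain ⟨h1, h2, h3⟩ := B14_mem hp
      exact B14_mem' h1 (by linarith) h3
    · have := (B14_mem hp).2.1
      have := Real.log_nonneg this.le
      positivity
  have h1 := hsum v hv1
  have h2 : ∑ p ∈ prm u v, Real.log p / p ≤ (1 + 3 * C0) * Real.log v := by
    have : C0 ≤ 3 * C0 * Real.log v := by nlinarith
    linarith
  calc 16 * G * τ * ∑ p ∈ prm u v, Real.log p / p ≤ 16 * G * τ * ((1 + 3 * C0) * Real.log v) :=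
        mul_le_mul_of_nonneg_left h2 (by positivity)
    _ = 16 * G * (1 + 3 * C0) * τ * Real.log v := by ring

end Pool.Agent.LibTG78
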