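import Mathlib
import Pool.Agent.LibTG78.Defs
import Pool.Agent.LibTG78.B07
import Pool.Agent.LibTG78.B16

set_option autoImplicit false

namespace Pool.Agent.LibTG78

open MeasureTheory Filter Topology Pool.Agent.LibMM99
open scoped ComplexConjugate


/-- existence of the majorant, with mean values under all tilted measures -/
def R9T (k C u v κ : ℝ) : Prop := ∃ e : Om → ℝ, (∀ x, 0 ≤ e x) ∧ DependsOn e (coo u v) ∧
  IsPolyR (C * κ * Real.log v) e ∧ (∀ x, |‖R8ψ u v κ x‖ ^ k - ‖R8g k u v κ x‖ ^ 2| ≤ e x) ∧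
  ∀ (s : ℂ) (L : ℝ), Adm s L → v ≤ Real.exp L → ∫ x, e x ∂(nu s L) ≤ C * Real.exp (-κ / 20)

/-- Cauchy-Schwarz at one scale -/
theorem B17_cs : ∃ C : ℝ, 1 ≤ C ∧ ∀ (s : ℂ) (L u v : ℝ), Adm s L → Real.sqrt 2 ≤ u → u ≤ v →
    Real.log v ≤ 2 * Real.log u → v ≤ Real.exp L → ∀ (f : Om → ℂ) (n : ℕ), Continuous f →
    DependsOn f (coo u v) → ∀ M : ℝ, 0 ≤ M →
    ∫ x, ‖f x‖ ^ (2 * (2 * n)) ∂mu ≤ M ^ 2 → ∫ x, ‖f x‖ ^ (2 * n) ∂(nu s L) ≤ C * M := by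
  obtain ⟨C, hC, h⟩ := cs_nu
  refine ⟨C * 2, by linarith, fun s L u v hs hu huv hlog hv f n hf hd M hM hI => ?_⟩
  obtain ⟨hq0, hq2⟩ := R5_ratio hu huv hlog
  have h1 := h s L u v hs hu huv hv (fun x => ‖f x‖ ^ (2 * n)) (hf.norm.pow _) (fun x => by positivity)
    (fun x y hxy => by
      have := hd hxy
      simp only [this]) M hM (by
      refine le_trans (le_of_eq ?_) hI
      congr 1
      funext x
      rw [← pow_mul]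
      congr 1
      ring)
  refine h1.trans ?_
  have h2 : C * (Real.log v / Real.log u) ≤ C * 2 := mul_le_mul_of_nonneg_left hq2 (by linarith)
  exact mul_le_mul_of_nonneg_right h2 hM

/-- moments of `ψ` and `g` -/
theorem B17_mom {k : ℝ} (hk : 0 < k) (N : ℕ) : ∃ M : ℝ, 1 ≤ M ∧ ∀ (s : ℂ) (L u v κ : ℝ), Adm s L →
    Real.sqrt 2 ≤ u → u ≤ v → Real.log v ≤ 2 * Real.log u → v ≤ Real.exp L →
    ∫ x, ‖R8ψ u v κ x‖ ^ (2 * N) ∂(nu s L) ≤ M ∧ ∫ x, ‖R8g k u v κ x‖ ^ 2 ∂(nu s L) ≤ M ∧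
    ∫ x, ‖R8ψ u v κ x‖ ^ (2 * (2 * N)) ∂(nu s L) ≤ M ∧ ∫ x, ‖R8g k u v κ x‖ ^ 4 ∂(nu s L) ≤ M := by
  obtain ⟨C0, hC0, hcs⟩ := B17_cs
  obtain ⟨C1, hC1, h1⟩ := psi_moment (2 * N)
  obtain ⟨C2, hC2, h2⟩ := R5_g_moment (α := k / 2) (by positivity) (2 * 1)
  obtain ⟨C3, hC3, h3⟩ := psi_moment (2 * (2 * N))
  obtain ⟨C4, hC4, h4⟩ := R5_g_moment (α := k / 2) (by positivity) (2 * 2)
  have key : ∀ C : ℝ, 0 < C → C ≤ Real.sqrt C ^ 2 := fun C hC => (Real.sq_sqrt hC.le).ge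
  refine ⟨1 + C0 * Real.sqrt C1 + C0 * Real.sqrt C2 + C0 * Real.sqrt C3 + C0 * Real.sqrt C4, by
    have : 0 ≤ C0 * Real.sqrt C1 := by positivity
    have : 0 ≤ C0 * Real.sqrt C2 := by positivity
    have : 0 ≤ C0 * Real.sqrt C3 := by positivity
    have : 0 ≤ C0 * Real.sqrt C4 := by positivity
    linarith, fun s L u v κ hs hu huv hlog hv => ?_⟩
  have p1 : 0 ≤ C0 * Real.sqrt C1 := by positivity
  have p2 : 0 ≤ C0 * Real.sqrt C2 := by positivity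
  have p3 : 0 ≤ C0 * Real.sqrt C3 := by positivity
  have p4 : 0 ≤ C0 * Real.sqrt C4 := by positivity
  have cψ : Continuous (R8ψ u v κ) := continuous_DS _ _
  have cg : Continuous (R8g k u v κ) := continuous_DS _ _
  have dψ : DependsOn (R8ψ u v κ) (coo u v) := dependsOn_DS_smo _ _ _ _
  have dg : DependsOn (R8g k u v κ) (coo u v) := dependsOn_DS_smo _ _ _ _
  refine ⟨?_, ?_, ?_, ?_⟩
  · have := hcs s L u v hs hu huv hlog hv _ N cψ dψ (Real.sqrt C1) (by positivity)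
      ((h1 u v _ hu huv hlog).trans (key C1 hC1))
    linarith
  · have := hcs s L u v hs hu huv hlog hv _ 1 cg dg (Real.sqrt C2) (by positivity)
      ((h2 u v _ hu huv hlog).trans (key C2 hC2))
    rw [mul_one] at this
    linarith
  · have := hcs s L u v hs hu huv hlog hv _ (2 * N) cψ dψ (Real.sqrt C3) (by positivity)
      ((h3 u v _ hu huv hlog).trans (key C3 hC3))
    linarith
  · have := hcs s L u v hs hu huv hlog hv _ 2 cg dg (Real.sqrt C4) (by positivity)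
      ((h4 u v _ hu huv hlog).trans (key C4 hC4))
    norm_num at this
    linarith

theorem B17_h {α : ℝ} (hα : 0 ≤ α) (N : ℕ) (hN : 1 ≤ N) : ∃ C : ℝ, 0 < C ∧ ∀ (s : ℂ) (L u v κ : ℝ) (D : ℕ), Adm s L →
    Real.sqrt 2 ≤ u → u ≤ v → Real.log v ≤ 2 * Real.log u → v ≤ Real.exp L → 0 ≤ κ →
    ∫ x, ‖R5h α u v (Real.exp (κ * Real.log v)) D x‖ ^ (2 * N) ∂(nu s L) ≤ C * Real.exp (-κ / 8) := by
  obtain ⟨C0, hC0, hcs⟩ := B17_cs
  obtain ⟨C1, hC1, h1⟩ := R5_h_moment_gen hα (2 * N) (by omega)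
  refine ⟨C0 * Real.sqrt C1, by positivity, fun s L u v κ D hs hu huv hlog hv hκ => ?_⟩
  have h2 := hcs s L u v hs hu huv hlog hv (R5h α u v (Real.exp (κ * Real.log v)) D) N
    (by unfold R5h; exact continuous_DS _ _) R5_h_dep (Real.sqrt C1 * Real.exp (-κ / 8)) (by positivity)
    ((h1 u v κ D hu huv hlog hκ).trans (le_of_eq (by
      rw [mul_pow, Real.sq_sqrt hC1.le, ← Real.exp_nat_mul]
      congr 2
      push_cast
      ring)))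
  rw [mul_assoc]
  exact h2

theorem B17_S : ∃ C : ℝ, 0 < C ∧ ∀ (s : ℂ) (L u v κ V Q : ℝ) (m : ℕ), Adm s L → Real.sqrt 2 ≤ u → u ≤ v →
    Real.log v ≤ 2 * Real.log u → v ≤ Real.exp L → 1 ≤ V → 0 < Q → 1 ≤ κ → 24 * V * (80 * Q) ^ 2 ≤ κ →
    κ ≤ m → (m : ℝ) ≤ 2 * κ → ∑ p ∈ prm u v, (p : ℝ)⁻¹ ≤ V →
    ((κ / (80 * Q))⁻¹) ^ (2 * (2 * m)) * ∫ x, ‖R4S u v x‖ ^ (2 * (2 * m)) ∂(nu s L) ≤
      C * Real.exp (-(2 * κ)) := by
  obtain ⟨C0, hC0, hcs⟩ := B17_cs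
  refine ⟨C0, by linarith, fun s L u v κ V Q m hs hu huv hlog hv hV hQ hκ1 hκ hm1 hm2 hS => ?_⟩
  obtain ⟨hlu, hlv, hlv3, hu1, hv1⟩ := R5_logs hu huv
  have hV0 : 0 < V := by linarith
  have hκ0 : 0 < κ := by linarith
  set B : ℝ := (κ / (80 * Q))⁻¹ with hB
  have hB0 : 0 < B := by positivity
  have h1 : ((2 * (2 * m)).factorial : ℝ) ≤ (4 * m : ℝ) ^ (2 * (2 * m)) := by
    have := Nat.factorial_le_pow (2 * (2 * m))
    calc ((2 * (2 * m)).factorial : ℝ) ≤ (((2 * (2 * m)) ^ (2 * (2 * m)) : ℕ) : ℝ) := by exact_mod_cast this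
      _ = (4 * m : ℝ) ^ (2 * (2 * m)) := by push_cast; ring
  have h2 : B ^ 2 * (4 * m * V) ≤ 1 / 3 := by
    have h3 : B ^ 2 * (4 * m * V) ≤ B ^ 2 * (4 * (2 * κ) * V) := by gcongr
    have h4 : B ^ 2 * (4 * (2 * κ) * V) = 8 * V * (80 * Q) ^ 2 / κ := by
      rw [hB]
      field_simp
      ring
    have h5 : 8 * V * (80 * Q) ^ 2 / κ ≤ 1 / 3 := by
      rw [div_le_iff₀ hκ0]
      linarith
    linarith
  have h6 : (1 : ℝ) / 3 ≤ Real.exp (-1) := by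
    rw [Real.exp_neg, one_div]
    apply inv_anti₀ (Real.exp_pos _)
    have := Real.exp_one_lt_d9
    linarith
  have h7 := hcs s L u v hs hu huv hlog hv (R4S u v) (2 * m) ((R5_S_poly hv1.le).continuous)
    (R5_S_dep hv1.le) ((4 * m * V) ^ (2 * m)) (by positivity) (by
      refine (R5_S_moment (2 * (2 * m)) hS).trans ?_
      calc ((2 * (2 * m)).factorial : ℝ) * V ^ (2 * (2 * m)) ≤ (4 * m : ℝ) ^ (2 * (2 * m)) * V ^ (2 * (2 * m)) :=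
            mul_le_mul_of_nonneg_right h1 (by positivity)
        _ = ((4 * m * V) ^ (2 * m)) ^ 2 := by rw [← mul_pow, ← pow_mul]; congr 1; ring)
  calc B ^ (2 * (2 * m)) * ∫ x, ‖R4S u v x‖ ^ (2 * (2 * m)) ∂(nu s L) ≤
        B ^ (2 * (2 * m)) * (C0 * (4 * m * V) ^ (2 * m)) := mul_le_mul_of_nonneg_left h7 (by positivity)
    _ = C0 * (B ^ 2 * (4 * m * V)) ^ (2 * m) := by
        rw [pow_mul B 2 (2 * m), mul_pow (B ^ 2)]
        ring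
    _ ≤ C0 * Real.exp (-1) ^ (2 * m) :=
        mul_le_mul_of_nonneg_left (pow_le_pow_left₀ (by positivity) (h2.trans h6) _) (by linarith)
    _ = C0 * Real.exp ((2 * m : ℕ) * (-1)) := by rw [← Real.exp_nat_mul]
    _ ≤ C0 * Real.exp (-(2 * κ)) := by
        apply mul_le_mul_of_nonneg_left _ (by linarith)
        apply Real.exp_le_exp.2
        push_cast
        linarith

theorem B17_int {s : ℂ} {L : ℝ} (hs : Adm s L) {k : ℝ} {N : ℕ} {u v κ : ℝ} (hv : 1 ≤ v) {D m : ℕ} {c : Fin 9 → ℝ} :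
    ∫ x, R8e k N u v κ D m c x ∂(nu s L) =
      c 0 + c 1 * ∫ x, ‖R8ψ u v κ x‖ ^ (2 * N) ∂(nu s L) + c 2 * ∫ x, ‖R8g k u v κ x‖ ^ 2 ∂(nu s L) +
      c 3 * ∫ x, ‖R5h 1 u v (Real.exp (κ * Real.log v)) D x‖ ^ 2 ∂(nu s L) +
      c 4 * ∫ x, ‖R5h 1 u v (Real.exp (κ * Real.log v)) D x‖ ^ (2 * N) ∂(nu s L) +
      c 5 * ∫ x, ‖R5h (k / 2) u v (Real.exp (κ * Real.log v)) D x‖ ^ 2 ∂(nu s L) +
      c 6 * ∫ x, ‖R4S u v x‖ ^ (2 * (2 * m)) ∂(nu s L) +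
      c 7 * ∫ x, ‖R8ψ u v κ x‖ ^ (2 * (2 * N)) ∂(nu s L) +
      c 8 * ∫ x, ‖R8g k u v κ x‖ ^ 4 ∂(nu s L) := by
  have := isProbabilityMeasure_nu hs
  unfold R8e
  rw [integral_finsetSum _ (fun i _ => (Continuous.integrable_of_hasCompactSupport (R8f_cont k N hv D m i)
    (HasCompactSupport.of_compactSpace _)).const_mul (c i))]
  simp only [integral_const_mul]
  unfold R8f
  simp [Fin.sum_univ_succ]
  ring

private theorem B17_e (κ : ℝ) : Real.exp (1 / 80 * κ) * Real.exp (-1 / 16 * κ) = Real.exp (-4 / 80 * κ) ∧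
    (Real.exp (-1 / 16 * κ))⁻¹ = Real.exp (1 / 16 * κ) ∧
    Real.exp (1 / 80 * κ) * (Real.exp (-1 / 16 * κ))⁻¹ = Real.exp (6 / 80 * κ) ∧
    Real.exp (6 / 80 * κ) * Real.exp (-1 / 2 * κ) = Real.exp (-34 / 80 * κ) ∧
    Real.exp (1 / 80 * κ) * Real.exp (-1 / 2 * κ) = Real.exp (-39 / 80 * κ) ∧
    Real.exp (6 / 80 * κ) * Real.exp (-κ / 8) = Real.exp (-4 / 80 * κ) ∧
    Real.exp (1 / 80 * κ) * Real.exp (-κ / 8) = Real.exp (-9 / 80 * κ) := by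
  refine ⟨?_, ?_, ?_, ?_, ?_, ?_, ?_⟩
  · rw [← Real.exp_add]; congr 1; ring
  · rw [← Real.exp_neg]; congr 1; ring
  · rw [← Real.exp_neg, ← Real.exp_add]; congr 1; ring
  · rw [← Real.exp_add]; congr 1; ring
  · rw [← Real.exp_add]; congr 1; ring
  · rw [← Real.exp_add]; congr 1; ring
  · rw [← Real.exp_add]; congr 1; ring

/-- the constant term -/
private theorem B17_cst {N : ℕ} (hN : 1 ≤ N) {κ G Ce μ ε F : ℝ} (hκ : 1 ≤ κ) (hG : 0 < G) (hCe : 0 < Ce)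
    (hμ : μ = Real.exp (-1 / 16 * κ)) (hε : ε = Ce * Real.exp (-κ / 4)) (hF : F = G * Real.exp (1 / 80 * κ)) :
    F * (3 * μ + μ⁻¹ * (2 * ε ^ 2) + 4 ^ N * ε ^ (2 * N) + μ⁻¹ * (6 * ε ^ 2)) + 3 * μ ≤
      (G * (3 + 8 * Ce ^ 2 + 4 ^ N * Ce ^ (2 * N)) + 3) * Real.exp (-1 / 20 * κ) := by
  have hκ0 : 0 ≤ κ := by linarith
  obtain ⟨e1, hμi, e4, e5, e6, e7, e8⟩ := B17_e κ
  rw [← hμ] at e1 hμi e4
  have hε' : ε = Ce * Real.exp (-1 / 4 * κ) := by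
    rw [hε]; congr 2; ring
  have hNR : (1 : ℝ) ≤ N := by exact_mod_cast hN
  have e2 : ε ^ 2 = Ce ^ 2 * Real.exp (-1 / 2 * κ) := by
    rw [hε', mul_pow, ← Real.exp_nat_mul]
    congr 2
    push_cast
    ring
  have e3 : ε ^ (2 * N) ≤ Ce ^ (2 * N) * Real.exp (-1 / 2 * κ) := by
    rw [hε', mul_pow, ← Real.exp_nat_mul]
    apply mul_le_mul_of_nonneg_left _ (pow_nonneg hCe.le _)
    apply Real.exp_le_exp.2
    push_cast
    nlinarith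
  have hmono : ∀ {a b : ℝ}, a ≤ b → Real.exp (a * κ) ≤ Real.exp (b * κ) := fun h => R10_exp hκ0 h
  have h1 : F * (3 * μ + μ⁻¹ * (2 * ε ^ 2) + 4 ^ N * ε ^ (2 * N) + μ⁻¹ * (6 * ε ^ 2)) =
      G * (3 * (Real.exp (1 / 80 * κ) * μ) + 8 * ((Real.exp (1 / 80 * κ) * μ⁻¹) * ε ^ 2) +
        4 ^ N * (Real.exp (1 / 80 * κ) * ε ^ (2 * N))) := by
    rw [hF]; ring
  have h2 : (Real.exp (1 / 80 * κ) * μ⁻¹) * ε ^ 2 = Ce ^ 2 * Real.exp (-34 / 80 * κ) := by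
    rw [e4, e2, ← e5]; ring
  have h3 : Real.exp (1 / 80 * κ) * ε ^ (2 * N) ≤ Ce ^ (2 * N) * Real.exp (-39 / 80 * κ) := by
    calc Real.exp (1 / 80 * κ) * ε ^ (2 * N) ≤
        Real.exp (1 / 80 * κ) * (Ce ^ (2 * N) * Real.exp (-1 / 2 * κ)) :=
          mul_le_mul_of_nonneg_left e3 (Real.exp_pos _).le
      _ = Ce ^ (2 * N) * Real.exp (-39 / 80 * κ) := by rw [← e6]; ring
  have h4 : Real.exp (-4 / 80 * κ) ≤ Real.exp (-1 / 20 * κ) := hmono (by norm_num)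
  have h5 : Real.exp (-34 / 80 * κ) ≤ Real.exp (-1 / 20 * κ) := hmono (by norm_num)
  have h6 : Real.exp (-39 / 80 * κ) ≤ Real.exp (-1 / 20 * κ) := hmono (by norm_num)
  have h7 : μ ≤ Real.exp (-1 / 20 * κ) := by rw [hμ]; exact hmono (by norm_num)
  rw [h1, e1, h2]
  clear h1 h2 hmono e1 e2 e3 e4 e5 e6 e7 e8 hμi hε' hε hμ hF
  have h8 : Real.exp (1 / 80 * κ) * ε ^ (2 * N) ≤ Ce ^ (2 * N) * Real.exp (-1 / 20 * κ) :=
    h3.trans (mul_le_mul_of_nonneg_left h6 (pow_nonneg hCe.le _))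
  have h9 : 4 ^ N * (Real.exp (1 / 80 * κ) * ε ^ (2 * N)) ≤
      4 ^ N * (Ce ^ (2 * N) * Real.exp (-1 / 20 * κ)) :=
    mul_le_mul_of_nonneg_left h8 (by positivity)
  have h10 : 8 * (Ce ^ 2 * Real.exp (-34 / 80 * κ)) ≤ 8 * (Ce ^ 2 * Real.exp (-1 / 20 * κ)) :=
    mul_le_mul_of_nonneg_left (mul_le_mul_of_nonneg_left h5 (sq_nonneg _)) (by norm_num)
  have h11 := mul_le_mul_of_nonneg_left (add_le_add (add_le_add
    (mul_le_mul_of_nonneg_left h4 (show (0 : ℝ) ≤ 3 by norm_num)) h10) h9) hG.le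
  calc G * (3 * Real.exp (-4 / 80 * κ) + 8 * (Ce ^ 2 * Real.exp (-34 / 80 * κ)) +
        4 ^ N * (Real.exp (1 / 80 * κ) * ε ^ (2 * N))) + 3 * μ
      ≤ G * (3 * Real.exp (-1 / 20 * κ) + 8 * (Ce ^ 2 * Real.exp (-1 / 20 * κ)) +
        4 ^ N * (Ce ^ (2 * N) * Real.exp (-1 / 20 * κ))) + 3 * Real.exp (-1 / 20 * κ) := by
        linarith only [h11, h7]
    _ = (G * (3 + 8 * Ce ^ 2 + 4 ^ N * Ce ^ (2 * N)) + 3) * Real.exp (-1 / 20 * κ) := by ring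

/-- the bounds for the coefficients -/
private theorem B17_K {N : ℕ} {κ G Ce μ F K A : ℝ} (hκ : 1 ≤ κ) (hG : 0 < G) (hCe : 0 < Ce)
    (hμ : μ = Real.exp (-1 / 16 * κ)) (hF : F = G * Real.exp (1 / 80 * κ))
    (hK : K = 7 + G * (11 + 8 * Ce ^ 2 + 4 ^ N * Ce ^ (2 * N) + 4 ^ N)) (hA0 : 0 ≤ A) (hA1 : A ≤ 1) :
    (G * (3 + 8 * Ce ^ 2 + 4 ^ N * Ce ^ (2 * N)) + 3) * Real.exp (-1 / 20 * κ) ≤ K * Real.exp κ ∧
    F * (μ⁻¹ * 2) ≤ K * Real.exp κ ∧ F * 4 ^ N ≤ K * Real.exp κ ∧ F * (μ⁻¹ * 6) ≤ K * Real.exp κ ∧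
    μ⁻¹ * A ≤ K * Real.exp κ ∧ 3 * μ ≤ K * Real.exp κ := by
  have hκ0 : 0 ≤ κ := by linarith
  obtain ⟨e1, hμi, e4, e5, e6, e7, e8⟩ := B17_e κ
  rw [← hμ] at e1 hμi e4
  have hmono : ∀ {a : ℝ}, a ≤ 1 → Real.exp (a * κ) ≤ Real.exp κ := fun h => by
    have := R10_exp hκ0 h
    rwa [one_mul] at this
  have hx1 : Real.exp (-1 / 20 * κ) ≤ Real.exp κ := hmono (by norm_num)
  have hx2 : Real.exp (6 / 80 * κ) ≤ Real.exp κ := hmono (by norm_num)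
  have hx3 : Real.exp (1 / 80 * κ) ≤ Real.exp κ := hmono (by norm_num)
  have hx4 : μ⁻¹ ≤ Real.exp κ := by
    rw [hμi]
    exact hmono (by norm_num)
  have hx5 : μ ≤ Real.exp κ := by
    rw [hμ]
    exact hmono (by norm_num)
  have hxp : 0 < Real.exp κ := Real.exp_pos _
  have hG4 : 0 ≤ G * (8 * Ce ^ 2 + 4 ^ N * Ce ^ (2 * N)) := by positivity
  have hG5 : 0 ≤ G * 4 ^ N := by positivity
  have hK1 : 1 ≤ K := by
    rw [hK]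
    linarith only [hG4, hG5, hG]
  refine ⟨?_, ?_, ?_, ?_, ?_, ?_⟩
  · apply mul_le_mul _ hx1 (Real.exp_pos _).le (by linarith only [hK1])
    rw [hK]
    linarith only [hG4, hG5, hG]
  · have : F * (μ⁻¹ * 2) = (2 * G) * Real.exp (6 / 80 * κ) := by
      rw [hF, ← e4]; ring
    rw [this]
    apply mul_le_mul _ hx2 (Real.exp_pos _).le (by linarith only [hK1])
    rw [hK]; linarith only [hG4, hG5, hG]
  · have : F * 4 ^ N = (G * 4 ^ N) * Real.exp (1 / 80 * κ) := by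
      rw [hF]; ring
    rw [this]
    apply mul_le_mul _ hx3 (Real.exp_pos _).le (by linarith only [hK1])
    rw [hK]; linarith only [hG4, hG5, hG]
  · have : F * (μ⁻¹ * 6) = (6 * G) * Real.exp (6 / 80 * κ) := by
      rw [hF, ← e4]; ring
    rw [this]
    apply mul_le_mul _ hx2 (Real.exp_pos _).le (by linarith only [hK1])
    rw [hK]; linarith only [hG4, hG5, hG]
  · calc μ⁻¹ * A ≤ Real.exp κ * 1 := mul_le_mul hx4 hA1 hA0 hxp.le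
      _ = 1 * Real.exp κ := by ring
      _ ≤ K * Real.exp κ := mul_le_mul_of_nonneg_right hK1 hxp.le
  · have h3 : (3 : ℝ) ≤ K := by rw [hK]; linarith only [hG4, hG5, hG]
    exact mul_le_mul h3 hx5 (by rw [hμ]; exact (Real.exp_pos _).le) (by linarith only [hK1])

/-- the bound for the integral of the error -/
private theorem B17_fin {N : ℕ} (hN : 1 ≤ N) {κ G Ce Ca Cb Cc Cd M μ ε F A K T I1 I2 I3 I4 I5 I6 : ℝ} (hκ : 1 ≤ κ)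
    (hG : 0 < G) (hCe : 0 < Ce) (hM : 0 ≤ M) (hCa : 0 ≤ Ca) (hCb : 0 ≤ Cb) (hCc : 0 ≤ Cc) (hK : 1 ≤ K)
    (hμ : μ = Real.exp (-1 / 16 * κ)) (hε : ε = Ce * Real.exp (-κ / 4)) (hF : F = G * Real.exp (1 / 80 * κ))
    (hT : T = G * (3 + 8 * Ce ^ 2 + 4 ^ N * Ce ^ (2 * N) + 2 * Ca + 4 ^ N * Cb + 6 * Cc) + 3 + Cd + 6 * M)
    (i1 : I1 ≤ Ca * Real.exp (-κ / 8)) (i2 : I2 ≤ Cb * Real.exp (-κ / 8)) (i3 : I3 ≤ Cc * Real.exp (-κ / 8))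
    (hCd : 0 ≤ Cd) (i4 : A * I4 ≤ Cd * Real.exp (-(2 * κ))) (h5 : I5 ≤ M) (h6 : I6 ≤ M) :
    F * (3 * μ + μ⁻¹ * (2 * ε ^ 2) + 4 ^ N * ε ^ (2 * N) + μ⁻¹ * (6 * ε ^ 2)) + 3 * μ +
      F * (μ⁻¹ * 2) * I1 + F * 4 ^ N * I2 + F * (μ⁻¹ * 6) * I3 + μ⁻¹ * A * I4 + 3 * μ * I5 + 3 * μ * I6 ≤
      ((3 * Real.log K + 30 + 16 * ((N : ℝ) + 1)) + T) * Real.exp (-κ / 20) := by
  have hcst := B17_cst hN hκ hG hCe hμ hε hF
  have hκ0 : 0 ≤ κ := by linarith only [hκ]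
  obtain ⟨e1, hμi, e4, e5, e6, e7, e8⟩ := B17_e κ
  rw [← hμ] at e1 hμi e4
  have hmono : ∀ {a b : ℝ}, a ≤ b → Real.exp (a * κ) ≤ Real.exp (b * κ) := fun h => R10_exp hκ0 h
  obtain ⟨η, hη⟩ : ∃ η : ℝ, η = Real.exp (-1 / 20 * κ) := ⟨_, rfl⟩
  have hη' : Real.exp (-κ / 20) = η := by rw [hη]; congr 1; ring
  have hη0 : 0 < η := by rw [hη]; exact Real.exp_pos _
  rw [← hη] at hcst
  have hμ0 : 0 < μ := by rw [hμ]; exact Real.exp_pos _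
  have hF0 : 0 < F := by rw [hF]; exact mul_pos hG (Real.exp_pos _)
  have y1 : Real.exp (-4 / 80 * κ) ≤ η := by rw [hη]; exact hmono (by norm_num)
  have y2 : Real.exp (-9 / 80 * κ) ≤ η := by rw [hη]; exact hmono (by norm_num)
  have j1 : F * (μ⁻¹ * 2) * I1 ≤ G * (2 * Ca) * η := by
    calc F * (μ⁻¹ * 2) * I1 ≤ F * (μ⁻¹ * 2) * (Ca * Real.exp (-κ / 8)) :=
          mul_le_mul_of_nonneg_left i1 (by positivity)
      _ = G * (2 * Ca) * Real.exp (-4 / 80 * κ) := by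
          rw [hF, ← e7, ← e4]; ring
      _ ≤ G * (2 * Ca) * η := mul_le_mul_of_nonneg_left y1 (by positivity)
  have j2 : F * 4 ^ N * I2 ≤ G * (4 ^ N * Cb) * η := by
    calc F * 4 ^ N * I2 ≤ F * 4 ^ N * (Cb * Real.exp (-κ / 8)) :=
          mul_le_mul_of_nonneg_left i2 (by positivity)
      _ = G * (4 ^ N * Cb) * Real.exp (-9 / 80 * κ) := by
          rw [hF, ← e8]; ring
      _ ≤ G * (4 ^ N * Cb) * η := mul_le_mul_of_nonneg_left y2 (by positivity)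
  have j3 : F * (μ⁻¹ * 6) * I3 ≤ G * (6 * Cc) * η := by
    calc F * (μ⁻¹ * 6) * I3 ≤ F * (μ⁻¹ * 6) * (Cc * Real.exp (-κ / 8)) :=
          mul_le_mul_of_nonneg_left i3 (by positivity)
      _ = G * (6 * Cc) * Real.exp (-4 / 80 * κ) := by
          rw [hF, ← e7, ← e4]; ring
      _ ≤ G * (6 * Cc) * η := mul_le_mul_of_nonneg_left y1 (by positivity)
  have j4 : μ⁻¹ * A * I4 ≤ Cd * η := by
    calc μ⁻¹ * A * I4 = μ⁻¹ * (A * I4) := by ring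
      _ ≤ Real.exp (1 / 16 * κ) * (Cd * Real.exp (-(2 * κ))) := by
          rw [hμi]
          exact mul_le_mul_of_nonneg_left i4 (Real.exp_pos _).le
      _ = Cd * (Real.exp (1 / 16 * κ) * Real.exp (-(2 * κ))) := by ring
      _ ≤ Cd * η := by
          apply mul_le_mul_of_nonneg_left _ hCd
          rw [← Real.exp_add, hη]
          apply Real.exp_le_exp.2
          linarith only [hκ]
  have hμη : μ ≤ η := by rw [hμ, hη]; exact hmono (by norm_num)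
  have hj : ∀ I : ℝ, I ≤ M → 3 * μ * I ≤ 3 * M * η := by
    intro I hI
    calc 3 * μ * I ≤ 3 * μ * M := mul_le_mul_of_nonneg_left hI (by positivity)
      _ ≤ 3 * η * M := mul_le_mul_of_nonneg_right (mul_le_mul_of_nonneg_left hμη (by norm_num)) hM
      _ = 3 * M * η := by ring
  have j5 := hj I5 h5
  have j6 := hj I6 h6
  have hlK : 0 ≤ Real.log K := Real.log_nonneg hK
  have hfin : 0 ≤ (3 * Real.log K + 30 + 16 * ((N : ℝ) + 1)) * η := by positivity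
  rw [hη']
  have hTη : T * η = (G * (3 + 8 * Ce ^ 2 + 4 ^ N * Ce ^ (2 * N)) + 3) * η + G * (2 * Ca) * η +
      G * (4 ^ N * Cb) * η + G * (6 * Cc) * η + Cd * η + 3 * M * η + 3 * M * η := by
    rw [hT]; ring
  rw [add_mul _ T η, hTη]
  linarith only [hcst, j1, j2, j3, j4, j5, j6, hfin]

/-- the case of large `κ` -/
theorem R9T_large {k : ℝ} (hk : 0 < k) {N : ℕ} (hN : 1 ≤ N) (hkN : k / 2 ≤ N) : ∃ κ0 C : ℝ, 1 ≤ C ∧
    ∀ u v κ : ℝ, Real.sqrt 2 ≤ u → u ≤ v → Real.log v ≤ 2 * Real.log u → 1 ≤ κ → κ0 ≤ κ → R9T k C u v κ := by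
  have hNR : (1 : ℝ) ≤ N := by exact_mod_cast hN
  obtain ⟨M, hM1, hM⟩ := B17_mom hk N
  obtain ⟨C7, hC7, happ⟩ := R10_approx hk hN hkN
  obtain ⟨V, hV1, hV⟩ := R9_V
  obtain ⟨Ca, hCa, hIa⟩ := B17_h (α := 1) (by norm_num) 1 le_rfl
  obtain ⟨Cb, hCb, hIb⟩ := B17_h (α := 1) (by norm_num) N hN
  obtain ⟨Cc, hCc, hIc⟩ := B17_h (α := k / 2) (by positivity) 1 le_rfl
  obtain ⟨Cd, hCd, hId⟩ := B17_S
  obtain ⟨Q, hQ⟩ : ∃ Q : ℝ, Q = k + 2 * N := ⟨_, rfl⟩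
  have hQ0 : 0 < Q := by rw [hQ]; positivity
  have hV0 : 0 ≤ V := by linarith only [hV1]
  obtain ⟨G, hG⟩ : ∃ G : ℝ, G = C7 * Real.exp (6 * Q * V) := ⟨_, rfl⟩
  have hG1 : 0 < G := by rw [hG]; positivity
  obtain ⟨Ce, hCe⟩ : ∃ Ce : ℝ, Ce = 5 * Real.exp (6 * (k + 1) * V) := ⟨_, rfl⟩
  have hCe0 : 0 < Ce := by rw [hCe]; positivity
  obtain ⟨K, hK⟩ : ∃ K : ℝ, K = 7 + G * (11 + 8 * Ce ^ 2 + 4 ^ N * Ce ^ (2 * N) + 4 ^ N) := ⟨_, rfl⟩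
  have hK1 : 1 ≤ K := by
    have : 0 ≤ G * (11 + 8 * Ce ^ 2 + 4 ^ N * Ce ^ (2 * N) + 4 ^ N) := by positivity
    rw [hK]; linarith only [this]
  obtain ⟨T, hT⟩ : ∃ T : ℝ, T = G * (3 + 8 * Ce ^ 2 + 4 ^ N * Ce ^ (2 * N) + 2 * Ca + 4 ^ N * Cb + 6 * Cc) + 3 + Cd + 6 * M :=
    ⟨_, rfl⟩
  have hM0 : 0 ≤ M := by linarith only [hM1]
  have hCa0 : 0 ≤ Ca := by linarith only [hCa]
  have hCb0 : 0 ≤ Cb := by linarith only [hCb]
  have hCc0 : 0 ≤ Cc := by linarith only [hCc]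
  have hCd0 : 0 ≤ Cd := by linarith only [hCd]
  have hT0 : 0 ≤ T := by rw [hT]; positivity
  have hlK : 0 ≤ Real.log K := Real.log_nonneg hK1
  refine ⟨24 * V * (80 * Q) ^ 2, (3 * Real.log K + 30 + 16 * (N + 1)) + T, by linarith only [hT0, hlK, hNR], ?_⟩
  intro u v κ hu huv hlog hκ hκV
  obtain ⟨hlu, hlv, hlv3, hu1, hv1⟩ := R5_logs hu huv
  have hκ0 : 0 ≤ κ := by linarith only [hκ]
  obtain ⟨D, hD1, hD2⟩ : ∃ D : ℕ, 3 * κ ≤ D ∧ (D : ℝ) ≤ 4 * κ := by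
    refine ⟨⌈3 * κ⌉₊, Nat.le_ceil _, ?_⟩
    have := (Nat.ceil_lt_add_one (show 0 ≤ 3 * κ by positivity)).le
    linarith only [this, hκ]
  obtain ⟨m, hm1, hm2⟩ : ∃ m : ℕ, κ ≤ m ∧ (m : ℝ) ≤ 2 * κ := by
    refine ⟨⌈κ⌉₊, Nat.le_ceil _, ?_⟩
    have := (Nat.ceil_lt_add_one hκ0).le
    linarith only [this, hκ]
  obtain ⟨μ, hμ⟩ : ∃ μ : ℝ, μ = Real.exp (-1 / 16 * κ) := ⟨_, rfl⟩
  have hμ0 : 0 < μ := by rw [hμ]; exact Real.exp_pos _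
  have hμ1 : μ ≤ 1 := by
    rw [hμ]; apply Real.exp_le_one_iff.mpr; linarith only [hκ0]
  obtain ⟨ε, hε⟩ : ∃ ε : ℝ, ε = Ce * Real.exp (-κ / 4) := ⟨_, rfl⟩
  have hε0 : 0 ≤ ε := by rw [hε]; positivity
  obtain ⟨F, hFd⟩ : ∃ F : ℝ, F = G * Real.exp (1 / 80 * κ) := ⟨_, rfl⟩
  have hF : C7 * Real.exp (Q * (κ / (80 * Q) + 6 * V)) = F := by
    rw [hFd, hG, mul_assoc, ← Real.exp_add]
    congr 2
    field_simp
    ring
  have hF0 : 0 < F := by rw [hFd]; positivity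
  obtain ⟨A4, hA4⟩ : ∃ A4 : ℝ, A4 = ((κ / (80 * Q))⁻¹) ^ (2 * (2 * m)) := ⟨_, rfl⟩
  have hA40 : 0 ≤ A4 := by rw [hA4]; positivity
  have hA41 : A4 ≤ 1 := by
    rw [hA4]
    apply pow_le_one₀ (by positivity)
    apply inv_le_one_of_one_le₀
    rw [le_div_iff₀ (by positivity), one_mul]
    refine le_trans ?_ hκV
    have h1 : 1 ≤ 80 * Q := by
      rw [hQ]; linarith only [hk, hNR]
    have h2 : 80 * Q ≤ (80 * Q) ^ 2 := le_self_pow₀ h1 (by norm_num)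
    have h3 : (80 * Q) ^ 2 ≤ 24 * V * (80 * Q) ^ 2 := le_mul_of_one_le_left (by positivity) (by linarith only [hV1])
    exact h2.trans h3
  obtain ⟨b0, b3, b4, b5, b6, b7⟩ := B17_K (N := N) hκ hG1 hCe0 hμ hFd hK hA40 hA41
  have b0' := (B17_cst hN hκ hG1 hCe0 hμ hε hFd).trans b0
  have n0 : 0 ≤ F * (3 * μ + μ⁻¹ * (2 * ε ^ 2) + 4 ^ N * ε ^ (2 * N) + μ⁻¹ * (6 * ε ^ 2)) + 3 * μ := by positivity
  have n3 : 0 ≤ F * (μ⁻¹ * 2) := by positivity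
  have n4 : 0 ≤ F * 4 ^ N := by positivity
  have n5 : 0 ≤ F * (μ⁻¹ * 6) := by positivity
  have n6 : 0 ≤ μ⁻¹ * A4 := by positivity
  have n7 : 0 ≤ 3 * μ := by positivity
  have hz : (0 : ℝ) ≤ K * Real.exp κ := by positivity
  obtain ⟨c, v0, v1, v2, v3, v4, v5, v6, v7, v8⟩ : ∃ c : Fin 9 → ℝ,
      c 0 = F * (3 * μ + μ⁻¹ * (2 * ε ^ 2) + 4 ^ N * ε ^ (2 * N) + μ⁻¹ * (6 * ε ^ 2)) + 3 * μ ∧ c 1 = 0 ∧ c 2 = 0 ∧
      c 3 = F * (μ⁻¹ * 2) ∧ c 4 = F * 4 ^ N ∧ c 5 = F * (μ⁻¹ * 6) ∧ c 6 = μ⁻¹ * A4 ∧ c 7 = 3 * μ ∧ c 8 = 3 * μ :=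
    ⟨![F * (3 * μ + μ⁻¹ * (2 * ε ^ 2) + 4 ^ N * ε ^ (2 * N) + μ⁻¹ * (6 * ε ^ 2)) + 3 * μ,
      0, 0, F * (μ⁻¹ * 2), F * 4 ^ N, F * (μ⁻¹ * 6), μ⁻¹ * A4, 3 * μ, 3 * μ], rfl, rfl, rfl, rfl, rfl, rfl, rfl, rfl, rfl⟩
  have hc0 : ∀ i, 0 ≤ c i := by
    intro i
    fin_cases i
    · exact v0 ▸ n0
    · exact v1 ▸ le_rfl
    · exact v2 ▸ le_rfl
    · exact v3 ▸ n3
    · exact v4 ▸ n4
    · exact v5 ▸ n5
    · exact v6 ▸ n6
    · exact v7 ▸ n7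
    · exact v8 ▸ n7
  have hc1 : ∀ i, c i ≤ K * Real.exp κ := by
    intro i
    fin_cases i
    · exact v0 ▸ b0'
    · exact v1 ▸ hz
    · exact v2 ▸ hz
    · exact v3 ▸ b3
    · exact v4 ▸ b4
    · exact v5 ▸ b5
    · exact v6 ▸ b6
    · exact v7 ▸ b7
    · exact v8 ▸ b7
  refine ⟨R8e k N u v κ D m c, R8e_nonneg hc0, R8e_dep hv1.le, ?_, ?_, ?_⟩
  · have h := R8e_poly (u := u) hk.le hN hkN hv1.le hlv3 hκ hD2 hm2 hK1 hc0 hc1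
    refine h.mono ?_
    have h2 : 0 ≤ κ * Real.log v := by positivity
    have h3 : 0 ≤ T * (κ * Real.log v) := by positivity
    linarith only [h2, h3]
  · intro x
    have hεd : 5 * Real.exp (6 * (k + 1) * V) * Real.exp (-κ / 4) = ε := by rw [hε, hCe]
    have h := happ V κ u v μ ε D m hV0 hκ hu huv hlog (hV u v hu huv hlog) hD1 hμ0 hμ1 hεd.symm x
    rw [R8e_eq, v0, v1, v2, v3, v4, v5, v6, v7, v8]
    rw [← hQ, hF, ← hA4] at h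
    refine h.trans (le_of_eq ?_)
    ring
  · intro s L hs hvL
    rw [B17_int hs hv1.le, v0, v1, v2, v3, v4, v5, v6, v7, v8]
    obtain ⟨-, -, h3, h4⟩ := hM s L u v κ hs hu huv hlog hvL
    have i4 := hId s L u v κ V Q m hs hu huv hlog hvL hV1 hQ0 hκ hκV hm1 hm2 (hV u v hu huv hlog)
    rw [← hA4] at i4
    have i1 := hIa s L u v κ D hs hu huv hlog hvL hκ0
    have i2 := hIb s L u v κ D hs hu huv hlog hvL hκ0
    have i3 := hIc s L u v κ D hs hu huv hlog hvL hκ0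
    rw [mul_one] at i1 i3
    have h := B17_fin hN hκ hG1 hCe0 hM0 hCa0 hCb0 hCc0 hK1 hμ hε hFd hT i1 i2 i3 hCd0 i4 h3 h4
    rw [zero_mul, zero_mul, add_zero, add_zero]
    exact h

/-- the case of small `κ` -/
theorem R9T_small {k : ℝ} (hk : 0 < k) {N : ℕ} (hN : 1 ≤ N) (hkN : k / 2 ≤ N) (κ0 : ℝ) : ∃ C : ℝ, 1 ≤ C ∧
    ∀ u v κ : ℝ, Real.sqrt 2 ≤ u → u ≤ v → Real.log v ≤ 2 * Real.log u → 1 ≤ κ → κ ≤ κ0 → R9T k C u v κ := by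
  obtain ⟨M, hM1, hM⟩ := B17_mom hk N
  have hkN' : k ≤ 2 * N := by linarith
  refine ⟨(30 + 16 * (N + 1)) + (1 + M + M) * Real.exp (κ0 / 20), by
    have : 0 ≤ (1 + M + M) * Real.exp (κ0 / 20) := by positivity
    have : (0 : ℝ) ≤ N := Nat.cast_nonneg N
    linarith, fun u v κ hu huv hlog hκ hκ0 => ?_⟩
  obtain ⟨hlu, hlv, hlv3, hu1, hv1⟩ := R5_logs hu huv
  have hκp : 0 ≤ κ := by linarith
  set c : Fin 9 → ℝ := ![1, 1, 1, 0, 0, 0, 0, 0, 0] with hc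
  have hc0 : ∀ i, 0 ≤ c i := by
    intro i
    rw [hc]
    fin_cases i <;> simp
  have hc1 : ∀ i, c i ≤ 1 * Real.exp κ := by
    intro i
    have h1 : 1 ≤ Real.exp κ := Real.one_le_exp hκp
    rw [hc, one_mul]
    fin_cases i <;> simp <;> linarith
  have hE : 0 ≤ (1 + M + M) * Real.exp (κ0 / 20) := by positivity
  refine ⟨R8e k N u v κ 0 0 c, R8e_nonneg hc0, R8e_dep hv1.le, ?_, ?_, ?_⟩
  · have h := R8e_poly (u := u) hk.le hN hkN hv1.le hlv3 hκ (D := 0) (m := 0) (by simpa using hκp)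
      (by simpa using hκp) le_rfl hc0 hc1
    refine h.mono ?_
    rw [Real.log_one]
    have h2 : 0 ≤ κ * Real.log v := by positivity
    have h3 : 0 ≤ ((1 + M + M) * Real.exp (κ0 / 20)) * (κ * Real.log v) := by positivity
    nlinarith
  · intro x
    rw [R8e_eq]
    refine (R9_crude hk hkN' _ _).trans (le_of_eq ?_)
    simp [hc]
  · intro s L hs hvL
    rw [B17_int hs hv1.le]
    obtain ⟨h1, h2, -, -⟩ := hM s L u v κ hs hu huv hlog hvL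
    have h3 : Real.exp (κ0 / 20) * Real.exp (-κ / 20) ≥ 1 := by
      rw [← Real.exp_add]
      apply Real.one_le_exp
      linarith
    have h4 : (1 + M + M) * 1 ≤ (1 + M + M) * (Real.exp (κ0 / 20) * Real.exp (-κ / 20)) := by gcongr
    have h5 : 0 ≤ (30 + 16 * ((N : ℝ) + 1)) * Real.exp (-κ / 20) := by positivity
    have h6 : (∫ x, ‖R8ψ u v κ x‖ ^ (2 * N) ∂(nu s L)) + ∫ x, ‖R8g k u v κ x‖ ^ 2 ∂(nu s L) ≤ M + M := by linarith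
    simp [hc]
    linarith

end Pool.Agent.LibTG78
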