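import Mathlib
import Pool.Agent.LibTG78.Defs

/-! The integral over one circle -/

set_option autoImplicit false

namespace Pool.Agent.LibTG78

open MeasureTheory Filter Topology Pool.Agent.LibMM99
open scoped ComplexConjugate

theorem D2a_ch_pow (x : Om) {p : ℕ} (hp : p.Prime) (a : ℕ) : ch x (p ^ a) = ch x p ^ a := by
  induction a with
  | zero => rw [pow_zero, pow_zero, ch_one]
  | succ a ih => rw [pow_succ, ch_mul x (pow_ne_zero a hp.ne_zero) hp.ne_zero, ih, pow_succ]

theorem D2a_conj_mul (x : Om) (n : ℕ) : ch x n * conj (ch x n) = 1 := by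
  rw [Complex.mul_conj, Complex.normSq_eq_norm_sq, norm_ch]
  simp

theorem D2a_ne (x : Om) (p : ℕ) {z : ℂ} (hz : ‖z‖ < 1) : 1 - z * ch x p ≠ 0 := by
  intro h
  have h1 : z * ch x p = 1 := (sub_eq_zero.1 h).symm
  have h2 : ‖z * ch x p‖ = 1 := by rw [h1]; simp
  rw [norm_mul, norm_ch, mul_one] at h2
  linarith

theorem D2a_ne' (x : Om) (p : ℕ) {z : ℂ} (hz : ‖z‖ < 1) : 1 - z * conj (ch x p) ≠ 0 := by
  intro h
  have h1 : z * conj (ch x p) = 1 := (sub_eq_zero.1 h).symm
  have h2 : ‖z * conj (ch x p)‖ = 1 := by rw [h1]; simp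
  rw [norm_mul, Complex.norm_conj, norm_ch, mul_one] at h2
  linarith

/-- one sided geometric series -/
theorem D2a_one {p : ℕ} (hp : p.Prime) {z : ℂ} (hz : ‖z‖ < 1) (a b : ℕ) :
    ∫ x, (1 - z * ch x p)⁻¹ * (ch x (p ^ a) * conj (ch x (p ^ b))) ∂mu =
      if a ≤ b then z ^ (b - a) else 0 := by
  set F : ℕ → Om → ℂ := fun i x => z ^ i * (ch x (p ^ (i + a)) * conj (ch x (p ^ b))) with hF
  have hcont : ∀ i, Continuous (F i) := fun i =>
    continuous_const.mul ((continuous_ch _).mul (Complex.continuous_conj.comp (continuous_ch _)))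
  have hn : ∀ i x, ‖F i x‖ = ‖z‖ ^ i := fun i x => by
    rw [hF]
    simp only [norm_mul, norm_pow, Complex.norm_conj, norm_ch, mul_one]
  have hsum : Summable fun i => ∫ x, ‖F i x‖ ∂mu := by
    have : (fun i => ∫ x, ‖F i x‖ ∂mu) = fun i : ℕ => ‖z‖ ^ i := by
      funext i
      simp_rw [hn]
      simp
    rw [this]
    exact summable_geometric_of_lt_one (norm_nonneg _) hz
  have key := hasSum_integral_of_summable_integral_norm (μ := mu) (F := F)
    (fun i => integrable_of_continuous (hcont i)) hsum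
  have e1 : ∀ x, ∑' i, F i x = (1 - z * ch x p)⁻¹ * (ch x (p ^ a) * conj (ch x (p ^ b))) := by
    intro x
    have h1 : ‖z * ch x p‖ < 1 := by rw [norm_mul, norm_ch, mul_one]; exact hz
    have h2 := (hasSum_geometric_of_norm_lt_one h1).mul_right (ch x (p ^ a) * conj (ch x (p ^ b)))
    refine HasSum.tsum_eq ?_
    refine h2.congr_fun fun i => ?_
    rw [hF]
    simp only []
    rw [pow_add, ch_mul x (pow_ne_zero i hp.ne_zero) (pow_ne_zero a hp.ne_zero),
      D2a_ch_pow x hp i, mul_pow]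
    ring
  have e2 : ∀ i, ∫ x, F i x ∂mu = if i + a = b then z ^ i else 0 := by
    intro i
    rw [hF]
    simp only []
    rw [integral_const_mul, integral_ch (pow_ne_zero _ hp.ne_zero) (pow_ne_zero _ hp.ne_zero)]
    have : (p ^ (i + a) = p ^ b) ↔ i + a = b := (Nat.pow_right_injective hp.two_le).eq_iff
    by_cases h : i + a = b
    · rw [if_pos (this.2 h), if_pos h, mul_one]
    · rw [if_neg (fun h' => h (this.1 h')), if_neg h, mul_zero]
  simp_rw [e1] at key
  simp_rw [e2] at key
  refine key.unique ?_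
  by_cases hab : a ≤ b
  · rw [if_pos hab]
    have h3 := hasSum_ite_eq (b - a) (z ^ (b - a))
    refine h3.congr_fun fun i => ?_
    by_cases hi : i = b - a
    · rw [if_pos (by omega), if_pos hi, hi]
    · rw [if_neg (by omega), if_neg hi]
  · rw [if_neg hab]
    have h3 : (fun i => if i + a = b then z ^ i else 0) = fun _ => (0 : ℂ) := by
      funext i
      rw [if_neg (by omega)]
    rw [h3]
    exact hasSum_zero

/-- the conjugate series -/
theorem D2a_two {p : ℕ} (hp : p.Prime) {z : ℂ} (hz : ‖z‖ < 1) (a b : ℕ) :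
    ∫ x, (1 - z * conj (ch x p))⁻¹ * (ch x (p ^ a) * conj (ch x (p ^ b))) ∂mu =
      if b ≤ a then z ^ (a - b) else 0 := by
  have h := D2a_one hp (z := conj z) (by rw [Complex.norm_conj]; exact hz) b a
  have h2 : ∫ x, (1 - z * conj (ch x p))⁻¹ * (ch x (p ^ a) * conj (ch x (p ^ b))) ∂mu
      = conj (∫ x, (1 - conj z * ch x p)⁻¹ * (ch x (p ^ b) * conj (ch x (p ^ a))) ∂mu) := by
    rw [← integral_conj]
    refine integral_congr_ae (ae_of_all _ fun x => ?_)
    simp only [map_mul, map_inv₀, map_sub, map_one, Complex.conj_conj]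
    ring
  rw [h2, h]
  split_ifs with hh
  · rw [map_pow, Complex.conj_conj]
  · rw [map_zero]

/-- D2a: the integral over one circle -/
theorem circ_int {p : ℕ} (hp : p.Prime) {z : ℂ} (hz : ‖z‖ < 1) (a b : ℕ) :
    ∫ x, (1 - z * ch x p)⁻¹ * (1 - z * conj (ch x p))⁻¹ * (ch x (p ^ a) * conj (ch x (p ^ b))) ∂mu =
      z ^ (Int.natAbs ((a : ℤ) - b)) / (1 - z ^ 2) := by
  have hz2 : 1 - z ^ 2 ≠ 0 := by
    intro h
    have h1 : z ^ 2 = 1 := (sub_eq_zero.1 h).symm
    have h2 : ‖z‖ ^ 2 = 1 := by rw [← norm_pow, h1]; simp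
    nlinarith [norm_nonneg z]
  have hc1 : Continuous fun x : Om => (1 - z * ch x p)⁻¹ * (ch x (p ^ a) * conj (ch x (p ^ b))) :=
    ((continuous_const.sub (continuous_const.mul (continuous_ch _))).inv₀ fun x => D2a_ne x p hz).mul
      ((continuous_ch _).mul (Complex.continuous_conj.comp (continuous_ch _)))
  have hc2 : Continuous fun x : Om =>
      (1 - z * conj (ch x p))⁻¹ * (ch x (p ^ a) * conj (ch x (p ^ b))) :=
    ((continuous_const.sub (continuous_const.mul (Complex.continuous_conj.comp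
      (continuous_ch _)))).inv₀ fun x => D2a_ne' x p hz).mul
      ((continuous_ch _).mul (Complex.continuous_conj.comp (continuous_ch _)))
  have hc3 : Continuous fun x : Om => ch x (p ^ a) * conj (ch x (p ^ b)) :=
    (continuous_ch _).mul (Complex.continuous_conj.comp (continuous_ch _))
  have e : ∀ x : Om, (1 - z * ch x p)⁻¹ * (1 - z * conj (ch x p))⁻¹
        * (ch x (p ^ a) * conj (ch x (p ^ b)))
      = (1 - z ^ 2)⁻¹ * ((1 - z * ch x p)⁻¹ * (ch x (p ^ a) * conj (ch x (p ^ b)))
        + (1 - z * conj (ch x p))⁻¹ * (ch x (p ^ a) * conj (ch x (p ^ b)))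
        - ch x (p ^ a) * conj (ch x (p ^ b))) := by
    intro x
    have h1 := D2a_ne x p hz
    have h2 := D2a_ne' x p hz
    have h3 := D2a_conj_mul x p
    have h4 : (1 - z * ch x p)⁻¹ * (1 - z * conj (ch x p))⁻¹
        = (1 - z ^ 2)⁻¹ * ((1 - z * ch x p)⁻¹ + (1 - z * conj (ch x p))⁻¹ - 1) := by
      field_simp
      linear_combination z ^ 2 * h3
    rw [h4]
    ring
  simp_rw [e]
  have hi : Integrable (fun x : Om => (1 - z * ch x p)⁻¹ * (ch x (p ^ a) * conj (ch x (p ^ b)))
        + (1 - z * conj (ch x p))⁻¹ * (ch x (p ^ a) * conj (ch x (p ^ b)))) mu :=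
    (integrable_of_continuous hc1).add (integrable_of_continuous hc2)
  rw [integral_const_mul, integral_sub hi (integrable_of_continuous hc3),
    integral_add (integrable_of_continuous hc1) (integrable_of_continuous hc2), D2a_one hp hz,
    D2a_two hp hz, integral_ch (pow_ne_zero _ hp.ne_zero) (pow_ne_zero _ hp.ne_zero)]
  have hinj : (p ^ a = p ^ b) ↔ a = b := (Nat.pow_right_injective hp.two_le).eq_iff
  rcases lt_trichotomy a b with h | h | h
  · rw [if_pos h.le, if_neg (by omega), if_neg (fun h' => by have := hinj.1 h'; omega)]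
    have : Int.natAbs ((a : ℤ) - b) = b - a := by omega
    rw [this, div_eq_mul_inv]
    ring
  · subst h
    rw [if_pos le_rfl, if_pos rfl]
    simp
  · rw [if_neg (by omega), if_pos h.le, if_neg (fun h' => by have := hinj.1 h'; omega)]
    have : Int.natAbs ((a : ℤ) - b) = a - b := by omega
    rw [this, div_eq_mul_inv]
    ring

end Pool.Agent.LibTG78
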