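import Mathlib
import Pool.Agent.LibTG78.D2a

/-! The functional as an integral -/

set_option autoImplicit false

namespace Pool.Agent.LibTG78

open MeasureTheory Filter Topology Pool.Agent.LibMM99
open scoped ComplexConjugate

theorem D2b_mem_prm {u v : ℝ} {p : ℕ} : p ∈ prm u v ↔ p.Prime ∧ u < (p : ℝ) ∧ (p : ℝ) ≤ v := by
  unfold prm
  rw [Finset.mem_filter, Finset.mem_Icc]
  constructor
  · rintro ⟨⟨h1, h2⟩, h3, h4⟩
    exact ⟨h3, h4, (Nat.le_floor_iff' (by omega)).1 h2⟩
  · rintro ⟨h1, h2, h3⟩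
    exact ⟨⟨h1.one_le, Nat.le_floor h3⟩, h1, h2⟩

theorem D2b_zp_lt {s : ℂ} {L : ℝ} (h : Adm s L) {p : ℕ} (hp : p.Prime) : ‖zp s p‖ < 1 := by
  obtain ⟨h1, h2⟩ := h
  unfold zp
  rw [Complex.norm_natCast_cpow_of_pos hp.pos]
  refine Real.rpow_lt_one_of_one_lt_of_neg (by exact_mod_cast hp.one_lt) ?_
  have h3 : |s.re| ≤ ‖s‖ := Complex.abs_re_le_norm s
  have h4 : 1 / (20 * L) ≤ 1 / 20 := by
    apply one_div_le_one_div_of_le (by norm_num)
    linarith
  have h5 := (abs_le.1 h3).1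
  simp only [Complex.sub_re, Complex.neg_re, Complex.div_ofNat_re, Complex.one_re]
  linarith

theorem D2b_conj_zp (s : ℂ) (p : ℕ) : conj (zp (conj s) p) = zp s p := by
  unfold zp
  have h := Complex.cpow_conj (p : ℂ) (-(1 / 2 : ℂ) - conj s) (by
    rw [Complex.natCast_arg]
    exact Real.pi_pos.ne)
  rw [Complex.conj_natCast] at h
  rw [← h]
  congr 1
  simp only [map_sub, map_neg, map_div₀, map_one, map_ofNat, Complex.conj_conj]

/-- products of functions of different coordinates -/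
theorem D2b_prod_int (P : Finset ℕ) (h : ℕ → Om → ℂ) (hc : ∀ p ∈ P, Continuous (h p))
    (hd : ∀ p ∈ P, DependsOn (h p) ({p} : Set ℕ)) :
    ∫ x, ∏ p ∈ P, h p x ∂mu = ∏ p ∈ P, ∫ x, h p x ∂mu := by
  classical
  induction P using Finset.induction_on with
  | empty => simp
  | insert q P hq ih =>
    simp_rw [Finset.prod_insert hq]
    rw [← ih (fun p hp => hc p (Finset.mem_insert_of_mem hp))
      (fun p hp => hd p (Finset.mem_insert_of_mem hp))]
    refine integral_mul_indep' (S := ({q} : Set ℕ)) (T := (P : Set ℕ))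
      (hc q (Finset.mem_insert_self q P))
      (continuous_finsetProd _ fun p hp => hc p (Finset.mem_insert_of_mem hp))
      (hd q (Finset.mem_insert_self q P)) ?_ ?_
    · intro x y hxy
      refine Finset.prod_congr rfl fun p hp => ?_
      exact hd p (Finset.mem_insert_of_mem hp) (fun i hi => by
        rw [Set.mem_singleton_iff.1 hi]
        exact hxy p (by exact_mod_cast hp))
    · rw [Set.disjoint_singleton_left]
      exact_mod_cast hq

theorem D2b_ch_prod (x : Om) (P : Finset ℕ) {m : ℕ}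
    (hs : m.primeFactors ⊆ P) : ch x m = ∏ p ∈ P, ch x (p ^ m.factorization p) := by
  have h1 : ∏ p ∈ P, ch x (p ^ m.factorization p)
      = ∏ p ∈ m.primeFactors, ch x (p ^ m.factorization p) := by
    symm
    refine Finset.prod_subset hs fun p hp hpm => ?_
    have : m.factorization p = 0 := by
      rw [← Nat.support_factorization, Finsupp.mem_support_iff, not_not] at hpm
      exact hpm
    rw [this, pow_zero, ch_one]
  rw [h1]
  unfold ch
  refine Finset.prod_congr rfl fun p hp => ?_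
  have hpp := Nat.prime_of_mem_primeFactors hp
  have hf : m.factorization p ≠ 0 := by
    rw [← Nat.support_factorization, Finsupp.mem_support_iff] at hp
    exact hp
  rw [Nat.primeFactors_prime_pow hf hpp, Finset.prod_singleton, Nat.factorization_pow,
    hpp.factorization]
  simp

theorem D2b_nat_prod (P : Finset ℕ) {m : ℕ} (hm : m ≠ 0)
    (hs : m.primeFactors ⊆ P) : m = ∏ p ∈ P, p ^ m.factorization p := by
  conv_lhs => rw [← Nat.prod_factorization_pow_eq_self hm]
  rw [Finsupp.prod, Nat.support_factorization]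
  refine Finset.prod_subset hs fun p hp hpm => ?_
  have : m.factorization p = 0 := by
    rw [← Nat.support_factorization, Finsupp.mem_support_iff, not_not] at hpm
    exact hpm
  rw [this, pow_zero]

theorem D2b_cpow_prod (P : Finset ℕ) (e : ℕ → ℕ) (w : ℂ) :
    ((∏ p ∈ P, p ^ e p : ℕ) : ℂ) ^ w = ∏ p ∈ P, ((p : ℂ) ^ w) ^ e p := by
  classical
  induction P using Finset.induction_on with
  | empty => simp
  | insert q P hq ih =>
    rw [Finset.prod_insert hq, Finset.prod_insert hq, ← ih]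
    push_cast
    have h1 : ((q : ℂ) ^ e q * ∏ p ∈ P, (p : ℂ) ^ e p) ^ w
        = ((q : ℂ) ^ e q) ^ w * (∏ p ∈ P, (p : ℂ) ^ e p) ^ w := by
      have := Complex.natCast_mul_natCast_cpow (q ^ e q) (∏ p ∈ P, p ^ e p) w
      push_cast at this
      exact this
    rw [h1]
    congr 1
    rw [← Complex.cpow_nat_mul, ← Complex.natCast_cpow_natCast_mul]

theorem D2b_rat {s : ℂ} (P : Finset ℕ) {m n : ℕ} (hm : m ≠ 0) (hn : n ≠ 0)
    (hsm : m.primeFactors ⊆ P) (hsn : n.primeFactors ⊆ P) :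
    rat s (m, n) = ∏ p ∈ P, zp s p ^ (Int.natAbs ((m.factorization p : ℤ) - n.factorization p)) := by
  set g := Nat.gcd m n with hg
  have hg0 : g ≠ 0 := Nat.gcd_ne_zero_left hm
  have hgm : g ∣ m := Nat.gcd_dvd_left m n
  have hgn : g ∣ n := Nat.gcd_dvd_right m n
  have hm' : m / g ≠ 0 := (Nat.div_pos (Nat.le_of_dvd (Nat.pos_of_ne_zero hm) hgm)
    (Nat.pos_of_ne_zero hg0)).ne'
  have hn' : n / g ≠ 0 := (Nat.div_pos (Nat.le_of_dvd (Nat.pos_of_ne_zero hn) hgn)
    (Nat.pos_of_ne_zero hg0)).ne'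
  have hM : m / g * (n / g) ≠ 0 := mul_ne_zero hm' hn'
  have hsub : (m / g * (n / g)).primeFactors ⊆ P := by
    rw [Nat.primeFactors_mul hm' hn']
    refine Finset.union_subset ?_ ?_
    · exact (Nat.primeFactors_mono (Nat.div_dvd_of_dvd hgm) hm).trans hsm
    · exact (Nat.primeFactors_mono (Nat.div_dvd_of_dvd hgn) hn).trans hsn
  unfold rat
  simp only []
  rw [← hg]
  conv_lhs => rw [D2b_nat_prod P hM hsub]
  rw [D2b_cpow_prod]
  refine Finset.prod_congr rfl fun p hp => ?_
  have e : (m / g * (n / g)).factorization p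
      = Int.natAbs ((m.factorization p : ℤ) - n.factorization p) := by
    rw [Nat.factorization_mul hm' hn', Finsupp.add_apply, Nat.factorization_div hgm,
      Nat.factorization_div hgn, hg, Nat.factorization_gcd hm hn]
    simp only [Finsupp.coe_tsub, Pi.sub_apply, Finsupp.inf_apply]
    omega
  rw [e]
  rfl

theorem D2b_dep_pow {p : ℕ} (hp : p.Prime) (a : ℕ) :
    DependsOn (fun x : Om => ch x (p ^ a)) ({p} : Set ℕ) := by
  intro x y h
  exact dependsOn_ch (p ^ a) (fun i hi => h i (by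
    have h1 : i ∈ (p ^ a).primeFactors := by exact_mod_cast hi
    have h2 := Nat.prime_of_mem_primeFactors h1
    exact (Nat.prime_dvd_prime_iff_eq h2 hp).1 (h2.dvd_of_dvd_pow (Nat.dvd_of_mem_primeFactors h1))))

theorem D2b_cont_ZZ {s : ℂ} {L : ℝ} (h : Adm s L) (u v : ℝ) : Continuous (ZZ s u v) := by
  unfold ZZ
  refine continuous_finsetProd _ fun p hp => ?_
  have hpp := (D2b_mem_prm.1 hp).1
  exact (continuous_const.sub (continuous_const.mul (continuous_ch _))).inv₀
    fun x => D2a_ne x p (D2b_zp_lt h hpp)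

theorem D2b_adm_conj {s : ℂ} {L : ℝ} (h : Adm s L) : Adm (conj s) L := by
  refine ⟨h.1, ?_⟩
  rw [Complex.norm_conj]
  exact h.2

theorem D2b_single {s : ℂ} {L : ℝ} (h : Adm s L) {m n : ℕ} (hm : m ≠ 0) (hn : n ≠ 0)
    (hsm : m.primeFactors ⊆ prm 1 (Real.exp L)) (hsn : n.primeFactors ⊆ prm 1 (Real.exp L)) :
    (∏ p ∈ prm 1 (Real.exp L), (1 - zp s p ^ 2)) *
      ∫ x, ZZ s 1 (Real.exp L) x * conj (ZZ (conj s) 1 (Real.exp L) x) *
        (ch x m * conj (ch x n)) ∂mu = rat s (m, n) := by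
  set P := prm 1 (Real.exp L) with hP
  have hpr : ∀ p ∈ P, p.Prime := fun p hp => (D2b_mem_prm.1 hp).1
  set H : ℕ → Om → ℂ := fun p x => (1 - zp s p * ch x p)⁻¹ * (1 - zp s p * conj (ch x p))⁻¹
    * (ch x (p ^ m.factorization p) * conj (ch x (p ^ n.factorization p))) with hH
  have e1 : ∀ x, ZZ s 1 (Real.exp L) x * conj (ZZ (conj s) 1 (Real.exp L) x)
      * (ch x m * conj (ch x n)) = ∏ p ∈ P, H p x := by
    intro x
    unfold ZZ
    rw [D2b_ch_prod x P hsm, D2b_ch_prod x P hsn, map_prod, map_prod, ← hP,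
      ← Finset.prod_mul_distrib, ← Finset.prod_mul_distrib, ← Finset.prod_mul_distrib]
    refine Finset.prod_congr rfl fun p _ => ?_
    rw [hH]
    simp only [map_inv₀, map_sub, map_one, map_mul, D2b_conj_zp]
  have hcH : ∀ p ∈ P, Continuous (H p) := fun p hp => by
    have hz := D2b_zp_lt h (hpr p hp)
    exact (((continuous_const.sub (continuous_const.mul (continuous_ch _))).inv₀
      fun x => D2a_ne x p hz).mul ((continuous_const.sub (continuous_const.mul
        (Complex.continuous_conj.comp (continuous_ch _)))).inv₀ fun x => D2a_ne' x p hz)).mul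
      ((continuous_ch _).mul (Complex.continuous_conj.comp (continuous_ch _)))
  have hdH : ∀ p ∈ P, DependsOn (H p) ({p} : Set ℕ) := fun p hp x y hxy => by
    have d1 := D2b_dep_pow (hpr p hp) 1 hxy
    have d2 := D2b_dep_pow (hpr p hp) (m.factorization p) hxy
    have d3 := D2b_dep_pow (hpr p hp) (n.factorization p) hxy
    simp only [pow_one] at d1 d2 d3
    rw [hH]
    simp only []
    rw [d1, d2, d3]
  simp_rw [e1]
  rw [D2b_prod_int P H hcH hdH, ← Finset.prod_mul_distrib,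
    D2b_rat (s := s) P hm hn hsm hsn]
  refine Finset.prod_congr rfl fun p hp => ?_
  have hz := D2b_zp_lt h (hpr p hp)
  have hz2 : 1 - zp s p ^ 2 ≠ 0 := by
    intro h0
    have h1 : zp s p ^ 2 = 1 := (sub_eq_zero.1 h0).symm
    have h2 : ‖zp s p‖ ^ 2 = 1 := by rw [← norm_pow, h1]; simp
    nlinarith [norm_nonneg (zp s p)]
  rw [hH]
  simp only []
  rw [circ_int (hpr p hp) hz, mul_div_assoc', mul_div_cancel_left₀ _ hz2]

/-- D2b: the functional as an integral -/
theorem JJ_eq {s : ℂ} {L : ℝ} (h : Adm s L) (S : Finset (ℕ × ℕ)) (c : ℕ × ℕ → ℂ)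
    (hS : ∀ q ∈ S, 1 ≤ q.1 ∧ 1 ≤ q.2 ∧
      (∀ p ∈ q.1.primeFactors, (p : ℝ) ≤ Real.exp L) ∧ (∀ p ∈ q.2.primeFactors, (p : ℝ) ≤ Real.exp L)) :
    JJ S c s = (∏ p ∈ prm 1 (Real.exp L), (1 - zp s p ^ 2)) *
      ∫ x, ZZ s 1 (Real.exp L) x * conj (ZZ (conj s) 1 (Real.exp L) x) *
        ∑ q ∈ S, c q * ch x q.1 * conj (ch x q.2) ∂mu := by
  have hsub : ∀ m : ℕ, (∀ p ∈ m.primeFactors, (p : ℝ) ≤ Real.exp L) →
      m.primeFactors ⊆ prm 1 (Real.exp L) := fun m hm p hp => by
    have hpp := Nat.prime_of_mem_primeFactors hp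
    exact D2b_mem_prm.2 ⟨hpp, by exact_mod_cast hpp.one_lt, hm p hp⟩
  have hcZ : Continuous fun x : Om => ZZ s 1 (Real.exp L) x * conj (ZZ (conj s) 1 (Real.exp L) x) :=
    (D2b_cont_ZZ h _ _).mul (Complex.continuous_conj.comp (D2b_cont_ZZ (D2b_adm_conj h) _ _))
  have e : ∀ x, ZZ s 1 (Real.exp L) x * conj (ZZ (conj s) 1 (Real.exp L) x)
        * ∑ q ∈ S, c q * ch x q.1 * conj (ch x q.2)
      = ∑ q ∈ S, c q * (ZZ s 1 (Real.exp L) x * conj (ZZ (conj s) 1 (Real.exp L) x)
        * (ch x q.1 * conj (ch x q.2))) := by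
    intro x
    rw [Finset.mul_sum]
    refine Finset.sum_congr rfl fun q _ => ?_
    ring
  simp_rw [e]
  have hi : ∀ q ∈ S, Integrable (fun x : Om => c q * (ZZ s 1 (Real.exp L) x
      * conj (ZZ (conj s) 1 (Real.exp L) x) * (ch x q.1 * conj (ch x q.2)))) mu := fun q _ =>
    (integrable_of_continuous (hcZ.mul
      ((continuous_ch _).mul (Complex.continuous_conj.comp (continuous_ch _))))).const_mul (c q)
  rw [integral_finsetSum S hi, Finset.mul_sum]
  unfold JJ
  refine Finset.sum_congr rfl fun q hq => ?_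
  obtain ⟨h1, h2, h3, h4⟩ := hS q hq
  rw [integral_const_mul]
  have h5 := D2b_single h (m := q.1) (n := q.2) (by omega) (by omega) (hsub _ h3) (hsub _ h4)
  rw [← mul_assoc, mul_comm _ (c q), mul_assoc, h5]

end Pool.Agent.LibTG78
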