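import Mathlib
import Pool.Agent.LibTG78.Defs
import Pool.Agent.LibMM99.T09

/-! Block D, row D3a -/

set_option autoImplicit false

namespace Pool.Agent.LibTG78

open MeasureTheory Filter Topology Pool.Agent.LibMM99
open scoped ComplexConjugate

theorem D3a_zp (s : ℂ) {p : ℕ} (hp : 0 < p) :
    zp s p = Complex.exp (((Real.log p : ℝ) : ℂ) * (-(1 / 2 : ℂ) - s)) := by
  have hp' : (p : ℂ) ≠ 0 := by
    have : p ≠ 0 := hp.ne'
    exact_mod_cast this
  rw [zp, Complex.cpow_def_of_ne_zero hp', Complex.natCast_log]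

theorem D3a_norm (s : ℂ) {p : ℕ} (hp : 0 < p) :
    ‖zp s p‖ ^ 2 = Real.exp (Real.log p * (-1 - 2 * s.re)) := by
  rw [D3a_zp s hp, Complex.norm_exp, ← Real.exp_nat_mul]
  congr 1
  simp only [Complex.mul_re, Complex.sub_re, Complex.neg_re, Complex.ofReal_re, Complex.ofReal_im,
    zero_mul, sub_zero]
  have : ((1 : ℂ) / 2).re = 1 / 2 := by norm_num
  rw [this]
  push_cast
  ring

theorem D3a_sq (s : ℂ) {p : ℕ} (hp : 0 < p) :
    zp s p ^ 2 = ((‖zp s p‖ ^ 2 : ℝ) : ℂ) *
      Complex.exp (Complex.I * ((-2 * s.im * Real.log p : ℝ) : ℂ)) := by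
  rw [D3a_norm s hp, D3a_zp s hp, ← Complex.exp_nat_mul, Complex.ofReal_exp, ← Complex.exp_add]
  congr 1
  apply Complex.ext
  · simp
    ring
  · simp
    ring

/-- the norm is small -/
theorem D3a_small {s : ℂ} {L : ℝ} (h : Adm s L) {p : ℕ} (hp : 2 ≤ p) (hpL : (p : ℝ) ≤ Real.exp L) :
    ‖zp s p‖ ^ 2 ≤ 6 / 5 / p := by
  have hp0 : (0 : ℝ) < p := by
    have : 0 < p := by omega
    exact_mod_cast this
  obtain ⟨hL, hs⟩ := h
  have hlog : Real.log p ≤ L := by
    rw [← Real.log_exp L]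
    exact Real.log_le_log hp0 hpL
  have hlog0 : 0 ≤ Real.log p := Real.log_natCast_nonneg p
  rw [D3a_norm s (by omega)]
  have h1 : Real.log p * (-1 - 2 * s.re) ≤ -Real.log p + 1 / 10 := by
    have h2 : |s.re| ≤ 1 / (20 * L) := (Complex.abs_re_le_norm s).trans hs
    have h3 : -s.re ≤ 1 / (20 * L) := (neg_le_abs _).trans h2
    have h4 : Real.log p * (2 * -s.re) ≤ L * (2 * (1 / (20 * L))) := by
      calc Real.log p * (2 * -s.re) ≤ Real.log p * (2 * (1 / (20 * L))) :=
            mul_le_mul_of_nonneg_left (by linarith) hlog0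
        _ ≤ L * (2 * (1 / (20 * L))) := mul_le_mul_of_nonneg_right hlog (by positivity)
    have h5 : L * (2 * (1 / (20 * L))) = 1 / 10 := by
      field_simp
      norm_num
    nlinarith
  have h6 : Real.exp (1 / 10) ≤ 6 / 5 := by
    have := Real.exp_bound_div_one_sub_of_interval (x := 1 / 10) (by norm_num) (by norm_num)
    refine this.trans ?_
    norm_num
  calc Real.exp (Real.log p * (-1 - 2 * s.re)) ≤ Real.exp (-Real.log p + 1 / 10) :=
        Real.exp_le_exp.mpr h1
    _ = Real.exp (1 / 10) / p := by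
        rw [Real.exp_add, Real.exp_neg, Real.exp_log hp0]
        field_simp
    _ ≤ 6 / 5 / p := div_le_div_of_nonneg_right h6 hp0.le

/-- one factor -/
theorem D3a_fac {s : ℂ} {L : ℝ} (h : Adm s L) {p : ℕ} (hp : 2 ≤ p) (hpL : (p : ℝ) ≤ Real.exp L) :
    ‖1 - zp s p ^ 2‖ ≤ (1 - ‖zp s p‖ ^ 2) * (1 + 6 * |s.im| * (Real.log p / p)) := by
  have hp0 : (0 : ℝ) < p := by
    have : 0 < p := by omega
    exact_mod_cast this
  have hp2 : (2 : ℝ) ≤ p := by exact_mod_cast hp
  have hlog0 : 0 ≤ Real.log p := Real.log_natCast_nonneg p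
  have ht := D3a_small h hp hpL
  have ht0 : 0 ≤ ‖zp s p‖ ^ 2 := by positivity
  have hsq := D3a_sq s (p := p) (by omega)
  set t : ℝ := ‖zp s p‖ ^ 2 with htdef
  have ht2 : t ≤ 3 / 5 := by
    refine ht.trans ?_
    rw [div_le_iff₀ hp0]
    linarith
  have hexp : ‖Complex.exp (Complex.I * ((-2 * s.im * Real.log p : ℝ) : ℂ)) - 1‖ ≤
      2 * |s.im| * Real.log p := by
    refine (Real.norm_exp_I_mul_ofReal_sub_one_le (x := -2 * s.im * Real.log p)).trans ?_
    rw [Real.norm_eq_abs, abs_mul, abs_mul, abs_of_nonneg hlog0]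
    norm_num
  have h1 : (1 : ℂ) - zp s p ^ 2 = ((1 - t : ℝ) : ℂ) -
      ((t : ℝ) : ℂ) * (Complex.exp (Complex.I * ((-2 * s.im * Real.log p : ℝ) : ℂ)) - 1) := by
    rw [hsq]
    push_cast
    ring
  have h2 : ‖1 - zp s p ^ 2‖ ≤ (1 - t) + t * (2 * |s.im| * Real.log p) := by
    rw [h1]
    refine (norm_sub_le _ _).trans ?_
    rw [Complex.norm_real, Real.norm_eq_abs, abs_of_nonneg (by linarith), norm_mul,
      Complex.norm_real, Real.norm_eq_abs, abs_of_nonneg ht0]
    have := mul_le_mul_of_nonneg_left hexp ht0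
    linarith
  refine h2.trans ?_
  have h3 : t * (2 * |s.im| * Real.log p) ≤ 6 / 5 / p * (2 * |s.im| * Real.log p) :=
    mul_le_mul_of_nonneg_right ht (by positivity)
  have h4 : 6 / 5 / (p : ℝ) * (2 * |s.im| * Real.log p) =
      12 / 5 * (|s.im| * (Real.log p / p)) := by
    field_simp
    ring
  have h5 : 0 ≤ |s.im| * (Real.log p / p) := by positivity
  nlinarith [h3, h4, h5, mul_le_mul_of_nonneg_right ht2 h5]

/-- D3a -/
theorem prod_sq_le : ∃ C : ℝ, 1 ≤ C ∧ ∀ (s : ℂ) (L : ℝ), Adm s L →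
    ∏ p ∈ prm 1 (Real.exp L), ‖1 - zp s p ^ 2‖ ≤ C * nz s 1 (Real.exp L) := by
  obtain ⟨C1, hC1, hM⟩ := sum_log_prime_le
  refine ⟨Real.exp (3 / 10 * (1 + C1)), Real.one_le_exp (by positivity), ?_⟩
  intro s L h
  have hL := h.1
  have hs := h.2
  have hL0 : 0 < L := by linarith
  have hmem : ∀ p ∈ prm 1 (Real.exp L), 2 ≤ p ∧ (p : ℝ) ≤ Real.exp L := by
    intro p hp
    simp only [prm, Finset.mem_filter, Finset.mem_Icc] at hp
    refine ⟨hp.2.1.two_le, ?_⟩
    exact (Nat.le_floor_iff (Real.exp_pos L).le).mp hp.1.2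
  have h1 : ∏ p ∈ prm 1 (Real.exp L), ‖1 - zp s p ^ 2‖ ≤
      ∏ p ∈ prm 1 (Real.exp L), ((1 - ‖zp s p‖ ^ 2) * (1 + 6 * |s.im| * (Real.log p / p))) :=
    Finset.prod_le_prod (fun p _ => norm_nonneg _)
      fun p hp => D3a_fac h (hmem p hp).1 (hmem p hp).2
  refine h1.trans ?_
  rw [Finset.prod_mul_distrib]
  have hnz : 0 ≤ nz s 1 (Real.exp L) := by
    refine Finset.prod_nonneg fun p hp => ?_
    have h2 := D3a_small h (hmem p hp).1 (hmem p hp).2
    have hp2 : (2 : ℝ) ≤ p := by exact_mod_cast (hmem p hp).1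
    have h3 : 6 / 5 / (p : ℝ) ≤ 3 / 5 := by
      rw [div_le_iff₀ (by linarith)]
      linarith
    linarith
  have h2 : ∏ p ∈ prm 1 (Real.exp L), (1 + 6 * |s.im| * (Real.log p / p)) ≤
      Real.exp (3 / 10 * (1 + C1)) := by
    calc ∏ p ∈ prm 1 (Real.exp L), (1 + 6 * |s.im| * (Real.log p / p)) ≤
          ∏ p ∈ prm 1 (Real.exp L), Real.exp (6 * |s.im| * (Real.log p / p)) := by
          refine Finset.prod_le_prod (fun p _ => ?_) fun p _ => ?_
          · have : 0 ≤ Real.log p / p :=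
              div_nonneg (Real.log_natCast_nonneg p) (Nat.cast_nonneg p)
            positivity
          · rw [add_comm]
            exact Real.add_one_le_exp _
      _ = Real.exp (6 * |s.im| * ∑ p ∈ prm 1 (Real.exp L), Real.log p / p) := by
          rw [← Real.exp_sum, Finset.mul_sum]
      _ ≤ Real.exp (3 / 10 * (1 + C1)) := by
          refine Real.exp_le_exp.mpr ?_
          have h3 := hM (Real.exp L) (Real.one_le_exp hL0.le)
          rw [Real.log_exp] at h3
          have h4 : |s.im| ≤ 1 / (20 * L) := (Complex.abs_im_le_norm s).trans hs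
          have h5 : 0 ≤ ∑ p ∈ prm 1 (Real.exp L), Real.log p / p :=
            Finset.sum_nonneg fun p _ =>
              div_nonneg (Real.log_natCast_nonneg p) (Nat.cast_nonneg p)
          have h6 : L + C1 ≤ L * (1 + C1) := by nlinarith
          calc 6 * |s.im| * ∑ p ∈ prm 1 (Real.exp L), Real.log p / p ≤
                6 * (1 / (20 * L)) * (L * (1 + C1)) :=
                mul_le_mul (by linarith) (h3.trans h6) h5 (by positivity)
            _ = 3 / 10 * (1 + C1) := by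
                field_simp
                norm_num
  calc (∏ p ∈ prm 1 (Real.exp L), (1 - ‖zp s p‖ ^ 2)) *
        ∏ p ∈ prm 1 (Real.exp L), (1 + 6 * |s.im| * (Real.log p / p)) ≤
        nz s 1 (Real.exp L) * Real.exp (3 / 10 * (1 + C1)) :=
        mul_le_mul_of_nonneg_left h2 hnz
    _ = _ := mul_comm _ _

end Pool.Agent.LibTG78
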