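import Mathlib
import Pool.Agent.LibTG78.Defs
import Pool.Agent.LibTG78.D3a
import Pool.Agent.LibTG78.D2b
import Pool.Agent.LibTG78.BAll

/-! Block D, row D3b -/

set_option autoImplicit false

namespace Pool.Agent.LibTG78

open MeasureTheory Filter Topology Pool.Agent.LibMM99
open scoped ComplexConjugate

theorem D3b_mem {L : ℝ} {p : ℕ} (hp : p ∈ prm 1 (Real.exp L)) :
    2 ≤ p ∧ (p : ℝ) ≤ Real.exp L := by
  simp only [prm, Finset.mem_filter, Finset.mem_Icc] at hp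
  exact ⟨hp.2.1.two_le, (Nat.le_floor_iff (Real.exp_pos L).le).mp hp.1.2⟩

theorem D3b_lt {s : ℂ} {L : ℝ} (h : Adm s L) {p : ℕ} (hp : p ∈ prm 1 (Real.exp L)) :
    ‖zp s p‖ ^ 2 ≤ 3 / 5 := by
  have h1 := D3a_small h (D3b_mem hp).1 (D3b_mem hp).2
  have hp2 : (2 : ℝ) ≤ p := by exact_mod_cast (D3b_mem hp).1
  refine h1.trans ?_
  rw [div_le_iff₀ (by linarith)]
  linarith

theorem D3b_cont {s : ℂ} {L : ℝ} (h : Adm s L) : Continuous (ZZ s 1 (Real.exp L)) := by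
  unfold ZZ
  refine continuous_finsetProd _ fun p hp => ?_
  refine Continuous.inv₀ (continuous_const.sub (continuous_const.mul (continuous_ch p))) ?_
  intro x h0
  have h1 : ‖zp s p * ch x p‖ = 1 := by
    rw [← sub_eq_zero.mp h0]
    exact norm_one
  rw [norm_mul, norm_ch, mul_one] at h1
  have h2 := D3b_lt h hp
  rw [h1] at h2
  norm_num at h2

theorem D3b_adm_conj {s : ℂ} {L : ℝ} (h : Adm s L) : Adm (conj s) L :=
  ⟨h.1, by rw [RCLike.norm_conj]; exact h.2⟩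

theorem D3b_nz_conj (s : ℂ) (L : ℝ) : nz (conj s) 1 (Real.exp L) = nz s 1 (Real.exp L) := by
  unfold nz
  refine Finset.prod_congr rfl fun p hp => ?_
  rw [D3a_norm _ (by have := (D3b_mem hp).1; omega), D3a_norm _ (by have := (D3b_mem hp).1; omega),
    Complex.conj_re]

theorem D3b_nz_nonneg {s : ℂ} {L : ℝ} (h : Adm s L) : 0 ≤ nz s 1 (Real.exp L) := by
  refine Finset.prod_nonneg fun p hp => ?_
  linarith [D3b_lt h hp]

theorem D3b_prod_zero (L : ℝ) :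
    ∏ p ∈ prm 1 (Real.exp L), (1 - zp 0 p ^ 2) = ((nz 0 1 (Real.exp L) : ℝ) : ℂ) := by
  unfold nz
  rw [Complex.ofReal_prod]
  refine Finset.prod_congr rfl fun p hp => ?_
  rw [D3a_sq 0 (by have := (D3b_mem hp).1; omega)]
  simp

theorem D3b_diff (S : Finset (ℕ × ℕ)) (c : ℕ × ℕ → ℂ) (hS : ∀ q ∈ S, 1 ≤ q.1 ∧ 1 ≤ q.2) :
    Differentiable ℂ (JJ S c) := by
  unfold JJ
  refine Differentiable.fun_sum fun q hq => ?_
  refine (differentiable_const _).mul ?_
  unfold rat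
  have h1 := (hS q hq).1
  have h2 := (hS q hq).2
  have hne : q.1 / Nat.gcd q.1 q.2 * (q.2 / Nat.gcd q.1 q.2) ≠ 0 := by
    have e1 : 0 < q.1 / Nat.gcd q.1 q.2 :=
      Nat.div_pos (Nat.gcd_le_left _ (by omega)) (Nat.gcd_pos_of_pos_left _ (by omega))
    have e2 : 0 < q.2 / Nat.gcd q.1 q.2 :=
      Nat.div_pos (Nat.gcd_le_right _ (by omega)) (Nat.gcd_pos_of_pos_left _ (by omega))
    positivity
  exact ((differentiable_const _).sub differentiable_id).const_cpow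
    (Or.inl (by exact_mod_cast hne))

/-- D3b: bounds for the functional and its derivative -/
theorem JJ_bound : ∃ C : ℝ, 1 ≤ C ∧ ∀ (L A : ℝ) (S : Finset (ℕ × ℕ)) (c : ℕ × ℕ → ℂ) (Φ : Om → ℝ), 1 ≤ L → Continuous Φ →
    (∀ q ∈ S, 1 ≤ q.1 ∧ 1 ≤ q.2 ∧
      (∀ p ∈ q.1.primeFactors, (p : ℝ) ≤ Real.exp L) ∧ (∀ p ∈ q.2.primeFactors, (p : ℝ) ≤ Real.exp L)) →
    (∀ x, ((Φ x : ℝ) : ℂ) = ∑ q ∈ S, c q * ch x q.1 * conj (ch x q.2)) →
    (∀ s : ℂ, Adm s L → ∫ x, |Φ x| ∂(nu s L) ≤ A) →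
    JJ S c 0 = ((∫ x, Φ x ∂(nu 0 L) : ℝ) : ℂ) ∧ ‖deriv (JJ S c) 0‖ ≤ C * L * A := by
  obtain ⟨C, hC, hprod⟩ := prod_sq_le
  refine ⟨20 * C, by linarith, ?_⟩
  intro L A S c Φ hL hΦ hS hrep hA
  have hL0 : 0 < L := by linarith
  have hadm0 : Adm 0 L := ⟨hL, by rw [norm_zero]; positivity⟩
  have hA0 : 0 ≤ A := (integral_nonneg fun x => abs_nonneg _).trans (hA 0 hadm0)
  constructor
  · rw [JJ_eq hadm0 S c hS, D3b_prod_zero, integral_nu hadm0 hΦ, Complex.ofReal_mul,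
      ← integral_complex_ofReal]
    congr 1
    refine integral_congr_ae (Eventually.of_forall fun x => ?_)
    simp only [map_zero]
    rw [← hrep x, Complex.mul_conj, Complex.normSq_eq_norm_sq]
    push_cast
    ring
  · have hb : ∀ s ∈ Metric.sphere (0 : ℂ) (1 / (20 * L)), ‖JJ S c s‖ ≤ C * A := by
      intro s hs
      have hadm : Adm s L := ⟨hL, by rw [mem_sphere_zero_iff_norm.mp hs]⟩
      have hadm' := D3b_adm_conj hadm
      have c1 := D3b_cont hadm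
      have c2 := D3b_cont hadm'
      have i1 : Integrable (fun x => ‖ZZ s 1 (Real.exp L) x‖ ^ 2 * |Φ x|) mu :=
        integrable_of_continuous ((c1.norm.pow 2).mul hΦ.abs)
      have i2 : Integrable (fun x => ‖ZZ (conj s) 1 (Real.exp L) x‖ ^ 2 * |Φ x|) mu :=
        integrable_of_continuous ((c2.norm.pow 2).mul hΦ.abs)
      rw [JJ_eq hadm S c hS, norm_mul, norm_prod]
      have h1 : ‖∫ x, ZZ s 1 (Real.exp L) x * conj (ZZ (conj s) 1 (Real.exp L) x) *
          ∑ q ∈ S, c q * ch x q.1 * conj (ch x q.2) ∂mu‖ ≤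
          1 / 2 * ((∫ x, ‖ZZ s 1 (Real.exp L) x‖ ^ 2 * |Φ x| ∂mu) +
            ∫ x, ‖ZZ (conj s) 1 (Real.exp L) x‖ ^ 2 * |Φ x| ∂mu) := by
        rw [← integral_add i1 i2, ← integral_const_mul]
        refine norm_integral_le_of_norm_le ((i1.add i2).const_mul _)
          (Eventually.of_forall fun x => ?_)
        rw [← hrep x, norm_mul, norm_mul, RCLike.norm_conj, Complex.norm_real, Real.norm_eq_abs]
        have e1 : 0 ≤ |Φ x| := abs_nonneg _
        have e2 := two_mul_le_add_sq ‖ZZ s 1 (Real.exp L) x‖ ‖ZZ (conj s) 1 (Real.exp L) x‖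
        nlinarith [mul_le_mul_of_nonneg_right e2 e1]
      have h2 := integral_nu hadm hΦ.abs
      have h3 := integral_nu hadm' hΦ.abs
      rw [D3b_nz_conj] at h3
      have h4 := hA s hadm
      have h5 := hA (conj s) hadm'
      rw [h2] at h4
      rw [h3] at h5
      have hnz := D3b_nz_nonneg hadm
      calc (∏ p ∈ prm 1 (Real.exp L), ‖1 - zp s p ^ 2‖) *
            ‖∫ x, ZZ s 1 (Real.exp L) x * conj (ZZ (conj s) 1 (Real.exp L) x) *
              ∑ q ∈ S, c q * ch x q.1 * conj (ch x q.2) ∂mu‖ ≤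
            (C * nz s 1 (Real.exp L)) *
              (1 / 2 * ((∫ x, ‖ZZ s 1 (Real.exp L) x‖ ^ 2 * |Φ x| ∂mu) +
                ∫ x, ‖ZZ (conj s) 1 (Real.exp L) x‖ ^ 2 * |Φ x| ∂mu)) :=
            mul_le_mul (hprod s L hadm) h1 (norm_nonneg _) (by positivity)
        _ = C * (1 / 2 * ((nz s 1 (Real.exp L) * ∫ x, ‖ZZ s 1 (Real.exp L) x‖ ^ 2 * |Φ x| ∂mu) +
              nz s 1 (Real.exp L) * ∫ x, ‖ZZ (conj s) 1 (Real.exp L) x‖ ^ 2 * |Φ x| ∂mu)) := by
            ring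
        _ ≤ C * A := by
            refine mul_le_mul_of_nonneg_left ?_ (by linarith)
            linarith
    have hR : 0 < 1 / (20 * L) := by positivity
    have h6 := Complex.norm_deriv_le_of_forall_mem_sphere_norm_le hR
      (D3b_diff S c fun q hq => ⟨(hS q hq).1, (hS q hq).2.1⟩).diffContOnCl hb
    refine h6.trans (le_of_eq ?_)
    field_simp

end Pool.Agent.LibTG78
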