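import Mathlib
import Pool.Agent.LibM3.A1
import Pool.Agent.LibM3.Q3

/-! Twisted second moment of zeta: the smooth harmonic sum. -/

set_option autoImplicit false

namespace Pool.Agent.LibTG78.TW

open MeasureTheory Set Filter Topology Complex
open Pool.Agent.LibZM Pool.Agent.LibM3

/-- the Gaussian density -/
noncomputable def ga (x : ℝ) : ℝ := 1 / (2 * √Real.pi) * Real.exp (-x ^ 2 / 4)

lemma ga_nonneg (x : ℝ) : 0 ≤ ga x := a1_gR_nonneg x

lemma ga_int : Integrable ga := a1_gR_int

lemma ga_total : ∫ x, ga x = 1 := a1_gR_total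

lemma ga_exp_int (A : ℝ) : Integrable (fun x => ga x * Real.exp (A * x)) := by
  have h := a1_norm_exp_int 0 A
  refine h.congr (Filter.Eventually.of_forall fun x => ?_)
  beta_reduce
  rw [← a1_gR_eq, Complex.norm_real, Real.norm_eq_abs, abs_of_nonneg (a1_gR_nonneg x)]
  rfl

lemma ga_mul_int : Integrable (fun x => ga x * x) := by
  have h : Integrable (fun x => ga x * Real.exp (1 * x) + ga x * Real.exp (-1 * x)) :=
    (ga_exp_int 1).add (ga_exp_int (-1))
  refine h.mono (by unfold ga; fun_prop) (Filter.Eventually.of_forall fun x => ?_)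
  rw [Real.norm_eq_abs, Real.norm_eq_abs, abs_mul, abs_of_nonneg (ga_nonneg x)]
  refine le_trans ?_ (le_abs_self _)
  rw [← mul_add]
  refine mul_le_mul_of_nonneg_left ?_ (ga_nonneg x)
  rw [one_mul, neg_one_mul]
  rcases le_total 0 x with hx | hx
  · rw [abs_of_nonneg hx]
    have h1 := Real.add_one_le_exp x
    have h2 := Real.exp_pos (-x)
    linarith
  · rw [abs_of_nonpos hx]
    have h1 := Real.add_one_le_exp (-x)
    have h2 := Real.exp_pos x
    linarith

lemma ga_mean : ∫ x, ga x * x = 0 := by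
  have h : ∫ x, ga x * x = -∫ x, ga x * x := by
    rw [← integral_neg]
    conv_lhs => rw [← integral_neg_eq_self (fun x => ga x * x)]
    refine integral_congr_ae (Filter.Eventually.of_forall fun x => ?_)
    beta_reduce
    unfold ga
    rw [neg_sq]
    ring
  linarith

lemma harm_est {y : ℝ} (hy : 0 < y) :
    |((harmonic ⌊y⌋₊ : ℚ) : ℝ) - Real.log y - Real.eulerMascheroniConstant| ≤ 2 / y := by
  rcases le_or_gt 1 y with h | h
  · have hn : 1 ≤ ⌊y⌋₊ := Nat.le_floor (by simpa using h)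
    obtain ⟨n, hn'⟩ : ∃ n, n = ⌊y⌋₊ := ⟨_, rfl⟩
    rw [← hn'] at hn ⊢
    have hnR : (1:ℝ) ≤ n := by exact_mod_cast hn
    have h1 : (n:ℝ) ≤ y := by rw [hn']; exact Nat.floor_le hy.le
    have h2 : y < (n:ℝ) + 1 := by rw [hn']; exact Nat.lt_floor_add_one y
    have h3 := Real.eulerMascheroniSeq_lt_eulerMascheroniConstant n
    have h4 := Real.eulerMascheroniConstant_lt_eulerMascheroniSeq' n
    unfold Real.eulerMascheroniSeq at h3
    unfold Real.eulerMascheroniSeq' at h4
    rw [if_neg (by omega)] at h4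
    have h5 : Real.log n ≤ Real.log y := Real.log_le_log (by linarith) h1
    have h6 : Real.log y ≤ Real.log ((n:ℝ) + 1) := Real.log_le_log hy h2.le
    have h7 : Real.log ((n:ℝ) + 1) - Real.log n ≤ 1 / n := by
      rw [← Real.log_div (by linarith) (by linarith)]
      have h8 := Real.log_le_sub_one_of_pos (x := ((n:ℝ) + 1) / n) (by positivity)
      have h9 : ((n:ℝ) + 1) / n - 1 = 1 / n := by field_simp; ring
      linarith
    have h8 : (1:ℝ) / n ≤ 2 / y := by
      rw [div_le_div_iff₀ (by linarith) hy]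
      linarith
    rw [abs_le]
    constructor <;> linarith
  · have hf : ⌊y⌋₊ = 0 := Nat.floor_eq_zero.2 h
    rw [hf, harmonic_zero, Rat.cast_zero]
    have h1 : Real.log y ≤ 0 := Real.log_nonpos hy.le h.le
    have h2 : -Real.log y ≤ 1 / y := by
      rw [← Real.log_inv, one_div]
      have := Real.log_le_sub_one_of_pos (x := y⁻¹) (by positivity)
      linarith
    have h3 : Real.eulerMascheroniConstant < 2 / 3 := Real.eulerMascheroniConstant_lt_two_thirds
    have h4 : 1 / 2 < Real.eulerMascheroniConstant := Real.one_half_lt_eulerMascheroniConstant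
    have h5 : 1 < 1 / y := by rw [lt_div_iff₀ hy]; linarith
    have h6 : 2 / y = 1 / y + 1 / y := by ring
    rw [abs_le, h6]
    constructor <;> linarith

lemma tw_H_hasSum {z : ℝ} (hz : 0 < z) :
    HasSum (fun j : ℕ => (j:ℝ)⁻¹ * PhR (Real.log z - 2 * Real.log j))
      (∫ x, ga x * ((harmonic ⌊Real.exp ((Real.log z - x) / 2)⌋₊ : ℚ) : ℝ)) := by
  obtain ⟨C, hC, hp⟩ := q3_point
  obtain ⟨F, hF⟩ : ∃ F : ℕ → ℝ → ℝ, F = fun (j : ℕ) (x : ℝ) =>
    (j:ℝ)⁻¹ * (Iic (Real.log z - 2 * Real.log j)).indicator ga x := ⟨_, rfl⟩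
  have h0 : ∀ j x, 0 ≤ F j x := by
    intro j x
    rw [hF]
    exact mul_nonneg (by positivity) (Set.indicator_nonneg (fun x _ => ga_nonneg x) x)
  have hint : ∀ j, Integrable (F j) := by
    intro j
    rw [hF]
    exact (ga_int.indicator measurableSet_Iic).const_mul _
  have hval : ∀ j, ∫ x, F j x = (j:ℝ)⁻¹ * PhR (Real.log z - 2 * Real.log j) := by
    intro j
    rw [hF]
    beta_reduce
    rw [integral_const_mul, integral_indicator measurableSet_Iic]
    rfl
  have hs : Summable fun j => ∫ x, ‖F j x‖ := by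
    refine (hp z hz).1.congr fun j => ?_
    rw [← hval]
    refine integral_congr_ae (Filter.Eventually.of_forall fun x => ?_)
    beta_reduce
    rw [Real.norm_eq_abs, abs_of_nonneg (h0 j x)]
  have h1 := hasSum_integral_of_summable_integral_norm hint hs
  simp only [hval] at h1
  have h2 : ∀ x, ∑' j, F j x = ga x * ((harmonic ⌊Real.exp ((Real.log z - x) / 2)⌋₊ : ℚ) : ℝ) := by
    intro x
    have h3 := (q3_b_sum (Real.exp_pos ((Real.log z - x) / 2))).mul_left (ga x)
    rw [← h3.tsum_eq]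
    refine tsum_congr fun j => ?_
    rw [hF]
    beta_reduce
    unfold q3_b
    rcases Nat.eq_zero_or_pos j with rfl | hj
    · simp
    · have hjR : (0:ℝ) < j := by exact_mod_cast hj
      have h4 : (j:ℝ) ≤ Real.exp ((Real.log z - x) / 2) ↔ x ≤ Real.log z - 2 * Real.log j := by
        rw [← Real.log_le_iff_le_exp hjR]
        constructor <;> intro h <;> linarith
      by_cases h5 : x ≤ Real.log z - 2 * Real.log j
      · rw [Set.indicator_of_mem (Set.mem_Iic.2 h5), if_pos (h4.2 h5), mul_comm]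
      · rw [Set.indicator_of_notMem (fun h => h5 (Set.mem_Iic.1 h)), if_neg (fun h => h5 (h4.1 h)),
          mul_zero, mul_zero]
  simp only [h2] at h1
  exact h1

lemma tw_harm_meas (z : ℝ) : Measurable fun x : ℝ =>
    ((harmonic ⌊Real.exp ((Real.log z - x) / 2)⌋₊ : ℚ) : ℝ) := by
  have h1 : Measurable fun x : ℝ => ⌊Real.exp ((Real.log z - x) / 2)⌋₊ :=
    Nat.measurable_floor.comp (by fun_prop)
  exact (measurable_from_top (f := fun n : ℕ => ((harmonic n : ℚ) : ℝ))).comp h1

theorem tw_H : ∃ C : ℝ, 0 < C ∧ ∀ z : ℝ, 0 < z →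
    Summable (fun j : ℕ => (j:ℝ)⁻¹ * PhR (Real.log z - 2 * Real.log j)) ∧
    |2 * ∑' j : ℕ, (j:ℝ)⁻¹ * PhR (Real.log z - 2 * Real.log j) -
      (Real.log z + 2 * Real.eulerMascheroniConstant)| ≤ C * z ^ (-(1/2) : ℝ) := by
  have hE0 : 0 ≤ ∫ x, ga x * Real.exp (1/2 * x) :=
    integral_nonneg fun x => mul_nonneg (ga_nonneg x) (Real.exp_pos _).le
  refine ⟨4 * (∫ x, ga x * Real.exp (1/2 * x)) + 1, by positivity, fun z hz => ?_⟩
  have h1 := tw_H_hasSum hz
  refine ⟨h1.summable, ?_⟩
  rw [h1.tsum_eq]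
  obtain ⟨H, hH⟩ : ∃ H : ℝ → ℝ, H = fun x =>
    ((harmonic ⌊Real.exp ((Real.log z - x) / 2)⌋₊ : ℚ) : ℝ) := ⟨_, rfl⟩
  have hHm : Measurable H := by rw [hH]; exact tw_harm_meas z
  obtain ⟨M, hM⟩ : ∃ M : ℝ → ℝ, M = fun x =>
    (Real.log z - x) / 2 + Real.eulerMascheroniConstant := ⟨_, rfl⟩
  have hMint : Integrable (fun x => ga x * M x) := by
    have h2 : (fun x => ga x * M x) = fun x =>
        (Real.log z / 2 + Real.eulerMascheroniConstant) * ga x - 1 / 2 * (ga x * x) := by
      ext x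
      rw [hM]
      ring
    rw [h2]
    exact (ga_int.const_mul _).sub (ga_mul_int.const_mul _)
  have hMval : ∫ x, ga x * M x = Real.log z / 2 + Real.eulerMascheroniConstant := by
    have h2 : (fun x => ga x * M x) = fun x =>
        (Real.log z / 2 + Real.eulerMascheroniConstant) * ga x - 1 / 2 * (ga x * x) := by
      ext x
      rw [hM]
      ring
    rw [h2, integral_sub (ga_int.const_mul _) (ga_mul_int.const_mul _), integral_const_mul,
      integral_const_mul, ga_total, ga_mean]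
    ring
  have hdiff : ∀ x, |ga x * H x - ga x * M x| ≤ 2 * z ^ (-(1/2) : ℝ) * (ga x * Real.exp (1/2 * x)) := by
    intro x
    rw [← mul_sub, abs_mul, abs_of_nonneg (ga_nonneg x)]
    have h2 := harm_est (Real.exp_pos ((Real.log z - x) / 2))
    rw [Real.log_exp] at h2
    have h3 : |H x - M x| ≤ 2 / Real.exp ((Real.log z - x) / 2) := by
      rw [hH, hM]
      beta_reduce
      rw [← sub_sub]
      exact h2
    have h4 : 2 / Real.exp ((Real.log z - x) / 2) = 2 * z ^ (-(1/2) : ℝ) * Real.exp (1/2 * x) := by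
      rw [Real.rpow_def_of_pos hz, mul_assoc, ← Real.exp_add, div_eq_mul_inv, ← Real.exp_neg]
      congr 2
      ring
    rw [h4] at h3
    calc ga x * |H x - M x| ≤ ga x * (2 * z ^ (-(1/2) : ℝ) * Real.exp (1/2 * x)) :=
          mul_le_mul_of_nonneg_left h3 (ga_nonneg x)
      _ = _ := by ring
  have hdint : Integrable (fun x => ga x * H x - ga x * M x) := by
    refine ((ga_exp_int (1/2)).const_mul (2 * z ^ (-(1/2) : ℝ))).mono ?_
      (Filter.Eventually.of_forall fun x => ?_)
    · have hgm : Measurable ga := by unfold ga; fun_prop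
      have hMm : Measurable M := by rw [hM]; fun_prop
      exact ((hgm.mul hHm).sub (hgm.mul hMm)).aestronglyMeasurable
    · rw [Real.norm_eq_abs, Real.norm_eq_abs]
      exact (hdiff x).trans (le_abs_self _)
  have hHint : Integrable (fun x => ga x * H x) := by
    have h2 : (fun x => ga x * H x) = fun x => (ga x * H x - ga x * M x) + ga x * M x := by
      ext x; ring
    rw [h2]
    exact hdint.add hMint
  have h5 : |(∫ x, ga x * H x) - (Real.log z / 2 + Real.eulerMascheroniConstant)| ≤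
      2 * z ^ (-(1/2) : ℝ) * ∫ x, ga x * Real.exp (1/2 * x) := by
    rw [← hMval, ← integral_sub hHint hMint]
    refine (abs_integral_le_integral_abs).trans ?_
    rw [← integral_const_mul]
    exact integral_mono hdint.abs ((ga_exp_int (1/2)).const_mul _) hdiff
  have h6 : ∫ x, ga x * ((harmonic ⌊Real.exp ((Real.log z - x) / 2)⌋₊ : ℚ) : ℝ) =
      ∫ x, ga x * H x := by rw [hH]
  rw [h6]
  have h7 : 2 * (∫ x, ga x * H x) - (Real.log z + 2 * Real.eulerMascheroniConstant) =
      2 * ((∫ x, ga x * H x) - (Real.log z / 2 + Real.eulerMascheroniConstant)) := by ring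
  rw [h7, abs_mul, abs_of_pos (by norm_num : (0:ℝ) < 2)]
  have h8 : 0 ≤ z ^ (-(1/2) : ℝ) := Real.rpow_nonneg hz.le _
  calc 2 * |(∫ x, ga x * H x) - (Real.log z / 2 + Real.eulerMascheroniConstant)| ≤
        2 * (2 * z ^ (-(1/2) : ℝ) * ∫ x, ga x * Real.exp (1/2 * x)) :=
        mul_le_mul_of_nonneg_left h5 (by norm_num)
    _ ≤ _ := by
      have : 2 * (2 * z ^ (-(1/2) : ℝ) * ∫ x, ga x * Real.exp (1/2 * x)) + z ^ (-(1/2) : ℝ) =
        (4 * (∫ x, ga x * Real.exp (1/2 * x)) + 1) * z ^ (-(1/2) : ℝ) := by ring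
      linarith

end Pool.Agent.LibTG78.TW
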