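import Mathlib
import Pool.Agent.LibTG78.TW1
import Pool.Agent.LibM3.Q4

/-! Twisted second moment of zeta: the off-diagonal terms. -/

set_option autoImplicit false

namespace Pool.Agent.LibTG78.TW

open MeasureTheory Set Filter Topology Complex
open Pool.Agent.LibZM Pool.Agent.LibM3

/-- One integration by parts. -/
lemma tw_osc {a b x l : ℝ} (ha : 0 < a) (hab : a ≤ b) (hl : l ≠ 0) :
    ‖∫ t in a..b, ((PhR (q1_lam x t) : ℝ) : ℂ) * cexp (-(((l * t : ℝ) : ℂ) * I))‖ ≤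
      2 * PhR (q1_lam x b) / |l| := by
  have hlc : ((l : ℝ) : ℂ) ≠ 0 := by exact_mod_cast hl
  obtain ⟨v, hv⟩ : ∃ v : ℝ → ℂ, v = fun t => cexp (-(((l * t : ℝ) : ℂ) * I)) / (-(l : ℂ) * I) :=
    ⟨_, rfl⟩
  have hvd : ∀ t, HasDerivAt v (cexp (-(((l * t : ℝ) : ℂ) * I))) t := by
    intro t
    rw [hv]
    have h1 : HasDerivAt (fun t : ℝ => -(((l * t : ℝ) : ℂ) * I)) (-(l : ℂ) * I) t := by
      have h2 : HasDerivAt (fun t : ℝ => l * t) l t := by
        simpa using (hasDerivAt_id t).const_mul l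
      have h3 := (h2.ofReal_comp.mul_const I).neg
      rw [neg_mul]
      exact h3
    have h4 := (h1.cexp).div_const (-(l : ℂ) * I)
    have h5 : cexp (-(((l * t : ℝ) : ℂ) * I)) * (-(l : ℂ) * I) / (-(l : ℂ) * I) =
        cexp (-(((l * t : ℝ) : ℂ) * I)) := by
      field_simp
    rw [h5] at h4
    exact h4
  have hvn : ∀ t, ‖v t‖ = 1 / |l| := by
    intro t
    rw [hv]
    beta_reduce
    rw [norm_div, ← neg_mul, ← Complex.ofReal_neg, Complex.norm_exp_ofReal_mul_I, neg_mul, norm_neg,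
      norm_mul, Complex.norm_I, mul_one, Complex.norm_real, Real.norm_eq_abs]
  have hA : ∀ t ∈ Set.uIcc a b, HasDerivAt (fun t => ((PhR (q1_lam x t) : ℝ) : ℂ))
      ((q1_F1 x t : ℝ) : ℂ) t := by
    intro t ht
    rw [Set.uIcc_of_le hab] at ht
    exact (q1_hasDerivAt_F0 x (lt_of_lt_of_le ha ht.1)).ofReal_comp
  have hF1c : ContinuousOn (q1_F1 x) (Icc a b) := by
    intro t ht
    exact (q1_hasDerivAt_F1 x (lt_of_lt_of_le ha ht.1)).continuousAt.continuousWithinAt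
  have hF1i : IntervalIntegrable (q1_F1 x) volume a b := by
    refine ContinuousOn.intervalIntegrable ?_
    rw [Set.uIcc_of_le hab]
    exact hF1c
  have hF1ic : IntervalIntegrable (fun t => ((q1_F1 x t : ℝ) : ℂ)) volume a b := by
    refine ContinuousOn.intervalIntegrable ?_
    rw [Set.uIcc_of_le hab]
    exact Complex.continuous_ofReal.comp_continuousOn hF1c
  have hei : IntervalIntegrable (fun t : ℝ => cexp (-(((l * t : ℝ) : ℂ) * I))) volume a b := by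
    refine Continuous.intervalIntegrable ?_ _ _
    fun_prop
  have h1 := intervalIntegral.integral_mul_deriv_eq_deriv_mul hA (fun t _ => hvd t) hF1ic hei
  rw [h1]
  have hF1n : ∀ t ∈ Icc a b, 0 ≤ q1_F1 x t := by
    intro t ht
    unfold q1_F1
    have := q1_phi_pos (q1_lam x t)
    have ht0 : 0 < t := lt_of_lt_of_le ha ht.1
    positivity
  have hAn : ∀ t, 0 ≤ PhR (q1_lam x t) := fun t => (PhR_mem _).1
  have h2 : ‖∫ t in a..b, ((q1_F1 x t : ℝ) : ℂ) * v t‖ ≤ (PhR (q1_lam x b) - PhR (q1_lam x a)) / |l| := by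
    have h3 : ‖∫ t in a..b, ((q1_F1 x t : ℝ) : ℂ) * v t‖ ≤ ∫ t in a..b, q1_F1 x t * (1 / |l|) := by
      refine intervalIntegral.norm_integral_le_of_norm_le hab ?_ (hF1i.mul_const _)
      refine Filter.Eventually.of_forall fun t ht => ?_
      rw [norm_mul, hvn, Complex.norm_real, Real.norm_eq_abs,
        abs_of_nonneg (hF1n t ⟨ht.1.le, ht.2⟩)]
    have h4 : ∫ t in a..b, q1_F1 x t = PhR (q1_lam x b) - PhR (q1_lam x a) := by
      refine intervalIntegral.integral_eq_sub_of_hasDerivAt (f := fun t => PhR (q1_lam x t))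
        (fun t ht => ?_) hF1i
      rw [Set.uIcc_of_le hab] at ht
      exact q1_hasDerivAt_F0 x (lt_of_lt_of_le ha ht.1)
    rw [intervalIntegral.integral_mul_const, h4] at h3
    rw [div_eq_mul_one_div]
    exact h3
  have h5 : ‖((PhR (q1_lam x b) : ℝ) : ℂ) * v b‖ = PhR (q1_lam x b) / |l| := by
    rw [norm_mul, hvn, Complex.norm_real, Real.norm_eq_abs, abs_of_nonneg (hAn b), mul_one_div]
  have h6 : ‖((PhR (q1_lam x a) : ℝ) : ℂ) * v a‖ = PhR (q1_lam x a) / |l| := by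
    rw [norm_mul, hvn, Complex.norm_real, Real.norm_eq_abs, abs_of_nonneg (hAn a), mul_one_div]
  calc _ ≤ ‖((PhR (q1_lam x b) : ℝ) : ℂ) * v b - ((PhR (q1_lam x a) : ℝ) : ℂ) * v a‖ +
        ‖∫ t in a..b, ((q1_F1 x t : ℝ) : ℂ) * v t‖ := norm_sub_le _ _
    _ ≤ (‖((PhR (q1_lam x b) : ℝ) : ℂ) * v b‖ + ‖((PhR (q1_lam x a) : ℝ) : ℂ) * v a‖) +
        (PhR (q1_lam x b) - PhR (q1_lam x a)) / |l| := add_le_add (norm_sub_le _ _) h2
    _ = _ := by rw [h5, h6]; ring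

lemma tw_PhR_le : ∃ C : ℝ, 0 < C ∧ ∀ x T : ℝ, 0 < x → 0 < T →
    PhR (q1_lam x T) ≤ C * (T / x) ^ (3/4 : ℝ) := by
  obtain ⟨C, hC, h⟩ := Ph_le 0 (A := 3/4) (by norm_num)
  refine ⟨C, hC, fun x T hx hT => ?_⟩
  have h1 := h (q1_lam x T)
  rw [Ph_zero, Complex.norm_real, Real.norm_eq_abs, abs_of_nonneg (PhR_mem _).1] at h1
  refine h1.trans (mul_le_mul_of_nonneg_left ((min_le_right _ _).trans ?_) hC.le)
  rw [Real.rpow_def_of_pos (by positivity), Real.exp_le_exp, mul_comm]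
  refine mul_le_mul_of_nonneg_right ?_ (by norm_num)
  unfold q1_lam
  rw [Real.log_div hT.ne' hx.ne', Real.log_div hT.ne' (by positivity)]
  have h2 : 0 ≤ Real.log (2 * Real.pi) := by
    apply Real.log_nonneg
    have := Real.pi_gt_three
    linarith
  linarith

/-- The universal off-diagonal weights. -/
noncomputable def tw_g (p : ℕ × ℕ) : ℝ :=
  if p.1 = 0 ∨ p.2 = 0 ∨ p.1 = p.2 then 0 else
    ((p.1:ℝ) * p.2) ^ (-(5/4) : ℝ) / |Real.log ((p.1:ℝ) / p.2)|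

lemma tw_g_nonneg (p : ℕ × ℕ) : 0 ≤ tw_g p := by
  unfold tw_g
  split_ifs
  · exact le_rfl
  · positivity

lemma tw_g_le_of_lt {x y : ℕ} (hy : 0 < y) (hxy : y < x) :
    tw_g (x, y) ≤ (y:ℝ) ^ (-(5/4) : ℝ) * ((x - y : ℕ) : ℝ) ^ (-(5/4) : ℝ) := by
  have hyR : (0:ℝ) < y := by exact_mod_cast hy
  have hxR : (0:ℝ) < x := by exact_mod_cast hy.trans hxy
  have hd : ((x - y : ℕ) : ℝ) = (x:ℝ) - y := by
    rw [Nat.cast_sub hxy.le]
  have hdR : (0:ℝ) < (x:ℝ) - y := by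
    have : (y:ℝ) < x := by exact_mod_cast hxy
    linarith
  unfold tw_g
  rw [if_neg (by simp only; omega)]
  simp only
  rw [hd]
  have h1 : ((x:ℝ) - y) / x ≤ |Real.log ((x:ℝ) / y)| := by
    refine le_trans ?_ (le_abs_self _)
    have h0 : Real.log ((x:ℝ) / y) = -Real.log ((y:ℝ) / x) := by
      rw [← Real.log_inv, inv_div]
    rw [h0]
    have := Real.log_le_sub_one_of_pos (x := (y:ℝ) / x) (by positivity)
    have h2 : ((x:ℝ) - y) / x = 1 - y / x := by field_simp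
    linarith
  have h2 : 0 < ((x:ℝ) - y) / x := by positivity
  have h3 : (x:ℝ) ^ (-(5/4) : ℝ) * x = (x:ℝ) ^ (-(1/4) : ℝ) := by
    nth_rewrite 2 [← Real.rpow_one (x:ℝ)]
    rw [← Real.rpow_add hxR]
    norm_num
  have h4 : ((x:ℝ) - y) ^ (-(5/4) : ℝ) = ((x:ℝ) - y) ^ (-(1/4) : ℝ) * ((x:ℝ) - y)⁻¹ := by
    rw [← Real.rpow_neg_one, ← Real.rpow_add hdR]
    norm_num
  have h5 : (x:ℝ) ^ (-(1/4) : ℝ) ≤ ((x:ℝ) - y) ^ (-(1/4) : ℝ) :=
    Real.rpow_le_rpow_of_nonpos hdR (by linarith) (by norm_num)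
  calc ((x:ℝ) * y) ^ (-(5/4) : ℝ) / |Real.log ((x:ℝ) / y)| ≤
        ((x:ℝ) * y) ^ (-(5/4) : ℝ) / (((x:ℝ) - y) / x) :=
        div_le_div_of_nonneg_left (by positivity) h2 h1
    _ = (y:ℝ) ^ (-(5/4) : ℝ) * (((x:ℝ) ^ (-(5/4) : ℝ) * x) * ((x:ℝ) - y)⁻¹) := by
        rw [Real.mul_rpow hxR.le hyR.le]
        field_simp
    _ ≤ (y:ℝ) ^ (-(5/4) : ℝ) * (((x:ℝ) - y) ^ (-(1/4) : ℝ) * ((x:ℝ) - y)⁻¹) := by
        rw [h3]
        exact mul_le_mul_of_nonneg_left (mul_le_mul_of_nonneg_right h5 (by positivity))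
          (by positivity)
    _ = _ := by rw [h4]

lemma tw_g_symm (x y : ℕ) : tw_g (x, y) = tw_g (y, x) := by
  unfold tw_g
  simp only
  by_cases h : x = 0 ∨ y = 0 ∨ x = y
  · rw [if_pos h, if_pos (by omega)]
  · have h0 : Real.log ((x:ℝ) / y) = -Real.log ((y:ℝ) / x) := by
      rw [← Real.log_inv, inv_div]
    rw [if_neg h, if_neg (by omega), mul_comm, h0, abs_neg]

/-- majorant -/
noncomputable def tw_f (p : ℕ × ℕ) : ℝ :=
  if p.2 < p.1 then (p.2:ℝ) ^ (-(5/4) : ℝ) * ((p.1 - p.2 : ℕ) : ℝ) ^ (-(5/4) : ℝ) else 0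

lemma tw_f_summable : Summable tw_f := by
  obtain ⟨φ, hφ⟩ : ∃ φ : ℕ × ℕ → ℕ × ℕ, φ = fun q => (q.1 + q.2, q.2) := ⟨_, rfl⟩
  have hinj : Function.Injective φ := by
    rintro ⟨a, b⟩ ⟨c, d⟩ h
    rw [hφ] at h
    simp only [Prod.mk.injEq] at h
    ext <;> simp only <;> omega
  rw [← hinj.summable_iff]
  · have h1 : Summable fun n : ℕ => (n:ℝ) ^ (-(5/4) : ℝ) := summable_nat_rpow_neg (by norm_num)
    have h2 := h1.mul_of_nonneg h1 (fun n => by positivity) (fun n => by positivity)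
    refine h2.congr ?_
    rintro ⟨r, y⟩
    simp only [Function.comp_apply, hφ]
    unfold tw_f
    simp only
    rcases Nat.eq_zero_or_pos r with h0 | h0
    · subst h0
      rw [if_neg (by omega)]
      rw [Nat.cast_zero, Real.zero_rpow (by norm_num), zero_mul]
    · rw [if_pos (by omega), Nat.add_sub_cancel, mul_comm]
  · rintro ⟨x, y⟩ hxy
    unfold tw_f
    simp only
    rw [if_neg]
    intro h
    apply hxy
    refine ⟨(x - y, y), ?_⟩
    rw [hφ]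
    simp only [Prod.mk.injEq, and_true]
    omega

lemma tw_g_summable : Summable tw_g := by
  have h2 : Summable fun p : ℕ × ℕ => tw_f p + tw_f p.swap :=
    tw_f_summable.add ((Equiv.prodComm ℕ ℕ).summable_iff.2 tw_f_summable)
  refine Summable.of_nonneg_of_le tw_g_nonneg ?_ h2
  have hf0 : ∀ p, 0 ≤ tw_f p := by
    intro p
    unfold tw_f
    split_ifs
    · positivity
    · exact le_rfl
  rintro ⟨x, y⟩
  rw [Prod.swap_prod_mk]
  by_cases h : x = 0 ∨ y = 0 ∨ x = y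
  · have h3 : tw_g (x, y) = 0 := by
      unfold tw_g
      rw [if_pos h]
    rw [h3]
    exact add_nonneg (hf0 _) (hf0 _)
  · rcases lt_or_gt_of_ne (fun h1 : x = y => h (Or.inr (Or.inr h1))) with h1 | h1
    · have h3 := tw_g_le_of_lt (x := y) (y := x) (by omega) h1
      rw [← tw_g_symm] at h3
      have h4 : tw_f (y, x) = (x:ℝ) ^ (-(5/4) : ℝ) * ((y - x : ℕ) : ℝ) ^ (-(5/4) : ℝ) := by
        unfold tw_f
        rw [if_pos h1]
      have := hf0 (x, y)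
      linarith
    · have h3 := tw_g_le_of_lt (x := x) (y := y) (by omega) h1
      have h4 : tw_f (x, y) = (y:ℝ) ^ (-(5/4) : ℝ) * ((x - y : ℕ) : ℝ) ^ (-(5/4) : ℝ) := by
        unfold tw_f
        rw [if_pos h1]
      have := hf0 (y, x)
      linarith

/-- scaled sums -/
lemma tw_g_scaled {m n : ℕ} (hm : 1 ≤ m) (hn : 1 ≤ n) :
    Summable (fun p : ℕ × ℕ => tw_g (p.1 * m, p.2 * n)) ∧
      ∑' p : ℕ × ℕ, tw_g (p.1 * m, p.2 * n) ≤ ∑' p, tw_g p := by
  have hinj : Function.Injective fun p : ℕ × ℕ => (p.1 * m, p.2 * n) := by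
    rintro ⟨a, b⟩ ⟨c, d⟩ h
    simp only [Prod.mk.injEq] at h
    have h1 := Nat.eq_of_mul_eq_mul_right (by omega) h.1
    have h2 := Nat.eq_of_mul_eq_mul_right (by omega) h.2
    rw [h1, h2]
  have h1 := tw_g_summable.comp_injective hinj
  refine ⟨h1, ?_⟩
  exact h1.tsum_le_tsum_of_inj _ hinj (fun c _ => tw_g_nonneg c) (fun _ => le_rfl) tw_g_summable

end Pool.Agent.LibTG78.TW
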