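import Mathlib
import Pool.Agent.LibTG78.TW2

/-! Twisted second moment of zeta with power saving. -/

set_option autoImplicit false

namespace Pool.Agent.LibTG78.TW

open MeasureTheory Set Filter Topology Complex
open Pool.Agent.LibZM Pool.Agent.LibM3

/-- the twist -/
noncomputable def tw_e (m n : ℕ) (t : ℝ) : ℂ :=
  cexp (-((t * (Real.log m - Real.log n) : ℝ) : ℂ) * I)

lemma tw_e_norm (m n : ℕ) (t : ℝ) : ‖tw_e m n t‖ = 1 := by
  unfold tw_e
  rw [← Complex.ofReal_neg, Complex.norm_exp_ofReal_mul_I]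

lemma tw_e_cont (m n : ℕ) : Continuous (tw_e m n) := by
  unfold tw_e
  fun_prop

lemma tw_term {a b m n : ℕ} (ha : 1 ≤ a) (hb : 1 ≤ b) (hm : 1 ≤ m) (hn : 1 ≤ n) (t : ℝ) :
    W2 t (a, b) * tw_e m n t = ((((a:ℝ) * b) ^ (-(1/2) : ℝ) : ℝ) : ℂ) *
      (((PhR (q1_lam ((a:ℝ) * b) t) : ℝ) : ℂ) *
        cexp (-(((Real.log (((a * m : ℕ) : ℝ) / ((b * n : ℕ) : ℝ)) * t : ℝ) : ℂ) * I))) := by
  have ha' : (0:ℝ) < a := by exact_mod_cast ha
  have hb' : (0:ℝ) < b := by exact_mod_cast hb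
  have hm' : (0:ℝ) < m := by exact_mod_cast hm
  have hn' : (0:ℝ) < n := by exact_mod_cast hn
  have e1 : ((a:ℝ) * b) ^ (-(1/2) : ℝ) = Real.exp (-(1/2) * (Real.log a + Real.log b)) := by
    rw [Real.rpow_def_of_pos (by positivity), Real.log_mul ha'.ne' hb'.ne']
    congr 1; ring
  have e2 : Real.log (((a * m : ℕ) : ℝ) / ((b * n : ℕ) : ℝ)) =
      Real.log a + Real.log m - Real.log b - Real.log n := by
    push_cast
    rw [Real.log_div (by positivity) (by positivity), Real.log_mul ha'.ne' hm'.ne',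
      Real.log_mul hb'.ne' hn'.ne']
    ring
  unfold W2 tw_e q1_lam
  simp only
  rw [Ph_zero, natCast_cpow_crit ha, q4_cpow' hb, e1, e2, Complex.ofReal_exp]
  have e3 : cexp (-((Real.log a : ℝ) : ℂ) * crit t) * cexp (-((Real.log b : ℝ) : ℂ) * (1 - crit t)) *
      cexp (-((t * (Real.log m - Real.log n) : ℝ) : ℂ) * I) =
      cexp ((-(1/2) * (Real.log a + Real.log b) : ℝ) : ℂ) *
      cexp (-((((Real.log a + Real.log m - Real.log b - Real.log n) * t : ℝ) : ℂ) * I)) := by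
    rw [← Complex.exp_add, ← Complex.exp_add, ← Complex.exp_add]
    congr 1
    simp only [crit]
    push_cast
    ring
  calc _ = ((PhR (Real.log (t / (2 * Real.pi)) - Real.log ((a:ℝ) * b)) : ℝ) : ℂ) *
      (cexp (-((Real.log a : ℝ) : ℂ) * crit t) * cexp (-((Real.log b : ℝ) : ℂ) * (1 - crit t)) *
      cexp (-((t * (Real.log m - Real.log n) : ℝ) : ℂ) * I)) := by ring
    _ = _ := by rw [e3]; ring

/-- majorant of the terms on `[t₀, T]` -/
lemma tw_W2_le : ∃ C : ℝ, 0 < C ∧ ∀ T t : ℝ, 0 < t → t ≤ T → ∀ p : ℕ × ℕ,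
    ‖W2 t p‖ ≤ C * T ^ 4 * ((p.1:ℝ) ^ (-(9/2) : ℝ) * (p.2:ℝ) ^ (-(9/2) : ℝ)) := by
  obtain ⟨C, hC, h⟩ := q4_W2_le
  refine ⟨C, hC, fun T t ht htT p => ?_⟩
  exact h T t ht htT t ⟨by linarith, by linarith⟩ p.1 p.2

lemma tw_W2_contOn {a b : ℝ} (ha : 0 < a) (p : ℕ × ℕ) :
    ContinuousOn (fun t => W2 t p) (Icc a b) := by
  intro t ht
  have ht0 : 0 < t := lt_of_lt_of_le ha ht.1
  have h1 := q4_contOn_W2 ht0 p.1 p.2
  have h2 : win t ∈ 𝓝 t := by
    unfold win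
    exact Icc_mem_nhds (by linarith) (by linarith)
  exact (h1.continuousAt h2).continuousWithinAt

section Fixed

variable (m n : ℕ)

/-- diagonal terms -/
noncomputable def tw_D (t : ℝ) (p : ℕ × ℕ) : ℂ :=
  if p.1 * m = p.2 * n then W2 t p * tw_e m n t else 0

/-- off-diagonal terms -/
noncomputable def tw_O (t : ℝ) (p : ℕ × ℕ) : ℂ :=
  if p.1 * m = p.2 * n then 0 else W2 t p * tw_e m n t

lemma tw_D_norm (t : ℝ) (p : ℕ × ℕ) : ‖tw_D m n t p‖ ≤ ‖W2 t p‖ := by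
  unfold tw_D
  split_ifs
  · rw [norm_mul, tw_e_norm, mul_one]
  · rw [norm_zero]; exact norm_nonneg _

lemma tw_O_norm (t : ℝ) (p : ℕ × ℕ) : ‖tw_O m n t p‖ ≤ ‖W2 t p‖ := by
  unfold tw_O
  split_ifs
  · rw [norm_zero]; exact norm_nonneg _
  · rw [norm_mul, tw_e_norm, mul_one]

lemma tw_D_contOn {a b : ℝ} (ha : 0 < a) (p : ℕ × ℕ) :
    ContinuousOn (fun t => tw_D m n t p) (Icc a b) := by
  unfold tw_D
  split_ifs
  · exact (tw_W2_contOn ha p).mul (tw_e_cont m n).continuousOn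
  · exact continuousOn_const

lemma tw_O_contOn {a b : ℝ} (ha : 0 < a) (p : ℕ × ℕ) :
    ContinuousOn (fun t => tw_O m n t p) (Icc a b) := by
  unfold tw_O
  split_ifs
  · exact continuousOn_const
  · exact (tw_W2_contOn ha p).mul (tw_e_cont m n).continuousOn

lemma tw_D_tsum_contOn {a b : ℝ} (ha : 0 < a) :
    ContinuousOn (fun t => ∑' p, tw_D m n t p) (Icc a b) := by
  obtain ⟨C, hC, h⟩ := tw_W2_le
  refine continuousOn_tsum (fun p => tw_D_contOn m n ha p) (q4_summable_maj.mul_left (C * b ^ 4))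
    (fun p t ht => ?_)
  exact (tw_D_norm m n t p).trans (h b t (lt_of_lt_of_le ha ht.1) ht.2 p)

lemma tw_O_tsum_contOn {a b : ℝ} (ha : 0 < a) :
    ContinuousOn (fun t => ∑' p, tw_O m n t p) (Icc a b) := by
  obtain ⟨C, hC, h⟩ := tw_W2_le
  refine continuousOn_tsum (fun p => tw_O_contOn m n ha p) (q4_summable_maj.mul_left (C * b ^ 4))
    (fun p t ht => ?_)
  exact (tw_O_norm m n t p).trans (h b t (lt_of_lt_of_le ha ht.1) ht.2 p)

lemma tw_D_summable (t : ℝ) : Summable fun p => tw_D m n t p :=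
  Summable.of_norm_bounded (summable_W2 t) (fun p => tw_D_norm m n t p)

lemma tw_O_summable (t : ℝ) : Summable fun p => tw_O m n t p :=
  Summable.of_norm_bounded (summable_W2 t) (fun p => tw_O_norm m n t p)

lemma tw_split (t : ℝ) : (∑' p, W2 t p) * tw_e m n t =
    (∑' p, tw_D m n t p) + ∑' p, tw_O m n t p := by
  rw [← (tw_D_summable m n t).tsum_add (tw_O_summable m n t), ← tsum_mul_right]
  refine tsum_congr fun p => ?_
  unfold tw_D tw_O
  split_ifs <;> simp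

end Fixed

/-- The diagonal. -/
lemma tw_diag {m n : ℕ} (hm : 1 ≤ m) (hn : 1 ≤ n) (hmn : Nat.Coprime m n) {t : ℝ} (ht : 0 < t) :
    ∑' p, tw_D m n t p = ((((m:ℝ) * n) ^ (-(1/2) : ℝ) *
      ∑' j : ℕ, (j:ℝ)⁻¹ * PhR (Real.log (t / (2 * Real.pi * ((m:ℝ) * n))) - 2 * Real.log j) : ℝ) : ℂ) := by
  have hm' : (0:ℝ) < m := by exact_mod_cast hm
  have hn' : (0:ℝ) < n := by exact_mod_cast hn
  obtain ⟨φ, hφ⟩ : ∃ φ : ℕ → ℕ × ℕ, φ = fun j => (n * j, m * j) := ⟨_, rfl⟩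
  have hinj : Function.Injective φ := by
    intro i j hij
    rw [hφ] at hij
    have := congrArg Prod.fst hij
    exact Nat.eq_of_mul_eq_mul_left hn this
  have hsupp : Function.support (tw_D m n t) ⊆ Set.range φ := by
    rintro ⟨a, b⟩ hab
    rw [Function.mem_support] at hab
    unfold tw_D at hab
    simp only at hab
    by_cases he : a * m = b * n
    · have h2 : n ∣ a := by
        have h3 : n ∣ a * m := ⟨b, by rw [he]; ring⟩
        exact hmn.symm.dvd_of_dvd_mul_right h3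
      obtain ⟨j, rfl⟩ := h2
      refine ⟨j, ?_⟩
      have h3 : b = m * j := by
        apply Nat.eq_of_mul_eq_mul_left hn
        calc n * b = b * n := by ring
          _ = n * j * m := he.symm
          _ = n * (m * j) := by ring
      rw [hφ, h3]
    · rw [if_neg he] at hab
      exact absurd rfl hab
  rw [← hinj.tsum_eq hsupp, Complex.ofReal_mul, Complex.ofReal_tsum, ← tsum_mul_left]
  refine tsum_congr fun j => ?_
  have he : (φ j).1 * m = (φ j).2 * n := by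
    rw [hφ]
    simp only
    ring
  unfold tw_D
  rw [if_pos he]
  rcases Nat.eq_zero_or_pos j with h0 | h0
  · subst h0
    have h1 : φ 0 = (0, 0) := by rw [hφ]; simp
    rw [h1, q4_W2_zero (Or.inl rfl)]
    simp
  · have h1 : φ j = (n * j, m * j) := by rw [hφ]
    have hj' : (0:ℝ) < j := by exact_mod_cast h0
    rw [h1, tw_term (Nat.mul_pos hn h0) (Nat.mul_pos hm h0) hm hn]
    have e1 : n * j * m = m * j * n := by ring
    rw [e1]
    have e2 : (((m * j * n : ℕ) : ℝ)) / ((m * j * n : ℕ) : ℝ) = 1 := by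
      refine div_self ?_
      have : 0 < m * j * n := Nat.mul_pos (Nat.mul_pos hm h0) hn
      exact_mod_cast this.ne'
    rw [e2, Real.log_one]
    have e3 : (((n * j : ℕ) : ℝ) * ((m * j : ℕ) : ℝ)) = ((m:ℝ) * n) * (j:ℝ) ^ 2 := by
      push_cast; ring
    rw [e3]
    have e4 : (((m:ℝ) * n) * (j:ℝ) ^ 2) ^ (-(1/2) : ℝ) = ((m:ℝ) * n) ^ (-(1/2) : ℝ) * (j:ℝ)⁻¹ := by
      rw [Real.mul_rpow (by positivity) (by positivity)]
      congr 1
      rw [Real.rpow_neg (by positivity), ← Real.sqrt_eq_rpow, Real.sqrt_sq hj'.le]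
    have e5 : q1_lam (((m:ℝ) * n) * (j:ℝ) ^ 2) t =
        Real.log (t / (2 * Real.pi * ((m:ℝ) * n))) - 2 * Real.log j := by
      unfold q1_lam
      rw [Real.log_mul (by positivity) (by positivity), Real.log_pow,
        Real.log_div ht.ne' (by positivity), Real.log_div ht.ne' (by positivity),
        Real.log_mul (x := 2 * Real.pi) (y := (m:ℝ) * n) (by positivity) (by positivity)]
      push_cast
      ring
    rw [e4, e5]
    simp only [zero_mul, Complex.ofReal_zero, neg_zero, Complex.exp_zero, mul_one]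
    push_cast
    ring

/-- The off-diagonal terms. -/
lemma tw_off : ∃ C : ℝ, 0 < C ∧ ∀ m n : ℕ, 1 ≤ m → 1 ≤ n → ∀ a T : ℝ, 0 < a → a ≤ T →
    ‖∫ t in a..T, ∑' p, tw_O m n t p‖ ≤ C * T ^ (3/4 : ℝ) * ((m:ℝ) * n) ^ (5/4 : ℝ) := by
  obtain ⟨C, hC, hP⟩ := tw_PhR_le
  obtain ⟨C2, hC2, hW⟩ := tw_W2_le
  obtain ⟨S, hS⟩ : ∃ S, S = ∑' p, tw_g p := ⟨_, rfl⟩
  have hS0 : 0 ≤ S := by rw [hS]; exact tsum_nonneg tw_g_nonneg
  refine ⟨2 * C * (S + 1), by positivity, ?_⟩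
  intro m n hm hn a T ha haT
  have hm' : (0:ℝ) < m := by exact_mod_cast hm
  have hn' : (0:ℝ) < n := by exact_mod_cast hn
  have hT : 0 < T := lt_of_lt_of_le ha haT
  have hint : ∀ p, IntegrableOn (fun t => tw_O m n t p) (Ioc a T) := by
    intro p
    exact ((tw_O_contOn m n ha p).integrableOn_Icc).mono_set Ioc_subset_Icc_self
  have hsum : Summable fun p => ∫ t in Ioc a T, ‖tw_O m n t p‖ := by
    refine Summable.of_nonneg_of_le (fun p => integral_nonneg fun t => norm_nonneg _) (fun p => ?_)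
      ((q4_summable_maj.mul_left (C2 * T ^ 4)).mul_left (T - a))
    have h1 : ∫ t in Ioc a T, ‖tw_O m n t p‖ ≤ ∫ _t in Ioc a T,
        C2 * T ^ 4 * ((p.1:ℝ) ^ (-(9/2) : ℝ) * (p.2:ℝ) ^ (-(9/2) : ℝ)) := by
      refine setIntegral_mono_on (hint p).norm (by exact integrable_const _) measurableSet_Ioc
        (fun t ht => ?_)
      exact (tw_O_norm m n t p).trans (hW T t (lt_trans ha ht.1) ht.2 p)
    refine h1.trans (le_of_eq ?_)
    rw [setIntegral_const, smul_eq_mul]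
    congr 1
    simp [haT]
  have h1 := hasSum_integral_of_summable_integral_norm (μ := volume.restrict (Ioc a T)) hint hsum
  rw [intervalIntegral.integral_of_le haT, ← h1.tsum_eq]
  obtain ⟨hg1, hg2⟩ := tw_g_scaled hm hn
  have hb : ∀ p, ‖∫ t in Ioc a T, tw_O m n t p‖ ≤
      2 * C * T ^ (3/4 : ℝ) * ((m:ℝ) * n) ^ (5/4 : ℝ) * tw_g (p.1 * m, p.2 * n) := by
    rintro ⟨x, y⟩
    have hnn : 0 ≤ 2 * C * T ^ (3/4 : ℝ) * ((m:ℝ) * n) ^ (5/4 : ℝ) * tw_g (x * m, y * n) :=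
      mul_nonneg (by positivity) (tw_g_nonneg _)
    simp only
    by_cases h0 : x = 0 ∨ y = 0 ∨ x * m = y * n
    · have h2 : ∀ t, tw_O m n t (x, y) = 0 := by
        intro t
        unfold tw_O
        rcases h0 with h0 | h0 | h0
        · rw [q4_W2_zero (Or.inl h0)]; simp
        · rw [q4_W2_zero (Or.inr h0)]; simp
        · rw [if_pos h0]
      simp only [h2]
      rw [integral_zero, norm_zero]
      exact hnn
    · push Not at h0
      obtain ⟨hx, hy, hxy⟩ := h0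
      have hx1 : 1 ≤ x := Nat.one_le_iff_ne_zero.2 hx
      have hy1 : 1 ≤ y := Nat.one_le_iff_ne_zero.2 hy
      have hx' : (0:ℝ) < x := by exact_mod_cast hx1
      have hy' : (0:ℝ) < y := by exact_mod_cast hy1
      have h2 : ∀ t, tw_O m n t (x, y) = ((((x:ℝ) * y) ^ (-(1/2) : ℝ) : ℝ) : ℂ) *
          (((PhR (q1_lam ((x:ℝ) * y) t) : ℝ) : ℂ) *
          cexp (-(((Real.log (((x * m : ℕ) : ℝ) / ((y * n : ℕ) : ℝ)) * t : ℝ) : ℂ) * I))) := by
        intro t
        unfold tw_O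
        rw [if_neg (by simpa using hxy), tw_term hx1 hy1 hm hn]
      simp only [h2]
      have hl : Real.log (((x * m : ℕ) : ℝ) / ((y * n : ℕ) : ℝ)) ≠ 0 := by
        have p1 : (0:ℝ) < ((x * m : ℕ) : ℝ) := by exact_mod_cast Nat.mul_pos hx1 hm
        have p2 : (0:ℝ) < ((y * n : ℕ) : ℝ) := by exact_mod_cast Nat.mul_pos hy1 hn
        apply Real.log_ne_zero_of_pos_of_ne_one (by positivity)
        intro h3
        rw [div_eq_one_iff_eq p2.ne'] at h3
        exact hxy (by exact_mod_cast h3)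
      rw [integral_const_mul, norm_mul, Complex.norm_real, Real.norm_eq_abs,
        abs_of_nonneg (by positivity : (0:ℝ) ≤ ((x:ℝ) * y) ^ (-(1/2) : ℝ)),
        ← intervalIntegral.integral_of_le haT]
      have h3 := tw_osc (x := (x:ℝ) * y) ha haT hl
      have h4 := hP ((x:ℝ) * y) T (by positivity) hT
      have h5 : 0 < |Real.log (((x * m : ℕ) : ℝ) / ((y * n : ℕ) : ℝ))| := abs_pos.2 hl
      have h6 : tw_g (x * m, y * n) = (((x * m : ℕ) : ℝ) * ((y * n : ℕ) : ℝ)) ^ (-(5/4) : ℝ) /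
          |Real.log (((x * m : ℕ) : ℝ) / ((y * n : ℕ) : ℝ))| := by
        unfold tw_g
        rw [if_neg]
        simp only [mul_eq_zero]
        omega
      have h7 : (((x * m : ℕ) : ℝ) * ((y * n : ℕ) : ℝ)) ^ (-(5/4) : ℝ) =
          ((x:ℝ) * y) ^ (-(5/4) : ℝ) * ((m:ℝ) * n) ^ (-(5/4) : ℝ) := by
        rw [← Real.mul_rpow (by positivity) (by positivity)]
        congr 1
        push_cast
        ring
      have h8 : ((m:ℝ) * n) ^ (5/4 : ℝ) * ((m:ℝ) * n) ^ (-(5/4) : ℝ) = 1 := by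
        rw [← Real.rpow_add (by positivity)]
        norm_num
      have h9 : (T / ((x:ℝ) * y)) ^ (3/4 : ℝ) = T ^ (3/4 : ℝ) * ((x:ℝ) * y) ^ (-(3/4) : ℝ) := by
        rw [Real.div_rpow hT.le (by positivity), Real.rpow_neg (by positivity), div_eq_mul_inv]
      have h10 : ((x:ℝ) * y) ^ (-(1/2) : ℝ) * ((x:ℝ) * y) ^ (-(3/4) : ℝ) =
          ((x:ℝ) * y) ^ (-(5/4) : ℝ) := by
        rw [← Real.rpow_add (by positivity)]
        norm_num
      calc ((x:ℝ) * y) ^ (-(1/2) : ℝ) * _ ≤ ((x:ℝ) * y) ^ (-(1/2) : ℝ) *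
            (2 * PhR (q1_lam ((x:ℝ) * y) T) /
              |Real.log (((x * m : ℕ) : ℝ) / ((y * n : ℕ) : ℝ))|) :=
            mul_le_mul_of_nonneg_left h3 (by positivity)
        _ ≤ ((x:ℝ) * y) ^ (-(1/2) : ℝ) * (2 * (C * (T / ((x:ℝ) * y)) ^ (3/4 : ℝ)) /
              |Real.log (((x * m : ℕ) : ℝ) / ((y * n : ℕ) : ℝ))|) := by
            refine mul_le_mul_of_nonneg_left ?_ (by positivity)
            exact div_le_div_of_nonneg_right (mul_le_mul_of_nonneg_left h4 (by norm_num)) h5.le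
        _ = 2 * C * T ^ (3/4 : ℝ) * (((x:ℝ) * y) ^ (-(1/2) : ℝ) * ((x:ℝ) * y) ^ (-(3/4) : ℝ)) /
              |Real.log (((x * m : ℕ) : ℝ) / ((y * n : ℕ) : ℝ))| := by
            rw [h9]
            ring
        _ = 2 * C * T ^ (3/4 : ℝ) * (((m:ℝ) * n) ^ (5/4 : ℝ) * ((m:ℝ) * n) ^ (-(5/4) : ℝ)) *
              (((x:ℝ) * y) ^ (-(5/4) : ℝ)) /
              |Real.log (((x * m : ℕ) : ℝ) / ((y * n : ℕ) : ℝ))| := by
            rw [h10, h8, mul_one]
        _ = _ := by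
            rw [h6, h7]
            ring
  have h2 : Summable fun p : ℕ × ℕ =>
      2 * C * T ^ (3/4 : ℝ) * ((m:ℝ) * n) ^ (5/4 : ℝ) * tw_g (p.1 * m, p.2 * n) := hg1.mul_left _
  calc ‖∑' p, ∫ t in Ioc a T, tw_O m n t p‖ ≤ ∑' p : ℕ × ℕ,
        2 * C * T ^ (3/4 : ℝ) * ((m:ℝ) * n) ^ (5/4 : ℝ) * tw_g (p.1 * m, p.2 * n) :=
        tsum_of_norm_bounded h2.hasSum hb
    _ = 2 * C * T ^ (3/4 : ℝ) * ((m:ℝ) * n) ^ (5/4 : ℝ) * ∑' p : ℕ × ℕ, tw_g (p.1 * m, p.2 * n) :=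
        tsum_mul_left
    _ ≤ 2 * C * T ^ (3/4 : ℝ) * ((m:ℝ) * n) ^ (5/4 : ℝ) * (S + 1) := by
        refine mul_le_mul_of_nonneg_left ?_ (by positivity)
        rw [hS]
        linarith
    _ = _ := by ring

end Pool.Agent.LibTG78.TW
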