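import Mathlib
import Pool.Agent.LibTG78.TW3

/-! Twisted second moment of zeta with power saving: assembly. -/

set_option autoImplicit false

namespace Pool.Agent.LibTG78.TW

open MeasureTheory Set Filter Topology Complex
open Pool.Agent.LibZM Pool.Agent.LibM3

/-- the main term -/
noncomputable def tw_M (m n : ℕ) (T : ℝ) : ℝ :=
  ((m:ℝ) * n) ^ (-(1/2) : ℝ) * (T * (Real.log T - Real.log (2 * Real.pi * ((m:ℝ) * n)) +
    2 * Real.eulerMascheroniConstant - 1))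

lemma tw_M_le {m n : ℕ} (hm : 1 ≤ m) (hn : 1 ≤ n) {T b : ℝ} (hT : 1 ≤ T) (hTb : T ≤ b) :
    |tw_M m n T| ≤ b * (Real.log b + 8) := by
  have hm' : (1:ℝ) ≤ m := by exact_mod_cast hm
  have hn' : (1:ℝ) ≤ n := by exact_mod_cast hn
  have hmn : (1:ℝ) ≤ (m:ℝ) * n := by nlinarith
  obtain ⟨y, hy⟩ : ∃ y, y = (m:ℝ) * n := ⟨_, rfl⟩
  rw [← hy] at hmn
  have h1 : y ^ (-(1/2) : ℝ) ≤ 1 := Real.rpow_le_one_of_one_le_of_nonpos hmn (by norm_num)
  have h1' : 0 < y ^ (-(1/2) : ℝ) := by positivity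
  have h2 : y ^ (-(1/2) : ℝ) * Real.log y ≤ 2 := by
    have h3 := Real.log_le_rpow_div (x := y) (ε := 1/2) (by linarith) (by norm_num)
    have h4 : y ^ (-(1/2) : ℝ) * y ^ (1/2 : ℝ) = 1 := by
      rw [← Real.rpow_add (by linarith)]
      norm_num
    calc y ^ (-(1/2) : ℝ) * Real.log y ≤ y ^ (-(1/2) : ℝ) * (y ^ (1/2 : ℝ) / (1/2)) :=
          mul_le_mul_of_nonneg_left h3 h1'.le
      _ = 2 * (y ^ (-(1/2) : ℝ) * y ^ (1/2 : ℝ)) := by ring
      _ = 2 := by rw [h4, mul_one]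
  have h5 : 0 ≤ Real.log y := Real.log_nonneg hmn
  have h6 : Real.log (2 * Real.pi * y) = Real.log (2 * Real.pi) + Real.log y :=
    Real.log_mul (by positivity) (by positivity)
  have h7 : 0 ≤ Real.log (2 * Real.pi) := by
    apply Real.log_nonneg
    have := Real.pi_gt_three
    linarith
  have h8 : Real.log (2 * Real.pi) ≤ 3 := by
    have h9 := Real.log_le_sub_one_of_pos (x := 2 * Real.pi / 4) (by positivity)
    have h10 : Real.log (2 * Real.pi / 4) = Real.log (2 * Real.pi) - Real.log 4 :=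
      Real.log_div (by positivity) (by norm_num)
    have h11 : Real.log 4 ≤ 2 := by
      have : Real.log 4 = 2 * Real.log 2 := by
        rw [show (4:ℝ) = 2 ^ 2 by norm_num, Real.log_pow]
        norm_num
      have h12 := Real.log_two_lt_d9
      linarith
    have := Real.pi_le_four
    linarith
  have h13 : Real.eulerMascheroniConstant < 2 / 3 := Real.eulerMascheroniConstant_lt_two_thirds
  have h14 : 1 / 2 < Real.eulerMascheroniConstant := Real.one_half_lt_eulerMascheroniConstant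
  have h15 : 0 ≤ Real.log T := Real.log_nonneg hT
  have h16 : Real.log T ≤ Real.log b := Real.log_le_log (by linarith) hTb
  unfold tw_M
  rw [← hy, h6]
  have e : y ^ (-(1/2) : ℝ) * (T * (Real.log T - (Real.log (2 * Real.pi) + Real.log y) +
    2 * Real.eulerMascheroniConstant - 1)) = T * (y ^ (-(1/2) : ℝ) * (Real.log T -
      Real.log (2 * Real.pi) + 2 * Real.eulerMascheroniConstant - 1) -
      y ^ (-(1/2) : ℝ) * Real.log y) := by ring
  rw [e, abs_mul, abs_of_nonneg (by linarith : (0:ℝ) ≤ T)]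
  refine mul_le_mul hTb ?_ (abs_nonneg _) (by linarith)
  have h17 : |y ^ (-(1/2) : ℝ) * (Real.log T -
      Real.log (2 * Real.pi) + 2 * Real.eulerMascheroniConstant - 1)| ≤ Real.log b + 4 := by
    rw [abs_mul, abs_of_pos h1']
    have h18 : |Real.log T - Real.log (2 * Real.pi) + 2 * Real.eulerMascheroniConstant - 1| ≤
        Real.log b + 4 := by
      rw [abs_le]
      constructor <;> linarith
    calc _ ≤ 1 * (Real.log b + 4) := mul_le_mul h1 h18 (abs_nonneg _) zero_le_one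
      _ = _ := one_mul _
  have h19 : |y ^ (-(1/2) : ℝ) * Real.log y| ≤ 2 := by
    rw [abs_of_nonneg (mul_nonneg h1'.le h5)]
    exact h2
  calc _ ≤ |y ^ (-(1/2) : ℝ) * (Real.log T -
      Real.log (2 * Real.pi) + 2 * Real.eulerMascheroniConstant - 1)| +
        |y ^ (-(1/2) : ℝ) * Real.log y| := abs_sub _ _
    _ ≤ _ := by linarith

lemma tw_M_int {m n : ℕ} (hm : 1 ≤ m) (hn : 1 ≤ n) {a T : ℝ} (ha : 0 < a) (haT : a ≤ T) :
    ∫ t in a..T, ((m:ℝ) * n) ^ (-(1/2) : ℝ) *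
      (Real.log (t / (2 * Real.pi * ((m:ℝ) * n))) + 2 * Real.eulerMascheroniConstant) =
      tw_M m n T - tw_M m n a := by
  have hm' : (0:ℝ) < m := by exact_mod_cast hm
  have hn' : (0:ℝ) < n := by exact_mod_cast hn
  refine intervalIntegral.integral_eq_sub_of_hasDerivAt (f := tw_M m n) (fun t ht => ?_) ?_
  · rw [Set.uIcc_of_le haT] at ht
    have ht0 : 0 < t := lt_of_lt_of_le ha ht.1
    unfold tw_M
    have h1 := (hasDerivAt_id t).mul ((((Real.hasDerivAt_log ht0.ne').sub_const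
      (Real.log (2 * Real.pi * ((m:ℝ) * n)))).add_const
        (2 * Real.eulerMascheroniConstant)).sub_const 1)
    have h2 := h1.const_mul (((m:ℝ) * n) ^ (-(1/2) : ℝ))
    refine h2.congr_deriv ?_
    simp only [id]
    rw [Real.log_div ht0.ne' (by positivity)]
    field_simp
    ring
  · refine ContinuousOn.intervalIntegrable ?_
    rw [Set.uIcc_of_le haT]
    refine continuousOn_const.mul (ContinuousOn.add ?_ continuousOn_const)
    refine ContinuousOn.log (by fun_prop) fun t ht => ?_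
    have ht0 : 0 < t := lt_of_lt_of_le ha ht.1
    positivity

theorem tw_twist : ∃ C : ℝ, 0 < C ∧ ∀ m n : ℕ, 1 ≤ m → 1 ≤ n → Nat.Coprime m n → ∀ T : ℝ, 1 ≤ T →
    ‖(∫ t in (0:ℝ)..T, ((‖riemannZeta (crit t)‖ ^ 2 : ℝ) : ℂ) * tw_e m n t) -
      ((tw_M m n T : ℝ) : ℂ)‖ ≤ C * T ^ (3/4 : ℝ) * ((m:ℝ) * n) ^ (5/4 : ℝ) := by
  obtain ⟨C1, t₀, hC1, ht₀, hz⟩ := zeta_sq_approx
  obtain ⟨C2, hC2, hH⟩ := tw_H
  obtain ⟨C3, hC3, hO⟩ := tw_off
  obtain ⟨B0, hB0⟩ : ∃ B0, B0 = t₀ * ((4 + 2 * t₀) ^ 2) := ⟨_, rfl⟩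
  have hB0n : 0 ≤ B0 := by rw [hB0]; positivity
  obtain ⟨C4, hC4⟩ : ∃ C4, C4 = 64 * C1 + C2 * (2 * Real.pi) ^ (1/2 : ℝ) := ⟨_, rfl⟩
  have hC4n : 0 < C4 := by rw [hC4]; positivity
  have hlogt : 0 ≤ Real.log t₀ := Real.log_nonneg ht₀
  refine ⟨B0 + t₀ * (Real.log t₀ + 8) + 2 * C3 + 2 * C4, by positivity, ?_⟩
  intro m n hm hn hmn T hT
  have hm' : (1:ℝ) ≤ m := by exact_mod_cast hm
  have hn' : (1:ℝ) ≤ n := by exact_mod_cast hn
  have hmn1 : (1:ℝ) ≤ (m:ℝ) * n := by nlinarith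
  have hpm : (1:ℝ) ≤ ((m:ℝ) * n) ^ (5/4 : ℝ) := Real.one_le_rpow hmn1 (by norm_num)
  have hpT : (1:ℝ) ≤ T ^ (3/4 : ℝ) := Real.one_le_rpow hT (by norm_num)
  have hpp : (1:ℝ) ≤ T ^ (3/4 : ℝ) * ((m:ℝ) * n) ^ (5/4 : ℝ) := by nlinarith
  obtain ⟨G, hG⟩ : ∃ G : ℝ → ℂ, G = fun t =>
    ((‖riemannZeta (crit t)‖ ^ 2 : ℝ) : ℂ) * tw_e m n t := ⟨_, rfl⟩
  have hGc : Continuous G := by
    rw [hG]
    exact (Complex.continuous_ofReal.comp (continuous_zeta_crit.norm.pow 2)).mul (tw_e_cont m n)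
  have hGn : ∀ t, ‖G t‖ ≤ (4 + 2 * |t|) ^ 2 := by
    intro t
    rw [hG]
    beta_reduce
    rw [norm_mul, tw_e_norm, mul_one, Complex.norm_real, Real.norm_eq_abs,
      abs_of_nonneg (by positivity)]
    exact pow_le_pow_left₀ (norm_nonneg _) (norm_zeta_crit_le t) 2
  have hsmall : ∀ b, 0 ≤ b → b ≤ t₀ → ‖∫ t in (0:ℝ)..b, G t‖ ≤ B0 := by
    intro b hb0 hb
    have h1 := intervalIntegral.norm_integral_le_of_norm_le_const (a := 0) (b := b) (f := G)
      (C := (4 + 2 * t₀) ^ 2) (fun t ht => by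
        rw [Set.uIoc_of_le hb0] at ht
        refine (hGn t).trans (pow_le_pow_left₀ (by positivity) ?_ 2)
        rw [abs_of_pos ht.1]
        linarith [ht.2])
    rw [sub_zero, abs_of_nonneg hb0] at h1
    rw [hB0, mul_comm t₀]
    exact h1.trans (mul_le_mul_of_nonneg_left hb (by positivity))
  have hGint : ∀ a b, IntervalIntegrable G volume a b := fun a b => hGc.intervalIntegrable a b
  have hgoal : (∫ t in (0:ℝ)..T, ((‖riemannZeta (crit t)‖ ^ 2 : ℝ) : ℂ) * tw_e m n t) =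
      ∫ t in (0:ℝ)..T, G t := by rw [hG]
  rw [hgoal]
  rcases le_or_gt T t₀ with hTt | hTt
  · have h1 := hsmall T (by linarith) hTt
    have h2 := tw_M_le hm hn hT hTt
    have h3 : ‖((tw_M m n T : ℝ) : ℂ)‖ ≤ t₀ * (Real.log t₀ + 8) := by
      rw [Complex.norm_real]
      exact h2
    calc ‖(∫ t in (0:ℝ)..T, G t) - ((tw_M m n T : ℝ) : ℂ)‖ ≤ B0 + t₀ * (Real.log t₀ + 8) :=
          (norm_sub_le _ _).trans (add_le_add h1 h3)
      _ ≤ (B0 + t₀ * (Real.log t₀ + 8) + 2 * C3 + 2 * C4) * 1 := by linarith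
      _ ≤ (B0 + t₀ * (Real.log t₀ + 8) + 2 * C3 + 2 * C4) *
          (T ^ (3/4 : ℝ) * ((m:ℝ) * n) ^ (5/4 : ℝ)) :=
          mul_le_mul_of_nonneg_left hpp (by positivity)
      _ = _ := by ring
  · have ht0 : 0 < t₀ := by linarith
    obtain ⟨M, hM⟩ : ∃ M : ℝ → ℝ, M = fun t => ((m:ℝ) * n) ^ (-(1/2) : ℝ) *
      (Real.log (t / (2 * Real.pi * ((m:ℝ) * n))) + 2 * Real.eulerMascheroniConstant) := ⟨_, rfl⟩
    obtain ⟨Og, hOg⟩ : ∃ Og : ℝ → ℂ, Og = fun t => ∑' p, tw_O m n t p := ⟨_, rfl⟩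
    obtain ⟨E, hE⟩ : ∃ E : ℝ → ℂ, E = fun t => G t - ((M t : ℝ) : ℂ) - 2 * Og t := ⟨_, rfl⟩
    have hMc : ContinuousOn M (Icc t₀ T) := by
      rw [hM]
      refine continuousOn_const.mul (ContinuousOn.add ?_ continuousOn_const)
      refine ContinuousOn.log (by fun_prop) fun t ht => ?_
      have ht1 : 0 < t := lt_of_lt_of_le ht0 ht.1
      positivity
    have hOc : ContinuousOn Og (Icc t₀ T) := by
      rw [hOg]
      exact tw_O_tsum_contOn m n ht0
    have hMi : IntervalIntegrable (fun t => ((M t : ℝ) : ℂ)) volume t₀ T := by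
      refine ContinuousOn.intervalIntegrable ?_
      rw [Set.uIcc_of_le hTt.le]
      exact Complex.continuous_ofReal.comp_continuousOn hMc
    have hOi : IntervalIntegrable Og volume t₀ T := by
      refine ContinuousOn.intervalIntegrable ?_
      rw [Set.uIcc_of_le hTt.le]
      exact hOc
    have hEb : ∀ t ∈ Ioc t₀ T, ‖E t‖ ≤ C4 * t ^ (-(3/8) : ℝ) := by
      intro t ht
      have ht1 : 1 ≤ t := by linarith [ht.1]
      have htp : 0 < t := by linarith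
      have h1 := hz t ht.1.le (5/8) (by norm_num) (by norm_num)
      have h2 : t ^ ((5:ℝ)/8 - 1) * (1 / ((5:ℝ)/8 - 1/2)) ^ 2 = 64 * t ^ (-(3/8) : ℝ) := by
        norm_num
        ring
      rw [mul_assoc, h2] at h1
      have hz0 : 0 < t / (2 * Real.pi * ((m:ℝ) * n)) := by positivity
      have h3 := (hH _ hz0).2
      have h4 := tw_diag hm hn hmn htp
      have h5 := tw_split m n t
      obtain ⟨S, hS⟩ : ∃ S : ℝ, S = ∑' j : ℕ, (j:ℝ)⁻¹ *
        PhR (Real.log (t / (2 * Real.pi * ((m:ℝ) * n))) - 2 * Real.log j) := ⟨_, rfl⟩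
      rw [← hS] at h3 h4
      have h6 : E t = (((‖riemannZeta (crit t)‖ ^ 2 : ℝ) : ℂ) - 2 * ∑' p : ℕ × ℕ, W2 t p) *
          tw_e m n t + ((((m:ℝ) * n) ^ (-(1/2) : ℝ) * (2 * S -
            (Real.log (t / (2 * Real.pi * ((m:ℝ) * n))) +
              2 * Real.eulerMascheroniConstant)) : ℝ) : ℂ) := by
        rw [hE, hG, hM, hOg]
        beta_reduce
        rw [sub_mul, mul_assoc (2:ℂ), h5, h4]
        push_cast
        ring
      rw [h6]
      have h7 : ‖(((‖riemannZeta (crit t)‖ ^ 2 : ℝ) : ℂ) - 2 * ∑' p : ℕ × ℕ, W2 t p) *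
          tw_e m n t‖ ≤ C1 * (64 * t ^ (-(3/8) : ℝ)) := by
        rw [norm_mul, tw_e_norm, mul_one]
        exact h1
      have h8 : ‖((((m:ℝ) * n) ^ (-(1/2) : ℝ) * (2 * S -
            (Real.log (t / (2 * Real.pi * ((m:ℝ) * n))) +
              2 * Real.eulerMascheroniConstant)) : ℝ) : ℂ)‖ ≤
          C2 * (2 * Real.pi) ^ (1/2 : ℝ) * t ^ (-(3/8) : ℝ) := by
        rw [Complex.norm_real, Real.norm_eq_abs, abs_mul, abs_of_nonneg (by positivity)]
        have h9 : (t / (2 * Real.pi * ((m:ℝ) * n))) ^ (-(1/2) : ℝ) =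
            t ^ (-(1/2) : ℝ) * ((2 * Real.pi) ^ (1/2 : ℝ) * ((m:ℝ) * n) ^ (1/2 : ℝ)) := by
          rw [Real.div_rpow htp.le (by positivity), Real.mul_rpow (by positivity) (by positivity),
            Real.rpow_neg (by positivity) (1/2), Real.rpow_neg (x := 2 * Real.pi) (by positivity),
            Real.rpow_neg (x := (m:ℝ) * n) (by positivity)]
          field_simp
        have h10 : ((m:ℝ) * n) ^ (-(1/2) : ℝ) * ((m:ℝ) * n) ^ (1/2 : ℝ) = 1 := by
          rw [← Real.rpow_add (by positivity)]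
          norm_num
        have h11 : t ^ (-(1/2) : ℝ) ≤ t ^ (-(3/8) : ℝ) :=
          Real.rpow_le_rpow_of_exponent_le ht1 (by norm_num)
        calc ((m:ℝ) * n) ^ (-(1/2) : ℝ) * |2 * S -
            (Real.log (t / (2 * Real.pi * ((m:ℝ) * n))) +
              2 * Real.eulerMascheroniConstant)| ≤ ((m:ℝ) * n) ^ (-(1/2) : ℝ) *
              (C2 * (t / (2 * Real.pi * ((m:ℝ) * n))) ^ (-(1/2) : ℝ)) :=
              mul_le_mul_of_nonneg_left h3 (by positivity)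
          _ = C2 * (2 * Real.pi) ^ (1/2 : ℝ) * t ^ (-(1/2) : ℝ) *
              (((m:ℝ) * n) ^ (-(1/2) : ℝ) * ((m:ℝ) * n) ^ (1/2 : ℝ)) := by
              rw [h9]; ring
          _ = C2 * (2 * Real.pi) ^ (1/2 : ℝ) * t ^ (-(1/2) : ℝ) := by rw [h10, mul_one]
          _ ≤ C2 * (2 * Real.pi) ^ (1/2 : ℝ) * t ^ (-(3/8) : ℝ) :=
              mul_le_mul_of_nonneg_left h11 (by positivity)
      calc _ ≤ C1 * (64 * t ^ (-(3/8) : ℝ)) + C2 * (2 * Real.pi) ^ (1/2 : ℝ) * t ^ (-(3/8) : ℝ) :=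
            (norm_add_le _ _).trans (add_le_add h7 h8)
        _ = C4 * t ^ (-(3/8) : ℝ) := by rw [hC4]; ring
    have hEi : IntervalIntegrable E volume t₀ T := by
      rw [hE]
      exact ((hGint t₀ T).sub hMi).sub (hOi.const_mul 2)
    have hEI : ‖∫ t in t₀..T, E t‖ ≤ 2 * C4 * T ^ (3/4 : ℝ) := by
      have h1 : IntervalIntegrable (fun t : ℝ => C4 * t ^ (-(3/8) : ℝ)) volume t₀ T :=
        (intervalIntegral.intervalIntegrable_rpow' (by norm_num)).const_mul C4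
      have h2 := intervalIntegral.norm_integral_le_of_norm_le hTt.le
        (Filter.Eventually.of_forall fun t ht => hEb t ht) h1
      refine h2.trans ?_
      rw [intervalIntegral.integral_const_mul, integral_rpow (Or.inl (by norm_num))]
      have h3 : ((-(3/8) : ℝ) + 1) = 5/8 := by norm_num
      rw [h3]
      have h4 : 0 ≤ t₀ ^ (5/8 : ℝ) := by positivity
      have h5 : T ^ (5/8 : ℝ) ≤ T ^ (3/4 : ℝ) :=
        Real.rpow_le_rpow_of_exponent_le hT (by norm_num)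
      have h6 : 0 ≤ T ^ (5/8 : ℝ) := by positivity
      have h7 : (T ^ (5/8 : ℝ) - t₀ ^ (5/8 : ℝ)) / (5/8) ≤ 2 * T ^ (3/4 : ℝ) := by
        rw [div_le_iff₀ (by norm_num)]
        nlinarith
      calc C4 * ((T ^ (5/8 : ℝ) - t₀ ^ (5/8 : ℝ)) / (5/8)) ≤ C4 * (2 * T ^ (3/4 : ℝ)) :=
            mul_le_mul_of_nonneg_left h7 hC4n.le
        _ = _ := by ring
    have hOI : ‖∫ t in t₀..T, Og t‖ ≤ C3 * T ^ (3/4 : ℝ) * ((m:ℝ) * n) ^ (5/4 : ℝ) := by
      rw [hOg]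
      exact hO m n hm hn t₀ T ht0 hTt.le
    have hMI : ∫ t in t₀..T, ((M t : ℝ) : ℂ) = ((tw_M m n T - tw_M m n t₀ : ℝ) : ℂ) := by
      rw [intervalIntegral.integral_ofReal, hM, tw_M_int hm hn ht0 hTt.le]
    have hsplit : ∫ t in (0:ℝ)..T, G t = (∫ t in (0:ℝ)..t₀, G t) +
        (((∫ t in t₀..T, E t) + ∫ t in t₀..T, ((M t : ℝ) : ℂ)) + 2 * ∫ t in t₀..T, Og t) := by
      rw [← intervalIntegral.integral_add_adjacent_intervals (hGint 0 t₀) (hGint t₀ T),
        ← intervalIntegral.integral_const_mul, ← intervalIntegral.integral_add hEi hMi,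
        ← intervalIntegral.integral_add (hEi.add hMi) (hOi.const_mul 2)]
      congr 1
      refine intervalIntegral.integral_congr fun t _ => ?_
      rw [hE]
      beta_reduce
      ring
    have h1 := hsmall t₀ ht0.le le_rfl
    have h2 := tw_M_le hm hn ht₀ (le_refl t₀)
    have h3 : ‖((tw_M m n t₀ : ℝ) : ℂ)‖ ≤ t₀ * (Real.log t₀ + 8) := by
      rw [Complex.norm_real]
      exact h2
    have e : (∫ t in (0:ℝ)..T, G t) - ((tw_M m n T : ℝ) : ℂ) =
        ((∫ t in (0:ℝ)..t₀, G t) - ((tw_M m n t₀ : ℝ) : ℂ)) + ((∫ t in t₀..T, E t) +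
          2 * ∫ t in t₀..T, Og t) := by
      rw [hsplit, hMI]
      push_cast
      ring
    rw [e]
    have h4 : ‖2 * ∫ t in t₀..T, Og t‖ ≤ 2 * C3 * (T ^ (3/4 : ℝ) * ((m:ℝ) * n) ^ (5/4 : ℝ)) := by
      rw [norm_mul]
      have : ‖(2:ℂ)‖ = 2 := by simp
      rw [this]
      linarith
    have h5 : 2 * C4 * T ^ (3/4 : ℝ) ≤ 2 * C4 * (T ^ (3/4 : ℝ) * ((m:ℝ) * n) ^ (5/4 : ℝ)) := by
      refine mul_le_mul_of_nonneg_left ?_ (by positivity)
      nlinarith
    calc _ ≤ (B0 + t₀ * (Real.log t₀ + 8)) + (2 * C4 * T ^ (3/4 : ℝ) +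
          2 * C3 * (T ^ (3/4 : ℝ) * ((m:ℝ) * n) ^ (5/4 : ℝ))) :=
          (norm_add_le _ _).trans (add_le_add ((norm_sub_le _ _).trans (add_le_add h1 h3))
            ((norm_add_le _ _).trans (add_le_add hEI h4)))
      _ ≤ (B0 + t₀ * (Real.log t₀ + 8)) * (T ^ (3/4 : ℝ) * ((m:ℝ) * n) ^ (5/4 : ℝ)) +
          (2 * C4 * (T ^ (3/4 : ℝ) * ((m:ℝ) * n) ^ (5/4 : ℝ)) +
          2 * C3 * (T ^ (3/4 : ℝ) * ((m:ℝ) * n) ^ (5/4 : ℝ))) := by
          have : (B0 + t₀ * (Real.log t₀ + 8)) * 1 ≤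
            (B0 + t₀ * (Real.log t₀ + 8)) * (T ^ (3/4 : ℝ) * ((m:ℝ) * n) ^ (5/4 : ℝ)) :=
            mul_le_mul_of_nonneg_left hpp (by positivity)
          linarith
      _ = _ := by ring

end Pool.Agent.LibTG78.TW
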