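import Mathlib
import Pool.Agent.LibTG78.Defs
import Pool.Agent.LibTG78.TW4

/-! The twisted second moment of zeta in the form used in the final argument -/

set_option autoImplicit false

namespace Pool.Agent.LibTG78

open MeasureTheory Filter Topology Pool.Agent.LibMM99
open scoped ComplexConjugate

lemma D4_ch {m n : ℕ} (hm : 1 ≤ m) (hn : 1 ≤ n) (t : ℝ) :
    ch (xt t) m * conj (ch (xt t) n) = TW.tw_e m n t := by
  rw [ch_xt t (by omega), ch_xt t (by omega), ← Complex.exp_conj, ← Complex.exp_add]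
  unfold TW.tw_e
  congr 1
  rw [map_mul, map_neg, Complex.conj_ofReal, Complex.conj_I]
  push_cast
  ring

lemma D4_rat {m n : ℕ} (s : ℂ) : rat s (m, n) =
    (((m / Nat.gcd m n * (n / Nat.gcd m n) : ℕ) : ℂ)) ^ (-(1 / 2 : ℂ) - s) := rfl

lemma D4_e_gcd {m n g m' n' : ℕ} (hg : 1 ≤ g) (hm' : 1 ≤ m') (hn' : 1 ≤ n') (hm : m = g * m')
    (hn : n = g * n') (t : ℝ) : TW.tw_e m n t = TW.tw_e m' n' t := by
  have hgR : (0:ℝ) < g := by exact_mod_cast hg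
  have hmR : (0:ℝ) < m' := by exact_mod_cast hm'
  have hnR : (0:ℝ) < n' := by exact_mod_cast hn'
  unfold TW.tw_e
  have h1 : Real.log m - Real.log n = Real.log m' - Real.log n' := by
    rw [hm, hn]
    push_cast
    rw [Real.log_mul hgR.ne' hmR.ne', Real.log_mul hgR.ne' hnR.ne']
    ring
  rw [h1]

/-- D4: the twisted second moment of zeta -/
theorem twisted_second : ∃ (δ C T0 : ℝ) (c1 : ℂ), 0 < δ ∧ 0 < C ∧ 1 ≤ T0 ∧ ∀ (T : ℝ) (m n : ℕ), T0 ≤ T → 1 ≤ m → 1 ≤ n →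
    (m : ℝ) ≤ T ^ δ → (n : ℝ) ≤ T ^ δ →
    ‖((1 / T : ℝ) : ℂ) * (∫ t in (0 : ℝ)..T, ((‖riemannZeta (1 / 2 + t * Complex.I)‖ ^ 2 : ℝ) : ℂ) *
        (ch (xt t) m * conj (ch (xt t) n))) -
      ((((Real.log T : ℝ) : ℂ) + c1) * rat 0 (m, n) + deriv (fun s => rat s (m, n)) 0)‖ ≤ C * T ^ (-(4 * δ)) := by
  obtain ⟨C, hC, h⟩ := TW.tw_twist
  refine ⟨1 / 26, C, 1, ((2 * Real.eulerMascheroniConstant - 1 - Real.log (2 * Real.pi) : ℝ) : ℂ),
    by norm_num, hC, le_rfl, ?_⟩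
  intro T m n hT hm hn hmT hnT
  have hT0 : 0 < T := by linarith
  obtain ⟨g, hg⟩ : ∃ g, g = Nat.gcd m n := ⟨_, rfl⟩
  have hg0 : 0 < g := by rw [hg]; exact Nat.gcd_pos_of_pos_left n hm
  obtain ⟨m', hm'⟩ : g ∣ m := by rw [hg]; exact Nat.gcd_dvd_left m n
  obtain ⟨n', hn'⟩ : g ∣ n := by rw [hg]; exact Nat.gcd_dvd_right m n
  have hmd : m / g = m' := by rw [hm', Nat.mul_div_cancel_left _ hg0]
  have hnd : n / g = n' := by rw [hn', Nat.mul_div_cancel_left _ hg0]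
  have hcop : Nat.Coprime m' n' := by
    have h1 := Nat.coprime_div_gcd_div_gcd (m := m) (n := n) (by rw [← hg]; exact hg0)
    rw [← hg, hmd, hnd] at h1
    exact h1
  have hm'0 : 1 ≤ m' := by
    rcases Nat.eq_zero_or_pos m' with h0 | h0
    · rw [h0, mul_zero] at hm'; omega
    · exact h0
  have hn'0 : 1 ≤ n' := by
    rcases Nat.eq_zero_or_pos n' with h0 | h0
    · rw [h0, mul_zero] at hn'; omega
    · exact h0
  have hm'R : (0:ℝ) < m' := by exact_mod_cast hm'0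
  have hn'R : (0:ℝ) < n' := by exact_mod_cast hn'0
  have h1 := h m' n' hm'0 hn'0 hcop T hT
  have h2 : ∀ t : ℝ, ((‖riemannZeta (1 / 2 + t * Complex.I)‖ ^ 2 : ℝ) : ℂ) *
        (ch (xt t) m * conj (ch (xt t) n)) =
      ((‖riemannZeta (LibZM.crit t)‖ ^ 2 : ℝ) : ℂ) * TW.tw_e m' n' t := by
    intro t
    rw [D4_ch hm hn, D4_e_gcd hg0 hm'0 hn'0 hm' hn']
    rfl
  simp only [h2]
  obtain ⟨x, hx⟩ : ∃ x : ℝ, x = (m':ℝ) * n' := ⟨_, rfl⟩
  have hx0 : 0 < x := by rw [hx]; positivity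
  have hxc : (((m / Nat.gcd m n * (n / Nat.gcd m n) : ℕ) : ℂ)) = ((x : ℝ) : ℂ) := by
    rw [← hg, hmd, hnd, hx]
    push_cast
    ring
  have hxne : ((x : ℝ) : ℂ) ≠ 0 := by exact_mod_cast hx0.ne'
  have hr0 : rat 0 (m, n) = ((x ^ (-(1/2) : ℝ) : ℝ) : ℂ) := by
    rw [D4_rat, hxc, Complex.ofReal_cpow hx0.le]
    congr 1
    push_cast
    ring
  have hrd : deriv (fun s => rat s (m, n)) 0 =
      -(((x ^ (-(1/2) : ℝ) * Real.log x : ℝ)) : ℂ) := by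
    have h3 : (fun s : ℂ => rat s (m, n)) = fun s => ((x : ℝ) : ℂ) ^ (-(1 / 2 : ℂ) - s) := by
      ext s
      rw [D4_rat, hxc]
    have h4 : HasDerivAt (fun s : ℂ => ((x : ℝ) : ℂ) ^ (-(1 / 2 : ℂ) - s))
        (((x : ℝ) : ℂ) ^ (-(1 / 2 : ℂ) - 0) * Complex.log ((x : ℝ) : ℂ) * (-1)) 0 := by
      have h5 : HasDerivAt (fun s : ℂ => -(1 / 2 : ℂ) - s) (-1) 0 := by
        simpa using (hasDerivAt_id (0:ℂ)).const_sub (-(1 / 2 : ℂ))
      exact h5.const_cpow (Or.inl hxne)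
    rw [h3, h4.deriv]
    have h6 : ((x : ℝ) : ℂ) ^ (-(1 / 2 : ℂ) - 0) = ((x ^ (-(1/2) : ℝ) : ℝ) : ℂ) := by
      rw [Complex.ofReal_cpow hx0.le]
      congr 1
      push_cast
      ring
    rw [h6, ← Complex.ofReal_log hx0.le]
    push_cast
    ring
  have hmain : (((Real.log T : ℝ) : ℂ) +
      ((2 * Real.eulerMascheroniConstant - 1 - Real.log (2 * Real.pi) : ℝ) : ℂ)) * rat 0 (m, n) +
        deriv (fun s => rat s (m, n)) 0 = ((1 / T : ℝ) : ℂ) * ((TW.tw_M m' n' T : ℝ) : ℂ) := by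
    rw [hr0, hrd, ← Complex.ofReal_add, ← Complex.ofReal_mul, ← Complex.ofReal_mul,
      ← sub_eq_add_neg, ← Complex.ofReal_sub]
    congr 1
    unfold TW.tw_M
    rw [← hx, Real.log_mul (x := 2 * Real.pi) (y := x) (by positivity) hx0.ne']
    field_simp
    ring
  rw [hmain, ← mul_sub, norm_mul, Complex.norm_real, Real.norm_eq_abs,
    abs_of_pos (by positivity : (0:ℝ) < 1 / T)]
  have hm'T : (m':ℝ) ≤ T ^ (1/26 : ℝ) := by
    refine le_trans ?_ hmT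
    have : m' ≤ m := by rw [hm']; exact Nat.le_mul_of_pos_left m' hg0
    exact_mod_cast this
  have hn'T : (n':ℝ) ≤ T ^ (1/26 : ℝ) := by
    refine le_trans ?_ hnT
    have : n' ≤ n := by rw [hn']; exact Nat.le_mul_of_pos_left n' hg0
    exact_mod_cast this
  have h7 : ((m':ℝ) * n') ^ (5/4 : ℝ) ≤ T ^ (5/52 : ℝ) := by
    have h8 : (m':ℝ) * n' ≤ T ^ (1/13 : ℝ) := by
      calc (m':ℝ) * n' ≤ T ^ (1/26 : ℝ) * T ^ (1/26 : ℝ) :=
            mul_le_mul hm'T hn'T hn'R.le (by positivity)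
        _ = T ^ (1/13 : ℝ) := by
            rw [← Real.rpow_add hT0]
            norm_num
    calc ((m':ℝ) * n') ^ (5/4 : ℝ) ≤ (T ^ (1/13 : ℝ)) ^ (5/4 : ℝ) :=
          Real.rpow_le_rpow (by positivity) h8 (by norm_num)
      _ = T ^ (5/52 : ℝ) := by
          rw [← Real.rpow_mul hT0.le]
          norm_num
  calc 1 / T * _ ≤ 1 / T * (C * T ^ (3/4 : ℝ) * ((m':ℝ) * n') ^ (5/4 : ℝ)) :=
        mul_le_mul_of_nonneg_left h1 (by positivity)
    _ ≤ 1 / T * (C * T ^ (3/4 : ℝ) * T ^ (5/52 : ℝ)) := by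
        refine mul_le_mul_of_nonneg_left ?_ (by positivity)
        exact mul_le_mul_of_nonneg_left h7 (by positivity)
    _ = C * (T ^ (-1 : ℝ) * T ^ (3/4 : ℝ) * T ^ (5/52 : ℝ)) := by
        rw [Real.rpow_neg_one]
        ring
    _ = C * T ^ (-(4 * (1/26)) : ℝ) := by
        rw [← Real.rpow_add hT0, ← Real.rpow_add hT0]
        norm_num

end Pool.Agent.LibTG78
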