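import Mathlib
import Pool.Agent.LibTG78.Defs
import Pool.Agent.LibTG78.D4
import Pool.Agent.LibTG78.D1
import Pool.Agent.LibTG78.D3b

/-! Block D: mean values of `|ζ|²` times a short polynomial in terms of the tilted model -/

set_option autoImplicit false

namespace Pool.Agent.LibTG78

open MeasureTheory Filter Topology Pool.Agent.LibMM99
open scoped ComplexConjugate

lemma D5_rat_diff {q : ℕ × ℕ} (h1 : 1 ≤ q.1) (h2 : 1 ≤ q.2) :
    Differentiable ℂ fun s : ℂ => rat s q := by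
  intro s
  have hg : 0 < Nat.gcd q.1 q.2 := Nat.gcd_pos_of_pos_left _ h1
  have h3 : 0 < q.1 / Nat.gcd q.1 q.2 :=
    Nat.div_pos (Nat.le_of_dvd h1 (Nat.gcd_dvd_left _ _)) hg
  have h4 : 0 < q.2 / Nat.gcd q.1 q.2 :=
    Nat.div_pos (Nat.le_of_dvd h2 (Nat.gcd_dvd_right _ _)) hg
  have h5 : (((q.1 / Nat.gcd q.1 q.2 * (q.2 / Nat.gcd q.1 q.2) : ℕ) : ℂ)) ≠ 0 := by
    exact_mod_cast (Nat.mul_pos h3 h4).ne'
  unfold rat
  have h6 : DifferentiableAt ℂ (fun s : ℂ => -(1 / 2 : ℂ) - s) s := by fun_prop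
  exact h6.const_cpow (Or.inl h5)

lemma D5_zeta_cont : Continuous fun t : ℝ => riemannZeta (1 / 2 + t * Complex.I) :=
  LibZM.continuous_zeta_crit

theorem D5_poly : ∃ C δ T0 : ℝ, 0 < C ∧ 0 < δ ∧ 1 ≤ T0 ∧ ∀ (a L A T : ℝ) (Φ : Om → ℝ), 1 ≤ L →
    T0 ≤ T → a ≤ δ * Real.log T → IsPolyR a Φ → DependsOn Φ (coo 1 (Real.exp L)) →
    (∀ s : ℂ, Adm s L → ∫ x, |Φ x| ∂(nu s L) ≤ A) →
    |(1 / T) * (∫ t in (0 : ℝ)..T, ‖riemannZeta (1 / 2 + t * Complex.I)‖ ^ 2 * Φ (xt t)) -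
      Real.log T * ∫ x, Φ x ∂(nu 0 L)| ≤ C * L * A + C * T ^ (-(3 * δ)) := by
  obtain ⟨δ, C, T0, c1, hδ, hC, hT0, hD4⟩ := twisted_second
  obtain ⟨C3, hC3, hJJ⟩ := JJ_bound
  refine ⟨‖c1‖ + C3 + C, δ, T0, by positivity, hδ, hT0, ?_⟩
  intro a L A T Φ hL hT ha hΦ hd hA
  have hTp : 0 < T := by linarith
  have hT1 : 1 ≤ T := by linarith
  have hdc : DependsOn (fun x => ((Φ x : ℝ) : ℂ)) (coo 1 (Real.exp L)) := by
    intro x y hxy
    beta_reduce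
    rw [hd hxy]
  obtain ⟨S, c, hS, hcS, hrep⟩ := smooth_rep (L := L) hΦ hdc
  beta_reduce at hrep
  have hadm0 : Adm 0 L := ⟨hL, by rw [norm_zero]; positivity⟩
  have hA0 : 0 ≤ A := le_trans (integral_nonneg fun x => abs_nonneg _) (hA 0 hadm0)
  have hΦc : Continuous Φ := hΦ.continuous
  obtain ⟨hJ0, hJ1⟩ := hJJ L A S c Φ hL hΦc (fun q hq => ⟨(hS q hq).1, (hS q hq).2.1,
    (hS q hq).2.2.2.2.1, (hS q hq).2.2.2.2.2⟩) hrep hA
  have hea : Real.exp a ≤ T ^ δ := by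
    rw [Real.rpow_def_of_pos hTp, Real.exp_le_exp]
    linarith
  -- continuity of the integrands
  have hic : ∀ q : ℕ × ℕ, Continuous fun t : ℝ =>
      ((‖riemannZeta (1 / 2 + t * Complex.I)‖ ^ 2 : ℝ) : ℂ) *
        (ch (xt t) q.1 * conj (ch (xt t) q.2)) := by
    intro q
    have h1 := (continuous_ch q.1).comp continuous_xt
    have h2 := Complex.continuous_conj.comp ((continuous_ch q.2).comp continuous_xt)
    exact (Complex.continuous_ofReal.comp (D5_zeta_cont.norm.pow 2)).mul (h1.mul h2)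
  -- the integral as a sum
  have hsum : ((((1 / T) * (∫ t in (0 : ℝ)..T,
      ‖riemannZeta (1 / 2 + t * Complex.I)‖ ^ 2 * Φ (xt t)) : ℝ)) : ℂ) =
      ∑ q ∈ S, c q * (((1 / T : ℝ) : ℂ) * ∫ t in (0 : ℝ)..T,
        ((‖riemannZeta (1 / 2 + t * Complex.I)‖ ^ 2 : ℝ) : ℂ) *
        (ch (xt t) q.1 * conj (ch (xt t) q.2))) := by
    rw [Complex.ofReal_mul, ← intervalIntegral.integral_ofReal]
    have h1 : (∫ t in (0 : ℝ)..T, (((‖riemannZeta (1 / 2 + t * Complex.I)‖ ^ 2 * Φ (xt t) : ℝ)) : ℂ)) =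
        ∫ t in (0 : ℝ)..T, ∑ q ∈ S, c q *
        (((‖riemannZeta (1 / 2 + t * Complex.I)‖ ^ 2 : ℝ) : ℂ) *
        (ch (xt t) q.1 * conj (ch (xt t) q.2))) := by
      refine intervalIntegral.integral_congr fun t _ => ?_
      beta_reduce
      rw [Complex.ofReal_mul, hrep, Finset.mul_sum]
      exact Finset.sum_congr rfl fun q _ => by ring
    rw [h1, intervalIntegral.integral_finsetSum (fun q _ =>
      ((hic q).const_mul (c q)).intervalIntegrable _ _), Finset.mul_sum]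
    refine Finset.sum_congr rfl fun q _ => ?_
    rw [intervalIntegral.integral_const_mul]
    ring
  -- the main term
  have hJd : deriv (JJ S c) 0 = ∑ q ∈ S, c q * deriv (fun s => rat s q) 0 := by
    have h1 : HasDerivAt (JJ S c) (∑ q ∈ S, c q * deriv (fun s => rat s q) 0) 0 := by
      unfold JJ
      refine HasDerivAt.fun_sum fun q hq => ?_
      exact ((D5_rat_diff (hS q hq).1 (hS q hq).2.1) 0).hasDerivAt.const_mul (c q)
    exact h1.deriv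
  have hmain : (((Real.log T : ℝ) : ℂ) + c1) * JJ S c 0 + deriv (JJ S c) 0 =
      ∑ q ∈ S, c q * ((((Real.log T : ℝ) : ℂ) + c1) * rat 0 q + deriv (fun s => rat s q) 0) := by
    rw [hJd]
    unfold JJ
    rw [Finset.mul_sum, ← Finset.sum_add_distrib]
    exact Finset.sum_congr rfl fun q _ => by ring
  have herr : ‖((((1 / T) * (∫ t in (0 : ℝ)..T,
      ‖riemannZeta (1 / 2 + t * Complex.I)‖ ^ 2 * Φ (xt t)) : ℝ)) : ℂ) -
      ((((Real.log T : ℝ) : ℂ) + c1) * JJ S c 0 + deriv (JJ S c) 0)‖ ≤ C * T ^ (-(3 * δ)) := by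
    rw [hsum, hmain, ← Finset.sum_sub_distrib]
    have h1 : ∀ q ∈ S, ‖c q * (((1 / T : ℝ) : ℂ) * ∫ t in (0 : ℝ)..T,
        ((‖riemannZeta (1 / 2 + t * Complex.I)‖ ^ 2 : ℝ) : ℂ) *
        (ch (xt t) q.1 * conj (ch (xt t) q.2))) -
        c q * ((((Real.log T : ℝ) : ℂ) + c1) * rat 0 q + deriv (fun s => rat s q) 0)‖ ≤
        ‖c q‖ * (C * T ^ (-(4 * δ))) := by
      rintro ⟨m, n⟩ hq
      obtain ⟨h1, h2, h3, h4, _, _⟩ := hS (m, n) hq
      rw [← mul_sub, norm_mul]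
      exact mul_le_mul_of_nonneg_left (hD4 T m n hT h1 h2 (h3.trans hea) (h4.trans hea))
        (norm_nonneg _)
    calc _ ≤ ∑ q ∈ S, ‖c q‖ * (C * T ^ (-(4 * δ))) :=
          (norm_sum_le _ _).trans (Finset.sum_le_sum h1)
      _ = (∑ q ∈ S, ‖c q‖) * (C * T ^ (-(4 * δ))) := by rw [Finset.sum_mul]
      _ ≤ T ^ δ * (C * T ^ (-(4 * δ))) :=
          mul_le_mul_of_nonneg_right (hcS.trans hea) (by positivity)
      _ = C * (T ^ δ * T ^ (-(4 * δ))) := by ring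
      _ = C * T ^ (-(3 * δ)) := by
          rw [← Real.rpow_add hTp]
          congr 2
          ring
  have hI0 : |∫ x, Φ x ∂(nu 0 L)| ≤ A :=
    (abs_integral_le_integral_abs).trans (hA 0 hadm0)
  have hfin : ((((1 / T) * (∫ t in (0 : ℝ)..T, ‖riemannZeta (1 / 2 + t * Complex.I)‖ ^ 2 * Φ (xt t)) -
      Real.log T * ∫ x, Φ x ∂(nu 0 L)) : ℝ) : ℂ) =
      (((((1 / T) * (∫ t in (0 : ℝ)..T,
      ‖riemannZeta (1 / 2 + t * Complex.I)‖ ^ 2 * Φ (xt t)) : ℝ)) : ℂ) -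
      ((((Real.log T : ℝ) : ℂ) + c1) * JJ S c 0 + deriv (JJ S c) 0)) +
      (c1 * ((∫ x, Φ x ∂(nu 0 L) : ℝ) : ℂ) + deriv (JJ S c) 0) := by
    rw [hJ0, Complex.ofReal_sub, Complex.ofReal_mul (Real.log T)]
    ring
  rw [← Real.norm_eq_abs, ← Complex.norm_real, hfin]
  have hTd : 0 ≤ T ^ (-(3 * δ)) := by positivity
  have h5 : ‖c1 * ((∫ x, Φ x ∂(nu 0 L) : ℝ) : ℂ)‖ ≤ ‖c1‖ * A := by
    rw [norm_mul, Complex.norm_real, Real.norm_eq_abs]
    exact mul_le_mul_of_nonneg_left hI0 (norm_nonneg _)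
  have hLA : A ≤ L * A := by nlinarith
  have hc1 : 0 ≤ ‖c1‖ := norm_nonneg _
  have h6 : ‖c1‖ * A ≤ ‖c1‖ * (L * A) := mul_le_mul_of_nonneg_left hLA hc1
  have h7 : 0 ≤ L * A := by positivity
  calc _ ≤ C * T ^ (-(3 * δ)) + (‖c1‖ * A + C3 * L * A) :=
        (norm_add_le _ _).trans (add_le_add herr ((norm_add_le _ _).trans (add_le_add h5 hJ1)))
    _ ≤ C * T ^ (-(3 * δ)) + (‖c1‖ * (L * A) + C3 * L * A) := by linarith
    _ ≤ (‖c1‖ + C3 + C) * L * A + (‖c1‖ + C3 + C) * T ^ (-(3 * δ)) := by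
        have h8 : 0 ≤ C * (L * A) := by positivity
        have h9 : 0 ≤ (‖c1‖ + C3) * T ^ (-(3 * δ)) := by positivity
        have e1 : (‖c1‖ + C3 + C) * L * A = ‖c1‖ * (L * A) + C3 * L * A + C * (L * A) := by ring
        have e2 : (‖c1‖ + C3 + C) * T ^ (-(3 * δ)) = C * T ^ (-(3 * δ)) +
          (‖c1‖ + C3) * T ^ (-(3 * δ)) := by ring
        rw [e1, e2]
        linarith

end Pool.Agent.LibTG78
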