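import Mathlib
import Pool.Agent.LibTG78.Defs

/-! # Method of moments for absolute moments of polynomials, general measures and general limit laws -/

set_option autoImplicit false

namespace Pool.Agent.LibTG78

open MeasureTheory Filter Topology Pool.Agent.LibMM99
open scoped ComplexConjugate

/-- expansion into monomials -/
theorem c0_eval {M : ℕ} (P : MvPolynomial (Fin M ⊕ Fin M) ℂ) (z : Fin M → ℂ) :
    MvPolynomial.eval (Sum.elim z (fun i => conj (z i))) P =
      ∑ d ∈ P.support, P.coeff d * ∏ j, (z j ^ d (Sum.inl j) * conj (z j) ^ d (Sum.inr j)) := by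
  rw [MvPolynomial.eval_eq']
  refine Finset.sum_congr rfl fun d _ => ?_
  rw [Fintype.prod_sum_type, Finset.prod_mul_distrib]
  simp only [Sum.elim_inl, Sum.elim_inr]

theorem c0_integrable {E : Type*} [NormedAddCommGroup E] (ν : Measure Om) [IsFiniteMeasure ν] {f : Om → E}
    (hf : Continuous f) : Integrable f ν :=
  hf.integrable_of_hasCompactSupport (HasCompactSupport.of_compactSpace f)

/-- convergence of the moments of a polynomial -/
theorem c0_poly {M : ℕ} {Ω' : Type} {mΩ' : MeasurableSpace Ω'} (P' : Measure Ω') (W : Fin M → Ω' → ℂ)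
    (hWint : ∀ α β : Fin M → ℕ, Integrable (fun z => ∏ j, (W j z ^ α j * conj (W j z) ^ β j)) P')
    (ν : ℝ → Measure Om) (hν : ∀ L, IsProbabilityMeasure (ν L))
    (G : ℝ → Fin M → Om → ℂ) (hG : ∀ L j, Continuous (G L j))
    (hmix : ∀ α β : Fin M → ℕ, Tendsto (fun L : ℝ => ∫ x, ∏ j, (G L j x ^ α j * conj (G L j x) ^ β j) ∂ν L) atTop
      (𝓝 (∫ z, ∏ j, (W j z ^ α j * conj (W j z) ^ β j) ∂P')))
    (P : MvPolynomial (Fin M ⊕ Fin M) ℂ) :
    Tendsto (fun L : ℝ => ∫ x, MvPolynomial.eval (Sum.elim (fun i => G L i x) (fun i => conj (G L i x))) P ∂ν L) atTop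
      (𝓝 (∫ z, MvPolynomial.eval (Sum.elim (fun j => W j z) (fun j => conj (W j z))) P ∂P')) := by
  have h1 : ∀ L : ℝ, ∫ x, MvPolynomial.eval (Sum.elim (fun i => G L i x) (fun i => conj (G L i x))) P ∂ν L =
      ∑ d ∈ P.support, P.coeff d * ∫ x, ∏ j, (G L j x ^ d (Sum.inl j) * conj (G L j x) ^ d (Sum.inr j)) ∂ν L := by
    intro L
    have := hν L
    have hc : ∀ d : (Fin M ⊕ Fin M) →₀ ℕ, Continuous fun x : Om =>
        ∏ j, (G L j x ^ d (Sum.inl j) * conj (G L j x) ^ d (Sum.inr j)) := by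
      intro d
      refine continuous_finsetProd _ fun j _ => ?_
      exact ((hG L j).pow _).mul ((Complex.continuous_conj.comp (hG L j)).pow _)
    have h2 : (fun x : Om => MvPolynomial.eval (Sum.elim (fun i => G L i x) (fun i => conj (G L i x))) P) =
        fun x => ∑ d ∈ P.support, P.coeff d * ∏ j, (G L j x ^ d (Sum.inl j) * conj (G L j x) ^ d (Sum.inr j)) := by
      funext x
      exact c0_eval P (fun i => G L i x)
    rw [h2, integral_finsetSum]
    · refine Finset.sum_congr rfl fun d _ => ?_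
      rw [integral_const_mul]
    · intro d _
      exact (c0_integrable (ν L) (hc d)).const_mul _
  have h3 : ∫ z, MvPolynomial.eval (Sum.elim (fun j => W j z) (fun j => conj (W j z))) P ∂P' =
      ∑ d ∈ P.support, P.coeff d * ∫ z, ∏ j, (W j z ^ d (Sum.inl j) * conj (W j z) ^ d (Sum.inr j)) ∂P' := by
    have h2 : (fun z => MvPolynomial.eval (Sum.elim (fun j => W j z) (fun j => conj (W j z))) P) =
        fun z => ∑ d ∈ P.support, P.coeff d * ∏ j, (W j z ^ d (Sum.inl j) * conj (W j z) ^ d (Sum.inr j)) := by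
      funext z
      exact c0_eval P (fun j => W j z)
    rw [h2, integral_finsetSum]
    · refine Finset.sum_congr rfl fun d _ => ?_
      rw [integral_const_mul]
    · intro d _
      exact (hWint (fun j => d (Sum.inl j)) (fun j => d (Sum.inr j))).const_mul _
  rw [h3]
  simp only [h1]
  refine tendsto_finsetSum _ fun d _ => ?_
  exact (hmix (fun j => d (Sum.inl j)) (fun j => d (Sum.inr j))).const_mul _

theorem c0_cont {M : ℕ} (Q : MvPolynomial (Fin M) ℂ) {k : ℝ} (hk : 0 < k) :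
    Continuous fun z : Fin M → ℂ => ‖MvPolynomial.eval z Q‖ ^ k :=
  (MvPolynomial.continuous_eval Q).norm.rpow_const fun _ => Or.inr hk.le

/-- one space: the absolute moment is close to the moment of the polynomial -/
theorem c0_close {Ω : Type} {mΩ : MeasurableSpace Ω} {P : Measure Ω} (f : Ω → ℝ) (p q : Ω → ℂ)
    (hf : AEStronglyMeasurable f P) (hp : Integrable p P) (hq : Integrable q P)
    (h : ∀ x, |f x - (p x).re| ≤ (q x).re) {ε : ℝ} (hε : ∫ x, (q x).re ∂P ≤ ε) :
    Integrable f P ∧ |∫ x, f x ∂P - (∫ x, p x ∂P).re| ≤ ε := by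
  have hpr : Integrable (fun x => (p x).re) P := hp.re
  have hqr : Integrable (fun x => (q x).re) P := hq.re
  have hfi : Integrable f P := by
    refine Integrable.mono' (hqr.add hpr.norm) hf (Eventually.of_forall fun x => ?_)
    have h1 := h x
    have h2 : |f x| ≤ |f x - (p x).re| + |(p x).re| := by
      have := abs_add_le (f x - (p x).re) ((p x).re)
      rwa [sub_add_cancel] at this
    simp only [Pi.add_apply, Real.norm_eq_abs]
    linarith
  refine ⟨hfi, ?_⟩
  have h3 : (∫ x, p x ∂P).re = ∫ x, (p x).re ∂P := by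
    have := integral_re (𝕜 := ℂ) (f := p) (μ := P) hp
    simpa using this.symm
  rw [h3, ← integral_sub hfi hpr]
  calc |∫ x, (f x - (p x).re) ∂P| ≤ ∫ x, |f x - (p x).re| ∂P := abs_integral_le_integral_abs
    _ ≤ ∫ x, (q x).re ∂P := integral_mono (hfi.sub hpr).abs hqr h
    _ ≤ ε := hε

/-- method of moments: for any family of probability measures `ν L` on the sample space and any limit law
`W` with moments at most `s! V^s`, convergence of all mixed moments gives convergence of the absolute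
moments of every polynomial -/
theorem moment_method_gen {M : ℕ} (Q : MvPolynomial (Fin M) ℂ) {k : ℝ} (hk : 0 < k) {V : ℝ} (hV : 0 ≤ V)
    {Ω' : Type} {mΩ' : MeasurableSpace Ω'} (P' : Measure Ω') [IsProbabilityMeasure P'] (W : Fin M → Ω' → ℂ)
    (hWm : ∀ j, AEStronglyMeasurable (W j) P') (hWi : ∀ j s, Integrable (fun z => ‖W j z‖ ^ (2 * s)) P')
    (hWb : ∀ j s, ∫ z, ‖W j z‖ ^ (2 * s) ∂P' ≤ (s.factorial : ℝ) * V ^ s)
    (hWint : ∀ α β : Fin M → ℕ, Integrable (fun z => ∏ j, (W j z ^ α j * conj (W j z) ^ β j)) P')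
    (ν : ℝ → Measure Om) (hν : ∀ L, IsProbabilityMeasure (ν L))
    (G : ℝ → Fin M → Om → ℂ) (hG : ∀ L j, Continuous (G L j)) {L0 : ℝ}
    (hbd : ∀ L : ℝ, L0 ≤ L → ∀ j s, ∫ x, ‖G L j x‖ ^ (2 * s) ∂ν L ≤ (s.factorial : ℝ) * V ^ s)
    (hmix : ∀ α β : Fin M → ℕ, Tendsto (fun L : ℝ => ∫ x, ∏ j, (G L j x ^ α j * conj (G L j x) ^ β j) ∂ν L) atTop
      (𝓝 (∫ z, ∏ j, (W j z ^ α j * conj (W j z) ^ β j) ∂P'))) :
    Tendsto (fun L : ℝ => ∫ x, ‖MvPolynomial.eval (fun j => G L j x) Q‖ ^ k ∂ν L) atTop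
      (𝓝 (∫ z, ‖MvPolynomial.eval (fun j => W j z) Q‖ ^ k ∂P')) := by
  rw [Metric.tendsto_atTop]
  intro ε hε
  obtain ⟨p, q, hpq, hint⟩ := trig_taylor_gen M hk Q V (ε / 4) hV (by positivity)
  -- the limit law
  obtain ⟨g1, g2, g3⟩ := hint Ω' _ P' inferInstance W hWm hWi hWb
  have hgm : AEStronglyMeasurable (fun z => fun j => W j z) P' := by
    apply AEMeasurable.aestronglyMeasurable
    exact aemeasurable_pi_lambda _ fun j => (hWm j).aemeasurable
  obtain ⟨_, g4⟩ := c0_close (P := P')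
    (fun z => ‖MvPolynomial.eval (fun j => W j z) Q‖ ^ k) _ _
    ((c0_cont Q hk).comp_aestronglyMeasurable hgm) g1 g2
    (fun z => hpq (fun j => W j z)) g3
  -- the moments of `p`
  have hlim := c0_poly P' W hWint ν hν G hG hmix p
  obtain ⟨L1, hL1⟩ := (Metric.tendsto_atTop.1 hlim) (ε / 4) (by positivity)
  refine ⟨max L0 L1, fun L hL => ?_⟩
  have hLL0 : L0 ≤ L := le_trans (le_max_left _ _) hL
  have hLL1 : L1 ≤ L := le_trans (le_max_right _ _) hL
  have := hν L
  obtain ⟨m1, m2, m3⟩ := hint Om _ (ν L) inferInstance (fun j x => G L j x)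
    (fun j => (hG L j).aestronglyMeasurable)
    (fun j s => c0_integrable (ν L) ((hG L j).norm.pow _))
    (fun j s => hbd L hLL0 j s)
  have hGc : Continuous fun x : Om => (fun j => G L j x) := continuous_pi fun j => hG L j
  obtain ⟨_, m4⟩ := c0_close (P := ν L)
    (fun x => ‖MvPolynomial.eval (fun j => G L j x) Q‖ ^ k) _ _
    ((c0_cont Q hk).comp hGc).aestronglyMeasurable m1 m2
    (fun x => hpq (fun j => G L j x)) m3
  have h5 := hL1 L hLL1
  rw [dist_eq_norm] at h5
  have h6 : |(∫ x, MvPolynomial.eval (Sum.elim (fun i => G L i x) (fun i => conj (G L i x))) p ∂ν L).re -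
      (∫ z, MvPolynomial.eval (Sum.elim (fun j => W j z) (fun j => conj (W j z))) p ∂P').re| < ε / 4 := by
    rw [← Complex.sub_re]
    exact lt_of_le_of_lt (Complex.abs_re_le_norm _) h5
  rw [Real.dist_eq]
  rw [abs_le] at m4 g4
  rw [abs_lt] at h6 ⊢
  constructor
  · linarith [m4.1, m4.2, g4.1, g4.2, h6.1, h6.2]
  · linarith [m4.1, m4.2, g4.1, g4.2, h6.1, h6.2]

theorem adm_zero {L : ℝ} (hL : 1 ≤ L) : Adm 0 L := by
  refine ⟨hL, ?_⟩
  rw [norm_zero]
  positivity

end Pool.Agent.LibTG78
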