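import Mathlib
import Pool.Agent.LibTG78.C0b

/-! # Mixed moments of sums of small independent variables: the limit -/

set_option autoImplicit false

namespace Pool.Agent.LibTG78

open MeasureTheory Filter Topology Pool.Agent.LibMM99
open scoped ComplexConjugate

/-- constant in the recursion -/
noncomputable def c0cK (B : ℕ → ℝ) (a b : ℕ) : ℝ :=
  (a * b + (a : ℝ) ^ 2 + (1 + a) * (b : ℝ) ^ 2) * DB B (a + b) +
        b * ((a + (b - 1 : ℕ) + a * (b - 1 : ℕ) + (a : ℝ) ^ 2 + (1 + a) * ((b - 1 : ℕ) : ℝ) ^ 2) *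
          DB B (a + (b - 1)))

/-- the recursion for the mixed moments -/
theorem SteinData.step {ν : Measure Om} {S : Finset ℕ} {Y : ℕ → Om → ℂ} {η V : ℝ} {B : ℕ → ℝ}
    (h : SteinData ν S Y η V B) (a b : ℕ) :
    ‖∫ x, mn (a + 1) b (∑ q ∈ S, Y q x) ∂ν -
      b * ((∑ p ∈ S, ∫ x, ‖Y p x‖ ^ 2 ∂ν : ℝ) : ℂ) * ∫ x, mn a (b - 1) (∑ q ∈ S, Y q x) ∂ν‖ ≤
      c0cK B a b * η * V := by
  have := h.prob
  have hcT : Continuous fun x => ∑ q ∈ S, Y q x := h.cont_sum subset_rfl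
  have e1 : ∫ x, mn (a + 1) b (∑ q ∈ S, Y q x) ∂ν = ∑ p ∈ S, ∫ x, Y p x * mn a b (∑ q ∈ S, Y q x) ∂ν := by
    rw [← integral_finsetSum]
    · congr 1
      funext x
      rw [← Finset.sum_mul]
      unfold mn
      ring
    · intro p hp
      exact c0_integrable ν ((h.cont p hp).mul ((continuous_mn a b).comp hcT))
  have e2 : (b : ℂ) * ((∑ p ∈ S, ∫ x, ‖Y p x‖ ^ 2 ∂ν : ℝ) : ℂ) * ∫ x, mn a (b - 1) (∑ q ∈ S, Y q x) ∂ν =
      ∑ p ∈ S, b * ((∫ x, ‖Y p x‖ ^ 2 ∂ν : ℝ) : ℂ) * ∫ x, mn a (b - 1) (∑ q ∈ S, Y q x) ∂ν := by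
    rw [← Finset.sum_mul, ← Finset.mul_sum]
    push_cast
    rfl
  have hK : 0 ≤ c0cK B a b := by
    unfold c0cK
    have h1 := h.DB_nonneg (a + b)
    have h2 := h.DB_nonneg (a + (b - 1))
    positivity
  rw [e1, e2, ← Finset.sum_sub_distrib]
  refine (norm_sum_le _ _).trans ?_
  calc ∑ p ∈ S, ‖∫ x, Y p x * mn a b (∑ q ∈ S, Y q x) ∂ν -
      b * ((∫ x, ‖Y p x‖ ^ 2 ∂ν : ℝ) : ℂ) * ∫ x, mn a (b - 1) (∑ q ∈ S, Y q x) ∂ν‖ ≤
      ∑ p ∈ S, c0cK B a b * η * ∫ x, ‖Y p x‖ ^ 2 ∂ν := Finset.sum_le_sum fun p hp => h.one_var hp a b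
    _ = c0cK B a b * η * ∑ p ∈ S, ∫ x, ‖Y p x‖ ^ 2 ∂ν := by rw [Finset.mul_sum]
    _ ≤ c0cK B a b * η * V := mul_le_mul_of_nonneg_left h.var (mul_nonneg hK h.eta_nonneg)

theorem conj_mn (a b : ℕ) (u : ℂ) : conj (mn a b u) = mn b a u := by
  unfold mn
  rw [map_mul, map_pow, map_pow, Complex.conj_conj]
  ring

/-- the limits of the mixed moments are those of a complex Gaussian -/
theorem stein_tendsto {ν : ℝ → Measure Om} {S : ℝ → Finset ℕ} {Y : ℝ → ℕ → Om → ℂ} {η : ℝ → ℝ} {V v : ℝ}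
    {B : ℕ → ℝ} (h : ∀ᶠ L in atTop, SteinData (ν L) (S L) (Y L) (η L) V B) (hη : Tendsto η atTop (𝓝 0))
    (hv : Tendsto (fun L : ℝ => ∑ p ∈ S L, ∫ x, ‖Y L p x‖ ^ 2 ∂ν L) atTop (𝓝 v)) (a b : ℕ) :
    Tendsto (fun L : ℝ => ∫ x, mn a b (∑ p ∈ S L, Y L p x) ∂ν L) atTop
      (𝓝 (if a = b then (a.factorial : ℂ) * ((v : ℝ) : ℂ) ^ a else 0)) := by
  have step : ∀ (a b : ℕ) (l : ℂ), Tendsto (fun L : ℝ => ∫ x, mn a (b - 1) (∑ p ∈ S L, Y L p x) ∂ν L) atTop (𝓝 l) →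
      Tendsto (fun L : ℝ => ∫ x, mn (a + 1) b (∑ p ∈ S L, Y L p x) ∂ν L) atTop (𝓝 (b * ((v : ℝ) : ℂ) * l)) := by
    intro a b l hl
    have h1 : Tendsto (fun L : ℝ => (b : ℂ) * ((∑ p ∈ S L, ∫ x, ‖Y L p x‖ ^ 2 ∂ν L : ℝ) : ℂ) *
        ∫ x, mn a (b - 1) (∑ p ∈ S L, Y L p x) ∂ν L) atTop (𝓝 (b * ((v : ℝ) : ℂ) * l)) :=
      (((Complex.continuous_ofReal.tendsto _).comp hv).const_mul _).mul hl
    have h2 : Tendsto (fun L : ℝ => c0cK B a b * η L * V) atTop (𝓝 0) := by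
      have := (hη.const_mul (c0cK B a b)).mul_const V
      simpa using this
    have h3 : Tendsto (fun L : ℝ => (∫ x, mn (a + 1) b (∑ p ∈ S L, Y L p x) ∂ν L) -
        (b : ℂ) * ((∑ p ∈ S L, ∫ x, ‖Y L p x‖ ^ 2 ∂ν L : ℝ) : ℂ) *
        ∫ x, mn a (b - 1) (∑ p ∈ S L, Y L p x) ∂ν L) atTop (𝓝 0) := by
      refine squeeze_zero_norm' ?_ h2
      filter_upwards [h] with L hL
      exact hL.step a b
    have h4 := h3.add h1
    rw [zero_add] at h4
    refine h4.congr fun L => ?_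
    ring
  have zero : ∀ᶠ L in atTop, ∫ x, mn 0 0 (∑ p ∈ S L, Y L p x) ∂ν L = 1 := by
    filter_upwards [h] with L hL
    have := hL.prob
    unfold mn
    simp
  have left : ∀ a : ℕ, Tendsto (fun L : ℝ => ∫ x, mn a 0 (∑ p ∈ S L, Y L p x) ∂ν L) atTop
      (𝓝 (if a = 0 then (1 : ℂ) else 0)) := by
    intro a
    induction a with
    | zero =>
      rw [if_pos rfl]
      exact tendsto_const_nhds.congr' (zero.mono fun L hL => hL.symm)
    | succ a ih =>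
      have := step a 0 _ ih
      simpa using this
  have right : ∀ b : ℕ, Tendsto (fun L : ℝ => ∫ x, mn 0 b (∑ p ∈ S L, Y L p x) ∂ν L) atTop
      (𝓝 (if b = 0 then (1 : ℂ) else 0)) := by
    intro b
    have h1 := (Complex.continuous_conj.tendsto _).comp (left b)
    have h2 : conj (if b = 0 then (1 : ℂ) else 0) = if b = 0 then (1 : ℂ) else 0 := by
      split_ifs <;> simp
    rw [h2] at h1
    refine h1.congr fun L => ?_
    simp only [Function.comp]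
    rw [← integral_conj]
    congr 1
    funext x
    exact conj_mn b 0 _
  induction a generalizing b with
  | zero =>
    have := right b
    by_cases hb : b = 0
    · subst hb
      simpa using this
    · rw [if_neg hb] at this
      rw [if_neg (fun h => hb h.symm)]
      exact this
  | succ a ih =>
    have := step a b _ (ih (b - 1))
    by_cases hb : b = 0
    · subst hb
      simpa using this
    · obtain ⟨c, rfl⟩ : ∃ c, b = c + 1 := ⟨b - 1, by omega⟩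
      simp only [Nat.add_sub_cancel] at this
      by_cases hac : a = c
      · subst hac
        rw [if_pos rfl] at this ⊢
        have e : ((a + 1 : ℕ) : ℂ) * ((v : ℝ) : ℂ) * ((a.factorial : ℂ) * ((v : ℝ) : ℂ) ^ a) =
            ((a + 1).factorial : ℂ) * ((v : ℝ) : ℂ) ^ (a + 1) := by
          rw [Nat.factorial_succ]
          push_cast
          ring
        rw [e] at this
        exact this
      · rw [if_neg hac, mul_zero] at this
        rw [if_neg (fun h => hac (by omega))]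
        exact this

end Pool.Agent.LibTG78
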