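import Mathlib
import Pool.Agent.LibTG78.BAll
import Pool.Agent.LibTG78.C0

/-! # The law of one prime under the tilted measure; independence for complex functions -/

set_option autoImplicit false

namespace Pool.Agent.LibTG78

open MeasureTheory Filter Topology Pool.Agent.LibMM99
open scoped ComplexConjugate

/-- a bounded sequence with `a n = r * a (n + 1)`, `|r| < 1`, vanishes -/
theorem c1a_seq {r : ℝ} (hr0 : 0 ≤ r) (hr1 : r < 1) {a : ℕ → ℂ} {C : ℝ} (hb : ∀ n, ‖a n‖ ≤ C)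
    (h : ∀ n, a n = r * a (n + 1)) (n : ℕ) : a n = 0 := by
  have h1 : ∀ k : ℕ, a n = (r : ℂ) ^ k * a (n + k) := by
    intro k
    induction k with
    | zero => simp
    | succ k ih =>
      rw [ih, h (n + k), pow_succ]
      ring_nf
  have h2 : ∀ k : ℕ, ‖a n‖ ≤ r ^ k * C := by
    intro k
    rw [h1 k, norm_mul, norm_pow, Complex.norm_real, Real.norm_of_nonneg hr0]
    exact mul_le_mul_of_nonneg_left (hb _) (by positivity)
  have h3 : Tendsto (fun k : ℕ => r ^ k * C) atTop (𝓝 (0 * C)) :=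
    (tendsto_pow_atTop_nhds_zero_of_lt_one hr0 hr1).mul_const C
  rw [zero_mul] at h3
  have h4 : ‖a n‖ ≤ 0 := ge_of_tendsto' h3 h2
  exact norm_le_zero_iff.1 h4

/-- moments of the circle -/
theorem c1a_ch {p : ℕ} (hp : p.Prime) (m : ℕ) : ∫ x, ch x p ^ m ∂mu = if m = 0 then 1 else 0 := by
  have h1 : ∀ x : Om, ch x p ^ m = ch x (p ^ m) * conj (ch x 1) := by
    intro x
    rw [ch_one, map_one, mul_one]
    induction m with
    | zero => simp [ch_one]
    | succ m ih => rw [pow_succ, pow_succ, ch_mul x (pow_ne_zero _ hp.ne_zero) hp.ne_zero, ih]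
  simp only [h1]
  rw [integral_ch (pow_ne_zero _ hp.ne_zero) one_ne_zero]
  by_cases h : m = 0
  · subst h; simp
  · rw [if_neg h, if_neg]
    intro h2
    have := Nat.one_lt_pow h hp.one_lt
    omega

theorem c1a_conj {p : ℕ} (hp : p.Prime) (m : ℕ) : ∫ x, conj (ch x p) ^ m ∂mu = if m = 0 then 1 else 0 := by
  have h := c1a_ch hp m
  have h1 : ∫ x, conj (ch x p) ^ m ∂mu = conj (∫ x, ch x p ^ m ∂mu) := by
    rw [← integral_conj]
    congr 1
    funext x
    rw [map_pow]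
  rw [h1, h]
  split_ifs <;> simp

/-- moments of one prime with the density `‖1 - r z‖ ^ (-2)` -/
theorem c1a_tilt {p : ℕ} (hp : p.Prime) {r : ℝ} (hr0 : 0 ≤ r) (hr1 : r < 1) (m : ℕ) :
    ∫ x, ((‖(1 - (r : ℂ) * ch x p)⁻¹‖ ^ 2 : ℝ) : ℂ) * ch x p ^ m ∂mu = ((r ^ m / (1 - r ^ 2) : ℝ) : ℂ) := by
  have hc : Continuous fun x : Om => ch x p := continuous_ch p
  have hn : ∀ x : Om, ‖ch x p‖ = 1 := fun x => norm_ch x p
  have hzz : ∀ x : Om, ch x p * conj (ch x p) = 1 := by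
    intro x
    rw [Complex.mul_conj, Complex.normSq_eq_norm_sq, hn x]
    norm_num
  have hne : ∀ x : Om, 1 - (r : ℂ) * ch x p ≠ 0 := by
    intro x h
    have h1 : (r : ℂ) * ch x p = 1 := (sub_eq_zero.1 h).symm
    have h2 : ‖(r : ℂ) * ch x p‖ = r := by
      rw [norm_mul, hn x, mul_one, Complex.norm_real, Real.norm_of_nonneg hr0]
    rw [h1, norm_one] at h2
    linarith
  have hne' : ∀ x : Om, 1 - (r : ℂ) * conj (ch x p) ≠ 0 := by
    intro x h
    apply hne x
    have := congrArg conj h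
    simpa using this
  have hlow : ∀ x : Om, 1 - r ≤ ‖1 - (r : ℂ) * ch x p‖ := by
    intro x
    have h1 := norm_sub_norm_le (1 : ℂ) ((r : ℂ) * ch x p)
    rw [norm_one, norm_mul, hn x, mul_one, Complex.norm_real, Real.norm_of_nonneg hr0] at h1
    exact h1
  have hlow' : ∀ x : Om, ‖(1 - (r : ℂ) * conj (ch x p))⁻¹‖ ≤ (1 - r)⁻¹ := by
    intro x
    rw [norm_inv]
    apply inv_anti₀ (by linarith)
    have h1 : ‖1 - (r : ℂ) * conj (ch x p)‖ = ‖1 - (r : ℂ) * ch x p‖ := by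
      rw [← RCLike.norm_conj (1 - (r : ℂ) * ch x p)]
      simp
    rw [h1]
    exact hlow x
  have hlow2 : ∀ x : Om, ‖(1 - (r : ℂ) * ch x p)⁻¹‖ ≤ (1 - r)⁻¹ := by
    intro x
    rw [norm_inv]
    exact inv_anti₀ (by linarith) (hlow x)
  have cI : Continuous fun x : Om => (1 - (r : ℂ) * ch x p)⁻¹ :=
    (continuous_const.sub (continuous_const.mul hc)).inv₀ hne
  have cJ : Continuous fun x : Om => (1 - (r : ℂ) * conj (ch x p))⁻¹ :=
    (continuous_const.sub (continuous_const.mul (Complex.continuous_conj.comp hc))).inv₀ hne'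
  have cconj : Continuous fun x : Om => conj (ch x p) := Complex.continuous_conj.comp hc
  -- the sequence `D`
  have hD : ∀ n : ℕ, (∫ x, conj (ch x p) ^ n * (1 - (r : ℂ) * conj (ch x p))⁻¹ ∂mu) =
      (if n = 0 then 1 else 0) + r * ∫ x, conj (ch x p) ^ (n + 1) * (1 - (r : ℂ) * conj (ch x p))⁻¹ ∂mu := by
    intro n
    rw [← c1a_conj hp n, ← integral_const_mul, ← integral_add]
    · congr 1
      funext x
      have h1 := hne' x
      field_simp
      ring
    · exact integrable_of_continuous (cconj.pow n)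
    · exact integrable_of_continuous (continuous_const.mul ((cconj.pow _).mul cJ))
  have hDb : ∀ n : ℕ, ‖∫ x, conj (ch x p) ^ n * (1 - (r : ℂ) * conj (ch x p))⁻¹ ∂mu‖ ≤ (1 - r)⁻¹ := by
    intro n
    refine (norm_integral_le_of_norm_le_const (C := (1 - r)⁻¹) (Eventually.of_forall fun x => ?_)).trans ?_
    · rw [norm_mul, norm_pow, RCLike.norm_conj, hn x, one_pow, one_mul]
      exact hlow' x
    · simp
  have hD0 : (∫ x, conj (ch x p) ^ 0 * (1 - (r : ℂ) * conj (ch x p))⁻¹ ∂mu) = 1 := by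
    have h1 : ∀ n : ℕ, (fun n : ℕ => ∫ x, conj (ch x p) ^ (n + 1) * (1 - (r : ℂ) * conj (ch x p))⁻¹ ∂mu) n = 0 := by
      refine c1a_seq hr0 hr1 (C := (1 - r)⁻¹) (fun n => hDb (n + 1)) fun n => ?_
      rw [hD (n + 1), if_neg (Nat.succ_ne_zero n), zero_add]
    have h2 := h1 0
    simp only [zero_add] at h2
    have h3 := hD 0
    rw [if_pos rfl, zero_add, h2, mul_zero, add_zero] at h3
    exact h3
  -- the sequence `C`
  have hC : ∀ n : ℕ, (∫ x, ch x p ^ n * (1 - (r : ℂ) * conj (ch x p))⁻¹ ∂mu) = (r : ℂ) ^ n := by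
    intro n
    induction n with
    | zero => simpa using hD0
    | succ n ih =>
      have h1 : (∫ x, ch x p ^ (n + 1) * (1 - (r : ℂ) * conj (ch x p))⁻¹ ∂mu) =
          (∫ x, ch x p ^ (n + 1) ∂mu) + r * ∫ x, ch x p ^ n * (1 - (r : ℂ) * conj (ch x p))⁻¹ ∂mu := by
        rw [← integral_const_mul, ← integral_add]
        · congr 1
          funext x
          have h2 := hzz x
          have h3 : ch x p ^ (n + 1) = ch x p ^ (n + 1) * (1 - (r : ℂ) * conj (ch x p)) + r * ch x p ^ n := by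
            rw [pow_succ]
            linear_combination ((r : ℂ) * ch x p ^ n) * h2
          calc ch x p ^ (n + 1) * (1 - (r : ℂ) * conj (ch x p))⁻¹ =
              (ch x p ^ (n + 1) * (1 - (r : ℂ) * conj (ch x p)) + r * ch x p ^ n) *
                (1 - (r : ℂ) * conj (ch x p))⁻¹ := by rw [← h3]
            _ = ch x p ^ (n + 1) * ((1 - (r : ℂ) * conj (ch x p)) * (1 - (r : ℂ) * conj (ch x p))⁻¹) +
                r * (ch x p ^ n * (1 - (r : ℂ) * conj (ch x p))⁻¹) := by ring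
            _ = ch x p ^ (n + 1) + r * (ch x p ^ n * (1 - (r : ℂ) * conj (ch x p))⁻¹) := by
              rw [mul_inv_cancel₀ (hne' x), mul_one]
        · exact integrable_of_continuous (hc.pow _)
        · exact integrable_of_continuous (continuous_const.mul ((hc.pow _).mul cJ))
      rw [h1, c1a_ch hp, if_neg (Nat.succ_ne_zero n), ih, zero_add, pow_succ]
      ring
  -- the sequence `A`
  have hsq : ∀ x : Om, ((‖(1 - (r : ℂ) * ch x p)⁻¹‖ ^ 2 : ℝ) : ℂ) =
      (1 - (r : ℂ) * ch x p)⁻¹ * (1 - (r : ℂ) * conj (ch x p))⁻¹ := by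
    intro x
    have h1 : conj ((1 - (r : ℂ) * ch x p)⁻¹) = (1 - (r : ℂ) * conj (ch x p))⁻¹ := by
      rw [map_inv₀]
      simp
    rw [← h1, Complex.mul_conj, Complex.normSq_eq_norm_sq]
  have cR : Continuous fun x : Om => ((‖(1 - (r : ℂ) * ch x p)⁻¹‖ ^ 2 : ℝ) : ℂ) :=
    Complex.continuous_ofReal.comp (cI.norm.pow 2)
  have hAb : ∀ n : ℕ, ‖∫ x, ((‖(1 - (r : ℂ) * ch x p)⁻¹‖ ^ 2 : ℝ) : ℂ) * ch x p ^ n ∂mu‖ ≤ ((1 - r)⁻¹) ^ 2 := by
    intro n
    refine (norm_integral_le_of_norm_le_const (C := ((1 - r)⁻¹) ^ 2) (Eventually.of_forall fun x => ?_)).trans ?_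
    · rw [norm_mul, norm_pow, hn x, one_pow, mul_one, Complex.norm_real, Real.norm_of_nonneg (by positivity)]
      exact pow_le_pow_left₀ (norm_nonneg _) (hlow2 x) 2
    · simp
  have hArec : ∀ n : ℕ, (∫ x, ((‖(1 - (r : ℂ) * ch x p)⁻¹‖ ^ 2 : ℝ) : ℂ) * ch x p ^ n ∂mu) =
      (r : ℂ) ^ n + r * ∫ x, ((‖(1 - (r : ℂ) * ch x p)⁻¹‖ ^ 2 : ℝ) : ℂ) * ch x p ^ (n + 1) ∂mu := by
    intro n
    rw [← hC n, ← integral_const_mul, ← integral_add]
    · congr 1
      funext x
      rw [hsq x]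
      have h1 := hne' x
      have h2 := hne x
      field_simp
      ring
    · exact integrable_of_continuous ((hc.pow _).mul cJ)
    · exact integrable_of_continuous (continuous_const.mul (cR.mul (hc.pow _)))
  have hr2 : 0 < 1 - r ^ 2 := by nlinarith
  have hr2c : (1 : ℂ) - (r : ℂ) ^ 2 ≠ 0 := by
    have : ((1 - r ^ 2 : ℝ) : ℂ) ≠ 0 := Complex.ofReal_ne_zero.2 hr2.ne'
    push_cast at this
    exact this
  have hfin := c1a_seq hr0 hr1 (C := ((1 - r)⁻¹) ^ 2 + (1 - r ^ 2)⁻¹)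
    (a := fun n => (∫ x, ((‖(1 - (r : ℂ) * ch x p)⁻¹‖ ^ 2 : ℝ) : ℂ) * ch x p ^ n ∂mu) -
      (r : ℂ) ^ n / (1 - (r : ℂ) ^ 2)) (fun n => by
        refine (norm_sub_le _ _).trans (add_le_add (hAb n) ?_)
        have h1 : ‖(1 : ℂ) - (r : ℂ) ^ 2‖ = 1 - r ^ 2 := by
          have : (1 : ℂ) - (r : ℂ) ^ 2 = ((1 - r ^ 2 : ℝ) : ℂ) := by push_cast; ring
          rw [this, Complex.norm_real, Real.norm_of_nonneg hr2.le]
        rw [norm_div, h1, norm_pow, Complex.norm_real, Real.norm_of_nonneg hr0, div_eq_mul_inv]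
        exact mul_le_of_le_one_left (by positivity) (pow_le_one₀ hr0 hr1.le))
    (fun n => by
      rw [hArec n]
      field_simp
      ring) m
  rw [sub_eq_zero.1 hfin]
  push_cast
  rfl

/-- independence for complex functions -/
theorem IsProd.indepC {ν : Measure Om} (h : IsProd ν) {f g : Om → ℂ} {S T : Set ℕ} (hf : Continuous f)
    (hg : Continuous g) (hS : DependsOn f S) (hT : DependsOn g T) (hST : Disjoint S T) :
    ∫ x, f x * g x ∂ν = (∫ x, f x ∂ν) * ∫ x, g x ∂ν := by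
  have := h.prob
  have cfr : Continuous fun x => (f x).re := Complex.continuous_re.comp hf
  have cfi : Continuous fun x => (f x).im := Complex.continuous_im.comp hf
  have cgr : Continuous fun x => (g x).re := Complex.continuous_re.comp hg
  have cgi : Continuous fun x => (g x).im := Complex.continuous_im.comp hg
  have dfr : DependsOn (fun x => (f x).re) S := fun x y hxy => congrArg Complex.re (hS hxy)
  have dfi : DependsOn (fun x => (f x).im) S := fun x y hxy => congrArg Complex.im (hS hxy)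
  have dgr : DependsOn (fun x => (g x).re) T := fun x y hxy => congrArg Complex.re (hT hxy)
  have dgi : DependsOn (fun x => (g x).im) T := fun x y hxy => congrArg Complex.im (hT hxy)
  have dec : ∀ {F : Om → ℂ}, Continuous F → ∫ x, F x ∂ν =
      ((∫ x, (F x).re ∂ν : ℝ) : ℂ) + ((∫ x, (F x).im ∂ν : ℝ) : ℂ) * Complex.I := by
    intro F hF
    have h1 := integral_re_add_im (𝕜 := ℂ) (f := F) (μ := ν) (c0_integrable ν hF)
    rw [← h1]
    simp
  rw [dec (F := fun x => f x * g x) (hf.mul hg), dec hf, dec hg]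
  have e1 : ∫ x, (f x * g x).re ∂ν = (∫ x, (f x).re ∂ν) * (∫ x, (g x).re ∂ν) -
      (∫ x, (f x).im ∂ν) * ∫ x, (g x).im ∂ν := by
    rw [← h.indep _ _ S T cfr cgr dfr dgr hST, ← h.indep _ _ S T cfi cgi dfi dgi hST, ← integral_sub]
    · congr 1
    · exact c0_integrable ν (cfr.mul cgr)
    · exact c0_integrable ν (cfi.mul cgi)
  have e2 : ∫ x, (f x * g x).im ∂ν = (∫ x, (f x).re ∂ν) * (∫ x, (g x).im ∂ν) +
      (∫ x, (f x).im ∂ν) * ∫ x, (g x).re ∂ν := by
    rw [← h.indep _ _ S T cfr cgi dfr dgi hST, ← h.indep _ _ S T cfi cgr dfi dgr hST, ← integral_add]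
    · congr 1
    · exact c0_integrable ν (cfr.mul cgi)
    · exact c0_integrable ν (cfi.mul cgr)
  rw [e1, e2]
  push_cast
  linear_combination (-((∫ x, (f x).im ∂ν : ℝ) : ℂ) * ((∫ x, (g x).im ∂ν : ℝ) : ℂ)) * Complex.I_sq

/-- local form of the integral for complex functions -/
theorem integral_nu_locC {s : ℂ} {L : ℝ} (h : Adm s L) {u v : ℝ} (hu : 1 ≤ u) (huv : u ≤ v)
    (hv : v ≤ Real.exp L) {f : Om → ℂ} (hf : Continuous f) (hd : DependsOn f (coo u v)) :
    ∫ x, f x ∂(nu s L) = ((nz s u v : ℝ) : ℂ) * ∫ x, ((‖ZZ s u v x‖ ^ 2 : ℝ) : ℂ) * f x ∂mu := by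
  have := (isProd_nu h).prob
  have cZ : Continuous (ZZ s u v) := continuous_ZZ h hv
  have cfr : Continuous fun x => (f x).re := Complex.continuous_re.comp hf
  have cfi : Continuous fun x => (f x).im := Complex.continuous_im.comp hf
  have dec : ∀ (ν : Measure Om) [IsProbabilityMeasure ν] {F : Om → ℂ}, Continuous F → ∫ x, F x ∂ν =
      ((∫ x, (F x).re ∂ν : ℝ) : ℂ) + ((∫ x, (F x).im ∂ν : ℝ) : ℂ) * Complex.I := by
    intro ν _ F hF
    have h1 := integral_re_add_im (𝕜 := ℂ) (f := F) (μ := ν) (c0_integrable ν hF)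
    rw [← h1]
    simp
  have cF : Continuous fun x => ((‖ZZ s u v x‖ ^ 2 : ℝ) : ℂ) * f x :=
    (Complex.continuous_ofReal.comp (cZ.norm.pow 2)).mul hf
  rw [dec (nu s L) hf, dec mu cF, integral_nu_loc h hu huv hv cfr (fun x y hxy => congrArg Complex.re (hd hxy)),
    integral_nu_loc h hu huv hv cfi (fun x y hxy => congrArg Complex.im (hd hxy))]
  have e1 : ∀ x, (((‖ZZ s u v x‖ ^ 2 : ℝ) : ℂ) * f x).re = ‖ZZ s u v x‖ ^ 2 * (f x).re := fun x =>
    Complex.re_ofReal_mul _ _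
  have e2 : ∀ x, (((‖ZZ s u v x‖ ^ 2 : ℝ) : ℂ) * f x).im = ‖ZZ s u v x‖ ^ 2 * (f x).im := fun x =>
    Complex.im_ofReal_mul _ _
  simp only [e1, e2]
  push_cast
  ring

theorem zp_zero {p : ℕ} (hp : p.Prime) : zp 0 p = (((Real.sqrt p)⁻¹ : ℝ) : ℂ) := by
  unfold zp
  have h0 : (0 : ℝ) ≤ p := Nat.cast_nonneg p
  have h1 : -(1 / 2 : ℂ) - 0 = ((-(1 / 2) : ℝ) : ℂ) := by push_cast; ring
  rw [h1, ← Complex.ofReal_natCast, ← Complex.ofReal_cpow h0, Real.rpow_neg h0, Real.sqrt_eq_rpow]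

/-- moments of one prime under the tilted measure -/
theorem nu_ch {L : ℝ} (hL : 1 ≤ L) {p : ℕ} (hp : p.Prime) (hpL : (p : ℝ) ≤ Real.exp L) (m : ℕ) :
    ∫ x, ch x p ^ m ∂(nu 0 L) = ((((Real.sqrt p)⁻¹) ^ m : ℝ) : ℂ) := by
  have h2 : (2 : ℝ) ≤ p := by exact_mod_cast hp.two_le
  have hprm : prm ((p : ℝ) - 1 / 2) p = {p} := by
    ext q
    rw [mem_prm, Finset.mem_singleton]
    constructor
    · rintro ⟨h3, h4, h5⟩
      have h6 : q ≤ p := by exact_mod_cast h5
      have h7 : p ≤ q := by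
        by_contra h8
        have h9 : q + 1 ≤ p := by omega
        have h10 : (q : ℝ) + 1 ≤ p := by exact_mod_cast h9
        linarith
      omega
    · rintro rfl
      exact ⟨hp, by linarith, le_rfl⟩
  have hd : DependsOn (fun x : Om => ch x p ^ m) (coo ((p : ℝ) - 1 / 2) p) := by
    intro x y hxy
    simp only
    rw [ch_prime x hp, ch_prime y hp, hxy p ⟨by linarith, le_rfl⟩]
  rw [integral_nu_locC (adm_zero hL) (by linarith) (by linarith) hpL (f := fun x : Om => ch x p ^ m)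
    ((continuous_ch p).pow m) hd]
  set r : ℝ := (Real.sqrt p)⁻¹ with hr
  have hr0 : 0 ≤ r := by positivity
  have hr2 : r ^ 2 = (p : ℝ)⁻¹ := by
    rw [hr, inv_pow, Real.sq_sqrt (by linarith)]
  have hp1 : (p : ℝ)⁻¹ < 1 := inv_lt_one_of_one_lt₀ (by linarith)
  have hr1 : r < 1 := by
    by_contra h3
    have h4 : 1 ≤ r := not_lt.1 h3
    have h5 : 1 ≤ r ^ 2 := one_le_pow₀ h4
    rw [hr2] at h5
    linarith
  have e1 : ∀ x : Om, ZZ 0 ((p : ℝ) - 1 / 2) p x = (1 - (r : ℂ) * ch x p)⁻¹ := by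
    intro x
    unfold ZZ
    rw [hprm, Finset.prod_singleton, zp_zero hp]
  have e2 : nz 0 ((p : ℝ) - 1 / 2) p = 1 - r ^ 2 := by
    unfold nz
    rw [hprm, Finset.prod_singleton, zp_zero hp, Complex.norm_real, Real.norm_of_nonneg hr0]
  simp only [e1]
  rw [e2, c1a_tilt hp hr0 hr1 m, ← Complex.ofReal_mul]
  congr 1
  have h3 : 1 - r ^ 2 ≠ 0 := by rw [hr2]; linarith
  field_simp

end Pool.Agent.LibTG78
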