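import Mathlib
import Pool.Agent.LibTG78.C0c
import Pool.Agent.LibTG78.C1a

/-! # The prime sum over one window under the tilted measure -/

set_option autoImplicit false

namespace Pool.Agent.LibTG78

open MeasureTheory Filter Topology Pool.Agent.LibMM99
open scoped ComplexConjugate

/-- the centred variable of one prime -/
noncomputable def Yp (p : ℕ) (x : Om) : ℂ := (((Real.sqrt p)⁻¹ : ℝ) : ℂ) * ch x p - (((p : ℝ)⁻¹ : ℝ) : ℂ)

theorem continuous_Yp (p : ℕ) : Continuous (Yp p) := by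
  unfold Yp
  exact (continuous_const.mul (continuous_ch p)).sub continuous_const

theorem dependsOn_Yp {p : ℕ} (hp : p.Prime) : DependsOn (Yp p) {p} := by
  intro x y hxy
  unfold Yp
  rw [ch_prime x hp, ch_prime y hp, hxy p rfl]

theorem c1c_sq {p : ℕ} : ((Real.sqrt p)⁻¹) ^ 2 = (p : ℝ)⁻¹ := by
  rw [inv_pow, Real.sq_sqrt (Nat.cast_nonneg p)]

theorem Yp_mean {L : ℝ} (hL : 1 ≤ L) {p : ℕ} (hp : p.Prime) (hpL : (p : ℝ) ≤ Real.exp L) :
    ∫ x, Yp p x ∂(nu 0 L) = 0 := by
  have := (isProd_nu (adm_zero hL)).prob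
  have h1 := nu_ch hL hp hpL 1
  simp only [pow_one] at h1
  have i1 : Integrable (fun x : Om => (((Real.sqrt p)⁻¹ : ℝ) : ℂ) * ch x p) (nu 0 L) :=
    c0_integrable _ (continuous_const.mul (continuous_ch p))
  unfold Yp
  rw [integral_sub i1 (integrable_const _), integral_const_mul, h1, ← Complex.ofReal_mul, ← sq, c1c_sq]
  simp

theorem Yp_sq {L : ℝ} (hL : 1 ≤ L) {p : ℕ} (hp : p.Prime) (hpL : (p : ℝ) ≤ Real.exp L) :
    ∫ x, Yp p x ^ 2 ∂(nu 0 L) = 0 := by
  have := (isProd_nu (adm_zero hL)).prob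
  have h1 := nu_ch hL hp hpL 1
  have h2 := nu_ch hL hp hpL 2
  simp only [pow_one] at h1
  set r : ℝ := (Real.sqrt p)⁻¹ with hr
  have hr2 : (p : ℝ)⁻¹ = r ^ 2 := c1c_sq.symm
  have e1 : ∀ x : Om, Yp p x ^ 2 = (r : ℂ) ^ 2 * ch x p ^ 2 - 2 * (r : ℂ) ^ 3 * ch x p + (r : ℂ) ^ 4 := by
    intro x
    unfold Yp
    rw [hr2, ← hr]
    push_cast
    ring
  simp only [e1]
  have i1 : Integrable (fun x : Om => (r : ℂ) ^ 2 * ch x p ^ 2) (nu 0 L) :=
    c0_integrable _ (continuous_const.mul ((continuous_ch p).pow 2))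
  have i2 : Integrable (fun x : Om => 2 * (r : ℂ) ^ 3 * ch x p) (nu 0 L) :=
    c0_integrable _ (continuous_const.mul (continuous_ch p))
  have i3 : Integrable (fun x : Om => (r : ℂ) ^ 2 * ch x p ^ 2 - 2 * (r : ℂ) ^ 3 * ch x p) (nu 0 L) := i1.sub i2
  rw [integral_add i3 (integrable_const _), integral_sub i1 i2, integral_const_mul, integral_const_mul, h1, h2]
  simp
  ring

theorem Yp_var {L : ℝ} (hL : 1 ≤ L) {p : ℕ} (hp : p.Prime) (hpL : (p : ℝ) ≤ Real.exp L) :
    ∫ x, ‖Yp p x‖ ^ 2 ∂(nu 0 L) = (p : ℝ)⁻¹ - ((p : ℝ)⁻¹) ^ 2 := by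
  have := (isProd_nu (adm_zero hL)).prob
  have h1 := nu_ch hL hp hpL 1
  simp only [pow_one] at h1
  set r : ℝ := (Real.sqrt p)⁻¹ with hr
  have hr2 : (p : ℝ)⁻¹ = r ^ 2 := c1c_sq.symm
  have e1 : ∀ x : Om, ‖Yp p x‖ ^ 2 = r ^ 2 + r ^ 4 - 2 * r ^ 3 * (ch x p).re := by
    intro x
    have h2 : ‖ch x p‖ = 1 := norm_ch x p
    have h3 : (ch x p).re * (ch x p).re + (ch x p).im * (ch x p).im = 1 := by
      have := Complex.normSq_eq_norm_sq (ch x p)
      rw [h2, Complex.normSq_apply] at this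
      linarith
    unfold Yp
    rw [hr2, ← hr, ← Complex.normSq_eq_norm_sq, Complex.normSq_apply]
    simp only [Complex.sub_re, Complex.mul_re, Complex.ofReal_re, Complex.ofReal_im, Complex.sub_im, Complex.mul_im]
    have h4 : (r * (ch x p).re - 0 * (ch x p).im - r ^ 2) * (r * (ch x p).re - 0 * (ch x p).im - r ^ 2) +
        (r * (ch x p).im + 0 * (ch x p).re - 0) * (r * (ch x p).im + 0 * (ch x p).re - 0) =
        r ^ 2 * ((ch x p).re * (ch x p).re + (ch x p).im * (ch x p).im) + r ^ 4 - 2 * r ^ 3 * (ch x p).re := by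
      ring
    rw [h4, h3, mul_one]
  simp only [e1]
  have hre : ∫ x : Om, (ch x p).re ∂(nu 0 L) = r := by
    have h5 : ∫ x : Om, (ch x p).re ∂(nu 0 L) = (∫ x : Om, ch x p ∂(nu 0 L)).re := by
      have := integral_re (𝕜 := ℂ) (f := fun x : Om => ch x p) (μ := nu 0 L) (c0_integrable _ (continuous_ch p))
      simpa using this
    rw [h5, h1, Complex.ofReal_re]
  have i1 : Integrable (fun x : Om => 2 * r ^ 3 * (ch x p).re) (nu 0 L) :=
    c0_integrable _ (continuous_const.mul (Complex.continuous_re.comp (continuous_ch p)))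
  rw [integral_sub (integrable_const _) i1, integral_const_mul, hre, hr2]
  simp
  ring

theorem Yp_norm {p : ℕ} (hp : p.Prime) (x : Om) : ‖Yp p x‖ ≤ 2 * (Real.sqrt p)⁻¹ := by
  have h1 : (1 : ℝ) ≤ p := by exact_mod_cast hp.one_le
  have h2 : (p : ℝ)⁻¹ ≤ (Real.sqrt p)⁻¹ := by
    apply inv_anti₀ (by positivity)
    rw [Real.sqrt_le_left (by linarith)]
    nlinarith
  unfold Yp
  refine (norm_sub_le _ _).trans ?_
  rw [norm_mul, norm_ch, mul_one, Complex.norm_real, Complex.norm_real, Real.norm_of_nonneg (by positivity),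
    Real.norm_of_nonneg (by positivity)]
  linarith

/-- the mean of the window sum -/
noncomputable def vL (a b L : ℝ) : ℝ := ∑ p ∈ prm (Real.exp (a * L)) (Real.exp (b * L)), (p : ℝ)⁻¹

theorem DS_eq_Yp (S : Finset ℕ) (x : Om) : DS S (fun _ => 1) x = (∑ p ∈ S, Yp p x) + ((∑ p ∈ S, (p : ℝ)⁻¹ : ℝ) : ℂ) := by
  unfold DS Yp
  push_cast
  rw [← Finset.sum_add_distrib]
  refine Finset.sum_congr rfl fun p _ => ?_
  ring

/-- hypotheses of the recursion for one window -/
theorem steinData_window {a b δ V v : ℝ} (hδ : 0 < δ) (hδa : δ ≤ a) (hab : a < b) (hb1 : b ≤ 1) (hv : 0 ≤ v)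
    {L : ℝ} (hL : 1 ≤ L) (hη : 2 * Real.exp (-(δ * L / 2)) ≤ 1)
    (hmom : ∀ n : ℕ, ∫ x, ‖DS (prm (Real.exp (a * L)) (Real.exp (b * L))) (fun _ => 1) x‖ ^ (2 * n) ∂(nu 0 L) ≤
      n.factorial * V ^ n) (hvL : vL a b L ≤ v) :
    SteinData (nu 0 L) (prm (Real.exp (a * L)) (Real.exp (b * L))) Yp (2 * Real.exp (-(δ * L / 2))) v
      (fun n => 2 ^ (2 * n) * (n.factorial * V ^ n + v ^ (2 * n))) := by
  have hL0 : 0 < L := by linarith
  have hprm : ∀ p ∈ prm (Real.exp (a * L)) (Real.exp (b * L)), p.Prime ∧ (p : ℝ) ≤ Real.exp L ∧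
      Real.exp (δ * L) ≤ p := by
    intro p hp
    obtain ⟨h1, h2, h3⟩ := mem_prm.1 hp
    refine ⟨h1, h3.trans (Real.exp_le_exp.2 ?_), ?_⟩
    · have : b * L ≤ 1 * L := mul_le_mul_of_nonneg_right hb1 hL0.le
      linarith
    · exact (Real.exp_le_exp.2 (mul_le_mul_of_nonneg_right hδa hL0.le)).trans h2.le
  have hP := isProd_nu (adm_zero hL)
  have hprob := hP.prob
  refine ⟨hprob, fun p _ => continuous_Yp p, by positivity, hη, ?_, ?_, ?_, ?_, ?_, ?_⟩
  · intro p hp x
    obtain ⟨h1, -, h2⟩ := hprm p hp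
    refine (Yp_norm h1 x).trans ?_
    apply mul_le_mul_of_nonneg_left _ (by norm_num)
    rw [Real.exp_neg]
    apply inv_anti₀ (Real.exp_pos _)
    apply Real.le_sqrt_of_sq_le
    rw [← Real.exp_nat_mul]
    refine le_trans (le_of_eq ?_) h2
    congr 1
    push_cast
    ring
  · intro p hp
    exact Yp_mean hL (hprm p hp).1 (hprm p hp).2.1
  · intro p hp
    exact Yp_sq hL (hprm p hp).1 (hprm p hp).2.1
  · refine le_trans (Finset.sum_le_sum fun p hp => ?_) hvL
    rw [Yp_var hL (hprm p hp).1 (hprm p hp).2.1]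
    have : 0 ≤ ((p : ℝ)⁻¹) ^ 2 := by positivity
    linarith
  · intro n
    have hcD : Continuous (DS (prm (Real.exp (a * L)) (Real.exp (b * L))) (fun _ => 1)) := continuous_DS _ _
    have hcY : Continuous fun x => ∑ p ∈ prm (Real.exp (a * L)) (Real.exp (b * L)), Yp p x :=
      continuous_finsetSum _ fun p _ => continuous_Yp p
    have hv0 : 0 ≤ vL a b L := Finset.sum_nonneg fun p _ => by positivity
    have h1 : ∀ x, ‖∑ p ∈ prm (Real.exp (a * L)) (Real.exp (b * L)), Yp p x‖ ^ (2 * n) ≤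
        2 ^ (2 * n) * (‖DS (prm (Real.exp (a * L)) (Real.exp (b * L))) (fun _ => 1) x‖ ^ (2 * n) + v ^ (2 * n)) := by
      intro x
      have e1 : ∑ p ∈ prm (Real.exp (a * L)) (Real.exp (b * L)), Yp p x =
          DS (prm (Real.exp (a * L)) (Real.exp (b * L))) (fun _ => 1) x - ((vL a b L : ℝ) : ℂ) := by
        rw [DS_eq_Yp]
        unfold vL
        ring
      have e2 : ‖∑ p ∈ prm (Real.exp (a * L)) (Real.exp (b * L)), Yp p x‖ ≤
          2 * max ‖DS (prm (Real.exp (a * L)) (Real.exp (b * L))) (fun _ => 1) x‖ v := by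
        rw [e1]
        refine (norm_sub_le _ _).trans ?_
        rw [Complex.norm_real, Real.norm_of_nonneg hv0]
        have h3 := le_max_left ‖DS (prm (Real.exp (a * L)) (Real.exp (b * L))) (fun _ => 1) x‖ v
        have h4 := le_max_right ‖DS (prm (Real.exp (a * L)) (Real.exp (b * L))) (fun _ => 1) x‖ v
        linarith
      refine (pow_le_pow_left₀ (norm_nonneg _) e2 _).trans ?_
      rw [mul_pow]
      apply mul_le_mul_of_nonneg_left _ (by positivity)
      rcases le_total ‖DS (prm (Real.exp (a * L)) (Real.exp (b * L))) (fun _ => 1) x‖ v with h | h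
      · rw [max_eq_right h]
        have : 0 ≤ ‖DS (prm (Real.exp (a * L)) (Real.exp (b * L))) (fun _ => 1) x‖ ^ (2 * n) := by positivity
        linarith
      · rw [max_eq_left h]
        have : 0 ≤ v ^ (2 * n) := by positivity
        linarith
    have i1 : Integrable (fun x => ‖DS (prm (Real.exp (a * L)) (Real.exp (b * L))) (fun _ => 1) x‖ ^ (2 * n))
        (nu 0 L) := c0_integrable _ (hcD.norm.pow _)
    refine (integral_mono (c0_integrable _ (hcY.norm.pow _)) ((i1.add (integrable_const (v ^ (2 * n)))).const_mul _)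
      h1).trans ?_
    rw [integral_const_mul]
    apply mul_le_mul_of_nonneg_left _ (by positivity)
    have e3 : ∫ x, ((fun x : Om => ‖DS (prm (Real.exp (a * L)) (Real.exp (b * L))) (fun _ => 1) x‖ ^ (2 * n)) +
        (fun _ : Om => v ^ (2 * n)) : Om → ℝ) x ∂(nu 0 L) =
        (∫ x, ‖DS (prm (Real.exp (a * L)) (Real.exp (b * L))) (fun _ => 1) x‖ ^ (2 * n) ∂(nu 0 L)) + v ^ (2 * n) := by
      have := integral_add i1 (integrable_const (μ := nu 0 L) (v ^ (2 * n)))
      rw [integral_const] at this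
      simpa using this
    rw [e3]
    have := hmom n
    linarith
  · intro p hp f g hf hg
    refine hP.indepC (f := fun x => f (Yp p x))
      (g := fun x => g (∑ q ∈ (prm (Real.exp (a * L)) (Real.exp (b * L))).erase p, Yp q x)) (S := {p})
      (T := (((prm (Real.exp (a * L)) (Real.exp (b * L))).erase p : Finset ℕ) : Set ℕ)) (hf.comp (continuous_Yp p))
      (hg.comp (continuous_finsetSum _ fun q _ => continuous_Yp q)) ?_ ?_ ?_
    · intro x y hxy
      simp only
      rw [dependsOn_Yp (hprm p hp).1 hxy]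
    · intro x y hxy
      simp only
      congr 1
      refine Finset.sum_congr rfl fun q hq => ?_
      have hq' := hprm q (Finset.mem_of_mem_erase hq)
      exact dependsOn_Yp hq'.1 (fun t ht => by
        rw [Set.mem_singleton_iff] at ht
        subst ht
        exact hxy t (Finset.mem_coe.2 hq))
    · rw [Set.disjoint_singleton_left]
      intro h
      exact (Finset.notMem_erase p _) (Finset.mem_coe.1 h)

end Pool.Agent.LibTG78
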