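import Mathlib
import Pool.Agent.LibTG78.C1c

/-! # The window sums under the tilted measure: Gaussian limit -/

set_option autoImplicit false

namespace Pool.Agent.LibTG78

open MeasureTheory Filter Topology Pool.Agent.LibMM99
open scoped ComplexConjugate

/-- expansion of a shifted monomial -/
theorem c1b_expand (a b : ℕ) (u c : ℂ) : mn a b (u + c) =
    ∑ i ∈ Finset.range (a + 1), ∑ k ∈ Finset.range (b + 1),
      ((a.choose i : ℂ) * (b.choose k : ℂ) * c ^ (a - i) * conj c ^ (b - k)) * mn i k u := by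
  unfold mn
  rw [map_add, add_pow, add_pow, Finset.sum_mul_sum]
  refine Finset.sum_congr rfl fun i _ => Finset.sum_congr rfl fun k _ => ?_
  ring

/-- convergence of mixed moments is stable under convergent shifts -/
theorem c1b_shift {Ω' : Type} {mΩ' : MeasurableSpace Ω'} {P' : Measure Ω'} {W : Ω' → ℂ}
    (hW : ∀ a b : ℕ, Integrable (fun z => mn a b (W z)) P') {ν : ℝ → Measure Om} {T : ℝ → Om → ℂ}
    (hν : ∀ᶠ L in atTop, IsProbabilityMeasure (ν L)) (hT : ∀ L, Continuous (T L))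
    (h : ∀ a b : ℕ, Tendsto (fun L : ℝ => ∫ x, mn a b (T L x) ∂ν L) atTop (𝓝 (∫ z, mn a b (W z) ∂P')))
    {c : ℝ → ℂ} {c0 : ℂ} (hc : Tendsto c atTop (𝓝 c0)) (a b : ℕ) :
    Tendsto (fun L : ℝ => ∫ x, mn a b (T L x + c L) ∂ν L) atTop (𝓝 (∫ z, mn a b (W z + c0) ∂P')) := by
  have e1 : ∫ z, mn a b (W z + c0) ∂P' = ∑ i ∈ Finset.range (a + 1), ∑ k ∈ Finset.range (b + 1),
      ((a.choose i : ℂ) * (b.choose k : ℂ) * c0 ^ (a - i) * conj c0 ^ (b - k)) * ∫ z, mn i k (W z) ∂P' := by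
    simp only [c1b_expand]
    rw [integral_finsetSum _ fun i _ => integrable_finsetSum _ fun k _ => (hW i k).const_mul _]
    refine Finset.sum_congr rfl fun i _ => ?_
    rw [integral_finsetSum _ fun k _ => (hW i k).const_mul _]
    refine Finset.sum_congr rfl fun k _ => ?_
    rw [integral_const_mul]
  have e2 : ∀ᶠ L in atTop, ∫ x, mn a b (T L x + c L) ∂ν L =
      ∑ i ∈ Finset.range (a + 1), ∑ k ∈ Finset.range (b + 1),
      ((a.choose i : ℂ) * (b.choose k : ℂ) * c L ^ (a - i) * conj (c L) ^ (b - k)) * ∫ x, mn i k (T L x) ∂ν L := by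
    filter_upwards [hν] with L hL
    have hI : ∀ i k : ℕ, Integrable (fun x => mn i k (T L x)) (ν L) := fun i k =>
      c0_integrable _ ((continuous_mn i k).comp (hT L))
    simp only [c1b_expand]
    rw [integral_finsetSum _ fun i _ => integrable_finsetSum _ fun k _ => (hI i k).const_mul _]
    refine Finset.sum_congr rfl fun i _ => ?_
    rw [integral_finsetSum _ fun k _ => (hI i k).const_mul _]
    refine Finset.sum_congr rfl fun k _ => ?_
    rw [integral_const_mul]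
  rw [e1]
  refine Tendsto.congr' (e2.mono fun L hL => hL.symm) ?_
  refine tendsto_finsetSum _ fun i _ => tendsto_finsetSum _ fun k _ => ?_
  refine Tendsto.mul ?_ (h i k)
  exact ((tendsto_const_nhds.mul (hc.pow _))).mul ((((Complex.continuous_conj.tendsto _).comp hc)).pow _)

/-- moments of a scaled standard complex Gaussian -/
theorem c1b_gauss {v : ℝ} (hv : 0 ≤ v) (a b : ℕ) :
    Integrable (fun z : ℂ => mn a b (((Real.sqrt v : ℝ) : ℂ) * z)) gC ∧
    ∫ z, mn a b (((Real.sqrt v : ℝ) : ℂ) * z) ∂gC = if a = b then (a.factorial : ℂ) * ((v : ℝ) : ℂ) ^ a else 0 := by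
  have e1 : (fun z : ℂ => mn a b (((Real.sqrt v : ℝ) : ℂ) * z)) =
      fun z => ((Real.sqrt v : ℝ) : ℂ) ^ (a + b) * (z ^ a * conj z ^ b) := by
    funext z
    unfold mn
    rw [map_mul, Complex.conj_ofReal, mul_pow, mul_pow, pow_add]
    ring
  rw [e1]
  refine ⟨(integrable_gC a b).const_mul _, ?_⟩
  rw [integral_const_mul, moment_gC]
  by_cases h : a = b
  · subst h
    rw [if_pos rfl, if_pos rfl, ← two_mul, pow_mul, ← Complex.ofReal_pow, Real.sq_sqrt hv]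
    ring
  · rw [if_neg h, if_neg h, mul_zero]

theorem c1b_edge {δ : ℝ} (hδ : 0 < δ) (hδ1 : δ < 1) (M : ℕ) (j : Fin M) :
    δ ≤ δ + (1 - δ) * (j : ℕ) / M ∧ δ + (1 - δ) * (j : ℕ) / M < δ + (1 - δ) * ((j : ℕ) + 1) / M ∧
      δ + (1 - δ) * ((j : ℕ) + 1) / M ≤ 1 := by
  have hM : (0 : ℝ) < M := by
    have : 0 < M := lt_of_le_of_lt (Nat.zero_le _) j.2
    exact_mod_cast this
  have h1δ : 0 < 1 - δ := by linarith
  refine ⟨?_, ?_, ?_⟩
  · have : 0 ≤ (1 - δ) * (j : ℕ) / M := by positivity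
    linarith
  · have : (1 - δ) * (j : ℕ) / M < (1 - δ) * ((j : ℕ) + 1) / M := by
      gcongr
      linarith
    linarith
  · have h1 : (1 - δ) * ((j : ℕ) + 1) / M ≤ 1 - δ := by
      rw [div_le_iff₀ hM]
      apply mul_le_mul_of_nonneg_left _ h1δ.le
      have : (j : ℕ) + 1 ≤ M := j.2
      exact_mod_cast this
    linarith

/-- the mixed moments of one window sum -/
theorem window_moment_nu {δ : ℝ} (hδ : 0 < δ) (hδ1 : δ < 1) {M : ℕ} (j : Fin M) (α β : ℕ) :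
    Tendsto (fun L : ℝ => ∫ x, mn α β (GG δ M L j x) ∂(nu 0 L)) atTop
      (𝓝 (∫ z, mn α β (((vw δ M j : ℝ) : ℂ) + ((Real.sqrt (vw δ M j) : ℝ) : ℂ) * z) ∂gC)) := by
  obtain ⟨ha, hab, hb⟩ := c1b_edge hδ hδ1 M j
  set a : ℝ := δ + (1 - δ) * (j : ℕ) / M with hadef
  set b : ℝ := δ + (1 - δ) * ((j : ℕ) + 1) / M with hbdef
  have ha0 : 0 < a := by linarith
  have hGG : ∀ L : ℝ, GG δ M L j = DS (prm (Real.exp (a * L)) (Real.exp (b * L))) (fun _ => 1) := fun L => rfl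
  have hvw : vw δ M j = Real.log (b / a) := rfl
  obtain ⟨V, L0, hV, hmom⟩ := GG_moment_nu hδ hδ1
  have hwt : Tendsto (fun L : ℝ => vL a b L) atTop (𝓝 (Real.log (b / a))) := window_tendsto ha0 hab
  have hvpos : 0 ≤ Real.log (b / a) := by
    rw [← hvw]
    exact vw_nonneg hδ hδ1 M j
  have hηt : Tendsto (fun L : ℝ => 2 * Real.exp (-(δ * L / 2))) atTop (𝓝 0) := by
    have h1 : Tendsto (fun L : ℝ => δ / 2 * L) atTop atTop := tendsto_id.const_mul_atTop (by positivity)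
    have h2 := (Real.tendsto_exp_neg_atTop_nhds_zero.comp h1).const_mul 2
    rw [mul_zero] at h2
    refine h2.congr fun L => ?_
    simp only [Function.comp]
    congr 2
    ring
  -- Stein data eventually
  have hstein : ∀ᶠ L in atTop, SteinData (nu 0 L) (prm (Real.exp (a * L)) (Real.exp (b * L))) Yp
      (2 * Real.exp (-(δ * L / 2))) (Real.log (b / a) + 1)
      (fun n => 2 ^ (2 * n) * (n.factorial * V ^ n + (Real.log (b / a) + 1) ^ (2 * n))) := by
    filter_upwards [eventually_ge_atTop (1 : ℝ), eventually_ge_atTop L0,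
      hηt.eventually (ge_mem_nhds (by norm_num : (0 : ℝ) < 1)),
      hwt.eventually (ge_mem_nhds (by linarith : Real.log (b / a) < Real.log (b / a) + 1))] with L h1 h2 h3 h4
    refine steinData_window hδ ha hab hb (by linarith) h1 h3 (fun n => ?_) h4
    exact hmom 0 L (adm_zero h1) h2 M j n
  -- the variance
  have hvar : Tendsto (fun L : ℝ => ∑ p ∈ prm (Real.exp (a * L)) (Real.exp (b * L)), ∫ x, ‖Yp p x‖ ^ 2 ∂(nu 0 L))
      atTop (𝓝 (Real.log (b / a))) := by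
    have h1 : Tendsto (fun L : ℝ => Real.exp (-(a * L)) * vL a b L) atTop (𝓝 0) := by
      have h3 : Tendsto (fun L : ℝ => Real.exp (-(a * L))) atTop (𝓝 0) :=
        Real.tendsto_exp_neg_atTop_nhds_zero.comp (tendsto_id.const_mul_atTop ha0)
      have h4 := h3.mul hwt
      simpa using h4
    have h2 : Tendsto (fun L : ℝ => (∑ p ∈ prm (Real.exp (a * L)) (Real.exp (b * L)), ∫ x, ‖Yp p x‖ ^ 2 ∂(nu 0 L)) -
        vL a b L) atTop (𝓝 0) := by
      refine squeeze_zero_norm' ?_ h1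
      filter_upwards [eventually_ge_atTop (1 : ℝ)] with L hL
      have hL0 : 0 < L := by linarith
      unfold vL
      rw [← Finset.sum_sub_distrib]
      refine (norm_sum_le _ _).trans ?_
      rw [Finset.mul_sum]
      refine Finset.sum_le_sum fun p hp => ?_
      obtain ⟨h3, h4, h5⟩ := mem_prm.1 hp
      have h6 : (p : ℝ) ≤ Real.exp L := h5.trans (Real.exp_le_exp.2 (by
        have : b * L ≤ 1 * L := mul_le_mul_of_nonneg_right hb hL0.le
        linarith))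
      rw [Yp_var hL h3 h6]
      have h7 : (p : ℝ)⁻¹ - ((p : ℝ)⁻¹) ^ 2 - (p : ℝ)⁻¹ = -(((p : ℝ)⁻¹) ^ 2) := by ring
      rw [h7, norm_neg, Real.norm_of_nonneg (by positivity), sq]
      apply mul_le_mul_of_nonneg_right _ (by positivity)
      rw [Real.exp_neg]
      exact inv_anti₀ (Real.exp_pos _) h4.le
    have h3 := h2.add hwt
    rw [zero_add] at h3
    refine h3.congr fun L => ?_
    ring
  have hlim := fun a' b' : ℕ => stein_tendsto (Y := fun _ => Yp) hstein hηt hvar a' b'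
  have hprob : ∀ᶠ L in atTop, IsProbabilityMeasure (nu 0 L) := by
    filter_upwards [eventually_ge_atTop (1 : ℝ)] with L hL
    exact (isProd_nu (adm_zero hL)).prob
  have hfin := c1b_shift (P' := gC) (W := fun z => ((Real.sqrt (Real.log (b / a)) : ℝ) : ℂ) * z)
    (fun a' b' => (c1b_gauss hvpos a' b').1) hprob
    (T := fun L x => ∑ p ∈ prm (Real.exp (a * L)) (Real.exp (b * L)), Yp p x)
    (fun L => continuous_finsetSum _ fun p _ => continuous_Yp p)
    (fun a' b' => by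
      rw [(c1b_gauss hvpos a' b').2]
      exact hlim a' b')
    (c := fun L => ((vL a b L : ℝ) : ℂ)) ((Complex.continuous_ofReal.tendsto _).comp hwt) α β
  rw [hvw]
  have e1 : ∀ z : ℂ, ((Real.log (b / a) : ℝ) : ℂ) + ((Real.sqrt (Real.log (b / a)) : ℝ) : ℂ) * z =
      ((Real.sqrt (Real.log (b / a)) : ℝ) : ℂ) * z + ((Real.log (b / a) : ℝ) : ℂ) := fun z => add_comm _ _
  simp only [e1]
  refine hfin.congr fun L => ?_
  congr 1
  funext x
  rw [hGG, DS_eq_Yp]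
  rfl

private theorem c1b_dep_prm (u v : ℝ) (a : ℕ → ℂ) : DependsOn (DS (prm u v) a) (coo u v) := by
  intro x y hxy
  unfold DS
  refine Finset.sum_congr rfl fun n hn => ?_
  obtain ⟨h1, h2, h3⟩ := mem_prm.1 hn
  rw [ch_prime x h1, ch_prime y h1, hxy n ⟨h2, h3⟩]

private noncomputable def c1b_e (δ : ℝ) (M : ℕ) (L : ℝ) (i : ℕ) : ℝ := Real.exp ((δ + (1 - δ) * i / M) * L)

private theorem c1b_e_mono {δ : ℝ} (hδ1 : δ < 1) (M : ℕ) {L : ℝ} (hL : 0 ≤ L) {i j : ℕ}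
    (hij : i ≤ j) : c1b_e δ M L i ≤ c1b_e δ M L j := by
  unfold c1b_e
  apply Real.exp_le_exp.2
  apply mul_le_mul_of_nonneg_right _ hL
  have h1 : (i : ℝ) ≤ j := by exact_mod_cast hij
  have h2 : 0 ≤ 1 - δ := by linarith
  gcongr

private theorem c1b_dep_GG (δ : ℝ) (M : ℕ) (L : ℝ) (j : Fin M) :
    DependsOn (GG δ M L j) (coo (c1b_e δ M L j) (c1b_e δ M L ((j : ℕ) + 1))) := by
  have h := c1b_dep_prm (Real.exp ((δ + (1 - δ) * j / M) * L))
    (Real.exp ((δ + (1 - δ) * (j + 1) / M) * L)) (fun _ => 1)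
  unfold GG win c1b_e
  push_cast
  exact h

/-- the windows are independent -/
theorem c1b_prod {δ : ℝ} (hδ1 : δ < 1) {M : ℕ} (α β : Fin M → ℕ) {L : ℝ} (hL : 1 ≤ L)
    (s : Finset (Fin M)) :
    ∫ x, ∏ j ∈ s, mn (α j) (β j) (GG δ M L j x) ∂(nu 0 L) =
      ∏ j ∈ s, ∫ x, mn (α j) (β j) (GG δ M L j x) ∂(nu 0 L) := by
  classical
  have hP := isProd_nu (adm_zero hL)
  have hprob := hP.prob
  have hL0 : 0 ≤ L := by linarith
  have hcont : ∀ j : Fin M, Continuous fun x => mn (α j) (β j) (GG δ M L j x) := by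
    intro j
    have h1 : Continuous (GG δ M L j) := continuous_DS _ _
    exact (continuous_mn _ _).comp h1
  have hdep : ∀ j : Fin M, DependsOn (fun x => mn (α j) (β j) (GG δ M L j x))
      (coo (c1b_e δ M L j) (c1b_e δ M L ((j : ℕ) + 1))) := by
    intro j x y hxy
    simp only
    rw [c1b_dep_GG δ M L j hxy]
  induction s using Finset.induction_on with
  | empty => simp
  | insert a s ha ih =>
    have h1 : (fun x => ∏ j ∈ insert a s, mn (α j) (β j) (GG δ M L j x)) =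
        fun x => mn (α a) (β a) (GG δ M L a x) * ∏ j ∈ s, mn (α j) (β j) (GG δ M L j x) := by
      funext x
      rw [Finset.prod_insert ha]
    rw [h1, Finset.prod_insert ha, ← ih]
    refine hP.indepC (f := fun x => mn (α a) (β a) (GG δ M L a x))
      (g := fun x => ∏ j ∈ s, mn (α j) (β j) (GG δ M L j x)) (hcont a)
      (continuous_finsetProd _ fun j _ => hcont j) (hdep a)
      (T := ⋃ j ∈ s, coo (c1b_e δ M L j) (c1b_e δ M L ((j : ℕ) + 1))) ?_ ?_
    · intro x y hxy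
      refine Finset.prod_congr rfl fun j hj => ?_
      apply hdep j
      intro p hp
      exact hxy p (Set.mem_biUnion hj hp)
    · rw [Set.disjoint_iUnion₂_right]
      intro j hj
      have hne : (a : ℕ) ≠ j := by
        intro h
        have : a = j := Fin.ext h
        exact ha (this ▸ hj)
      rw [Set.disjoint_left]
      rintro p ⟨hp1, hp2⟩ ⟨hp3, hp4⟩
      rcases lt_or_gt_of_ne hne with h | h
      · have h' : c1b_e δ M L ((a : ℕ) + 1) ≤ c1b_e δ M L j := c1b_e_mono hδ1 M hL0 (Nat.succ_le_of_lt h)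
        linarith
      · have h' : c1b_e δ M L ((j : ℕ) + 1) ≤ c1b_e δ M L a := c1b_e_mono hδ1 M hL0 (Nat.succ_le_of_lt h)
        linarith

/-- the limit law of the window sums -/
noncomputable def Wj (δ : ℝ) (M : ℕ) (j : Fin M) (z : Fin M → ℂ) : ℂ :=
  ((vw δ M j : ℝ) : ℂ) + ((Real.sqrt (vw δ M j) : ℝ) : ℂ) * z j

theorem continuous_Wj (δ : ℝ) (M : ℕ) (j : Fin M) : Continuous (Wj δ M j) := by
  unfold Wj
  exact continuous_const.add (continuous_const.mul (continuous_apply j))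

theorem c1b_int1 {δ : ℝ} (hδ : 0 < δ) (hδ1 : δ < 1) {M : ℕ} (j : Fin M) (a b : ℕ) :
    Integrable (fun z : ℂ => mn a b (((vw δ M j : ℝ) : ℂ) + ((Real.sqrt (vw δ M j) : ℝ) : ℂ) * z)) gC := by
  have e1 : (fun z : ℂ => mn a b (((vw δ M j : ℝ) : ℂ) + ((Real.sqrt (vw δ M j) : ℝ) : ℂ) * z)) =
      fun z => ∑ i ∈ Finset.range (a + 1), ∑ k ∈ Finset.range (b + 1),
      ((a.choose i : ℂ) * (b.choose k : ℂ) * ((vw δ M j : ℝ) : ℂ) ^ (a - i) * conj ((vw δ M j : ℝ) : ℂ) ^ (b - k)) *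
        mn i k (((Real.sqrt (vw δ M j) : ℝ) : ℂ) * z) := by
    funext z
    rw [add_comm, c1b_expand]
  rw [e1]
  exact integrable_finsetSum _ fun i _ => integrable_finsetSum _ fun k _ =>
    ((c1b_gauss (vw_nonneg hδ hδ1 M j) i k).1).const_mul _

theorem c1b_Wint {δ : ℝ} (hδ : 0 < δ) (hδ1 : δ < 1) {M : ℕ} (α β : Fin M → ℕ) :
    Integrable (fun z : Fin M → ℂ => ∏ j, (Wj δ M j z ^ α j * conj (Wj δ M j z) ^ β j)) (gCM M) :=
  Integrable.fintype_prod (f := fun j (z : ℂ) =>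
    mn (α j) (β j) (((vw δ M j : ℝ) : ℂ) + ((Real.sqrt (vw δ M j) : ℝ) : ℂ) * z))
    (fun j => c1b_int1 hδ hδ1 j (α j) (β j))

theorem c1b_Wmom {δ : ℝ} {M : ℕ} (α β : Fin M → ℕ) :
    ∫ z : Fin M → ℂ, ∏ j, (Wj δ M j z ^ α j * conj (Wj δ M j z) ^ β j) ∂gCM M =
      ∏ j, ∫ z, mn (α j) (β j) (((vw δ M j : ℝ) : ℂ) + ((Real.sqrt (vw δ M j) : ℝ) : ℂ) * z) ∂gC := by
  have h := integral_fintype_prod_eq_prod (𝕜 := ℂ) (μ := fun _ : Fin M => gC)
    (fun j (z : ℂ) => mn (α j) (β j) (((vw δ M j : ℝ) : ℂ) + ((Real.sqrt (vw δ M j) : ℝ) : ℂ) * z))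
  rw [gCM]
  exact h

/-- the mixed moments of the window sums -/
theorem mixed_moment_nu {δ : ℝ} (hδ : 0 < δ) (hδ1 : δ < 1) {M : ℕ} (α β : Fin M → ℕ) :
    Tendsto (fun L : ℝ => ∫ x, ∏ j, (GG δ M L j x ^ α j * conj (GG δ M L j x) ^ β j) ∂(nu 0 L)) atTop
      (𝓝 (∫ z : Fin M → ℂ, ∏ j, (Wj δ M j z ^ α j * conj (Wj δ M j z) ^ β j) ∂gCM M)) := by
  rw [c1b_Wmom]
  have h2 : Tendsto (fun L : ℝ => ∏ j : Fin M, ∫ x, mn (α j) (β j) (GG δ M L j x) ∂(nu 0 L)) atTop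
      (𝓝 (∏ j, ∫ z, mn (α j) (β j) (((vw δ M j : ℝ) : ℂ) + ((Real.sqrt (vw δ M j) : ℝ) : ℂ) * z) ∂gC)) :=
    tendsto_finsetProd _ fun j _ => window_moment_nu hδ hδ1 j (α j) (β j)
  refine h2.congr' ?_
  filter_upwards [eventually_ge_atTop (1 : ℝ)] with L hL
  exact (c1b_prod hδ1 α β hL Finset.univ).symm

/-- a family of probability measures defined for all parameters -/
private noncomputable def nu' (L : ℝ) : Measure Om := nu 0 (max 1 L)

private theorem nu'_prob (L : ℝ) : IsProbabilityMeasure (nu' L) := (isProd_nu (adm_zero (le_max_left 1 L))).prob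

private theorem nu'_eq {L : ℝ} (hL : 1 ≤ L) : nu' L = nu 0 L := by
  unfold nu'
  rw [max_eq_right hL]

private theorem mixed' {δ : ℝ} (hδ : 0 < δ) (hδ1 : δ < 1) {M : ℕ} (α β : Fin M → ℕ) :
    Tendsto (fun L : ℝ => ∫ x, ∏ j, (GG δ M L j x ^ α j * conj (GG δ M L j x) ^ β j) ∂(nu' L)) atTop
      (𝓝 (∫ z : Fin M → ℂ, ∏ j, (Wj δ M j z ^ α j * conj (Wj δ M j z) ^ β j) ∂gCM M)) := by
  refine (mixed_moment_nu hδ hδ1 α β).congr' ?_
  filter_upwards [eventually_ge_atTop (1 : ℝ)] with L hL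
  rw [nu'_eq hL]

/-- C1: polynomial moments of the window sums under the tilted measure -/
theorem eval_tendsto_nu {δ : ℝ} (hδ : 0 < δ) (hδ1 : δ < 1) {M : ℕ}
    (P : MvPolynomial (Fin M ⊕ Fin M) ℂ) :
    Tendsto (fun L : ℝ => ∫ x,
      MvPolynomial.eval (Sum.elim (fun j => GG δ M L j x) (fun j => conj (GG δ M L j x))) P ∂(nu 0 L)) atTop
      (𝓝 (∫ z, MvPolynomial.eval
        (Sum.elim (fun j => ((vw δ M j : ℝ) : ℂ) + ((Real.sqrt (vw δ M j) : ℝ) : ℂ) * z j)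
          (fun j => conj (((vw δ M j : ℝ) : ℂ) + ((Real.sqrt (vw δ M j) : ℝ) : ℂ) * z j))) P ∂gCM M)) := by
  have h := c0_poly (gCM M) (fun j => Wj δ M j) (fun α β => c1b_Wint hδ hδ1 α β) nu' nu'_prob
    (fun L j => GG δ M L j) (fun L j => continuous_DS _ _) (fun α β => mixed' hδ hδ1 α β) P
  refine h.congr' ?_
  filter_upwards [eventually_ge_atTop (1 : ℝ)] with L hL
  rw [nu'_eq hL]

/-- moments of the limit law -/
theorem c1b_Wb {δ : ℝ} (hδ : 0 < δ) (hδ1 : δ < 1) : ∃ V : ℝ, 0 ≤ V ∧ ∀ (M : ℕ) (j : Fin M) (s : ℕ),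
    Integrable (fun z : Fin M → ℂ => ‖Wj δ M j z‖ ^ (2 * s)) (gCM M) ∧
    ∫ z, ‖Wj δ M j z‖ ^ (2 * s) ∂gCM M ≤ (s.factorial : ℝ) * V ^ s := by
  set v0 : ℝ := Real.log (1 / δ) with hv0def
  have hv0 : 0 ≤ v0 := Real.log_nonneg (one_le_one_div hδ hδ1.le)
  refine ⟨4 * (v0 ^ 2 + v0), by positivity, fun M j s => ?_⟩
  have hv := vw_nonneg hδ hδ1 M j
  have hvle : vw δ M j ≤ v0 := vw_le hδ hδ1 M j
  have h1 : ∀ z : Fin M → ℂ, ‖Wj δ M j z‖ ^ (2 * s) ≤ 4 ^ s * ((v0 ^ 2) ^ s + v0 ^ s * ‖z j‖ ^ (2 * s)) := by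
    intro z
    have e1 : ‖Wj δ M j z‖ ≤ v0 + Real.sqrt v0 * ‖z j‖ := by
      unfold Wj
      refine (norm_add_le _ _).trans ?_
      rw [norm_mul, Complex.norm_real, Complex.norm_real, Real.norm_of_nonneg hv,
        Real.norm_of_nonneg (Real.sqrt_nonneg _)]
      have := Real.sqrt_le_sqrt hvle
      gcongr
    have e2 : ‖Wj δ M j z‖ ^ 2 ≤ 4 * max (v0 ^ 2) (v0 * ‖z j‖ ^ 2) := by
      have e3 : (v0 + Real.sqrt v0 * ‖z j‖) ^ 2 ≤ 2 * (v0 ^ 2 + v0 * ‖z j‖ ^ 2) := by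
        have e4 : (Real.sqrt v0) ^ 2 = v0 := Real.sq_sqrt hv0
        have e5 : v0 * ‖z j‖ ^ 2 = (Real.sqrt v0 * ‖z j‖) ^ 2 := by rw [mul_pow, e4]
        rw [e5]
        nlinarith [sq_nonneg (v0 - Real.sqrt v0 * ‖z j‖)]
      have e6 := pow_le_pow_left₀ (norm_nonneg _) e1 2
      have e7 := le_max_left (v0 ^ 2) (v0 * ‖z j‖ ^ 2)
      have e8 := le_max_right (v0 ^ 2) (v0 * ‖z j‖ ^ 2)
      linarith
    have e9 : (max (v0 ^ 2) (v0 * ‖z j‖ ^ 2)) ^ s ≤ (v0 ^ 2) ^ s + v0 ^ s * ‖z j‖ ^ (2 * s) := by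
      rcases le_total (v0 ^ 2) (v0 * ‖z j‖ ^ 2) with h | h
      · rw [max_eq_right h, mul_pow, ← pow_mul]
        have : 0 ≤ (v0 ^ 2) ^ s := by positivity
        linarith
      · rw [max_eq_left h]
        have : 0 ≤ v0 ^ s * ‖z j‖ ^ (2 * s) := by positivity
        linarith
    calc ‖Wj δ M j z‖ ^ (2 * s) = (‖Wj δ M j z‖ ^ 2) ^ s := by rw [pow_mul]
      _ ≤ (4 * max (v0 ^ 2) (v0 * ‖z j‖ ^ 2)) ^ s := pow_le_pow_left₀ (by positivity) e2 s
      _ = 4 ^ s * (max (v0 ^ 2) (v0 * ‖z j‖ ^ 2)) ^ s := mul_pow _ _ _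
      _ ≤ _ := mul_le_mul_of_nonneg_left e9 (by positivity)
  have i1 : Integrable (fun z : Fin M → ℂ => (4 : ℝ) ^ s * ((v0 ^ 2) ^ s + v0 ^ s * ‖z j‖ ^ (2 * s))) (gCM M) :=
    ((integrable_const _).add ((integrable_norm_gCM j (2 * s)).const_mul _)).const_mul _
  have hm : AEStronglyMeasurable (fun z : Fin M → ℂ => ‖Wj δ M j z‖ ^ (2 * s)) (gCM M) :=
    ((continuous_Wj δ M j).norm.pow _).aestronglyMeasurable
  have i2 : Integrable (fun z : Fin M → ℂ => ‖Wj δ M j z‖ ^ (2 * s)) (gCM M) := by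
    refine Integrable.mono' i1 hm (Eventually.of_forall fun z => ?_)
    rw [Real.norm_of_nonneg (by positivity)]
    exact h1 z
  refine ⟨i2, ?_⟩
  rcases Nat.eq_zero_or_pos s with hs | hs
  · subst hs
    simp
  refine (integral_mono i2 i1 h1).trans ?_
  have i3 : Integrable (fun z : Fin M → ℂ => v0 ^ s * ‖z j‖ ^ (2 * s)) (gCM M) :=
    (integrable_norm_gCM j (2 * s)).const_mul _
  rw [integral_const_mul, integral_add (integrable_const _) i3, integral_const_mul, abs_moment_gCM]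
  have e10 : ∫ _z : Fin M → ℂ, (v0 ^ 2) ^ s ∂gCM M = (v0 ^ 2) ^ s := by simp
  rw [e10]
  have hf : (1 : ℝ) ≤ s.factorial := by exact_mod_cast Nat.one_le_iff_ne_zero.2 s.factorial_ne_zero
  have e11 : (v0 ^ 2) ^ s + v0 ^ s ≤ (v0 ^ 2 + v0) ^ s := pow_add_pow_le (by positivity) hv0 hs.ne'
  calc (4 : ℝ) ^ s * ((v0 ^ 2) ^ s + v0 ^ s * s.factorial) ≤
      4 ^ s * (s.factorial * ((v0 ^ 2) ^ s + v0 ^ s)) := by
        apply mul_le_mul_of_nonneg_left _ (by positivity)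
        have h5 : 0 ≤ (v0 ^ 2) ^ s := by positivity
        nlinarith
    _ ≤ 4 ^ s * (s.factorial * (v0 ^ 2 + v0) ^ s) := by gcongr
    _ = s.factorial * (4 * (v0 ^ 2 + v0)) ^ s := by rw [mul_pow]; ring

theorem gauss_nu {β : ℝ} (hβ : 0 < β) {δ : ℝ} (hδ : 0 < δ) (hδ1 : δ < 1) (w : ℝ → ℂ) (M : ℕ) :
    Tendsto (fun L : ℝ => ∫ x, ‖MvPolynomial.eval (fun j => GG δ M L j x) (Qw w δ M)‖ ^ β ∂(nu 0 L)) atTop
      (𝓝 (gaussT β w δ M)) := by
  obtain ⟨V1, hV1, hW⟩ := c1b_Wb hδ hδ1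
  obtain ⟨V2, L0, hV2, hmom⟩ := GG_moment_nu hδ hδ1
  have hV : 0 ≤ max V1 V2 := le_max_of_le_left hV1
  have h := moment_method_gen (Qw w δ M) hβ hV (gCM M) (fun j => Wj δ M j)
    (fun j => (continuous_Wj δ M j).aestronglyMeasurable) (fun j s => (hW M j s).1)
    (fun j s => (hW M j s).2.trans (by
      apply mul_le_mul_of_nonneg_left _ (Nat.cast_nonneg _)
      exact pow_le_pow_left₀ hV1 (le_max_left _ _) s))
    (fun α β => c1b_Wint hδ hδ1 α β) nu' nu'_prob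
    (fun L j => GG δ M L j) (fun L j => continuous_DS _ _) (L0 := max 1 L0)
    (fun L hL j s => by
      rw [nu'_eq ((le_max_left _ _).trans hL)]
      refine (hmom 0 L (adm_zero ((le_max_left _ _).trans hL)) ((le_max_right _ _).trans hL) M j s).trans ?_
      apply mul_le_mul_of_nonneg_left _ (Nat.cast_nonneg _)
      exact pow_le_pow_left₀ hV2 (le_max_right _ _) s)
    (fun α β => mixed' hδ hδ1 α β)
  unfold gaussT
  refine h.congr' ?_
  filter_upwards [eventually_ge_atTop (1 : ℝ)] with L hL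
  rw [nu'_eq hL]

end Pool.Agent.LibTG78
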