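import Mathlib
import Pool.Agent.LibTG78.BAll
import Pool.Agent.LibTG78.A3
import Pool.Agent.LibTG78.A1m
import Pool.Agent.LibTG78.C1b

/-! # Limit of the top part under the tilted measure -/

set_option autoImplicit false

namespace Pool.Agent.LibTG78

open MeasureTheory Filter Topology Pool.Agent.LibMM99
open scoped ComplexConjugate

theorem c2_close {β : ℝ} (hβ : 0 < β) {δ : ℝ} (hδ : 0 < δ) (hδ1 : δ < 1) {w : ℝ → ℂ} {Λ : ℝ}
    (hw : IsWeight w Λ) {ε : ℝ} (hε : 0 < ε) : ∃ M0 : ℕ, ∀ M : ℕ, M0 ≤ M → ∃ L0 : ℝ, ∀ L : ℝ, L0 ≤ L →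
    |∫ x, ‖Atop w δ L x‖ ^ β ∂(nu 0 L) -
      ∫ x, ‖MvPolynomial.eval (fun j => GG δ M L j x) (Qw w δ M)‖ ^ β ∂(nu 0 L)| ≤ ε := by
  set s : ℕ := ⌈β⌉₊ with hs
  have hks : β ≤ s := Nat.le_ceil β
  obtain ⟨C1, hC1, h1⟩ := rpow_sub_le hβ hks
  obtain ⟨Cw, h2⟩ := window_approx_nu hδ hδ1 hw
  obtain ⟨CA, LA, hCA, h3⟩ := top_moment_nu hδ hδ1.le Λ s
  set W : ℝ := 1 + CA + |Cw s| with hW
  have hW0 : 0 < W := by positivity
  set ρ : ℝ := min 1 (ε / (2 * C1 * W)) with hρ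
  have hρ0 : 0 < ρ := lt_min one_pos (by positivity)
  have hρ1 : ρ ≤ 1 := min_le_left _ _
  have hρ2 : C1 * ρ * W ≤ ε / 2 := by
    have : ρ ≤ ε / (2 * C1 * W) := min_le_right _ _
    calc C1 * ρ * W ≤ C1 * (ε / (2 * C1 * W)) * W := by gcongr
      _ = ε / 2 := by field_simp
  obtain ⟨D, hD, h4⟩ := h1 ρ hρ0 hρ1
  obtain ⟨M0, hM01, hM0⟩ := h2 (ε / (2 * D)) (by positivity)
  refine ⟨M0, fun M hM => ?_⟩
  obtain ⟨LQ, hLQ⟩ := hM0 M hM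
  refine ⟨max 1 (max LA LQ), fun L hL => ?_⟩
  have hL1 : 1 ≤ L := le_trans (le_max_left _ _) hL
  have hLA : LA ≤ L := le_trans ((le_max_left _ _).trans (le_max_right _ _)) hL
  have hLQ' : LQ ≤ L := le_trans ((le_max_right _ _).trans (le_max_right _ _)) hL
  have hadm : Adm 0 L := adm_zero hL1
  have hprob : IsProbabilityMeasure (nu 0 L) := (isProd_nu hadm).prob
  obtain ⟨h11, h12⟩ := hLQ 0 L hadm hLQ'
  set A : Om → ℂ := Atop w δ L with hA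
  set B : Om → ℂ := fun x => MvPolynomial.eval (fun j => GG δ M L j x) (Qw w δ M) with hB
  have hAc : Continuous A := continuous_DS _ _
  have hBc : Continuous B := k6_cont L _
  have iA : Integrable (fun x => ‖A x‖ ^ β) (nu 0 L) :=
    c0_integrable _ (hAc.norm.rpow_const fun _ => Or.inr hβ.le)
  have iB : Integrable (fun x => ‖B x‖ ^ β) (nu 0 L) :=
    c0_integrable _ (hBc.norm.rpow_const fun _ => Or.inr hβ.le)
  have i1 : Integrable (fun x => ‖A x - B x‖ ^ 2) (nu 0 L) := c0_integrable _ (by fun_prop)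
  have i2 : Integrable (fun x => ‖A x‖ ^ (2 * s)) (nu 0 L) := c0_integrable _ (by fun_prop)
  have i3 : Integrable (fun x => ‖B x‖ ^ (2 * s)) (nu 0 L) := c0_integrable _ (by fun_prop)
  have i5 : Integrable (fun x => D * ‖A x - B x‖ ^ 2) (nu 0 L) := i1.const_mul D
  have i6 : Integrable (fun x => 1 + ‖A x‖ ^ (2 * s)) (nu 0 L) := (integrable_const 1).add i2
  have i7 : Integrable (fun x => 1 + ‖A x‖ ^ (2 * s) + ‖B x‖ ^ (2 * s)) (nu 0 L) := i6.add i3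
  have i8 : Integrable (fun x => C1 * ρ * (1 + ‖A x‖ ^ (2 * s) + ‖B x‖ ^ (2 * s))) (nu 0 L) :=
    i7.const_mul _
  have i9 : Integrable (fun x => D * ‖A x - B x‖ ^ 2 + C1 * ρ * (1 + ‖A x‖ ^ (2 * s) + ‖B x‖ ^ (2 * s)))
      (nu 0 L) := i5.add i8
  have e1 : ∫ x, (D * ‖A x - B x‖ ^ 2 + C1 * ρ * (1 + ‖A x‖ ^ (2 * s) + ‖B x‖ ^ (2 * s))) ∂(nu 0 L) =
      D * ∫ x, ‖A x - B x‖ ^ 2 ∂(nu 0 L) +
        C1 * ρ * (1 + (∫ x, ‖A x‖ ^ (2 * s) ∂(nu 0 L)) + ∫ x, ‖B x‖ ^ (2 * s) ∂(nu 0 L)) := by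
    rw [integral_add i5 i8, integral_const_mul, integral_const_mul, integral_add i6 i3,
      integral_add (integrable_const 1) i2]
    simp
  have e2 : D * ∫ x, ‖A x - B x‖ ^ 2 ∂(nu 0 L) ≤ ε / 2 := by
    calc D * ∫ x, ‖A x - B x‖ ^ 2 ∂(nu 0 L) ≤ D * (ε / (2 * D)) := by gcongr
      _ = ε / 2 := by field_simp
  have e3 : C1 * ρ * (1 + (∫ x, ‖A x‖ ^ (2 * s) ∂(nu 0 L)) + ∫ x, ‖B x‖ ^ (2 * s) ∂(nu 0 L)) ≤
      ε / 2 := by
    refine le_trans ?_ hρ2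
    have h17 := h3 w hw 0 L hadm hLA
    have h18 := h12 s
    have h19 := le_abs_self (Cw s)
    apply mul_le_mul_of_nonneg_left _ (by positivity)
    rw [hW]
    linarith
  calc |∫ x, ‖A x‖ ^ β ∂(nu 0 L) - ∫ x, ‖B x‖ ^ β ∂(nu 0 L)|
      = |∫ x, (‖A x‖ ^ β - ‖B x‖ ^ β) ∂(nu 0 L)| := by rw [integral_sub iA iB]
    _ ≤ ∫ x, |‖A x‖ ^ β - ‖B x‖ ^ β| ∂(nu 0 L) := abs_integral_le_integral_abs
    _ ≤ ∫ x, (D * ‖A x - B x‖ ^ 2 + C1 * ρ * (1 + ‖A x‖ ^ (2 * s) + ‖B x‖ ^ (2 * s))) ∂(nu 0 L) :=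
        integral_mono (iA.sub iB).abs i9 fun x => h4 (A x) (B x)
    _ ≤ ε := by rw [e1]; linarith

/-- limit of the top part. Adaptation of `k6_close`, `top_limit` in LibMM99/K6.lean: `k6_double` is generic; `k6_gauss` is
replaced by `gauss_nu` (C1b); `window_approx_all`, `top_moment` by `window_approx_nu`, `top_moment_nu` (IfaceC) with `s = 0`
(`adm_zero`); integrability of continuous functions under `nu 0 L`, `1 ≤ L`: `(isProd_nu (adm_zero hL)).prob` and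
`c0_integrable`. -/
theorem top_limit_nu {β : ℝ} (hβ : 0 < β) {δ : ℝ} (hδ : 0 < δ) (hδ1 : δ < 1) {w : ℝ → ℂ} {Λ : ℝ}
    (hw : IsWeight w Λ) :
    ∃ l : ℝ, Tendsto (fun L : ℝ => ∫ x, ‖Atop w δ L x‖ ^ β ∂(nu 0 L)) atTop (𝓝 l) ∧
      Tendsto (fun M : ℕ => gaussT β w δ M) atTop (𝓝 l) := by
  apply k6_double
  intro ε hε
  obtain ⟨M0, hM0⟩ := c2_close hβ hδ hδ1 hw (ε := ε / 2) (by positivity)
  refine ⟨M0, fun M hM => ?_⟩
  obtain ⟨L0, hL0⟩ := hM0 M hM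
  obtain ⟨L1, hL1⟩ := (Metric.tendsto_atTop.1 (gauss_nu hβ hδ hδ1 w M)) (ε / 2) (by positivity)
  refine ⟨max L0 L1, fun L hL => ?_⟩
  have h1 := hL0 L (le_trans (le_max_left _ _) hL)
  have h2 := hL1 L (le_trans (le_max_right _ _) hL)
  rw [Real.dist_eq] at h2
  rw [abs_le] at h1 ⊢
  rw [abs_lt] at h2
  constructor
  · linarith [h1.1, h1.2, h2.1, h2.2]
  · linarith [h1.1, h1.2, h2.1, h2.2]

end Pool.Agent.LibTG78
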