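import Mathlib
import Pool.Agent.LibTG78.Defs
import Pool.Agent.LibMM99.K7

/-! # The constant of the low part -/

set_option autoImplicit false

namespace Pool.Agent.LibTG78

open MeasureTheory Filter Topology Pool.Agent.LibMM99
open scoped ComplexConjugate

theorem norm_zp_zero {p : ℕ} (hp : p.Prime) : ‖zp 0 p‖ ^ 2 = (p : ℝ)⁻¹ := by
  have hp0 : (0 : ℝ) < p := by exact_mod_cast hp.pos
  unfold zp
  rw [Complex.norm_natCast_cpow_of_pos hp.pos]
  have h1 : (-(1 / 2 : ℂ) - 0).re = -(1 / 2) := by norm_num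
  rw [h1, ← Real.rpow_natCast, ← Real.rpow_mul hp0.le]
  have h2 : -(1 / 2 : ℝ) * ((2 : ℕ) : ℝ) = -1 := by norm_num
  rw [h2, Real.rpow_neg_one]

theorem c3_prm (t : ℝ) : prm 1 t = (Finset.range (⌊t⌋₊ + 1)).filter Nat.Prime := by
  ext p
  rw [t12_mem_prm, Finset.mem_filter, Finset.mem_range]
  constructor
  · rintro ⟨h1, -, h3⟩
    exact ⟨Nat.lt_succ_of_le ((Nat.le_floor_iff' h1.ne_zero).2 h3), h1⟩
  · rintro ⟨h1, h2⟩
    refine ⟨h2, by exact_mod_cast h2.one_lt, ?_⟩
    exact (Nat.le_floor_iff' h2.ne_zero).1 (Nat.lt_succ_iff.1 h1)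

theorem c3_nz (t : ℝ) : nz 0 1 t =
    ∏ p ∈ (Finset.range (⌊t⌋₊ + 1)).filter Nat.Prime, (1 - 1 / (p : ℝ)) := by
  unfold nz
  rw [c3_prm]
  refine Finset.prod_congr rfl fun p hp => ?_
  rw [norm_zp_zero (Finset.mem_filter.1 hp).2, one_div]

/-- `nz 0 1 t = ∏_{p ≤ t} (1 - 1/p)`, Mertens: `LibMaier.mertens_third` and `t12_log_floor` (see LibMM99/K7.lean) -/
theorem nz_limit : Tendsto (fun t : ℝ => nz 0 1 t * Real.log t) atTop
    (𝓝 (Real.exp (-Real.eulerMascheroniConstant))) := by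
  have h2 := LibMaier.mertens_third.comp (tendsto_nat_floor_atTop (α := ℝ))
  have h3 := h2.div t12_log_floor one_ne_zero
  rw [div_one] at h3
  refine h3.congr' ?_
  filter_upwards [eventually_ge_atTop 2] with t ht
  have hlog : 0 < Real.log t := Real.log_pos (by linarith)
  have h1 : (2 : ℝ) ≤ ⌊t⌋₊ := by
    have : 2 ≤ ⌊t⌋₊ := Nat.le_floor (by push_cast; linarith)
    exact_mod_cast this
  have hlog2 : 0 < Real.log (⌊t⌋₊ : ℝ) := Real.log_pos (by linarith)
  simp only [Function.comp, Pi.div_apply]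
  rw [c3_nz, div_div_eq_mul_div, mul_div_assoc, mul_assoc, mul_div_cancel₀ _ hlog2.ne']

/-- the constant of the low part: `PS_limit` of LibMM99/K7.lean for `k = β + 2` times `nz_limit`; `gam β + 1 = (β+2)^2/4` -/
theorem PSnz_limit {β : ℝ} (hβ : 0 < β) :
    Tendsto (fun t : ℝ => PS (β + 2) 1 t * nz 0 1 t / (Real.log t) ^ gam β) atTop
      (𝓝 (Real.exp (Real.eulerMascheroniConstant * gam β) * LibZM.Aconst ((β + 2) / 2))) := by
  have hk : 0 < β + 2 := by linarith
  have hg : (β + 2) ^ 2 / 4 = gam β + 1 := by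
    unfold gam
    ring
  have h1 := (PS_limit hk).mul nz_limit
  rw [hg] at h1
  have hval : Real.exp (Real.eulerMascheroniConstant * (gam β + 1)) * LibZM.Aconst ((β + 2) / 2) *
      Real.exp (-Real.eulerMascheroniConstant) =
      Real.exp (Real.eulerMascheroniConstant * gam β) * LibZM.Aconst ((β + 2) / 2) := by
    rw [mul_right_comm, ← Real.exp_add]
    congr 2
    ring
  rw [hval] at h1
  refine h1.congr' ?_
  filter_upwards [eventually_ge_atTop 2] with t ht
  have hlog : 0 < Real.log t := Real.log_pos (by linarith)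
  rw [Real.rpow_add_one hlog.ne']
  have h2 : 0 < Real.log t ^ gam β := Real.rpow_pos_of_pos hlog _
  field_simp

end Pool.Agent.LibTG78
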