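import Mathlib
import Pool.Agent.LibTG78.BAll
import Pool.Agent.LibTG78.A3
import Pool.Agent.LibTG78.A1m
import Pool.Agent.LibTG78.C3
import Pool.Agent.LibTG78.C0

/-! # The formula for the limit -/

set_option autoImplicit false

namespace Pool.Agent.LibTG78

open MeasureTheory Filter Topology Pool.Agent.LibMM99
open scoped ComplexConjugate

private theorem c4_small {W η c : ℝ} (hW : 0 < W) (hη : 0 < η) (hc : 0 < c) :
    ∃ ρ : ℝ, 0 < ρ ∧ ρ ≤ 1 ∧ ρ * W ≤ η / c := by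
  refine ⟨min 1 (η / (c * W)), lt_min one_pos (by positivity), min_le_left _ _, ?_⟩
  calc min 1 (η / (c * W)) * W ≤ (η / (c * W)) * W := mul_le_mul_of_nonneg_right (min_le_right _ _) hW.le
    _ = η / c := by field_simp

private theorem c4_K (Ka Kb KR d : ℝ) {C l ε : ℝ} (hε : 0 < ε) :
    ∃ K : ℝ, Ka ≤ K ∧ Kb ≤ K ∧ KR ≤ K ∧ d ≤ K ∧ C * Real.exp (-K / 20) * (|l| + 1) ≤ ε / 8 := by
  have h1 : Tendsto (fun K : ℝ => Real.exp (-K / 20)) atTop (𝓝 0) := by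
    have : (fun K : ℝ => Real.exp (-K / 20)) = fun K => Real.exp (-(K / 20)) := by
      funext K; rw [neg_div]
    rw [this]
    exact Real.tendsto_exp_neg_atTop_nhds_zero.comp (tendsto_id.atTop_div_const (by norm_num))
  have h3 : Tendsto (fun K : ℝ => C * Real.exp (-K / 20) * (|l| + 1)) atTop
      (𝓝 (C * 0 * (|l| + 1))) := (h1.const_mul _).mul_const _
  rw [mul_zero, zero_mul] at h3
  have h5 := h3.eventually (gt_mem_nhds (show (0 : ℝ) < ε / 8 by positivity))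
  obtain ⟨K, h7, h8, h9, h10, h11⟩ := (h5.and ((eventually_ge_atTop Ka).and ((eventually_ge_atTop Kb).and
    ((eventually_ge_atTop KR).and (eventually_ge_atTop d))))).exists
  exact ⟨K, h8, h9, h10, h11, h7.le⟩

private theorem c4_exp {g q δ L : ℝ} (hδ : 0 < δ) (hL : 0 < L) (t : ℝ) :
    (δ * L) ^ g * (L / L) ^ t * (L / (δ * L)) ^ q = δ ^ (g - q) * L ^ g := by
  rw [div_self hL.ne', Real.one_rpow, mul_one]
  have h1 : L / (δ * L) = δ⁻¹ := by field_simp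
  rw [h1, Real.mul_rpow hδ.le hL.le, Real.inv_rpow hδ.le, ← Real.rpow_neg hδ.le]
  have h2 : δ ^ g * L ^ g * δ ^ (-q) = (δ ^ g * δ ^ (-q)) * L ^ g := by ring
  rw [h2, ← Real.rpow_add hδ]
  congr 2

private theorem c4_int {k : ℝ} (ν : Measure Om) [IsFiniteMeasure ν] (hk : 0 < k) {f : Om → ℂ} (cf : Continuous f) :
    Integrable (fun x => ‖f x‖ ^ k) ν := c0_integrable ν
  ((continuous_norm.comp cf).rpow_const fun _ => Or.inr hk.le)

/-- removing the remainder -/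
private theorem c4_diff {k : ℝ} (ν : Measure Om) [IsFiniteMeasure ν] (hk : 0 < k) {A F R S : Om → ℂ} {Z : Om → ℝ} (cA : Continuous A)
    (cF : Continuous F) (cR : Continuous R) (cS : Continuous S) (cZ : Continuous Z)
    (tele : ∀ x, S x = F x * A x - R x) (apR : ∀ x, ‖R x‖ ^ k ≤ Z x) {Cap CR g N ε η Cη : ℝ} (hCR : 0 ≤ CR)
    (hg1 : g ≤ 1) (hN : 0 < N) (hη : 0 ≤ η) (hCη : 0 ≤ Cη) (hη2 : η * (2 ^ k * (Cap + CR)) ≤ ε / 8)
    (hg : Cη * CR * g ≤ ε / 8)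
    (hpd : ∀ a b : ℂ, |‖a + b‖ ^ k - ‖a‖ ^ k| ≤ η * ‖a‖ ^ k + Cη * ‖b‖ ^ k)
    (iS : ∫ x, ‖S x‖ ^ k ∂ν ≤ Cap * N) (iZ : ∫ x, Z x ∂ν ≤ CR * g * N) :
    |(∫ x, ‖S x‖ ^ k ∂ν) - ∫ x, ‖F x * A x‖ ^ k ∂ν| ≤ ε / 4 * N := by
  have jS := c4_int ν hk cS
  have jR := c4_int ν hk cR
  have jFA : Integrable (fun x => ‖F x * A x‖ ^ k) ν := c4_int ν hk (cF.mul cA)
  have jZ : Integrable Z ν := c0_integrable ν cZ
  have iR2 : ∫ x, ‖R x‖ ^ k ∂ν ≤ CR * g * N := (integral_mono jR jZ apR).trans iZ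
  have iR3 : ∫ x, ‖R x‖ ^ k ∂ν ≤ CR * N := by
    have h1 : CR * g ≤ CR := mul_le_of_le_one_right hCR hg1
    exact iR2.trans (mul_le_mul_of_nonneg_right h1 hN.le)
  have h2 : (0 : ℝ) ≤ 2 ^ k := by positivity
  have iFA : ∫ x, ‖F x * A x‖ ^ k ∂ν ≤ 2 ^ k * (Cap + CR) * N := by
    have e1 : ∀ x, ‖F x * A x‖ ^ k ≤ 2 ^ k * (‖S x‖ ^ k + ‖R x‖ ^ k) := by
      intro x
      have e2 : F x * A x = S x + R x := by rw [tele x]; ring
      rw [e2]
      exact norm_add_rpow_le hk _ _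
    calc ∫ x, ‖F x * A x‖ ^ k ∂ν ≤ ∫ x, 2 ^ k * (‖S x‖ ^ k + ‖R x‖ ^ k) ∂ν :=
          integral_mono jFA ((jS.add jR).const_mul _) e1
      _ = 2 ^ k * ((∫ x, ‖S x‖ ^ k ∂ν) + ∫ x, ‖R x‖ ^ k ∂ν) := by
          rw [integral_const_mul, integral_add jS jR]
      _ ≤ 2 ^ k * (Cap * N + CR * N) := mul_le_mul_of_nonneg_left (add_le_add iS iR3) h2
      _ = 2 ^ k * (Cap + CR) * N := by ring
  rw [← integral_sub jS jFA]
  have e1 : ∫ x, |‖S x‖ ^ k - ‖F x * A x‖ ^ k| ∂ν ≤ ∫ x, (η * ‖F x * A x‖ ^ k + Cη * ‖R x‖ ^ k) ∂ν := by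
    refine integral_mono (jS.sub jFA).abs ((jFA.const_mul _).add (jR.const_mul _)) ?_
    intro x
    have e2 := hpd (F x * A x) (-R x)
    have e3 : F x * A x + -R x = S x := by rw [tele x]; ring
    rw [e3, norm_neg] at e2
    exact e2
  refine (abs_integral_le_integral_abs).trans (e1.trans ?_)
  rw [integral_add (jFA.const_mul _) (jR.const_mul _), integral_const_mul, integral_const_mul]
  have e4 : η * ∫ x, ‖F x * A x‖ ^ k ∂ν ≤ ε / 8 * N := by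
    calc η * ∫ x, ‖F x * A x‖ ^ k ∂ν ≤ η * (2 ^ k * (Cap + CR) * N) := mul_le_mul_of_nonneg_left iFA hη
      _ = (η * (2 ^ k * (Cap + CR))) * N := by ring
      _ ≤ _ := mul_le_mul_of_nonneg_right hη2 hN.le
  have e5 : Cη * ∫ x, ‖R x‖ ^ k ∂ν ≤ ε / 8 * N := by
    calc Cη * ∫ x, ‖R x‖ ^ k ∂ν ≤ Cη * (CR * g * N) := mul_le_mul_of_nonneg_left iR2 hCη
      _ = (Cη * CR * g) * N := by ring
      _ ≤ _ := mul_le_mul_of_nonneg_right hg hN.le
  linarith only [e4, e5]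

private theorem c4_prod {k : ℝ} (ν : Measure Om) (hν : IsProd ν) (hk : 0 < k) {A F : Om → ℂ} (cA : Continuous A) (cF : Continuous F) {C D : Set ℕ}
    (dF : DependsOn F C) (dA : DependsOn A D) (disj : Disjoint C D) :
    ∫ x, ‖F x * A x‖ ^ k ∂ν = (∫ x, ‖F x‖ ^ k ∂ν) * ∫ x, ‖A x‖ ^ k ∂ν := by
  have e1 : (fun x => ‖F x * A x‖ ^ k) = fun x => ‖F x‖ ^ k * ‖A x‖ ^ k := by
    funext x
    rw [norm_mul, Real.mul_rpow (norm_nonneg _) (norm_nonneg _)]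
  rw [e1]
  refine hν.indep (fun x => ‖F x‖ ^ k) (fun x => ‖A x‖ ^ k) C D
    ((continuous_norm.comp cF).rpow_const fun _ => Or.inr hk.le)
    ((continuous_norm.comp cA).rpow_const fun _ => Or.inr hk.le) ?_ ?_ disj
  · intro x y hxy
    simp only
    rw [dF hxy]
  · intro x y hxy
    simp only
    rw [dA hxy]

/-- the arithmetic of the main term -/
private theorem c4_main {X Y Q b u c D N lA ε ε1 ε2 Ca Cb E g C : ℝ} (hN : 0 < N) (hc : 0 ≤ c)
    (hCb : 0 ≤ Cb) (hE : 0 ≤ E) (hD : 0 < D) (hDg : D = g * N) (hDN : D ≤ N) (hε1 : 0 < ε1) (hε11 : ε1 ≤ 1)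
    (hε12 : ε1 * (|lA| + 1) ≤ ε / 8) (hε21 : ε2 ≤ 1) (hε22 : ε2 * (c + 1) ≤ ε / 8) (hε : 0 < ε) (hε20 : 0 < ε2)
    (hLP : |Q / D - c| < ε1) (hLA : |Y - lA| < ε2) (hY0 : 0 ≤ Y)
    (m1 : (1 - Cb * E) * Q ≤ b) (m2 : b ≤ (1 + Cb * E) * Q) (e7 : |X - b| ≤ u) (s3 : u ≤ Ca * E * D)
    (hCa : 0 ≤ Ca) (hK : (Ca + Cb * (c + 1)) * E * (|lA| + 1) ≤ ε / 8) (hC : |C - X * Y| ≤ ε / 4 * N) :
    |C / N - c * g * lA| ≤ 3 * (ε / 4) := by
  have hA1 : 0 < |lA| + 1 := by positivity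
  have e4 : |Q - c * D| ≤ ε1 * D := by
    have : Q - c * D = (Q / D - c) * D := by field_simp
    rw [this, abs_mul, abs_of_pos hD]
    exact mul_le_mul_of_nonneg_right hLP.le hD.le
  have e5 : Q ≤ (c + 1) * D := by
    have h1 : Q / D ≤ c + 1 := by
      have := (abs_lt.1 hLP).2
      linarith only [this, hε11]
    rwa [div_le_iff₀ hD] at h1
  have e6 : |b - Q| ≤ Cb * E * Q := by
    rw [abs_le]
    constructor
    · linarith only [m1]
    · linarith only [m2]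
  have hCE : 0 ≤ Cb * E := mul_nonneg hCb hE
  have e8 : |X - c * D| ≤ ((Ca + Cb * (c + 1)) * E + ε1) * D := by
    have h1 : |X - c * D| ≤ |X - b| + |b - c * D| := abs_sub_le _ _ _
    have h2 : |b - c * D| ≤ |b - Q| + |Q - c * D| := abs_sub_le _ _ _
    have h3 : Cb * E * Q ≤ Cb * E * ((c + 1) * D) := mul_le_mul_of_nonneg_left e5 hCE
    linarith only [h1, h2, h3, e4, e6, e7, s3]
  have hYle : Y ≤ |lA| + 1 := by
    have h1 := (abs_lt.1 hLA).2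
    have h3 := le_abs_self lA
    linarith only [h1, h3, hε21]
  have e9 : X * Y - c * g * lA * N = (X - c * D) * Y + c * D * (Y - lA) := by
    rw [hDg]; ring
  have e10 : |X * Y - c * g * lA * N| ≤ 3 * (ε / 8) * N := by
    rw [e9]
    refine (abs_add_le _ _).trans ?_
    have hcD : 0 ≤ c * D := mul_nonneg hc hD.le
    rw [abs_mul, abs_mul, abs_of_nonneg hY0, abs_of_nonneg hcD]
    have hB0 : 0 ≤ (Ca + Cb * (c + 1)) * E + ε1 :=
      add_nonneg (mul_nonneg (add_nonneg hCa (mul_nonneg hCb (by linarith only [hc]))) hE) hε1.le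
    have f1 : |X - c * D| * Y ≤ (((Ca + Cb * (c + 1)) * E + ε1) * D) * (|lA| + 1) :=
      mul_le_mul e8 hYle hY0 (mul_nonneg hB0 hD.le)
    have f2 : (((Ca + Cb * (c + 1)) * E + ε1) * D) * (|lA| + 1) =
        ((Ca + Cb * (c + 1)) * E * (|lA| + 1) + ε1 * (|lA| + 1)) * D := by ring
    have f3 : ((Ca + Cb * (c + 1)) * E * (|lA| + 1) + ε1 * (|lA| + 1)) * D ≤ (ε / 8 + ε / 8) * N :=
      mul_le_mul (add_le_add hK hε12) hDN hD.le (by linarith only [hε])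
    have f4 : c * D * |Y - lA| ≤ c * D * ε2 := mul_le_mul_of_nonneg_left hLA.le hcD
    have f5 : c * D * ε2 = (c * ε2) * D := by ring
    have f6 : (c * ε2) * D ≤ ε / 8 * N := by
      have : c * ε2 ≤ ε / 8 := by linarith only [hε22, hε20]
      exact mul_le_mul this hDN hD.le (by linarith only [hε])
    linarith only [f1, f2, f3, f4, f5, f6]
  have e11 : C / N - c * g * lA = (C - c * g * lA * N) / N := by
    field_simp
  rw [e11, abs_div, abs_of_pos hN, div_le_iff₀ hN]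
  have e12 := abs_sub_le C (X * Y) (c * g * lA * N)
  have e13 : 0 ≤ ε * N := by positivity
  linarith only [e10, e12, e13, hC]

/-- the formula for the limit. Adaptation of `limit_formula` in LibMM99/K8.lean (copy its private lemmas `K8_small`, `K8_K`
(with `-K/20`), `K8_diff`, `K8_prod`, `K8_main` with a general probability measure / with `IsProd.indep` in place of
`integral_mul_indep`). Measure `nu 0 L` (`adm_zero`, `isProd_nu`), `r = ⌈β/2⌉₊`, `γ = gam β > β (r+1)/2`, exponent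
`(δ L)^gam * (L/L)^(β/2) * (L/(δ L))^(β(r+1)/2) = δ^(gam β - β(r+1)/2) * L^gam`. Inputs: `PSnz_limit` (C3), `hasScale_nu` gives
b, e (`ScaleT`); `growth_nu` turns them into `ScaleDataN (NN L)`; `scale_product_N`, `scale_product_mean_nu`, `R_majorant_N`
(with `psi_moment_nu`, `E_moment_nu`), `apriori_nu`. All in IfaceC.lean. -/
theorem limit_formula_nu {β : ℝ} (hβ : 0 < β) {w : ℝ → ℂ} {Λ : ℝ} (hw : IsWeight w Λ) {C : ℝ}
    (hC : Tendsto (fun L : ℝ => (∫ x, ‖SS w L x‖ ^ β ∂(nu 0 L)) / L ^ gam β) atTop (𝓝 C)) {l : ℝ → ℝ}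
    (hl : ∀ δ : ℝ, 0 < δ → δ < 1 → Tendsto (fun L : ℝ => ∫ x, ‖Atop w δ L x‖ ^ β ∂(nu 0 L)) atTop (𝓝 (l δ))) :
    Tendsto (fun δ : ℝ => Real.exp (Real.eulerMascheroniConstant * gam β) * LibZM.Aconst ((β + 2) / 2) *
      δ ^ gam β * l δ) (𝓝[>] 0) (𝓝 C) := by
  obtain ⟨r, hrdef⟩ : ∃ r : ℕ, r = ⌈β / 2⌉₊ := ⟨_, rfl⟩
  have hr : β ≤ 2 * r := by
    have := Nat.le_ceil (β / 2)
    rw [← hrdef] at this
    linarith only [this]
  have hr' : 2 * (r : ℝ) < β + 2 := by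
    have := Nat.ceil_lt_add_one (by positivity : 0 ≤ β / 2)
    rw [← hrdef] at this
    linarith only [this]
  have hgam : gam β = β ^ 2 / 4 + β := rfl
  have hγr : β * (r + 1) / 2 < gam β := by
    rw [hgam]
    nlinarith only [hβ, hr']
  have hκ0 : 0 ≤ gam β := by
    rw [hgam]
    positivity
  obtain ⟨C0, hC0, hS⟩ := hasScale_nu hβ
  obtain ⟨Cψ, hCψ, hψ⟩ := psi_moment_nu r
  obtain ⟨Cg, hCg, hgr⟩ := growth_nu hβ C0 hC0
  obtain ⟨CE, hCE, hE⟩ := E_moment_nu r Λ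
  obtain ⟨Ca, Ka, hCa, hKa, ha⟩ := scale_product_N hβ hr hC0 hCψ hCg hκ0
  obtain ⟨Cb, Kb, hCb, hKb, hb⟩ := scale_product_mean_nu hβ hC0
  obtain ⟨CR, KR, hCR, hKR, hR⟩ := R_majorant_N hβ hr hC0 hCψ hCg hCE hγr Λ
  obtain ⟨Cap, hCap, hap⟩ := apriori_nu hβ Λ
  obtain ⟨c, hcdef⟩ : ∃ c : ℝ, c = Real.exp (Real.eulerMascheroniConstant * gam β) *
    LibZM.Aconst ((β + 2) / 2) := ⟨_, rfl⟩
  have hPS : Tendsto (fun t : ℝ => PS (β + 2) 1 t * nz 0 1 t / (Real.log t) ^ gam β) atTop (𝓝 c) := by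
    rw [hcdef]
    exact PSnz_limit hβ
  rw [← hcdef]
  have hnz0 : ∀ t : ℝ, 0 ≤ nz 0 1 t := by
    intro t
    unfold nz
    refine Finset.prod_nonneg fun p hp => ?_
    have hpp : p.Prime := (t12_mem_prm.1 hp).1
    have h1 : ‖zp 0 p‖ ^ 2 = (p : ℝ)⁻¹ := norm_zp_zero hpp
    rw [h1]
    have h2 : (1 : ℝ) ≤ p := by exact_mod_cast hpp.one_lt.le
    have h3 : (p : ℝ)⁻¹ ≤ 1 := inv_le_one_of_one_le₀ h2
    linarith only [h3]
  have hc0 : 0 ≤ c := by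
    refine ge_of_tendsto hPS ?_
    filter_upwards [eventually_ge_atTop (1 : ℝ)] with t ht
    have h1 := one_le_PS (k := β + 2) (by linarith only [hβ]) 1 t
    have h2 : 0 ≤ Real.log t := Real.log_nonneg ht
    have h3 := hnz0 t
    positivity
  have hCR0 : 0 < CR := by linarith only [hCR]
  have hCa0 : 0 ≤ Ca := by linarith only [hCa]
  have hCb0 : 0 ≤ Cb := by linarith only [hCb]
  rw [Metric.tendsto_nhds]
  intro ε hε
  obtain ⟨η, hη0, -, hη2⟩ := c4_small (W := 2 ^ β * (Cap + CR)) (η := ε) (c := 8) (by positivity) hε (by norm_num)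
  obtain ⟨Cη, hCη, hpd⟩ := pow_diff hβ hη0
  have hγ0 : 0 < gam β - β * (r + 1) / 2 := by linarith only [hγr]
  have hev1 : ∀ᶠ δ : ℝ in 𝓝[>] 0, Cη * CR * δ ^ (gam β - β * (r + 1) / 2) < ε / 8 := by
    have h1 : Tendsto (fun δ : ℝ => Cη * CR * δ ^ (gam β - β * (r + 1) / 2)) (𝓝[>] 0) (𝓝 (Cη * CR * 0)) := by
      apply Tendsto.const_mul
      have h2 : Tendsto (fun x : ℝ => x ^ (gam β - β * (r + 1) / 2)) (𝓝 0) (𝓝 ((0 : ℝ) ^ (gam β - β * (r + 1) / 2))) :=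
        (Real.continuousAt_rpow_const 0 _ (Or.inr hγ0.le)).tendsto
      rw [Real.zero_rpow hγ0.ne'] at h2
      exact h2.mono_left nhdsWithin_le_nhds
    rw [mul_zero] at h1
    exact h1.eventually (gt_mem_nhds (by positivity))
  have hev2 : ∀ᶠ δ : ℝ in 𝓝[>] 0, δ ∈ Set.Ioo (0 : ℝ) 1 := Ioo_mem_nhdsGT one_pos
  filter_upwards [hev1, hev2] with δ hδ2 hδ01
  obtain ⟨hδ, hδ1⟩ := hδ01
  have hlδ := hl δ hδ hδ1
  clear hl
  obtain ⟨K, hK1, hK2, hK3, hK4, hK5⟩ := c4_K Ka Kb KR (10 + 5 * Real.log (1 / δ)) (C := Ca + Cb * (c + 1)) (l := l δ) hε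
  have hK0 : 1 ≤ K := le_trans hKa hK1
  have hPS2 : Tendsto (fun L : ℝ => PS (β + 2) 1 (Real.exp (δ * L)) * nz 0 1 (Real.exp (δ * L)) /
      (Real.log (Real.exp (δ * L))) ^ gam β) atTop (𝓝 c) :=
    hPS.comp (Real.tendsto_exp_atTop.comp (tendsto_id.const_mul_atTop hδ))
  obtain ⟨ε1, hε10, hε11, hε12⟩ := c4_small (W := |l δ| + 1) (η := ε) (c := 8) (by positivity) hε (by norm_num)
  obtain ⟨ε2, hε20, hε21, hε22⟩ := c4_small (W := c + 1) (η := ε) (c := 8) (by positivity) hε (by norm_num)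
  have evP := (Metric.tendsto_nhds.1 hPS2) ε1 hε10
  have evA := (Metric.tendsto_nhds.1 hlδ) ε2 hε20
  have hmain : ∀ᶠ L : ℝ in atTop, |(∫ x, ‖SS w L x‖ ^ β ∂(nu 0 L)) / L ^ gam β - c * δ ^ gam β * l δ| ≤
      3 * (ε / 4) := by
    filter_upwards [evP, evA, eventually_ge_atTop (1 : ℝ), eventually_ge_atTop (Real.log 2 / 2 / δ)] with L hLP hLA hL2 hL3
    clear hPS hPS2 evP evA hC hlδ hev1 hev2
    have hL0 : 0 < L := by linarith only [hL2]
    have hadm : Adm 0 L := adm_zero hL2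
    have hprod : IsProd (nu 0 L) := isProd_nu hadm
    have hprob : IsProbabilityMeasure (nu 0 L) := hprod.prob
    have hNN : ∀ ν ∈ NN L, IsProd ν := by
      rintro ν ⟨s, hs, rfl⟩
      exact isProd_nu hs
    have hmem : nu 0 L ∈ NN L := ⟨0, hadm, rfl⟩
    have hlog2 : 0 < Real.log 2 := Real.log_pos (by norm_num)
    obtain ⟨l0, J, h0, h0', hJ⟩ := exists_scales (lam := δ * L) (by rw [div_le_iff₀ hδ] at hL3; linarith only [hL3])
    have hl0 : 0 < l0 := by linarith only [h0, hlog2]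
    have hδL : δ * L ≤ L := mul_le_of_le_one_left hL0.le hδ1.le
    have hJL : l0 * 2 ^ J ≤ L := by rw [hJ]; exact hδL
    obtain ⟨b, e, hbe⟩ : ∃ b e : ℕ → Om → ℝ, ∀ i, ScaleT β C0 (tj l0 i) (tj l0 (i + 1)) (kap K J i) (b i) (e i) := by
      have h1 : ∀ i, ∃ b e : Om → ℝ, ScaleT β C0 (tj l0 i) (tj l0 (i + 1)) (kap K J i) b e := by
        intro i
        apply hS _ _ _ (sqrt_two_le_tj h0 i) (tj_mono hl0.le (Nat.le_succ i)) _ (one_le_kap hK0 J i)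
        rw [log_tj, log_tj, pow_succ]
        linarith
      choose b e hbe using h1
      exact ⟨b, e, hbe⟩
    obtain ⟨G, hG0, hG1, hG2⟩ := hgr l0 K L J h0 h0'.le hL2 hJL b e fun i _ => hbe i
    have hψN : ∀ ν ∈ NN L, ∀ i < J, ∫ x, ‖psi l0 K J i x‖ ^ (2 * r) ∂ν ≤ Cψ := by
      rintro ν ⟨s, hs, rfl⟩ i hi
      refine hψ s L l0 K J i hs h0 hK0 hi ?_
      refine le_trans ?_ hJL
      exact mul_le_mul_of_nonneg_left (pow_le_pow_right₀ (by norm_num) (by omega)) hl0.le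
    have hkap := kap_cond hδ hδ1.le hK4 hL0 hJ
    have hEN : ∀ ν ∈ NN L, ∀ j < J, ∫ x, ‖Ej w l0 K L L J j x‖ ^ (2 * r) ∂ν ≤
        (CE * (L / L) * (L / (l0 * 2 ^ (j + 1))) ^ (r + 1 : ℝ)) ^ r := by
      rintro ν ⟨s, hs, rfl⟩ j hj
      refine hE w hw s l0 K L L J j hs h0 hK0 hj ?_ le_rfl (hkap j hj)
      refine le_trans ?_ hJL
      exact mul_le_mul_of_nonneg_left (pow_le_pow_right₀ (by norm_num) (by omega)) hl0.le
    have tJ : tj l0 J = Real.exp (δ * L) := by unfold tj; rw [hJ]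
    obtain ⟨ΞR, apR, iR, pR, -⟩ := hR (NN L) hNN w hw l0 K L L J h0 h0'.le hK3 hJL le_rfl G b e hG0 hG1 hG2 hψN hEN
    replace iR := iR _ hmem
    obtain ⟨s1, s2, s3⟩ := ha (NN L) hNN l0 K J h0 h0'.le hK1 G b e hG0 hG1 hG2 hψN J le_rfl
    replace s3 := s3 _ hmem
    obtain ⟨m1, m2⟩ := hb l0 K L J h0 h0' hK2 hL2 hJL b e fun i _ => hbe i
    have tele := fun x => telescoping w l0 K L L J x
    rw [AA_zero hl0 h0' hL0.le] at tele
    have hAA : AA w l0 L L J = Atop w δ L := by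
      unfold AA
      rw [tJ]
      rfl
    rw [hAA] at tele
    have iS := hap w hw 0 L hadm
    clear ha hb hR hap hAA s2
    have bc : ∀ i < J, Continuous (b i) := fun i _ => (hbe i).b_poly.continuous
    have ec : ∀ i < J, Continuous (e i) := fun i _ => (hbe i).e_poly.continuous
    have cB : Continuous (BB b J) := continuous_BB bc
    have cU : Continuous (UU r l0 K J b e J) := continuous_UU bc ec
    have dF : DependsOn (Fj l0 K J J) (coo 1 (tj l0 J)) := dependsOn_Fj hl0.le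
    rw [tJ] at dF m1 m2
    have hN0 : 0 < L ^ gam β := Real.rpow_pos_of_pos hL0 _
    have hδκ1 : δ ^ gam β ≤ 1 := Real.rpow_le_one hδ.le hδ1.le hκ0
    have hδN : (δ * L) ^ gam β = δ ^ gam β * L ^ gam β := Real.mul_rpow hδ.le hL0.le
    have hδN1 : (δ * L) ^ gam β ≤ L ^ gam β := by rw [hδN]; exact mul_le_of_le_one_left hN0.le hδκ1
    have hδLpos : 0 < (δ * L) ^ gam β := Real.rpow_pos_of_pos (mul_pos hδ hL0) _
    rw [hJ] at s3 iR
    have iZ : ∫ x, ΞR x ∂(nu 0 L) ≤ CR * δ ^ (gam β - β * (r + 1) / 2) * L ^ gam β := by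
      calc ∫ x, ΞR x ∂(nu 0 L) ≤ _ := iR
        _ = CR * ((δ * L) ^ gam β * (L / L) ^ (β / 2) * (L / (δ * L)) ^ (β * (r + 1) / 2)) := by ring
        _ = _ := by rw [c4_exp hδ hL0]; ring
    have cA : Continuous (Atop w δ L) := continuous_DS _ _
    have hdiff := c4_diff (nu 0 L) hβ cA continuous_Fj continuous_RR (continuous_DS _ _) pR.continuous tele apR
      hCR0.le (Real.rpow_le_one hδ.le hδ1.le hγ0.le) hN0 hη0.le hCη.le hη2 hδ2.le hpd iS iZ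
    have dA : DependsOn (Atop w δ L) (coo (Real.exp (δ * L)) (Real.exp L)) := dependsOn_DS_smo _ _ _ _
    rw [c4_prod (nu 0 L) hprod hβ cA continuous_Fj dF dA (coo_disjoint le_rfl)] at hdiff
    rw [Real.log_exp, dist_eq_norm, Real.norm_eq_abs] at hLP
    rw [dist_eq_norm, Real.norm_eq_abs] at hLA
    have e7 : |(∫ x, ‖Fj l0 K J J x‖ ^ β ∂(nu 0 L)) - ∫ x, BB b J x ∂(nu 0 L)| ≤ ∫ x, UU r l0 K J b e J x ∂(nu 0 L) := by
      have jF := c4_int (nu 0 L) hβ (continuous_Fj (l0 := l0) (K := K) (J := J) (j := J))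
      rw [← integral_sub jF (c0_integrable _ cB)]
      refine (abs_integral_le_integral_abs).trans ?_
      exact integral_mono (jF.sub (c0_integrable _ cB)).abs (c0_integrable _ cU) s1
    have hQ0 : 0 ≤ PS (β + 2) 1 (Real.exp (δ * L)) * nz 0 1 (Real.exp (δ * L)) := by
      have h1 := one_le_PS (k := β + 2) (by linarith only [hβ]) 1 (Real.exp (δ * L))
      exact mul_nonneg (by linarith only [h1]) (hnz0 _)
    have hE0 : 0 ≤ Real.exp (-K / 20) := (Real.exp_pos _).le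
    have m3 : ∫ x, BB b J x ∂(nu 0 L) ≤ (1 + Cb * Real.exp (-K / 20)) *
        (PS (β + 2) 1 (Real.exp (δ * L)) * nz 0 1 (Real.exp (δ * L))) := by
      refine m2.trans ?_
      have h1 : 0 ≤ Cb * Real.exp (-K / 20) := mul_nonneg hCb0 hE0
      have h2 := mul_nonneg h1 hQ0
      linarith only [h2]
    exact c4_main hN0 hc0 hCb0 hE0 hδLpos hδN hδN1 hε10 hε11 hε12 hε21 hε22 hε hε20 hLP hLA
      (integral_nonneg fun x => Real.rpow_nonneg (norm_nonneg _) _) m1 m3 e7 s3 hCa0 hK5 hdiff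
  have hfin : |C - c * δ ^ gam β * l δ| ≤ 3 * (ε / 4) := by
    have e1 : Tendsto (fun L : ℝ => |(∫ x, ‖SS w L x‖ ^ β ∂(nu 0 L)) / L ^ gam β - c * δ ^ gam β * l δ|) atTop
        (𝓝 |C - c * δ ^ gam β * l δ|) := (hC.sub_const _).abs
    exact le_of_tendsto e1 hmain
  rw [dist_comm, dist_eq_norm, Real.norm_eq_abs]
  linarith only [hfin, hε]

end Pool.Agent.LibTG78
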