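import Mathlib
import Pool.Agent.LibTG78.Defs
import Pool.Agent.LibTG78.D5a
import Pool.Agent.LibTG78.A5

/-! Block D: the weighted moments of short polynomials -/

set_option autoImplicit false

namespace Pool.Agent.LibTG78

open MeasureTheory Filter Topology Pool.Agent.LibMM99
open scoped ComplexConjugate

lemma D5_adm0 {L : ℝ} (hL : 1 ≤ L) : Adm 0 L := ⟨hL, by rw [norm_zero]; positivity⟩

lemma D5_int {L : ℝ} (hL : 1 ≤ L) {f : Om → ℝ} (hf : Continuous f) : Integrable f (nu 0 L) := by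
  haveI := (isProd_nu (D5_adm0 hL)).prob
  exact hf.integrable_of_hasCompactSupport (HasCompactSupport.of_compactSpace f)

lemma D5_gam_pos {β : ℝ} (hβ : 0 < β) : 0 < gam β := by
  unfold gam
  positivity

/-- D5 -/
theorem weighted_nu {β : ℝ} (hβ : 0 < β) {w : ℝ → ℂ} {Λ : ℝ} (hw : IsWeight w Λ) :
    ∃ C : ℝ, Tendsto (fun L : ℝ => (∫ x, ‖SS w L x‖ ^ β ∂(nu 0 L)) / L ^ gam β) atTop (𝓝 C) ∧
      ∀ ε : ℝ, 0 < ε → ∃ θ L0 : ℝ, 0 < θ ∧ 1 ≤ L0 ∧ ∀ L T : ℝ, L0 ≤ L → 1 ≤ T → L ≤ θ * Real.log T →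
      |(1 / T) * (∫ t in (0 : ℝ)..T, ‖riemannZeta (1 / 2 + t * Complex.I)‖ ^ 2 * ‖SS w L (xt t)‖ ^ β) -
        C * L ^ gam β * Real.log T| ≤ ε * L ^ gam β * Real.log T := by
  obtain ⟨Ca, hCa, happ⟩ := approx_nu hβ hw
  obtain ⟨CP, δ, T0, hCP, hδ, hT0, hpoly⟩ := D5_poly
  have hg := D5_gam_pos hβ
  have hcS : ∀ L, Continuous fun x => ‖SS w L x‖ ^ β := fun L =>
    ((continuous_norm.comp (continuous_DS _ _)).rpow_const fun _ => Or.inr hβ.le)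
  have hmean : ∀ (L v Θ ε : ℝ) (Φ Ξ : Om → ℝ), 1 ≤ L → (∀ x, |‖SS w L x‖ ^ β - Φ x| ≤ Ξ x) →
      ∫ x, Ξ x ∂(nu 0 L) ≤ ε * L ^ gam β → |∫ x, Φ x ∂(nu 0 L) - v * L ^ gam β| ≤ ε * L ^ gam β →
      IsPolyR (Θ * L) Φ → IsPolyR (Θ * L) Ξ →
      |(∫ x, ‖SS w L x‖ ^ β ∂(nu 0 L)) / L ^ gam β - v| ≤ 2 * ε := by
    intro L v Θ ε Φ Ξ hL h1 h2 h3 h4 h5
    have hN : 0 < L ^ gam β := Real.rpow_pos_of_pos (by linarith) _
    have j1 : Integrable (fun x => ‖SS w L x‖ ^ β) (nu 0 L) := D5_int hL (hcS L)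
    have j2 : Integrable Φ (nu 0 L) := D5_int hL h4.continuous
    have j3 : Integrable Ξ (nu 0 L) := D5_int hL h5.continuous
    have h6 : |(∫ x, ‖SS w L x‖ ^ β ∂(nu 0 L)) - ∫ x, Φ x ∂(nu 0 L)| ≤ ∫ x, Ξ x ∂(nu 0 L) := by
      rw [← integral_sub j1 j2]
      refine le_trans (abs_integral_le_integral_abs) ?_
      exact integral_mono (j1.sub j2).abs j3 h1
    have h7 : (∫ x, ‖SS w L x‖ ^ β ∂(nu 0 L)) / L ^ gam β - v =
        ((∫ x, ‖SS w L x‖ ^ β ∂(nu 0 L)) - v * L ^ gam β) / L ^ gam β := by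
      field_simp
    rw [h7, abs_div, abs_of_pos hN, div_le_iff₀ hN]
    have h8 := abs_sub_le (∫ x, ‖SS w L x‖ ^ β ∂(nu 0 L)) (∫ x, Φ x ∂(nu 0 L)) (v * L ^ gam β)
    linarith
  obtain ⟨C, hC⟩ : ∃ C, Tendsto (fun L : ℝ => (∫ x, ‖SS w L x‖ ^ β ∂(nu 0 L)) / L ^ gam β) atTop
      (𝓝 C) := by
    apply exists_limit
    intro ε hε
    obtain ⟨v, Θ, L0, hL01, hΘ, h⟩ := happ (ε / 2) (by positivity)
    refine ⟨v, L0, fun L hL => ?_⟩
    have hL1 : 1 ≤ L := by linarith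
    obtain ⟨Φ, Ξ, h1, h2, _, h3, h4, h5, _, _⟩ := h L hL
    have := hmean L v Θ (ε / 2) Φ Ξ hL1 h1 (h2 0 (D5_adm0 hL1)) h3 h4 h5
    linarith
  refine ⟨C, hC, ?_⟩
  intro ε hε
  obtain ⟨ε1, hε1⟩ : ∃ ε1, ε1 = ε / (2 * (4 + CP)) := ⟨_, rfl⟩
  have hε1p : 0 < ε1 := by rw [hε1]; positivity
  obtain ⟨v, Θ, L0, hL01, hΘ, h⟩ := happ ε1 hε1p
  have hv : |C - v| ≤ 2 * ε1 := by
    have h1 : Tendsto (fun L : ℝ => |(∫ x, ‖SS w L x‖ ^ β ∂(nu 0 L)) / L ^ gam β - v|) atTop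
      (𝓝 |C - v|) := (hC.sub_const v).abs
    apply le_of_tendsto h1
    filter_upwards [eventually_ge_atTop L0] with L hL
    have hL1 : 1 ≤ L := by linarith
    obtain ⟨Φ, Ξ, h1, h2, _, h3, h4, h5, _, _⟩ := h L hL
    exact hmean L v Θ ε1 Φ Ξ hL1 h1 (h2 0 (D5_adm0 hL1)) h3 h4 h5
  have hlogT0 : 0 ≤ Real.log T0 := Real.log_nonneg hT0
  obtain ⟨θ, hθ0, hθ1, hθ2, hθ3, hθ4⟩ : ∃ θ : ℝ, 0 < θ ∧ θ ≤ 1 ∧ θ * Θ ≤ δ ∧
      θ * (Real.log T0 + 1) ≤ 1 ∧ θ * (CP * Ca + 2 * CP) ≤ ε / 2 := by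
    obtain ⟨D, hD⟩ : ∃ D : ℝ, D = 1 + Θ / δ + (Real.log T0 + 1) + (CP * Ca + 2 * CP) / (ε / 2) :=
      ⟨_, rfl⟩
    have p1 : 0 ≤ Θ / δ := by positivity
    have p2 : 0 ≤ (CP * Ca + 2 * CP) / (ε / 2) := by positivity
    have hDp : 0 < D := by rw [hD]; linarith
    refine ⟨1 / D, by positivity, ?_, ?_, ?_, ?_⟩
    · rw [div_le_one hDp, hD]; linarith
    · rw [one_div, inv_mul_le_iff₀ hDp]
      have : Θ / δ ≤ D := by rw [hD]; linarith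
      rwa [div_le_iff₀ hδ] at this
    · rw [one_div, inv_mul_le_iff₀ hDp, hD]; linarith
    · rw [one_div, inv_mul_le_iff₀ hDp]
      have : (CP * Ca + 2 * CP) / (ε / 2) ≤ D := by rw [hD]; linarith
      rwa [div_le_iff₀ (by positivity)] at this
  refine ⟨θ, L0, hθ0, hL01, ?_⟩
  intro L T hL hT hLT
  have hL1 : 1 ≤ L := by linarith
  have hTp : 0 < T := by linarith
  obtain ⟨Φ, Ξ, h1, h2, h3, h4, h5, h6, h7, h8⟩ := h L hL
  have hlT0 : 0 ≤ Real.log T := Real.log_nonneg hT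
  have hlT : 1 ≤ θ * Real.log T := hL1.trans hLT
  have hLlT : L ≤ Real.log T := hLT.trans (by nlinarith)
  have hTT0 : T0 ≤ T := by
    have h9 : Real.log T0 + 1 ≤ Real.log T := by
      by_contra hc
      push Not at hc
      have h10 : θ * Real.log T < θ * (Real.log T0 + 1) := mul_lt_mul_of_pos_left hc hθ0
      linarith
    have h11 : Real.log T0 ≤ Real.log T := by linarith
    exact (Real.log_le_log_iff (by linarith) hTp).1 h11
  have ha : Θ * L ≤ δ * Real.log T := by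
    calc Θ * L ≤ Θ * (θ * Real.log T) := mul_le_mul_of_nonneg_left hLT (by linarith)
      _ = (θ * Θ) * Real.log T := by ring
      _ ≤ δ * Real.log T := mul_le_mul_of_nonneg_right hθ2 hlT0
  obtain ⟨N, hN⟩ : ∃ N, N = L ^ gam β := ⟨_, rfl⟩
  rw [← hN] at h2 h3 h4 ⊢
  have hN1 : 1 ≤ N := by rw [hN]; exact Real.one_le_rpow hL1 hg.le
  have hΞ0 : ∀ x, 0 ≤ Ξ x := fun x => (abs_nonneg _).trans (h1 x)
  have pΞ := hpoly (Θ * L) L (ε1 * N) T Ξ hL1 hTT0 ha h6 h8 (fun s hs => by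
    have : ∫ x, |Ξ x| ∂(nu s L) = ∫ x, Ξ x ∂(nu s L) :=
      integral_congr_ae (Eventually.of_forall fun x => abs_of_nonneg (hΞ0 x))
    rw [this]
    exact h2 s hs)
  have pΦ := hpoly (Θ * L) L (Ca * N) T Φ hL1 hTT0 ha h5 h7 h3
  have hTδ : T ^ (-(3 * δ)) ≤ 1 := Real.rpow_le_one_of_one_le_of_nonpos hT (by linarith)
  have hzc : Continuous fun t : ℝ => ‖riemannZeta (1 / 2 + t * Complex.I)‖ ^ 2 :=
    D5_zeta_cont.norm.pow 2
  have ct1 : Continuous fun t : ℝ => ‖riemannZeta (1 / 2 + t * Complex.I)‖ ^ 2 *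
    ‖SS w L (xt t)‖ ^ β := hzc.mul ((hcS L).comp continuous_xt)
  have ct2 : Continuous fun t : ℝ => ‖riemannZeta (1 / 2 + t * Complex.I)‖ ^ 2 * Φ (xt t) :=
    hzc.mul (h5.continuous.comp continuous_xt)
  have ct3 : Continuous fun t : ℝ => ‖riemannZeta (1 / 2 + t * Complex.I)‖ ^ 2 * Ξ (xt t) :=
    hzc.mul (h6.continuous.comp continuous_xt)
  have i1 : |(∫ t in (0 : ℝ)..T, ‖riemannZeta (1 / 2 + t * Complex.I)‖ ^ 2 * ‖SS w L (xt t)‖ ^ β) -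
      ∫ t in (0 : ℝ)..T, ‖riemannZeta (1 / 2 + t * Complex.I)‖ ^ 2 * Φ (xt t)| ≤
      ∫ t in (0 : ℝ)..T, ‖riemannZeta (1 / 2 + t * Complex.I)‖ ^ 2 * Ξ (xt t) := by
    rw [← intervalIntegral.integral_sub (ct1.intervalIntegrable _ _) (ct2.intervalIntegrable _ _)]
    refine le_trans (intervalIntegral.abs_integral_le_integral_abs hTp.le) ?_
    apply intervalIntegral.integral_mono_on hTp.le
    · exact ((ct1.sub ct2).abs).intervalIntegrable _ _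
    · exact ct3.intervalIntegrable _ _
    · intro t _
      rw [← mul_sub, abs_mul, abs_of_nonneg (by positivity)]
      exact mul_le_mul_of_nonneg_left (h1 (xt t)) (by positivity)
  have hT1 : 0 < 1 / T := by positivity
  have i2 : |(1 / T) * (∫ t in (0 : ℝ)..T,
      ‖riemannZeta (1 / 2 + t * Complex.I)‖ ^ 2 * ‖SS w L (xt t)‖ ^ β) -
      (1 / T) * ∫ t in (0 : ℝ)..T, ‖riemannZeta (1 / 2 + t * Complex.I)‖ ^ 2 * Φ (xt t)| ≤
      (1 / T) * ∫ t in (0 : ℝ)..T, ‖riemannZeta (1 / 2 + t * Complex.I)‖ ^ 2 * Ξ (xt t) := by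
    rw [← mul_sub, abs_mul, abs_of_pos hT1]
    exact mul_le_mul_of_nonneg_left i1 hT1.le
  obtain ⟨X, hX⟩ : ∃ X, X = (1 / T) * (∫ t in (0 : ℝ)..T,
      ‖riemannZeta (1 / 2 + t * Complex.I)‖ ^ 2 * ‖SS w L (xt t)‖ ^ β) := ⟨_, rfl⟩
  obtain ⟨XΦ, hXΦ⟩ : ∃ X, X = (1 / T) * (∫ t in (0 : ℝ)..T,
      ‖riemannZeta (1 / 2 + t * Complex.I)‖ ^ 2 * Φ (xt t)) := ⟨_, rfl⟩
  obtain ⟨XΞ, hXΞ⟩ : ∃ X, X = (1 / T) * (∫ t in (0 : ℝ)..T,
      ‖riemannZeta (1 / 2 + t * Complex.I)‖ ^ 2 * Ξ (xt t)) := ⟨_, rfl⟩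
  rw [← hX, ← hXΦ, ← hXΞ] at i2
  rw [← hXΞ] at pΞ
  rw [← hXΦ] at pΦ
  rw [← hX]
  have hlN : Real.log T ≤ N * Real.log T := by nlinarith
  -- the majorant
  have b1 : XΞ ≤ (ε1 + CP * ε1) * (N * Real.log T) + CP := by
    have e1 := (abs_le.1 pΞ).2
    have e2 : Real.log T * ∫ x, Ξ x ∂(nu 0 L) ≤ Real.log T * (ε1 * N) :=
      mul_le_mul_of_nonneg_left (h2 0 (D5_adm0 hL1)) hlT0
    have e3 : CP * L * (ε1 * N) ≤ CP * Real.log T * (ε1 * N) := by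
      refine mul_le_mul_of_nonneg_right ?_ (by positivity)
      exact mul_le_mul_of_nonneg_left hLlT hCP.le
    have e4 : CP * T ^ (-(3 * δ)) ≤ CP := by nlinarith
    have e5 : (ε1 + CP * ε1) * (N * Real.log T) = Real.log T * (ε1 * N) +
      CP * Real.log T * (ε1 * N) := by ring
    linarith
  -- the polynomial
  have b2 : |XΦ - Real.log T * ∫ x, Φ x ∂(nu 0 L)| ≤ CP * Ca * θ * (N * Real.log T) + CP := by
    have e3 : CP * L * (Ca * N) ≤ CP * (θ * Real.log T) * (Ca * N) := by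
      refine mul_le_mul_of_nonneg_right ?_ (by positivity)
      exact mul_le_mul_of_nonneg_left hLT hCP.le
    have e4 : CP * T ^ (-(3 * δ)) ≤ CP := by nlinarith
    have e5 : CP * Ca * θ * (N * Real.log T) = CP * (θ * Real.log T) * (Ca * N) := by ring
    linarith
  have b3 : |Real.log T * (∫ x, Φ x ∂(nu 0 L)) - C * N * Real.log T| ≤
      3 * ε1 * (N * Real.log T) := by
    have e1 : |(∫ x, Φ x ∂(nu 0 L)) - C * N| ≤ 3 * ε1 * N := by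
      have e2 : |v * N - C * N| ≤ 2 * ε1 * N := by
        rw [← sub_mul, abs_mul, abs_of_pos (by linarith : 0 < N), abs_sub_comm]
        exact mul_le_mul_of_nonneg_right hv (by linarith)
      have e3 := abs_sub_le (∫ x, Φ x ∂(nu 0 L)) (v * N) (C * N)
      linarith
    have e4 : Real.log T * (∫ x, Φ x ∂(nu 0 L)) - C * N * Real.log T =
      Real.log T * ((∫ x, Φ x ∂(nu 0 L)) - C * N) := by ring
    rw [e4, abs_mul, abs_of_nonneg hlT0]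
    calc Real.log T * |(∫ x, Φ x ∂(nu 0 L)) - C * N| ≤ Real.log T * (3 * ε1 * N) :=
          mul_le_mul_of_nonneg_left e1 hlT0
      _ = _ := by ring
  have b4 : 2 * CP ≤ 2 * CP * θ * (N * Real.log T) := by
    have e1 : 1 ≤ θ * (N * Real.log T) := by
      calc (1:ℝ) ≤ θ * Real.log T := hlT
        _ ≤ θ * (N * Real.log T) := mul_le_mul_of_nonneg_left hlN hθ0.le
    nlinarith
  have b5 : (ε1 + CP * ε1) + CP * Ca * θ + 3 * ε1 + 2 * CP * θ ≤ ε := by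
    have e1 : ε1 * (4 + CP) = ε / 2 := by
      rw [hε1]
      field_simp
    have e2 : (ε1 + CP * ε1) + CP * Ca * θ + 3 * ε1 + 2 * CP * θ =
      ε1 * (4 + CP) + θ * (CP * Ca + 2 * CP) := by ring
    linarith
  have hNl : 0 ≤ N * Real.log T := by positivity
  have e1 := abs_sub_le X XΦ (C * N * Real.log T)
  have e2 := abs_sub_le XΦ (Real.log T * ∫ x, Φ x ∂(nu 0 L)) (C * N * Real.log T)
  calc |X - C * N * Real.log T| ≤ ((ε1 + CP * ε1) * (N * Real.log T) + CP) +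
        ((CP * Ca * θ * (N * Real.log T) + CP) + 3 * ε1 * (N * Real.log T)) := by linarith
    _ ≤ ((ε1 + CP * ε1) + CP * Ca * θ + 3 * ε1 + 2 * CP * θ) * (N * Real.log T) := by
        have e3 : ((ε1 + CP * ε1) + CP * Ca * θ + 3 * ε1 + 2 * CP * θ) * (N * Real.log T) =
          ((ε1 + CP * ε1) * (N * Real.log T)) + CP * Ca * θ * (N * Real.log T) +
          3 * ε1 * (N * Real.log T) + 2 * CP * θ * (N * Real.log T) := by ring
        linarith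
    _ ≤ ε * (N * Real.log T) := mul_le_mul_of_nonneg_right b5 hNl
    _ = ε * N * Real.log T := by ring

end Pool.Agent.LibTG78
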