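import Mathlib
import Pool.Agent.LibTG78.Defs
import Pool.Agent.LibTG78.D4

/-! Block D: the pole term -/

set_option autoImplicit false

namespace Pool.Agent.LibTG78

open MeasureTheory Filter Topology Pool.Agent.LibMM99
open scoped ComplexConjugate

/-- the second moment of zeta -/
theorem D6_second : ∃ C : ℝ, 0 < C ∧ ∀ T : ℝ, 1 ≤ T →
    ∫ t in (0 : ℝ)..T, ‖riemannZeta (1 / 2 + t * Complex.I)‖ ^ 2 ≤ C * T * (1 + Real.log T) := by
  obtain ⟨C, hC, h⟩ := TW.tw_twist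
  refine ⟨C + 8, by positivity, fun T hT => ?_⟩
  have hlog : 0 ≤ Real.log T := Real.log_nonneg hT
  have h1 := h 1 1 le_rfl le_rfl (Nat.coprime_one_right 1) T hT
  have h2 : (∫ t in (0:ℝ)..T, ((‖riemannZeta (LibZM.crit t)‖ ^ 2 : ℝ) : ℂ) * TW.tw_e 1 1 t) =
      ((∫ t in (0 : ℝ)..T, ‖riemannZeta (1 / 2 + t * Complex.I)‖ ^ 2 : ℝ) : ℂ) := by
    rw [← intervalIntegral.integral_ofReal]
    refine intervalIntegral.integral_congr fun t _ => ?_
    beta_reduce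
    have h3 : TW.tw_e 1 1 t = 1 := by
      unfold TW.tw_e
      simp
    rw [h3, mul_one]
    rfl
  rw [h2, ← Complex.ofReal_sub, Complex.norm_real, Real.norm_eq_abs] at h1
  have h4 := TW.tw_M_le (m := 1) (n := 1) le_rfl le_rfl hT (le_refl T)
  have h5 := (abs_le.1 h1).2
  have h6 := (abs_le.1 h4).2
  have h7 : (((1:ℕ):ℝ) * ((1:ℕ):ℝ)) ^ (5/4 : ℝ) = 1 := by simp
  rw [h7, mul_one] at h5
  have h8 : T ^ (3/4 : ℝ) ≤ T := by
    calc T ^ (3/4 : ℝ) ≤ T ^ (1 : ℝ) := Real.rpow_le_rpow_of_exponent_le hT (by norm_num)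
      _ = T := Real.rpow_one T
  have h9 : C * T ^ (3/4 : ℝ) ≤ C * T := mul_le_mul_of_nonneg_left h8 hC.le
  have h10 : 0 ≤ T * Real.log T := by positivity
  have h11 : 0 ≤ C * (T * Real.log T) := by positivity
  have e : (C + 8) * T * (1 + Real.log T) = C * T + C * (T * Real.log T) + 8 * T +
    8 * (T * Real.log T) := by ring
  rw [e]
  linarith

lemma D6_norm_half (t : ℝ) : 1 / 2 ≤ ‖(-1 / 2 + t * Complex.I : ℂ)‖ := by
  have h1 := Complex.abs_re_le_norm (-1 / 2 + t * Complex.I : ℂ)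
  have h2 : (-1 / 2 + t * Complex.I : ℂ).re = -1 / 2 := by simp
  rw [h2] at h1
  have h3 : |(-1 / 2 : ℝ)| = 1 / 2 := by rw [abs_of_neg (by norm_num)]; norm_num
  rw [h3] at h1
  exact h1

lemma D6_norm_t (t : ℝ) : t ≤ ‖(-1 / 2 + t * Complex.I : ℂ)‖ := by
  have h1 := Complex.abs_im_le_norm (-1 / 2 + t * Complex.I : ℂ)
  have h2 : (-1 / 2 + t * Complex.I : ℂ).im = t := by simp
  rw [h2] at h1
  exact (le_abs_self t).trans h1

/-- the pole term in mean, weighted by `|ζ|²` -/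
theorem D6_pole {β : ℝ} (hβ : 0 < β) {φ : ℝ → ℂ} (hφ : Integrable φ)
    (hφ1 : Integrable fun u : ℝ => (u : ℂ) * φ u) {B : ℝ} (hB : 0 < B)
    (hsupp : ∀ y : ℝ, B ≤ |y| → ∫ u : ℝ, φ u * Complex.exp (-((y * u : ℝ) : ℂ) * Complex.I) = 0) :
    ∃ C : ℝ, 0 ≤ C ∧ ∀ T h : ℝ, 0 < h → 1 ≤ T → β * (B / h) ≤ min 1 β / 2 * Real.log T →
      (1 / T) * (∫ t in (0 : ℝ)..T, ‖riemannZeta (1 / 2 + t * Complex.I)‖ ^ 2 *
        ‖T28.PP φ B h t‖ ^ β) ≤ C * (1 + Real.log T) * T ^ (-(min 1 β / 4)) := by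
  obtain ⟨C2, hC2, h2⟩ := D6_second
  obtain ⟨M1, hM1⟩ : ∃ M1 : ℝ, M1 = ∫ u : ℝ, ‖(u : ℂ) * φ u‖ := ⟨_, rfl⟩
  have hM0 : 0 ≤ M1 := by rw [hM1]; exact integral_nonneg fun u => norm_nonneg _
  obtain ⟨c0, hc0⟩ : ∃ c0 : ℝ, c0 = min 1 β / 2 := ⟨_, rfl⟩
  have hc0p : 0 < c0 := by rw [hc0]; exact div_pos (lt_min one_pos hβ) (by norm_num)
  have hc01 : c0 ≤ 1 / 2 := by
    rw [hc0]
    have := min_le_left 1 β
    linarith
  have hc0β : c0 ≤ β / 2 := by
    rw [hc0]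
    have := min_le_right 1 β
    linarith
  refine ⟨2 * ((4 * B * M1) ^ β * C2), by positivity, ?_⟩
  intro T h hh hT hs
  rw [← hc0] at hs
  have hTp : 0 < T := by linarith
  have hlT : 0 ≤ Real.log T := Real.log_nonneg hT
  obtain ⟨R, hR⟩ : ∃ R, R = T ^ (1/2 : ℝ) := ⟨_, rfl⟩
  have hR1 : 1 ≤ R := by rw [hR]; exact Real.one_le_rpow hT (by norm_num)
  have hRT : R ≤ T := by
    rw [hR]
    calc T ^ (1/2 : ℝ) ≤ T ^ (1 : ℝ) := Real.rpow_le_rpow_of_exponent_le hT (by norm_num)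
      _ = T := Real.rpow_one T
  have hlR : Real.log R ≤ Real.log T := Real.log_le_log (by linarith) hRT
  have hE : Real.exp (B / (2 * h)) ^ β ≤ T ^ (c0 / 2) := by
    rw [← Real.exp_mul, Real.rpow_def_of_pos hTp, Real.exp_le_exp]
    have e1 : B / (2 * h) * β = (β * (B / h)) / 2 := by field_simp
    rw [e1]
    linarith
  obtain ⟨Z, hZ⟩ : ∃ Z : ℝ → ℝ, Z = fun t : ℝ => ‖riemannZeta (1 / 2 + t * Complex.I)‖ ^ 2 := ⟨_, rfl⟩
  have hZc : Continuous Z := by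
    rw [hZ]
    exact LibZM.continuous_zeta_crit.norm.pow 2
  have hZ0 : ∀ t, 0 ≤ Z t := by intro t; rw [hZ]; positivity
  have hPc : Continuous fun t => ‖T28.PP φ B h t‖ ^ β :=
    (T28.continuous_PP hφ B h).norm.rpow_const fun t => Or.inr hβ.le
  have hFc : Continuous fun t => Z t * ‖T28.PP φ B h t‖ ^ β := hZc.mul hPc
  have hb : ∀ t, ‖T28.PP φ B h t‖ ≤
      2 * B * M1 * Real.exp (B / (2 * h)) / ‖(-1 / 2 + t * Complex.I : ℂ)‖ := by
    intro t
    rw [hM1]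
    exact pole_term_le hφ hφ1 hB hsupp hh t
  have hb1 : ∀ t, ‖T28.PP φ B h t‖ ^ β ≤ (4 * B * M1) ^ β * T ^ (c0 / 2) := by
    intro t
    have h3 : ‖T28.PP φ B h t‖ ≤ 4 * B * M1 * Real.exp (B / (2 * h)) := by
      refine (hb t).trans ?_
      rw [div_le_iff₀ (lt_of_lt_of_le (by norm_num) (D6_norm_half t))]
      have h4 := D6_norm_half t
      have h5 : 0 ≤ 4 * B * M1 * Real.exp (B / (2 * h)) := by positivity
      nlinarith
    calc ‖T28.PP φ B h t‖ ^ β ≤ (4 * B * M1 * Real.exp (B / (2 * h))) ^ β :=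
          Real.rpow_le_rpow (norm_nonneg _) h3 hβ.le
      _ = (4 * B * M1) ^ β * Real.exp (B / (2 * h)) ^ β :=
          Real.mul_rpow (by positivity) (Real.exp_pos _).le
      _ ≤ _ := mul_le_mul_of_nonneg_left hE (by positivity)
  have hb2 : ∀ t, R ≤ t → ‖T28.PP φ B h t‖ ^ β ≤ (4 * B * M1) ^ β * T ^ (c0 / 2) * T ^ (-(β / 2)) := by
    intro t ht
    have h3 : ‖T28.PP φ B h t‖ ≤ 4 * B * M1 * Real.exp (B / (2 * h)) * R⁻¹ := by
      refine (hb t).trans ?_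
      have h4 := (ht.trans (D6_norm_t t))
      have h5 : 0 ≤ 2 * B * M1 * Real.exp (B / (2 * h)) := by positivity
      calc 2 * B * M1 * Real.exp (B / (2 * h)) / ‖(-1 / 2 + t * Complex.I : ℂ)‖ ≤
            2 * B * M1 * Real.exp (B / (2 * h)) / R :=
            div_le_div_of_nonneg_left h5 (by linarith) h4
        _ = 2 * B * M1 * Real.exp (B / (2 * h)) * R⁻¹ := div_eq_mul_inv _ _
        _ ≤ 4 * B * M1 * Real.exp (B / (2 * h)) * R⁻¹ := by
            refine mul_le_mul_of_nonneg_right ?_ (by positivity)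
            have : 4 * B * M1 * Real.exp (B / (2 * h)) =
              2 * (2 * B * M1 * Real.exp (B / (2 * h))) := by ring
            linarith
    have h6 : R⁻¹ ^ β = T ^ (-(β / 2)) := by
      rw [hR, ← Real.rpow_neg hTp.le, ← Real.rpow_mul hTp.le]
      congr 1
      ring
    calc ‖T28.PP φ B h t‖ ^ β ≤ (4 * B * M1 * Real.exp (B / (2 * h)) * R⁻¹) ^ β :=
          Real.rpow_le_rpow (norm_nonneg _) h3 hβ.le
      _ = (4 * B * M1) ^ β * Real.exp (B / (2 * h)) ^ β * R⁻¹ ^ β := by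
          rw [Real.mul_rpow (by positivity) (by positivity),
            Real.mul_rpow (by positivity) (Real.exp_pos _).le]
      _ ≤ (4 * B * M1) ^ β * T ^ (c0 / 2) * R⁻¹ ^ β := by
          refine mul_le_mul_of_nonneg_right ?_ (by positivity)
          exact mul_le_mul_of_nonneg_left hE (by positivity)
      _ = _ := by rw [h6]
  obtain ⟨Q, hQ⟩ : ∃ Q, Q = (4 * B * M1) ^ β * T ^ (c0 / 2) := ⟨_, rfl⟩
  have hQ0 : 0 ≤ Q := by rw [hQ]; positivity
  rw [← hQ] at hb1 hb2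
  have hTβ : 0 ≤ T ^ (-(β / 2)) := by positivity
  have i1 : ∫ t in (0 : ℝ)..R, Z t * ‖T28.PP φ B h t‖ ^ β ≤ Q * (C2 * R * (1 + Real.log T)) := by
    have h3 : ∫ t in (0 : ℝ)..R, Z t * ‖T28.PP φ B h t‖ ^ β ≤ ∫ t in (0 : ℝ)..R, Q * Z t := by
      refine intervalIntegral.integral_mono_on (by linarith) (hFc.intervalIntegrable _ _)
        ((hZc.const_mul Q).intervalIntegrable _ _) fun t _ => ?_
      rw [mul_comm]
      exact mul_le_mul_of_nonneg_right (hb1 t) (hZ0 t)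
    rw [intervalIntegral.integral_const_mul] at h3
    have h4 := h2 R hR1
    have h5 : ∫ t in (0 : ℝ)..R, Z t ≤ C2 * R * (1 + Real.log T) := by
      rw [hZ]
      refine h4.trans (mul_le_mul_of_nonneg_left (by linarith) (by positivity))
    exact h3.trans (mul_le_mul_of_nonneg_left h5 hQ0)
  have i2 : ∫ t in R..T, Z t * ‖T28.PP φ B h t‖ ^ β ≤
      Q * T ^ (-(β / 2)) * (C2 * T * (1 + Real.log T)) := by
    have h3 : ∫ t in R..T, Z t * ‖T28.PP φ B h t‖ ^ β ≤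
        ∫ t in R..T, (Q * T ^ (-(β / 2))) * Z t := by
      refine intervalIntegral.integral_mono_on hRT (hFc.intervalIntegrable _ _)
        ((hZc.const_mul _).intervalIntegrable _ _) fun t ht => ?_
      rw [mul_comm]
      exact mul_le_mul_of_nonneg_right (hb2 t ht.1) (hZ0 t)
    rw [intervalIntegral.integral_const_mul] at h3
    have h4 := h2 T hT
    have h5 : ∫ t in R..T, Z t ≤ ∫ t in (0 : ℝ)..T, Z t := by
      rw [← intervalIntegral.integral_add_adjacent_intervals (hZc.intervalIntegrable 0 R)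
        (hZc.intervalIntegrable R T)]
      have : 0 ≤ ∫ t in (0 : ℝ)..R, Z t :=
        intervalIntegral.integral_nonneg (by linarith) fun t _ => hZ0 t
      linarith
    have h6 : ∫ t in (0 : ℝ)..T, Z t ≤ C2 * T * (1 + Real.log T) := by
      rw [hZ]; exact h4
    exact h3.trans (mul_le_mul_of_nonneg_left (h5.trans h6) (by positivity))
  have i3 : ∫ t in (0 : ℝ)..T, Z t * ‖T28.PP φ B h t‖ ^ β =
      (∫ t in (0 : ℝ)..R, Z t * ‖T28.PP φ B h t‖ ^ β) +
        ∫ t in R..T, Z t * ‖T28.PP φ B h t‖ ^ β :=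
    (intervalIntegral.integral_add_adjacent_intervals (hFc.intervalIntegrable _ _)
      (hFc.intervalIntegrable _ _)).symm
  have hgoal : (∫ t in (0 : ℝ)..T, ‖riemannZeta (1 / 2 + t * Complex.I)‖ ^ 2 *
        ‖T28.PP φ B h t‖ ^ β) = ∫ t in (0 : ℝ)..T, Z t * ‖T28.PP φ B h t‖ ^ β := by rw [hZ]
  rw [hgoal, i3]
  have e4 : min 1 β / 4 = c0 / 2 := by rw [hc0]; ring
  rw [e4]
  have p1 : T ^ (c0 / 2) * T ^ (-(1/2) : ℝ) ≤ T ^ (-(c0 / 2)) := by
    rw [← Real.rpow_add hTp]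
    refine Real.rpow_le_rpow_of_exponent_le hT ?_
    linarith
  have p2 : T ^ (c0 / 2) * T ^ (-(β / 2)) ≤ T ^ (-(c0 / 2)) := by
    rw [← Real.rpow_add hTp]
    refine Real.rpow_le_rpow_of_exponent_le hT ?_
    linarith
  have hRinv : 1 / T * R = T ^ (-(1/2) : ℝ) := by
    rw [hR, one_div, ← Real.rpow_neg_one, ← Real.rpow_add hTp]
    norm_num
  calc 1 / T * ((∫ t in (0 : ℝ)..R, Z t * ‖T28.PP φ B h t‖ ^ β) +
        ∫ t in R..T, Z t * ‖T28.PP φ B h t‖ ^ β) ≤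
        1 / T * (Q * (C2 * R * (1 + Real.log T)) +
          Q * T ^ (-(β / 2)) * (C2 * T * (1 + Real.log T))) :=
        mul_le_mul_of_nonneg_left (add_le_add i1 i2) (by positivity)
    _ = (4 * B * M1) ^ β * C2 * (1 + Real.log T) * (T ^ (c0 / 2) * (1 / T * R)) +
        (4 * B * M1) ^ β * C2 * (1 + Real.log T) * (T ^ (c0 / 2) * T ^ (-(β / 2))) := by
        rw [hQ]
        field_simp
    _ ≤ (4 * B * M1) ^ β * C2 * (1 + Real.log T) * T ^ (-(c0 / 2)) +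
        (4 * B * M1) ^ β * C2 * (1 + Real.log T) * T ^ (-(c0 / 2)) := by
        rw [hRinv]
        exact add_le_add (mul_le_mul_of_nonneg_left p1 (by positivity))
          (mul_le_mul_of_nonneg_left p2 (by positivity))
    _ = _ := by ring

end Pool.Agent.LibTG78
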