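import Mathlib
import Pool.Agent.LibTG78.Defs
import Pool.Agent.LibTG78.D5b
import Pool.Agent.LibTG78.D6a
import Pool.Agent.LibTG78.BAll
import Pool.Agent.LibTG78.C2
import Pool.Agent.LibTG78.C4
import Pool.Agent.LibTG78.C5

/-! Block D: the final theorem -/

set_option autoImplicit false

namespace Pool.Agent.LibTG78

open MeasureTheory Filter Topology Pool.Agent.LibMM99
open scoped ComplexConjugate

/-- the uniform asymptotic formula with the constant of the model -/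
theorem D6_unif {β : ℝ} (hβ : 0 < β) {φ : ℝ → ℂ} (hφ : Integrable φ)
    (hφ1 : Integrable fun u : ℝ => (u : ℂ) * φ u) (hone : ∫ u : ℝ, φ u = 1) {B : ℝ} (hB : 0 < B)
    (hsupp : ∀ y : ℝ, B ≤ |y| → ∫ u : ℝ, φ u * Complex.exp (-((y * u : ℝ) : ℂ) * Complex.I) = 0) :
    ∃ C : ℝ, 0 < C ∧
      Tendsto (fun L : ℝ => (∫ x, ‖SS (T28.wt φ B) L x‖ ^ β ∂(nu 0 L)) / L ^ gam β) atTop (𝓝 C) ∧
      ∀ ε : ℝ, 0 < ε → ∃ A : ℝ, 0 < A ∧ ∀ T h : ℝ, 0 < h → h ≤ 1 / A → A ≤ h * Real.log T → 0 < T →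
      |h ^ gam β * (Real.log T)⁻¹ * ((1 / T) * ∫ t in (0 : ℝ)..T, ‖riemannZeta (1 / 2 + t * Complex.I)‖ ^ 2 *
        ‖∫ u : ℝ, riemannZeta (1 / 2 + ((t + h * u : ℝ) : ℂ) * Complex.I) * φ u‖ ^ β) -
        C * B ^ gam β| < ε := by
  have hw := T28.isWeight_wt hφ hφ1 hone hB hsupp
  obtain ⟨C, hClim, hCT⟩ := weighted_nu hβ hw
  obtain ⟨c, L1, hc, hL1, hlow⟩ := lower_bound_nu hβ (max 1 (B * ∫ u : ℝ, ‖(u : ℂ) * φ u‖))
  have hg := D5_gam_pos hβ
  obtain ⟨κ, hκ⟩ : ∃ κ, κ = gam β := ⟨_, rfl⟩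
  rw [← hκ] at hClim hCT hlow hg ⊢
  have hCpos : 0 < C := by
    refine lt_of_lt_of_le hc (ge_of_tendsto hClim ?_)
    filter_upwards [eventually_ge_atTop L1] with L hL
    have hL0 : 0 < L := by linarith
    rw [le_div_iff₀ (Real.rpow_pos_of_pos hL0 _)]
    exact hlow _ hw L hL
  refine ⟨C, hCpos, hClim, fun ε' hε' => ?_⟩
  have hBκ : 0 < B ^ κ := Real.rpow_pos_of_pos hB _
  obtain ⟨ε, hεdef⟩ : ∃ ε, ε = ε' / B ^ κ := ⟨_, rfl⟩
  have hε : 0 < ε := by rw [hεdef]; positivity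
  obtain ⟨ε1, hε1⟩ : ∃ ε1, ε1 = min 1 (ε / 4) := ⟨_, rfl⟩
  have hε10 : 0 < ε1 := by rw [hε1]; exact lt_min one_pos (by linarith)
  have hε11 : ε1 ≤ 1 := by rw [hε1]; exact min_le_left _ _
  have hε14 : ε1 ≤ ε / 4 := by rw [hε1]; exact min_le_right _ _
  obtain ⟨η, hη⟩ : ∃ η, η = ε / (4 * (C + 1)) := ⟨_, rfl⟩
  have hη0 : 0 < η := by rw [hη]; positivity
  obtain ⟨Cη, hCη, hdiff⟩ := pow_diff hβ hη0
  obtain ⟨θ, L0, hθ, hL0, hmain⟩ := hCT ε1 hε10
  obtain ⟨s, hs⟩ : ∃ s, s = min 1 β / 2 := ⟨_, rfl⟩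
  have hs0 : 0 < s := by rw [hs]; exact div_pos (lt_min one_pos hβ) (by norm_num)
  obtain ⟨G, hG0, hpole⟩ := D6_pole hβ hφ hφ1 hB hsupp
  have hs4 : min 1 β / 4 = s / 2 := by rw [hs]; ring
  have hsmall : Tendsto (fun T : ℝ => Cη * (2 * G * T ^ (-(s / 2)))) atTop (𝓝 0) := by
    have h1 : Tendsto (fun T : ℝ => T ^ (-(s / 2))) atTop (𝓝 0) :=
      tendsto_rpow_neg_atTop (by positivity)
    have h2 := (h1.const_mul (2 * G)).const_mul Cη
    simpa using h2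
  have hsm : ∀ᶠ T in atTop, Cη * (2 * G * T ^ (-(s / 2))) < ε1 := hsmall.eventually (gt_mem_nhds hε10)
  obtain ⟨T1, hT1ev⟩ := eventually_atTop.1 (hsm.and (eventually_ge_atTop (1 : ℝ)))
  obtain ⟨A1, hA1⟩ : ∃ A1 : ℝ, A1 = max (max (L0 / B) 1) (max (max (B / θ) (β * B / s)) (max T1 1)) :=
    ⟨_, rfl⟩
  have hA11 : 1 ≤ A1 := by rw [hA1]; exact (le_max_right _ _).trans (le_max_left _ _)
  have hA1L : L0 / B ≤ A1 := by rw [hA1]; exact (le_max_left _ _).trans (le_max_left _ _)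
  have hA1θ : B / θ ≤ A1 := by
    rw [hA1]; exact ((le_max_left _ _).trans (le_max_left _ _)).trans (le_max_right _ _)
  have hA1s : β * B / s ≤ A1 := by
    rw [hA1]; exact ((le_max_right _ _).trans (le_max_left _ _)).trans (le_max_right _ _)
  have hA1T : max T1 1 ≤ A1 := by rw [hA1]; exact (le_max_right _ _).trans (le_max_right _ _)
  refine ⟨A1, by linarith, fun T h hT hhA hTA hT0 => ?_⟩
  have hh1 : h ≤ 1 := hhA.trans (by rw [div_le_one (by linarith)]; exact hA11)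
  have hinv : A1 ≤ 1 / h := by
    rw [le_div_iff₀ hT]
    rw [le_div_iff₀ (by linarith)] at hhA
    linarith
  obtain ⟨L, hL⟩ : ∃ L, L = B / h := ⟨_, rfl⟩
  have hTL : L0 ≤ L := by
    have h1 : L0 / B ≤ 1 / h := hA1L.trans hinv
    rw [div_le_iff₀ hB] at h1
    calc L0 ≤ 1 / h * B := h1
      _ = L := by rw [hL]; ring
  have hTθ : B / θ ≤ h * Real.log T := hA1θ.trans hTA
  have hTs : β * B / s ≤ h * Real.log T := hA1s.trans hTA
  have hlogT : max T1 1 ≤ Real.log T := by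
    have h1 : max T1 1 ≤ h * Real.log T := hA1T.trans hTA
    have h2 : 0 ≤ Real.log T := by
      by_contra hneg
      push Not at hneg
      have : h * Real.log T < 0 := mul_neg_of_pos_of_neg hT hneg
      have : (1 : ℝ) ≤ max T1 1 := le_max_right _ _
      linarith
    nlinarith
  have hlT1 : 1 ≤ Real.log T := (le_max_right _ _).trans hlogT
  have hlTp : 0 < Real.log T := by linarith
  have hTT1 : T1 ≤ T := by
    have h1 := Real.log_le_sub_one_of_pos hT0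
    have h2 := le_max_left T1 1
    linarith
  obtain ⟨hTsm, hT1⟩ := hT1ev T hTT1
  have hL1' : 1 ≤ L := hL0.trans hTL
  have hLpos : 0 < L := by linarith
  have hLκ : 1 ≤ L ^ κ := Real.one_le_rpow hL1' hg.le
  have hLθ : L ≤ θ * Real.log T := by
    rw [hL, div_le_iff₀ hT]
    rw [div_le_iff₀ hθ] at hTθ
    linarith
  have hLs : β * (B / h) ≤ min 1 β / 2 * Real.log T := by
    rw [← hs]
    rw [div_le_iff₀ hs0] at hTs
    rw [← mul_div_assoc, div_le_iff₀ hT]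
    linarith
  obtain ⟨Y, hY⟩ : ∃ Y : ℝ → ℝ, Y = fun t : ℝ => ‖riemannZeta (1 / 2 + t * Complex.I)‖ ^ 2 := ⟨_, rfl⟩
  have hYc : Continuous Y := by
    rw [hY]
    exact LibZM.continuous_zeta_crit.norm.pow 2
  have hY0 : ∀ t, 0 ≤ Y t := by intro t; rw [hY]; positivity
  have hA := hmain L T hTL hT1 hLθ
  have hP := hpole T h hT hT1 hLs
  rw [hs4] at hP
  have hSD : ∀ t, SS (T28.wt φ B) L (xt t) = T28.DD φ B L t := fun t => SS_xt _ _ _
  obtain ⟨A, hAdef⟩ : ∃ A, A = (1 / T) * ∫ t in (0 : ℝ)..T, Y t * ‖T28.DD φ B L t‖ ^ β := ⟨_, rfl⟩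
  have hA' : |A - C * L ^ κ * Real.log T| ≤ ε1 * L ^ κ * Real.log T := by
    rw [hAdef, hY]
    simp only [← hSD]
    exact hA
  obtain ⟨P, hPdef⟩ : ∃ P, P = (1 / T) * ∫ t in (0 : ℝ)..T, Y t * ‖T28.PP φ B h t‖ ^ β := ⟨_, rfl⟩
  have hP' : P ≤ G * (1 + Real.log T) * T ^ (-(s / 2)) := by
    rw [hPdef, hY]
    exact hP
  obtain ⟨Z, hZ⟩ : ∃ Z, Z = (1 / T) * ∫ t in (0 : ℝ)..T, Y t *
        ‖∫ u : ℝ, riemannZeta (1 / 2 + ((t + h * u : ℝ) : ℂ) * Complex.I) * φ u‖ ^ β := ⟨_, rfl⟩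
  have hZA : |Z - A| ≤ η * A + Cη * P := by
    have e1 : Z = (1 / T) * ∫ t in (0 : ℝ)..T, Y t * ‖T28.DD φ B L t + -(T28.PP φ B h t)‖ ^ β := by
      rw [hZ]
      congr 1
      refine intervalIntegral.integral_congr fun t _ => ?_
      beta_reduce
      rw [T28.zeta_avg hφ hφ1 hB hsupp hT t, hL]
    have c1 : Continuous (fun t => Y t * ‖T28.DD φ B L t + -(T28.PP φ B h t)‖ ^ β) :=
      hYc.mul (((T28.continuous_DD φ B L).add (T28.continuous_PP hφ B h).neg).norm.rpow_const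
        fun t => Or.inr hβ.le)
    have c2 : Continuous (fun t => Y t * ‖T28.DD φ B L t‖ ^ β) :=
      hYc.mul ((T28.continuous_DD φ B L).norm.rpow_const fun t => Or.inr hβ.le)
    have c3 : Continuous (fun t => Y t * ‖T28.PP φ B h t‖ ^ β) :=
      hYc.mul ((T28.continuous_PP hφ B h).norm.rpow_const fun t => Or.inr hβ.le)
    have e2 : Z - A = (1 / T) * ∫ t in (0 : ℝ)..T, (Y t * ‖T28.DD φ B L t + -(T28.PP φ B h t)‖ ^ β -
        Y t * ‖T28.DD φ B L t‖ ^ β) := by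
      rw [e1, hAdef, ← mul_sub, ← intervalIntegral.integral_sub (c1.intervalIntegrable _ _)
        (c2.intervalIntegrable _ _)]
    rw [e2, abs_mul, abs_of_pos (by positivity : 0 < 1 / T)]
    have h1 : |∫ t in (0 : ℝ)..T, (Y t * ‖T28.DD φ B L t + -(T28.PP φ B h t)‖ ^ β -
        Y t * ‖T28.DD φ B L t‖ ^ β)| ≤
        ∫ t in (0 : ℝ)..T, (η * (Y t * ‖T28.DD φ B L t‖ ^ β) +
          Cη * (Y t * ‖T28.PP φ B h t‖ ^ β)) := by
      rw [← Real.norm_eq_abs]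
      refine intervalIntegral.norm_integral_le_of_norm_le hT0.le
        (Eventually.of_forall fun t _ => ?_)
        (((c2.const_mul η).add (c3.const_mul Cη)).intervalIntegrable _ _)
      rw [Real.norm_eq_abs, ← mul_sub, abs_mul, abs_of_nonneg (hY0 t)]
      have h2 := hdiff (T28.DD φ B L t) (-(T28.PP φ B h t))
      rw [norm_neg] at h2
      calc Y t * |‖T28.DD φ B L t + -(T28.PP φ B h t)‖ ^ β - ‖T28.DD φ B L t‖ ^ β| ≤
            Y t * (η * ‖T28.DD φ B L t‖ ^ β + Cη * ‖T28.PP φ B h t‖ ^ β) :=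
            mul_le_mul_of_nonneg_left h2 (hY0 t)
        _ = _ := by ring
    rw [intervalIntegral.integral_add ((c2.const_mul η).intervalIntegrable _ _)
      ((c3.const_mul Cη).intervalIntegrable _ _), intervalIntegral.integral_const_mul,
      intervalIntegral.integral_const_mul] at h1
    calc (1 / T) * _ ≤ (1 / T) * _ := mul_le_mul_of_nonneg_left h1 (by positivity)
      _ = η * A + Cη * P := by rw [hAdef, hPdef]; ring
  obtain ⟨D, hD⟩ : ∃ D, D = L ^ κ * Real.log T := ⟨_, rfl⟩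
  have hD1 : 1 ≤ D := by rw [hD]; nlinarith
  have hlD : Real.log T ≤ D := by rw [hD]; nlinarith
  have hA2 : |A - C * D| ≤ ε1 * D := by
    rw [hD, ← mul_assoc, ← mul_assoc]
    exact hA'
  have hAle : A ≤ (C + 1) * D := by
    have := (abs_le.mp hA2).2
    have h2 : ε1 * D ≤ 1 * D := mul_le_mul_of_nonneg_right hε11 (by linarith)
    linarith
  have hηA : η * A ≤ ε / 4 * D := by
    calc η * A ≤ η * ((C + 1) * D) := mul_le_mul_of_nonneg_left hAle hη0.le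
      _ = ε / 4 * D := by
        rw [hη]
        have : C + 1 ≠ 0 := by linarith
        field_simp
  have hCP : Cη * P ≤ ε / 4 * D := by
    have h1 : G * (1 + Real.log T) * T ^ (-(s / 2)) ≤ 2 * G * T ^ (-(s / 2)) * Real.log T := by
      have h2 : G * (1 + Real.log T) ≤ G * (2 * Real.log T) :=
        mul_le_mul_of_nonneg_left (by linarith) hG0
      calc G * (1 + Real.log T) * T ^ (-(s / 2)) ≤ G * (2 * Real.log T) * T ^ (-(s / 2)) :=
            mul_le_mul_of_nonneg_right h2 (by positivity)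
        _ = _ := by ring
    calc Cη * P ≤ Cη * (2 * G * T ^ (-(s / 2)) * Real.log T) :=
          mul_le_mul_of_nonneg_left (hP'.trans h1) hCη.le
      _ = (Cη * (2 * G * T ^ (-(s / 2)))) * Real.log T := by ring
      _ ≤ ε1 * Real.log T := mul_le_mul_of_nonneg_right hTsm.le hlTp.le
      _ ≤ ε / 4 * Real.log T := mul_le_mul_of_nonneg_right hε14 hlTp.le
      _ ≤ ε / 4 * D := mul_le_mul_of_nonneg_left hlD (by linarith)
  have hA'' : |A - C * D| ≤ ε / 4 * D :=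
    hA2.trans (mul_le_mul_of_nonneg_right hε14 (by linarith))
  have hfin : |Z - C * D| ≤ 3 * (ε / 4) * D := by
    have h1 : Z - C * D = (Z - A) + (A - C * D) := by ring
    rw [h1]
    refine (abs_add_le _ _).trans ?_
    have h2 : 3 * (ε / 4) * D = ε / 4 * D + ε / 4 * D + ε / 4 * D := by ring
    rw [h2]
    linarith
  have hD0 : 0 < D := by linarith
  have hkey : |Z / D - C| < ε := by
    have h1 : Z / D - C = (Z - C * D) / D := by field_simp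
    rw [h1, abs_div, abs_of_pos hD0, div_lt_iff₀ hD0]
    refine hfin.trans_lt ?_
    refine mul_lt_mul_of_pos_right ?_ hD0
    linarith
  have h2 : L ^ κ = B ^ κ / h ^ κ := by
    rw [hL]
    exact Real.div_rpow hB.le hT.le _
  have h4 : 0 < h ^ κ := Real.rpow_pos_of_pos hT _
  have h5 : h ^ κ * (Real.log T)⁻¹ * Z - C * B ^ κ = B ^ κ * (Z / D - C) := by
    rw [hD, h2]
    field_simp
  have hgoal : (1 / T) * (∫ t in (0 : ℝ)..T, ‖riemannZeta (1 / 2 + t * Complex.I)‖ ^ 2 *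
        ‖∫ u : ℝ, riemannZeta (1 / 2 + ((t + h * u : ℝ) : ℂ) * Complex.I) * φ u‖ ^ β) = Z := by
    rw [hZ, hY]
  rw [hgoal, h5, abs_mul, abs_of_pos hBκ]
  calc B ^ κ * |Z / D - C| < B ^ κ * ε := mul_lt_mul_of_pos_left hkey hBκ
    _ = ε' := by rw [hεdef]; field_simp

/-- D6: the final theorem of the library -/
theorem two_factors {β : ℝ} (hβ : 0 < β) {φ : ℝ → ℂ} (hφ : Integrable φ)
    (hφ1 : Integrable fun u : ℝ => (u : ℂ) * φ u) (hone : ∫ u : ℝ, φ u = 1) {B : ℝ} (hB : 0 < B)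
    (hsupp : ∀ y : ℝ, B ≤ |y| → ∫ u : ℝ, φ u * Complex.exp (-((y * u : ℝ) : ℂ) * Complex.I) = 0) :
    ∃ (G : ℝ) (g : ℝ → ℝ), 0 < G ∧
      (∀ δ : ℝ, 0 < δ → δ < 1 → Tendsto (fun M : ℕ => gaussT β (T28.wt φ B) δ M) atTop (𝓝 (g δ))) ∧
      Tendsto (fun δ : ℝ => Real.exp (Real.eulerMascheroniConstant * gam β) * (B * δ) ^ gam β * g δ)
        (𝓝[>] 0) (𝓝 G) ∧
      ∀ ε : ℝ, 0 < ε → ∃ A : ℝ, 0 < A ∧ ∀ T h : ℝ, 0 < h → h ≤ 1 / A → A ≤ h * Real.log T → 0 < T →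
      |h ^ gam β * (Real.log T)⁻¹ * ((1 / T) * ∫ t in (0 : ℝ)..T, ‖riemannZeta (1 / 2 + t * Complex.I)‖ ^ 2 *
        ‖∫ u : ℝ, riemannZeta (1 / 2 + ((t + h * u : ℝ) : ℂ) * Complex.I) * φ u‖ ^ β) -
        LibZM.Aconst ((β + 2) / 2) * G| < ε := by
  obtain ⟨C, hC, hlim, hmain⟩ := D6_unif hβ hφ hφ1 hone hB hsupp
  have hw := T28.isWeight_wt hφ hφ1 hone hB hsupp
  have htop : ∀ δ : ℝ, ∃ l : ℝ, 0 < δ → δ < 1 →
      Tendsto (fun L : ℝ => ∫ x, ‖Atop (T28.wt φ B) δ L x‖ ^ β ∂(nu 0 L)) atTop (𝓝 l) ∧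
      Tendsto (fun M : ℕ => gaussT β (T28.wt φ B) δ M) atTop (𝓝 l) := by
    intro δ
    by_cases h : 0 < δ ∧ δ < 1
    · obtain ⟨l, h1, h2⟩ := top_limit_nu hβ h.1 h.2 hw
      exact ⟨l, fun _ _ => ⟨h1, h2⟩⟩
    · exact ⟨0, fun h1 h2 => absurd ⟨h1, h2⟩ h⟩
  choose g hgl using htop
  have ha : 0 < LibZM.Aconst ((β + 2) / 2) := LibZM.Aconst_pos (by positivity)
  have hf := limit_formula_nu hβ hw hlim (l := g) (fun δ h1 h2 => (hgl δ h1 h2).1)
  have hBκ : 0 < B ^ gam β := Real.rpow_pos_of_pos hB _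
  refine ⟨C * B ^ gam β / LibZM.Aconst ((β + 2) / 2), g, by positivity,
    fun δ h1 h2 => (hgl δ h1 h2).2, ?_, ?_⟩
  · have h1 := (hf.mul_const (B ^ gam β)).div_const (LibZM.Aconst ((β + 2) / 2))
    refine h1.congr' ?_
    filter_upwards [self_mem_nhdsWithin] with δ hδ
    have hδ0 : (0 : ℝ) < δ := hδ
    rw [Real.mul_rpow hB.le hδ0.le]
    field_simp
  · intro ε hε
    obtain ⟨A, hA, h⟩ := hmain ε hε
    refine ⟨A, hA, fun T h' h1 h2 h3 h4 => ?_⟩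
    have h5 := h T h' h1 h2 h3 h4
    have h6 : LibZM.Aconst ((β + 2) / 2) * (C * B ^ gam β / LibZM.Aconst ((β + 2) / 2)) =
        C * B ^ gam β := by
      field_simp
    rw [h6]
    exact h5

end Pool.Agent.LibTG78
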